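import Pool.Agent.H17.GBound

/-!
# GLK: the Selberg denominator in dimension `k`

Generalisation of `G1_lower` and `G_compare` of `Pool/Agent/H17/GBound.lean` from `3` to `k`.

* `Hs_pow`: with `Φ₀ = one1` and `Φ_{j+1} = Hs Φ_j`: `(log v)^j / j! ≤ Φ_j ⌊v⌋₊` for `v ≥ 1` (induction on `j`
  with `Hs_log`, `c = 1/j!`).
* `GK_lower`: put `g p = 1/(p-1)` and `g_j p = (1 + g p)^j - 1`; `g_{j+1} = g + g_j + g g_j`. By `Hs_le_Op`
  and `Op_comp` (see the proof of `G1_lower`), by induction on `j` for all `u ≤ ⌊v⌋₊`: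
  `Φ_j u ≤ Op S g_j one1 u` (step: `Φ_{j+1} u = Hs Φ_j u ≤ Hs (Op S g_j one1) u ≤ Op S g (Op S g_j one1) u
  ≤ Op S g_{j+1} one1 u`; for `j = 0`: `g_0 = 0` and `Op S 0 one1 u = one1 u`).
* `GK_compare`: as `G_compare`, with `(log v)^k / k!` and `hwK k` instead of `(log v)^3/6` and `h1w`.
-/

set_option autoImplicit false

open Filter Topology

namespace Pool.Agent.H6.MF

open Pool.Agent.H17

/-- the weight `(1-1/p)^{-k} - 1` -/
noncomputable def hwK (k p : ℕ) : ℝ := (1 + 1 / ((p : ℝ) - 1)) ^ k - 1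

theorem hwK_nonneg (k : ℕ) {p : ℕ} (hp : p.Prime) : 0 ≤ hwK k p := by
  have : (2 : ℝ) ≤ p := by exact_mod_cast hp.two_le
  have h2 : (0 : ℝ) < (p : ℝ) - 1 := by linarith
  unfold hwK
  have h3 : 0 ≤ 1 / ((p : ℝ) - 1) := by positivity
  have h4 : (1 : ℝ) ≤ (1 + 1 / ((p : ℝ) - 1)) ^ k := one_le_pow₀ (by linarith)
  linarith

/-- iterated harmonic sums -/
noncomputable def GLK_Phi : ℕ → ℕ → ℝ
  | 0 => one1
  | j + 1 => Hs (GLK_Phi j)

theorem GLK_pow (j : ℕ) : ∀ v : ℝ, 1 ≤ v →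
    1 / (Nat.factorial j : ℝ) * (Real.log v) ^ j ≤ GLK_Phi j ⌊v⌋₊ := by
  induction j with
  | zero =>
    intro v hv
    simp only [GLK_Phi, one1]
    rw [if_pos (Nat.le_floor (by exact_mod_cast hv))]
    simp
  | succ j ih =>
    intro v hv
    have h := Hs_log ih (by positivity) hv
    refine le_trans (le_of_eq ?_) h
    rw [Nat.factorial_succ]
    push_cast
    rw [div_div, mul_comm ((j : ℝ) + 1)]

theorem GLK_step {S : Finset ℕ} (hS : ∀ p ∈ S, p.Prime) {v : ℝ} (hv : 1 ≤ v)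
    (hall : ∀ p : ℕ, p.Prime → (p : ℝ) ≤ v → p ∈ S) (j : ℕ) :
    ∀ u ≤ ⌊v⌋₊, GLK_Phi j u ≤ Op S (hwK j) one1 u := by
  have hg0 : ∀ p ∈ S, 0 ≤ (fun p : ℕ => 1 / ((p : ℝ) - 1)) p := by
    intro p hp
    have : (2 : ℝ) ≤ p := by exact_mod_cast (hS p hp).two_le
    have h2 : (0 : ℝ) < (p : ℝ) - 1 := by linarith
    simp only
    positivity
  have hk0 : ∀ i, ∀ p ∈ S, 0 ≤ hwK i p := fun i p hp => hwK_nonneg i (hS p hp)
  have hall' : ∀ u ≤ ⌊v⌋₊, ∀ p : ℕ, p.Prime → p ≤ u → p ∈ S := by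
    intro u hu p hp hpu
    apply hall p hp
    exact (Nat.le_floor_iff (by linarith)).mp (hpu.trans hu)
  induction j with
  | zero =>
    intro u _
    simp only [GLK_Phi]
    unfold Op
    have h1 := Finset.single_le_sum (f := fun T => (∏ p ∈ T, hwK 0 p) * one1 (u / ∏ p ∈ T, p))
      (fun T hT => mul_nonneg (Finset.prod_nonneg fun p hp => hk0 0 p (Finset.mem_powerset.1 hT hp))
        (one1_nonneg _)) (Finset.empty_mem_powerset S)
    simpa using h1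
  | succ j ih =>
    intro u hu
    simp only [GLK_Phi]
    refine (Hs_mono_arg (fun w hw => ih w (hw.trans hu))).trans ?_
    refine (Hs_le_Op hS (Op_mono (hk0 j) one1_mono) (fun w => Op_nonneg (hk0 j) one1_nonneg w)
      (hall' u hu)).trans ?_
    refine Op_comp hg0 (hk0 j) ?_ one1_mono u
    intro p _
    simp only [hwK]
    ring

theorem GK_lower (k : ℕ) {S : Finset ℕ} (hS : ∀ p ∈ S, p.Prime) {v : ℝ} (hv : 1 ≤ v)
    (hall : ∀ p : ℕ, p.Prime → (p : ℝ) ≤ v → p ∈ S) :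
    (Real.log v) ^ k / (Nat.factorial k : ℝ) ≤ Op S (hwK k) one1 ⌊v⌋₊ := by
  refine le_trans (le_of_eq ?_) ((GLK_pow k v hv).trans (GLK_step hS hv hall k _ le_rfl))
  ring

theorem GK_compare (k : ℕ) {S1 S2 : Finset ℕ} (hS1 : ∀ p ∈ S1, p.Prime) (hS2 : ∀ p ∈ S2, p.Prime)
    (hd : Disjoint S1 S2) {h : ℕ → ℝ} (h0 : ∀ p ∈ S1, 0 ≤ h p) (hge : ∀ p ∈ S2, hwK k p ≤ h p) {z : ℕ} {v : ℝ}
    (hz : v = (z : ℝ) / ((∏ p ∈ S1, p : ℕ) : ℝ)) (hv : 1 ≤ v)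
    (hall : ∀ p : ℕ, p.Prime → (p : ℝ) ≤ v → p ∈ S1 ∪ S2) :
    (∏ p ∈ S1, (1 + h p) / (1 + hwK k p)) * ((Real.log v) ^ k / (Nat.factorial k : ℝ))
      ≤ Op (S1 ∪ S2) h one1 z := by
  have hS : ∀ p ∈ S1 ∪ S2, p.Prime := by
    intro p hp
    rcases Finset.mem_union.mp hp with h | h
    · exact hS1 p h
    · exact hS2 p h
  have h1S1 : ∀ p ∈ S1, 0 ≤ hwK k p := fun p hp => hwK_nonneg k (hS1 p hp)
  have h1S2 : ∀ p ∈ S2, 0 ≤ hwK k p := fun p hp => hwK_nonneg k (hS2 p hp)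
  have hS20 : ∀ p ∈ S2, 0 ≤ h p := fun p hp => (h1S2 p hp).trans (hge p hp)
  set K : ℕ := ∏ p ∈ S1, p with hK
  have hfl : ⌊v⌋₊ = z / K := by
    rw [hz]
    rw [Nat.floor_div_natCast, Nat.floor_natCast]
  have a1 := GK_lower k hS hv hall
  rw [Op_union hd, hfl] at a1
  have mono1 : Monotone (Op S2 (hwK k) one1) := Op_mono h1S2 one1_mono
  have mono2 : Monotone (Op S2 h one1) := Op_mono hS20 one1_mono
  have a2 := Op_upper h1S1 mono1 (z / K)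
  have a3 := Op_lower hS1 h0 mono2 z
  have a4 : Op S2 (hwK k) one1 (z / K) ≤ Op S2 h one1 (z / K) := Op_weight_mono h1S2 hge one1_nonneg _
  rw [Op_union hd]
  have hP1 : 0 < ∏ p ∈ S1, (1 + hwK k p) := Finset.prod_pos (fun p hp => by linarith [h1S1 p hp])
  have hP : 0 ≤ ∏ p ∈ S1, (1 + h p) := Finset.prod_nonneg (fun p hp => by linarith [h0 p hp])
  rw [Finset.prod_div_distrib]
  have a5 : Real.log v ^ k / (Nat.factorial k : ℝ) ≤ (∏ p ∈ S1, (1 + hwK k p)) * Op S2 h one1 (z / K) := by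
    refine (a1.trans a2).trans ?_
    gcongr
  calc (∏ p ∈ S1, (1 + h p)) / (∏ p ∈ S1, (1 + hwK k p)) * (Real.log v ^ k / (Nat.factorial k : ℝ))
      ≤ (∏ p ∈ S1, (1 + h p)) / (∏ p ∈ S1, (1 + hwK k p)) *
          ((∏ p ∈ S1, (1 + hwK k p)) * Op S2 h one1 (z / K)) := by
        gcongr
    _ = (∏ p ∈ S1, (1 + h p)) * Op S2 h one1 (z / K) := by field_simp
    _ ≤ _ := a3

end Pool.Agent.H6.MF
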