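import Pool.Agent.H6.MF.SNL

/-!
# SNG: the singular series

Let `k = H.card`. (Compare `Pool/Agent/H17/Sing.lean` and `Pool/Agent/H17/UpperMain.lean`, where the same
is done for triples: `multipliable_locf`, `sing3_nonneg`, `sing3_ne_zero_iff`, `c0_le_sing3`,
`prod_locf_le`, `sum_inv_sq_le`, `one_sub_sum_le_prod`; these general lemmas may be imported.)

* `loc_nonneg`, `loc_pos`: `nuH H p ≤ p` resp. `< p`.
* `loc_le_one`: Bernoulli `(1 - 1/p)^k ≥ 1 - k/p`.
* `loc_ge`: if `p ≥ 2 k`: `nuH ≤ k`, so `loc H p ≥ (1 - k/p) / (1 - 1/p)^k`; and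
  `(1-1/p)^k ≤ 1 - k/p + k^2/(2 p^2)` (Taylor/binomial, or induction on `k`), so with `1 - k/p ≥ 1/2` the
  quotient is `≥ 1 - (k^2/(2p^2))/(1 - k/p + k^2/(2p^2)) ≥ 1 - k^2/p^2`.
  (For `k = 0` everything is trivial: `loc = 1`.)
* `multipliable_loc`: for all `p` not dividing `∏_{h ≠ h'} (h - h')` (all but finitely many) we have
  `nuH H p = k`, and then `|loc H p - 1| ≤ k^2/p^2` for `p ≥ 2k`. So `∑ |loc H p - 1| < ∞`.
* `sing_nonneg`: limit of products of nonnegative numbers.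
* `sing_ne_zero_iff`: if `H` is not admissible a factor vanishes; if it is admissible all factors are
  positive and the product of the factors over `p > y` is `≥ 1/2` for suitable `y` (`prod_loc_le`).
* `prod_loc_le`: for primes `p ∉ S`: `p > y ≥ 2k` and `nuH H p = k`, so `loc H p ≥ 1 - k^2/p^2`; the
  product of these factors over any finite set of primes `> y` is `≥ 1 - ∑_{n > y} k^2/n^2 ≥ 1 - k^2/y`.
* `sing_le_prod`: for primes `p ∉ S`: `nuH H p = k`, so `loc H p ≤ 1`.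
* `sing_lower`: for `p ≤ 2k + 1`: `loc H p ≥ 1 - nuH/p ≥ 1/p`; for `p > 2k` use `loc_ge`. So
  `sing H ≥ ∏_{p ≤ y} (1/p) · (1/2)` with `y = 2 k^2 + 2 k + 2`: apply `prod_loc_le`-like arguments with
  the lower bounds (here `nuH H p < k` is allowed for `p > y`, `loc_ge` still holds).
-/

set_option autoImplicit false

namespace Pool.Agent.H6.MF

open Finset Filter Topology

theorem SNG_one_sub {ι : Type*} (T : Finset ι) (f a : ι → ℝ) (ha0 : ∀ i ∈ T, 0 ≤ a i) (ha1 : ∀ i ∈ T, a i ≤ 1)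
    (hf : ∀ i ∈ T, 1 - a i ≤ f i) : 1 - ∑ i ∈ T, a i ≤ ∏ i ∈ T, f i := by
  classical
  induction T using Finset.induction_on with
  | empty => simp
  | insert i T hi ih =>
    rw [Finset.sum_insert hi, Finset.prod_insert hi]
    have h0 := ha0 i (Finset.mem_insert_self _ _)
    have h1 := ha1 i (Finset.mem_insert_self _ _)
    have h2 := hf i (Finset.mem_insert_self _ _)
    have ih' := ih (fun j hj => ha0 j (Finset.mem_insert_of_mem hj)) (fun j hj => ha1 j (Finset.mem_insert_of_mem hj))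
      (fun j hj => hf j (Finset.mem_insert_of_mem hj))
    have h3 : 0 ≤ ∏ j ∈ T, f j := by
      apply Finset.prod_nonneg
      intro j hj
      have := hf j (Finset.mem_insert_of_mem hj)
      have := ha1 j (Finset.mem_insert_of_mem hj)
      linarith
    have h4 : 0 ≤ ∑ j ∈ T, a j := Finset.sum_nonneg (fun j hj => ha0 j (Finset.mem_insert_of_mem hj))
    calc 1 - (a i + ∑ j ∈ T, a j) ≤ (1 - a i) * (1 - ∑ j ∈ T, a j) := by nlinarith
      _ ≤ (1 - a i) * ∏ j ∈ T, f j := by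
        apply mul_le_mul_of_nonneg_left ih' (by linarith)
      _ ≤ f i * ∏ j ∈ T, f j := by
        apply mul_le_mul_of_nonneg_right h2 h3

theorem SNG_inv_sq {K : ℝ} (hK : 0 ≤ K) {y : ℕ} (hy : 0 < y) (T : Finset ℕ) (hT : ∀ n ∈ T, y < n) :
    ∑ n ∈ T, K / (n : ℝ) ^ 2 ≤ K / (y : ℝ) := by
  have h1 : T ⊆ Finset.Ioc y (T.sup id + y) := by
    intro n hn
    rw [Finset.mem_Ioc]
    refine ⟨hT n hn, ?_⟩
    have : id n ≤ T.sup id := Finset.le_sup hn
    simp only [id] at this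
    omega
  calc ∑ n ∈ T, K / (n : ℝ) ^ 2 ≤ ∑ n ∈ Finset.Ioc y (T.sup id + y), K / (n : ℝ) ^ 2 := by
        apply Finset.sum_le_sum_of_subset_of_nonneg h1
        intro n _ _
        positivity
    _ = K * ∑ n ∈ Finset.Ioc y (T.sup id + y), ((n : ℝ) ^ 2)⁻¹ := by
        rw [Finset.mul_sum]
        apply Finset.sum_congr rfl
        intro n _
        rw [div_eq_mul_inv]
    _ ≤ K * ((y : ℝ)⁻¹ - ((T.sup id + y : ℕ) : ℝ)⁻¹) := by
        gcongr
        exact sum_Ioc_inv_sq_le_sub hy.ne' (by omega)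
    _ ≤ K / y := by
        have : (0 : ℝ) ≤ ((T.sup id + y : ℕ) : ℝ)⁻¹ := by positivity
        rw [div_eq_mul_inv]
        exact mul_le_mul_of_nonneg_left (by linarith) hK

/-- for large `p` the elements of `H` are pairwise incongruent modulo `p` -/
theorem SNG_nu (H : Finset ℤ) : ∃ Y : ℕ, ∀ p : ℕ, Y < p → nuH H p = H.card := by
  refine ⟨2 * H.sup Int.natAbs, fun p hp => ?_⟩
  unfold nuH
  apply Finset.card_image_of_injOn
  intro a ha b hb hab
  have hab' : a % (p : ℤ) = b % (p : ℤ) := hab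
  have h1 : a.natAbs ≤ H.sup Int.natAbs := Finset.le_sup (f := Int.natAbs) ha
  have h2 : b.natAbs ≤ H.sup Int.natAbs := Finset.le_sup (f := Int.natAbs) hb
  have h3 : (p : ℤ) ∣ a - b := Int.ModEq.dvd (show b ≡ a [ZMOD (p : ℤ)] from hab'.symm)
  by_contra hne
  have h4 : a - b ≠ 0 := sub_ne_zero.2 hne
  have h5 := Int.le_of_dvd (abs_pos.2 h4) ((dvd_abs _ _).2 h3)
  have h6 : |a - b| < p := by
    rw [abs_lt]
    omega
  omega

theorem SNG_summable (H : Finset ℤ) : Summable (fun p : Nat.Primes => loc H (p : ℕ) - 1) := by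
  have hs : Summable (fun p : Nat.Primes => (H.card : ℝ) ^ 2 / ((p : ℕ) : ℝ) ^ 2) := by
    have h1 : Summable (fun n : ℕ => (H.card : ℝ) ^ 2 / (n : ℝ) ^ 2) := by
      have := (Real.summable_one_div_nat_pow (p := 2)).mpr (by norm_num)
      refine (this.mul_left ((H.card : ℝ) ^ 2)).congr (fun n => ?_)
      ring
    exact h1.comp_injective (i := fun p : Nat.Primes => (p : ℕ)) Subtype.val_injective
  apply Summable.of_norm_bounded_eventually
    (g := fun p : Nat.Primes => (H.card : ℝ) ^ 2 / ((p : ℕ) : ℝ) ^ 2) hs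
  obtain ⟨Y, hY⟩ := SNG_nu H
  have hfin : {p : Nat.Primes | ¬ (max Y (2 * H.card) < (p : ℕ))}.Finite := by
    have h1 : (Set.Iic (max Y (2 * H.card)) : Set ℕ).Finite := Set.finite_Iic _
    refine (h1.preimage (f := fun p : Nat.Primes => (p : ℕ)) (Subtype.val_injective.injOn)).subset ?_
    intro p hp
    have hp' : ¬ (max Y (2 * H.card) < (p : ℕ)) := hp
    show (p : ℕ) ≤ max Y (2 * H.card)
    omega
  have hev : ∀ᶠ p : Nat.Primes in cofinite, max Y (2 * H.card) < (p : ℕ) := by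
    rw [Filter.eventually_cofinite]
    exact hfin
  filter_upwards [hev] with p hp
  have h1 : Y < (p : ℕ) := lt_of_le_of_lt (le_max_left _ _) hp
  have h2 : 2 * H.card ≤ (p : ℕ) := (lt_of_le_of_lt (le_max_right _ _) hp).le
  have h3 := loc_le_one p.2 (hY p h1)
  have h4 := loc_ge p.2 h2
  rw [Real.norm_eq_abs, abs_le]
  constructor
  · linarith
  · have : (0 : ℝ) ≤ (H.card : ℝ) ^ 2 / ((p : ℕ) : ℝ) ^ 2 := by positivity
    linarith

theorem multipliable_loc (H : Finset ℤ) : Multipliable (fun p : Nat.Primes => loc H (p : ℕ)) := by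
  have := Real.multipliable_one_add_of_summable (SNG_summable H)
  simpa using this

theorem sing_nonneg (H : Finset ℤ) : 0 ≤ sing H := by
  unfold sing
  exact ge_of_tendsto (multipliable_loc H).hasProd
    (Filter.Eventually.of_forall (fun T => Finset.prod_nonneg (fun p _ => loc_nonneg H p.2)))

/-- a finite set of primes as a set of `Nat.Primes` -/
theorem SNG_lift (S : Finset ℕ) (hS : ∀ p ∈ S, p.Prime) : ∃ S' : Finset Nat.Primes,
    (∀ q : Nat.Primes, q ∈ S' ↔ (q : ℕ) ∈ S) ∧ ∀ f : ℕ → ℝ, ∏ q ∈ S', f q = ∏ p ∈ S, f p := by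
  classical
  let e : {r // r ∈ S} → Nat.Primes := fun p => ⟨p.1, hS p.1 p.2⟩
  refine ⟨S.attach.image e, fun q => ?_, fun f => ?_⟩
  · rw [Finset.mem_image]
    constructor
    · rintro ⟨r, _, rfl⟩
      exact r.2
    · intro hq
      exact ⟨⟨q, hq⟩, Finset.mem_attach _ _, rfl⟩
  · rw [Finset.prod_image]
    · exact Finset.prod_attach S f
    · intro r _ s _ hrs
      apply Subtype.ext
      exact congrArg (fun q : Nat.Primes => (q : ℕ)) hrs

/-- lower bound by a finite product containing all primes `≤ y` -/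
theorem SNG_gen (H : Finset ℤ) (y : ℕ) (hy : 2 * H.card ≤ y) (hy0 : 0 < y) (S : Finset ℕ)
    (hS : ∀ p ∈ S, p.Prime) (hy1 : ∀ p : ℕ, p.Prime → p ≤ y → p ∈ S) :
    (1 - (H.card : ℝ) ^ 2 / (y : ℝ)) * ∏ p ∈ S, loc H p ≤ sing H := by
  classical
  have hy0' : (0 : ℝ) < y := by exact_mod_cast hy0
  obtain ⟨S', hmem, hprod⟩ := SNG_lift S hS
  unfold sing
  apply ge_of_tendsto (multipliable_loc H).hasProd
  filter_upwards [eventually_ge_atTop S'] with T hT
  rw [← Finset.prod_sdiff hT, hprod (fun p => loc H p)]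
  apply mul_le_mul_of_nonneg_right _ (Finset.prod_nonneg (fun p hp => loc_nonneg H (hS p hp)))
  have hout : ∀ q ∈ T \ S', y < (q : ℕ) := by
    intro q hq
    rw [Finset.mem_sdiff, hmem] at hq
    by_contra hcon
    exact hq.2 (hy1 q q.2 (not_lt.mp hcon))
  have h1 := SNG_one_sub (T \ S') (fun q : Nat.Primes => loc H q)
    (fun q : Nat.Primes => (H.card : ℝ) ^ 2 / ((q : ℕ) : ℝ) ^ 2)
    (fun q _ => by positivity)
    (by
      intro q hq
      have h2 : y < (q : ℕ) := hout q hq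
      have hq0 : (0 : ℝ) < ((q : ℕ) : ℝ) := by exact_mod_cast q.2.pos
      have h3 : (H.card : ℝ) ≤ ((q : ℕ) : ℝ) := by
        have : H.card ≤ (q : ℕ) := by omega
        exact_mod_cast this
      rw [div_le_one (by positivity)]
      exact pow_le_pow_left₀ (by positivity) h3 2)
    (by
      intro q hq
      exact loc_ge q.2 (le_trans hy (hout q hq).le))
  refine le_trans ?_ h1
  have h2 : ∑ q ∈ T \ S', (H.card : ℝ) ^ 2 / ((q : ℕ) : ℝ) ^ 2 ≤ (H.card : ℝ) ^ 2 / (y : ℝ) := by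
    have h3 := SNG_inv_sq (K := (H.card : ℝ) ^ 2) (by positivity) hy0
      ((T \ S').image (fun q : Nat.Primes => (q : ℕ))) (by
      intro n hn
      rw [Finset.mem_image] at hn
      obtain ⟨q, hq, rfl⟩ := hn
      exact hout q hq)
    rw [Finset.sum_image (s := T \ S') (g := fun q : Nat.Primes => (q : ℕ))
      (f := fun n : ℕ => (H.card : ℝ) ^ 2 / (n : ℝ) ^ 2)
      (fun q _ r _ hqr => Nat.Primes.coe_nat_injective hqr)] at h3
    exact h3
  linarith

theorem prod_loc_le (H : Finset ℤ) (y : ℕ) (hy : 2 * H.card ≤ y) (hy0 : 0 < y) (S : Finset ℕ)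
    (hS : ∀ p ∈ S, p.Prime) (hy1 : ∀ p : ℕ, p.Prime → p ≤ y → p ∈ S)
    (h2 : ∀ p : ℕ, p.Prime → nuH H p ≠ H.card → p ∈ S) :
    (1 - (H.card : ℝ) ^ 2 / (y : ℝ)) * ∏ p ∈ S, loc H p ≤ sing H :=
  SNG_gen H y hy hy0 S hS hy1

theorem sing_le_prod (H : Finset ℤ) (S : Finset ℕ) (hS : ∀ p ∈ S, p.Prime)
    (h2 : ∀ p : ℕ, p.Prime → nuH H p ≠ H.card → p ∈ S) :
    sing H ≤ ∏ p ∈ S, loc H p := by
  classical
  obtain ⟨S', hmem, hprod⟩ := SNG_lift S hS
  unfold sing
  apply le_of_tendsto (multipliable_loc H).hasProd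
  filter_upwards [eventually_ge_atTop S'] with T hT
  rw [← Finset.prod_sdiff hT, hprod (fun p => loc H p)]
  refine mul_le_of_le_one_left (Finset.prod_nonneg (fun p hp => loc_nonneg H (hS p hp))) ?_
  apply Finset.prod_le_one
  · intro q _
    exact loc_nonneg H q.2
  · intro q hq
    rw [Finset.mem_sdiff, hmem] at hq
    apply loc_le_one q.2
    by_contra hne
    exact hq.2 (h2 q q.2 hne)

/-- the primes up to `y` -/
def SNG_P (y : ℕ) : Finset ℕ := (Finset.range (y + 1)).filter Nat.Prime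

theorem SNG_memP {y p : ℕ} : p ∈ SNG_P y ↔ p ≤ y ∧ p.Prime := by
  unfold SNG_P
  rw [Finset.mem_filter, Finset.mem_range, Nat.lt_succ_iff]

theorem SNG_half (k : ℕ) : (1 : ℝ) / 2 ≤ 1 - (k : ℝ) ^ 2 / ((2 * k ^ 2 + 2 * k + 2 : ℕ) : ℝ) := by
  have h1 : (k : ℝ) ^ 2 / ((2 * k ^ 2 + 2 * k + 2 : ℕ) : ℝ) ≤ 1 / 2 := by
    rw [div_le_iff₀ (by positivity)]
    push_cast
    have : (0 : ℝ) ≤ k := by positivity
    linarith
  linarith

theorem SNG_ge_prod (H : Finset ℤ) : (1 : ℝ) / 2 *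
    ∏ p ∈ SNG_P (2 * H.card ^ 2 + 2 * H.card + 2), loc H p ≤ sing H := by
  have h1 := SNG_gen H (2 * H.card ^ 2 + 2 * H.card + 2) (by nlinarith [sq_nonneg H.card]) (by positivity)
    (SNG_P (2 * H.card ^ 2 + 2 * H.card + 2)) (fun p hp => (SNG_memP.1 hp).2)
    (fun p hp hpy => SNG_memP.2 ⟨hpy, hp⟩)
  refine le_trans ?_ h1
  exact mul_le_mul_of_nonneg_right (SNG_half H.card)
    (Finset.prod_nonneg (fun p hp => loc_nonneg H (SNG_memP.1 hp).2))

theorem sing_ne_zero_iff (H : Finset ℤ) : sing H ≠ 0 ↔ adm H := by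
  constructor
  · intro h p hp
    by_contra hcon
    have h1 : nuH H p = p := le_antisymm (nuH_le H hp.pos) (not_lt.mp hcon)
    have h0 : loc H p = 0 := by
      unfold loc
      have hp0 : (p : ℝ) ≠ 0 := by exact_mod_cast hp.ne_zero
      rw [h1, div_self hp0]
      simp
    apply h
    unfold sing
    refine tendsto_nhds_unique (multipliable_loc H).hasProd ?_
    apply tendsto_const_nhds.congr'
    filter_upwards [eventually_ge_atTop ({⟨p, hp⟩} : Finset Nat.Primes)] with T hT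
    symm
    apply Finset.prod_eq_zero (i := ⟨p, hp⟩)
    · exact hT (Finset.mem_singleton_self _)
    · exact h0
  · intro h
    have h1 := SNG_ge_prod H
    have h2 : 0 < ∏ p ∈ SNG_P (2 * H.card ^ 2 + 2 * H.card + 2), loc H p :=
      Finset.prod_pos fun p hp => loc_pos (SNG_memP.1 hp).2 (h p (SNG_memP.1 hp).2)
    have h3 : 0 < sing H := by linarith
    exact h3.ne'

theorem SNG_inv_le {H : Finset ℤ} {p : ℕ} (hp : p.Prime) (h : nuH H p < p) :
    (1 : ℝ) / p ≤ loc H p := by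
  unfold loc
  have hp0 : (0 : ℝ) < p := by exact_mod_cast hp.pos
  have hp2 : (2 : ℝ) ≤ p := by exact_mod_cast hp.two_le
  have h0 : (0 : ℝ) < 1 - 1 / p := by
    have : (1 : ℝ) / p ≤ 1 / 2 := one_div_le_one_div_of_le (by norm_num) hp2
    linarith
  have h2 : (nuH H p : ℝ) + 1 ≤ p := by exact_mod_cast h
  have h3 : (1 : ℝ) / p ≤ 1 - (nuH H p : ℝ) / p := by
    rw [le_sub_iff_add_le, ← add_div, div_le_one hp0]
    linarith
  have h4 : (1 - 1 / (p : ℝ)) ^ H.card ≤ 1 := by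
    apply pow_le_one₀ h0.le
    have : (0 : ℝ) < 1 / p := by positivity
    linarith
  rw [le_div_iff₀ (by positivity)]
  calc (1 : ℝ) / p * (1 - 1 / (p : ℝ)) ^ H.card ≤ 1 / p * 1 := by gcongr
    _ = 1 / p := mul_one _
    _ ≤ _ := h3

theorem sing_lower (k : ℕ) : ∃ c : ℝ, 0 < c ∧ ∀ H : Finset ℤ, H.card = k → adm H → c ≤ sing H := by
  refine ⟨1 / 2 * ∏ p ∈ SNG_P (2 * k ^ 2 + 2 * k + 2), (1 : ℝ) / p, ?_, ?_⟩
  · apply mul_pos (by norm_num)
    apply Finset.prod_pos
    intro p hp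
    have : (0 : ℝ) < p := by exact_mod_cast (SNG_memP.mp hp).2.pos
    positivity
  · intro H hk hadm
    subst hk
    refine le_trans ?_ (SNG_ge_prod H)
    apply mul_le_mul_of_nonneg_left _ (by norm_num)
    apply Finset.prod_le_prod
    · intro p _
      positivity
    · intro p hp
      exact SNG_inv_le (SNG_memP.1 hp).2 (hadm p (SNG_memP.1 hp).2)

end Pool.Agent.H6.MF
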