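import Mathlib

/-!
# AVG: averages of `∏_{p ∣ n} (1 + B / p)` over intervals

**`AVG2`.** Let `L = v - u ≥ Y`, `|n| ≤ Y^A ≤ L^A` for all `n ∈ Ioc u v`. Put `c = 1 / (2 (B + 1))`,
`z = L^c` (real power), `n ≠ 0`.
* The number `m` of prime factors `p > z` of `n` satisfies `z^m ≤ |n| ≤ L^A`, so `m ≤ A / c` and
  `∏_{p ∣ n, p > z} (1 + B/p) ≤ (1 + B/z)^(A/c) ≤ 1 + ε₁` for `L` large (`z → ∞`).
* For the primes `w < p ≤ z`: expand `∏_{p ∣ n, w < p ≤ z} (1 + B/p) = ∑_{U} ∏_{p ∈ U} B/p`, the sum over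
  the subsets `U` of `T = {p prime, w < p ≤ z}` all of whose elements divide `n`
  (`Finset.prod_one_add` or `Finset.prod_add`). For fixed `U` the number of `n ∈ Ioc u v` divisible by
  `D = ∏_{p ∈ U} p` is `≤ L / D + 1`. So
  `∑_n ∏_{p ∣ n, w < p ≤ z} (1 + B/p) ≤ L ∏_{p ∈ T} (1 + B/p^2) + ∏_{p ∈ T} (1 + B/p)`, where
  `∏_{p ∈ T} (1 + B/p^2) ≤ exp (B ∑_{p > w} 1/p^2) ≤ exp (B/w)` and
  `∏_{p ∈ T} (1 + B/p) ≤ exp (B ∑_{m ≤ z} 1/m) ≤ exp (B (1 + log z)) = e^B z^B ≤ e^B L^(1/2)`.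
* Together `∑_{n ≠ 0} ∏_{p ∣ n, p > w} (1 + B/p) ≤ (1 + ε₁) (exp (B/w) + e^B L^(-1/2)) L`, and the number
  of `n ∈ Ioc u v`, `n ≠ 0` is `≥ L - 1`. Choose `w₀` with `exp (B/w₀) ≤ 1 + ε/4`, then `Y₀` large.

**`AVG1`.** Take a fixed `w` as in `AVG2` with `ε = 1`: `∏_{p ∣ n} (1 + B/p) ≤ ∏_{p ≤ w} (1 + B/p) ·
∏_{p ∣ n, p > w} (1 + B/p)` and sum: `C = 3 ∏_{p ≤ w} (1 + B/p)`.
-/

set_option autoImplicit false

namespace Pool.Agent.H6.MF

open Finset


theorem avg_prodLe (N : ℕ) (Z : ℕ) :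
    ∏ j ∈ Finset.Ioc 0 Z, (1 + (N : ℝ) / (j : ℝ)) ≤ (1 + (Z : ℝ)) ^ N := by
  induction Z with
  | zero => simp
  | succ Z ih =>
    have h1 : Finset.Ioc 0 (Z + 1) = insert (Z + 1) (Finset.Ioc 0 Z) := by
      ext x
      simp only [Finset.mem_Ioc, Finset.mem_insert]
      omega
    rw [h1, Finset.prod_insert (by simp)]
    have hZ : (0 : ℝ) < (Z : ℝ) + 1 := by positivity
    have h2 : 1 + (N : ℝ) / ((Z + 1 : ℕ) : ℝ) ≤ (1 + 1 / ((Z : ℝ) + 1)) ^ N := by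
      have h3 := one_add_mul_le_pow (a := 1 / ((Z : ℝ) + 1)) (by
        have : (0 : ℝ) ≤ 1 / ((Z : ℝ) + 1) := by positivity
        linarith) N
      have h4 : 1 + (N : ℝ) / ((Z + 1 : ℕ) : ℝ) = 1 + (N : ℝ) * (1 / ((Z : ℝ) + 1)) := by
        push_cast
        ring
      rw [h4]
      exact h3
    have h5 : (1 + ((Z + 1 : ℕ) : ℝ)) ^ N = (1 + 1 / ((Z : ℝ) + 1)) ^ N * (1 + (Z : ℝ)) ^ N := by
      rw [← mul_pow]
      congr 1
      push_cast
      field_simp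
      ring
    rw [h5]
    apply mul_le_mul h2 ih
    · apply Finset.prod_nonneg
      intro i _
      positivity
    · positivity

theorem avg_prodT (B : ℝ) (hB : 0 ≤ B) (w Z : ℕ) :
    ∏ p ∈ (Finset.Ioc w Z).filter Nat.Prime, (1 + B / (p : ℝ)) ≤ (1 + (Z : ℝ)) ^ ⌈B⌉₊ := by
  refine le_trans ?_ (avg_prodLe ⌈B⌉₊ Z)
  have h1 : ∏ p ∈ (Finset.Ioc w Z).filter Nat.Prime, (1 + B / (p : ℝ)) ≤
      ∏ p ∈ (Finset.Ioc w Z).filter Nat.Prime, (1 + (⌈B⌉₊ : ℝ) / (p : ℝ)) := by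
    apply Finset.prod_le_prod
    · intro i _
      positivity
    · intro i _
      have := Nat.le_ceil B
      gcongr
  refine le_trans h1 ?_
  apply Finset.prod_le_prod_of_subset_of_one_le
  · intro x hx
    simp only [Finset.mem_filter, Finset.mem_Ioc] at hx ⊢
    omega
  · intro i _
    positivity
  · intro i _ _
    have : (0 : ℝ) ≤ (⌈B⌉₊ : ℝ) / (i : ℝ) := by positivity
    linarith

theorem avg_prodSq (B : ℝ) (hB : 0 ≤ B) (w Z : ℕ) (hw : w ≠ 0) :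
    ∏ p ∈ (Finset.Ioc w Z).filter Nat.Prime, (1 + B / (p : ℝ) / (p : ℝ)) ≤ Real.exp (B / (w : ℝ)) := by
  have h1 : ∏ p ∈ (Finset.Ioc w Z).filter Nat.Prime, (1 + B / (p : ℝ) / (p : ℝ)) ≤
      ∏ p ∈ (Finset.Ioc w Z).filter Nat.Prime, Real.exp (B * ((p : ℝ) ^ 2)⁻¹) := by
    apply Finset.prod_le_prod
    · intro i _
      positivity
    · intro i _
      have h := Real.add_one_le_exp (B * ((i : ℝ) ^ 2)⁻¹)
      have h2 : B / (i : ℝ) / (i : ℝ) = B * ((i : ℝ) ^ 2)⁻¹ := by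
        rw [div_div, div_eq_mul_inv, sq]
      rw [h2]
      linarith
  refine le_trans h1 ?_
  rw [← Real.exp_sum]
  apply Real.exp_le_exp.mpr
  rw [← Finset.mul_sum, div_eq_mul_inv]
  apply mul_le_mul_of_nonneg_left ?_ hB
  have h3 : ∑ p ∈ (Finset.Ioc w Z).filter Nat.Prime, ((p : ℝ) ^ 2)⁻¹ ≤
      ∑ p ∈ Finset.Ioc w Z, ((p : ℝ) ^ 2)⁻¹ := by
    apply Finset.sum_le_sum_of_subset_of_nonneg (Finset.filter_subset _ _)
    intro i _ _
    positivity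
  refine le_trans h3 ?_
  rcases le_or_gt w Z with h | h
  · have h4 := sum_Ioc_inv_sq_le_sub (α := ℝ) hw h
    have h5 : (0 : ℝ) ≤ ((Z : ℝ))⁻¹ := by positivity
    linarith
  · rw [Finset.Ioc_eq_empty (by omega)]
    simp

theorem avg_count (u v : ℤ) (huv : u ≤ v) (D : ℕ) (hD : 0 < D) :
    (((Finset.Ioc u v).filter (fun n => (D : ℤ) ∣ n)).card : ℝ) ≤ ((v : ℝ) - u) / (D : ℝ) + 1 := by
  have h1 := Int.Ioc_filter_dvd_card u v (r := (D : ℤ)) (by exact_mod_cast hD)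
  have hDR : (0 : ℚ) < (D : ℚ) := by exact_mod_cast hD
  have huvQ : (u : ℚ) ≤ (v : ℚ) := by exact_mod_cast huv
  have h2 : (((Finset.Ioc u v).filter (fun n => (D : ℤ) ∣ n)).card : ℚ) ≤
      ((v : ℚ) - u) / (D : ℚ) + 1 := by
    have h3 : (((Finset.Ioc u v).filter (fun n => (D : ℤ) ∣ n)).card : ℚ) =
        ((max (⌊(v : ℚ) / (((D : ℤ)) : ℚ)⌋ - ⌊(u : ℚ) / (((D : ℤ)) : ℚ)⌋) 0 : ℤ) : ℚ) := by
      rw [← h1]
      push_cast
      rfl
    rw [h3, Int.cast_max]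
    apply max_le
    · push_cast
      have h4 := Int.floor_le ((v : ℚ) / (D : ℚ))
      have h5 := Int.lt_floor_add_one ((u : ℚ) / (D : ℚ))
      rw [sub_div]
      linarith
    · push_cast
      have : 0 ≤ ((v : ℚ) - u) / (D : ℚ) := div_nonneg (by linarith) hDR.le
      linarith
  exact_mod_cast h2

/-- the part of the product over the middle primes, summed over an interval -/
theorem avg_small (B : ℝ) (hB : 0 ≤ B) (w Z : ℕ) (hw : w ≠ 0) (u v : ℤ) (huv : u ≤ v) :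
    ∑ n ∈ (Finset.Ioc u v).erase 0,
      ∏ p ∈ ((Finset.Ioc w Z).filter Nat.Prime).filter (fun p : ℕ => (p : ℤ) ∣ n), (1 + B / (p : ℝ)) ≤
    Real.exp (B / (w : ℝ)) * ((v : ℝ) - u) + (1 + (Z : ℝ)) ^ ⌈B⌉₊ := by
  set T := (Finset.Ioc w Z).filter Nat.Prime with hT
  have hTp : ∀ p ∈ T, p.Prime := fun p hp => (Finset.mem_filter.mp hp).2
  have hL : (0 : ℝ) ≤ (v : ℝ) - u := by
    have : (u : ℝ) ≤ v := by exact_mod_cast huv
    linarith
  have h1 : ∀ n ∈ (Finset.Ioc u v).erase 0,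
      ∏ p ∈ T.filter (fun p : ℕ => (p : ℤ) ∣ n), (1 + B / (p : ℝ)) =
      ∑ U ∈ T.powerset, if (((∏ p ∈ U, p : ℕ) : ℤ) ∣ n) then ∏ p ∈ U, (B / (p : ℝ)) else 0 := by
    intro n hn
    rw [Finset.prod_one_add, ← Finset.sum_filter]
    apply Finset.sum_congr
    · ext U
      simp only [Finset.mem_powerset, Finset.mem_filter]
      constructor
      · intro h
        refine ⟨fun x hx => (Finset.mem_filter.mp (h hx)).1, ?_⟩
        rw [Int.natCast_dvd]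
        apply Finset.prod_primes_dvd
        · intro p hp
          exact (hTp p (Finset.mem_filter.mp (h hp)).1).prime
        · intro p hp
          exact Int.natCast_dvd.mp (Finset.mem_filter.mp (h hp)).2
      · rintro ⟨h, h'⟩ x hx
        rw [Finset.mem_filter]
        refine ⟨h hx, dvd_trans ?_ h'⟩
        exact_mod_cast Finset.dvd_prod_of_mem (fun p => p) hx
    · intro _ _
      rfl
  rw [Finset.sum_congr rfl h1, Finset.sum_comm]
  have h2 : ∀ U ∈ T.powerset,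
      ∑ n ∈ (Finset.Ioc u v).erase 0,
        (if (((∏ p ∈ U, p : ℕ) : ℤ) ∣ n) then ∏ p ∈ U, (B / (p : ℝ)) else 0) ≤
      (∏ p ∈ U, (B / (p : ℝ) / (p : ℝ))) * ((v : ℝ) - u) + ∏ p ∈ U, (B / (p : ℝ)) := by
    intro U hU
    have hUp : ∀ p ∈ U, p.Prime := fun p hp => hTp p (Finset.mem_powerset.mp hU hp)
    have hD : 0 < ∏ p ∈ U, p := Finset.prod_pos (fun p hp => (hUp p hp).pos)
    rw [← Finset.sum_filter, Finset.sum_const, nsmul_eq_mul]
    have hBU : (0 : ℝ) ≤ ∏ p ∈ U, (B / (p : ℝ)) := by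
      apply Finset.prod_nonneg
      intro i _
      positivity
    have h3 : ((((Finset.Ioc u v).erase 0).filter
        (fun n => ((∏ p ∈ U, p : ℕ) : ℤ) ∣ n)).card : ℝ) ≤
        ((v : ℝ) - u) / ((∏ p ∈ U, p : ℕ) : ℝ) + 1 := by
      refine le_trans ?_ (avg_count u v huv _ hD)
      norm_cast
      apply Finset.card_le_card
      apply Finset.filter_subset_filter
      exact Finset.erase_subset _ _
    refine le_trans (mul_le_mul_of_nonneg_right h3 hBU) (le_of_eq ?_)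
    rw [Finset.prod_div_distrib (fun p => B / ((p : ℕ) : ℝ)) (fun p => ((p : ℕ) : ℝ))]
    push_cast
    ring
  refine le_trans (Finset.sum_le_sum h2) ?_
  rw [Finset.sum_add_distrib, ← Finset.sum_mul, ← Finset.prod_one_add, ← Finset.prod_one_add]
  have h4 := avg_prodSq B hB w Z hw
  have h5 := avg_prodT B hB w Z
  have h6 := mul_le_mul_of_nonneg_right h4 hL
  linarith

/-- the part of the product over the large primes -/
theorem avg_large (B : ℝ) (hB : 0 ≤ B) (Z M : ℕ) (hZ : 1 ≤ Z) (n : ℤ) (hn : n ≠ 0)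
    (hM : |(n : ℝ)| < ((Z : ℝ) + 1) ^ M) :
    ∏ p ∈ n.natAbs.primeFactors.filter (fun p => Z < p), (1 + B / (p : ℝ)) ≤
      (1 + B / (Z : ℝ)) ^ M := by
  set S := n.natAbs.primeFactors.filter (fun p => Z < p) with hS
  have hcard : S.card ≤ M := by
    by_contra hcon
    push Not at hcon
    have h1 : (Z + 1) ^ S.card ≤ ∏ p ∈ S, p := by
      rw [← Finset.prod_const]
      apply Finset.prod_le_prod'
      intro p hp
      exact (Finset.mem_filter.mp hp).2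
    have h2 : ∏ p ∈ S, p ≤ n.natAbs := by
      apply Nat.le_of_dvd (Int.natAbs_pos.mpr hn)
      refine dvd_trans (Finset.prod_dvd_prod_of_subset _ _ _ (Finset.filter_subset _ _)) ?_
      exact Nat.prod_primeFactors_dvd _
    have h3 : (Z + 1) ^ M ≤ (Z + 1) ^ S.card := Nat.pow_le_pow_right (by omega) hcon.le
    have h4 : (Z + 1) ^ M ≤ n.natAbs := h3.trans (h1.trans h2)
    have h5 : ((Z : ℝ) + 1) ^ M ≤ |(n : ℝ)| := by
      have : (((Z + 1) ^ M : ℕ) : ℝ) ≤ (n.natAbs : ℝ) := by exact_mod_cast h4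
      rw [Nat.cast_natAbs] at this
      push_cast at this
      exact this
    linarith
  have hZR : (0 : ℝ) < Z := by exact_mod_cast hZ
  have h1 : ∏ p ∈ S, (1 + B / (p : ℝ)) ≤ ∏ p ∈ S, (1 + B / (Z : ℝ)) := by
    apply Finset.prod_le_prod
    · intro i _
      positivity
    · intro i hi
      have h2 : (Z : ℝ) ≤ (i : ℝ) := by exact_mod_cast (Finset.mem_filter.mp hi).2.le
      gcongr
  refine h1.trans ?_
  rw [Finset.prod_const]
  apply pow_le_pow_right₀ _ hcard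
  have : (0 : ℝ) ≤ B / (Z : ℝ) := by positivity
  linarith

theorem avg_total (B : ℝ) (hB : 0 ≤ B) (w Z M : ℕ) (hw : w ≠ 0) (hZ : 1 ≤ Z) (u v : ℤ) (huv : u ≤ v)
    (hM : ∀ n ∈ Finset.Ioc u v, |(n : ℝ)| < ((Z : ℝ) + 1) ^ M) :
    ∑ n ∈ (Finset.Ioc u v).erase 0,
      ∏ p ∈ n.natAbs.primeFactors.filter (fun p => w < p), (1 + B / (p : ℝ)) ≤
    (1 + B / (Z : ℝ)) ^ M *
      (Real.exp (B / (w : ℝ)) * ((v : ℝ) - u) + (1 + (Z : ℝ)) ^ ⌈B⌉₊) := by
  have h1 : ∀ n ∈ (Finset.Ioc u v).erase 0,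
      ∏ p ∈ n.natAbs.primeFactors.filter (fun p => w < p), (1 + B / (p : ℝ)) ≤
      (1 + B / (Z : ℝ)) ^ M *
        ∏ p ∈ ((Finset.Ioc w Z).filter Nat.Prime).filter (fun p : ℕ => (p : ℤ) ∣ n),
          (1 + B / (p : ℝ)) := by
    intro n hn
    have hn0 : n ≠ 0 := (Finset.mem_erase.mp hn).1
    have hnI := (Finset.mem_erase.mp hn).2
    have h2 := avg_large B hB Z M hZ n hn0 (hM n hnI)
    have h3 : n.natAbs.primeFactors.filter (fun p => w < p) ⊆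
        (n.natAbs.primeFactors.filter (fun p => Z < p)) ∪
        ((Finset.Ioc w Z).filter Nat.Prime).filter (fun p : ℕ => (p : ℤ) ∣ n) := by
      intro p hp
      simp only [Finset.mem_filter, Finset.mem_union, Finset.mem_Ioc] at hp ⊢
      rcases lt_or_ge Z p with h | h
      · left
        exact ⟨hp.1, h⟩
      · right
        refine ⟨⟨⟨hp.2, h⟩, Nat.prime_of_mem_primeFactors hp.1⟩, ?_⟩
        exact Int.natCast_dvd.mpr (Nat.dvd_of_mem_primeFactors hp.1)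
    have hd : Disjoint (n.natAbs.primeFactors.filter (fun p => Z < p))
        (((Finset.Ioc w Z).filter Nat.Prime).filter (fun p : ℕ => (p : ℤ) ∣ n)) := by
      rw [Finset.disjoint_left]
      intro p hp hp'
      simp only [Finset.mem_filter, Finset.mem_Ioc] at hp hp'
      omega
    refine le_trans (Finset.prod_le_prod_of_subset_of_one_le h3 ?_ ?_) ?_
    · intro i _
      positivity
    · intro i _ _
      have : (0 : ℝ) ≤ B / (i : ℝ) := by positivity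
      linarith
    · rw [Finset.prod_union hd]
      apply mul_le_mul_of_nonneg_right h2
      apply Finset.prod_nonneg
      intro i _
      positivity
  refine le_trans (Finset.sum_le_sum h1) ?_
  rw [← Finset.mul_sum]
  apply mul_le_mul_of_nonneg_left (avg_small B hB w Z hw u v huv)
  positivity

/-- the choice of the cut `Z` -/
theorem avg_cut (K Z₀ : ℕ) (hK : 0 < K) (L : ℝ) (hL : ((Z₀ : ℝ) + 1) ^ K ≤ L) :
    ∃ Z : ℕ, Z₀ < Z ∧ (Z : ℝ) ^ K ≤ L ∧ L < ((Z : ℝ) + 1) ^ K := by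
  have hex : ∃ Z : ℕ, L < ((Z : ℝ) + 1) ^ K := by
    obtain ⟨m, hm⟩ := exists_nat_gt L
    refine ⟨m, hm.trans_le ?_⟩
    have h1 : (1 : ℝ) ≤ (m : ℝ) + 1 := by
      have : (0 : ℝ) ≤ (m : ℝ) := by positivity
      linarith
    calc (m : ℝ) ≤ (m : ℝ) + 1 := by linarith
      _ ≤ ((m : ℝ) + 1) ^ K := le_self_pow₀ h1 hK.ne'
  classical
  set Z := Nat.find hex with hZ
  have h1 : L < ((Z : ℝ) + 1) ^ K := Nat.find_spec hex
  have h2 : Z₀ < Z := by
    by_contra hcon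
    push Not at hcon
    have : ((Z : ℝ) + 1) ^ K ≤ ((Z₀ : ℝ) + 1) ^ K := by
      have : (Z : ℝ) ≤ Z₀ := by exact_mod_cast hcon
      gcongr
    linarith
  refine ⟨Z, h2, ?_, h1⟩
  have h3 := Nat.find_min hex (m := Z - 1) (by omega)
  push Not at h3
  have h4 : (((Z - 1 : ℕ) : ℝ)) + 1 = (Z : ℝ) := by
    rw [Nat.cast_sub (by omega)]
    push_cast
    ring
  rw [h4] at h3
  exact h3

theorem avg_main (B : ℝ) (hB : 0 ≤ B) (A : ℕ) (w : ℕ) (hw : w ≠ 0) (δ : ℝ) (hδ : 0 < δ) :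
    ∃ Y₀ : ℝ, 1 ≤ Y₀ ∧ ∀ Y : ℝ, Y₀ ≤ Y → ∀ u v : ℤ, |(u : ℝ)| ≤ Y ^ A → |(v : ℝ)| ≤ Y ^ A →
    Y ≤ (v : ℝ) - u →
    ∑ n ∈ (Finset.Ioc u v).erase 0,
      ∏ p ∈ n.natAbs.primeFactors.filter (fun p => w < p), (1 + B / (p : ℝ)) ≤
      (Real.exp (B / (w : ℝ)) + δ) * ((v : ℝ) - u) := by
  set N := ⌈B⌉₊ with hN
  set K := 2 * N + 2 with hK
  set M := K * A + 1 with hM
  have hlim : Filter.Tendsto (fun Z : ℕ => (1 + B / (Z : ℝ)) ^ M *
      (Real.exp (B / (w : ℝ)) + 2 ^ N / (Z : ℝ))) Filter.atTop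
      (nhds ((1 + 0) ^ M * (Real.exp (B / (w : ℝ)) + 0))) := by
    apply Filter.Tendsto.mul
    · apply Filter.Tendsto.pow
      apply Filter.Tendsto.add tendsto_const_nhds
      exact tendsto_const_div_atTop_nhds_zero_nat B
    · apply Filter.Tendsto.add tendsto_const_nhds
      exact tendsto_const_div_atTop_nhds_zero_nat _
  have hlt : (1 + 0) ^ M * (Real.exp (B / (w : ℝ)) + 0) < Real.exp (B / (w : ℝ)) + δ := by
    simp only [add_zero, one_pow, one_mul]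
    linarith
  have hev := hlim.eventually (gt_mem_nhds hlt)
  obtain ⟨Z₀, hZ₀⟩ := Filter.eventually_atTop.mp hev
  refine ⟨((Z₀ : ℝ) + 1) ^ K, one_le_pow₀ (by
    have : (0 : ℝ) ≤ (Z₀ : ℝ) := by positivity
    linarith), ?_⟩
  intro Y hY u v hu hv huv
  set L := (v : ℝ) - u with hL
  obtain ⟨Z, hZ1, hZ2, hZ3⟩ := avg_cut K Z₀ (by omega) L (hY.trans huv)
  have hY1 : 1 ≤ Y := le_trans (one_le_pow₀ (by
    have : (0 : ℝ) ≤ (Z₀ : ℝ) := by positivity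
    linarith)) hY
  have hL1 : 1 ≤ L := hY1.trans huv
  have huv' : u ≤ v := by
    have : (u : ℝ) ≤ v := by linarith
    exact_mod_cast this
  have hZ1' : 1 ≤ Z := by omega
  have hZR : (1 : ℝ) ≤ Z := by exact_mod_cast hZ1'
  have hbd : ∀ n ∈ Finset.Ioc u v, |(n : ℝ)| < ((Z : ℝ) + 1) ^ M := by
    intro n hn
    rw [Finset.mem_Ioc] at hn
    have h1 : |(n : ℝ)| ≤ Y ^ A := by
      rw [abs_le] at hu hv ⊢
      have h2 : (u : ℝ) ≤ n := by exact_mod_cast hn.1.le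
      have h3 : (n : ℝ) ≤ v := by exact_mod_cast hn.2
      constructor <;> linarith [hu.1, hv.2]
    have h2 : Y ^ A ≤ L ^ A := by
      gcongr
    have h3 : L ^ A ≤ (((Z : ℝ) + 1) ^ K) ^ A := by
      gcongr
    have h4 : (((Z : ℝ) + 1) ^ K) ^ A < ((Z : ℝ) + 1) ^ M := by
      rw [← pow_mul]
      apply pow_lt_pow_right₀ (by linarith)
      omega
    linarith
  have h1 := avg_total B hB w Z M hw hZ1' u v huv' hbd
  refine h1.trans ?_
  have h2 : (1 + (Z : ℝ)) ^ N ≤ 2 ^ N / (Z : ℝ) * L := by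
    have h3 : (1 + (Z : ℝ)) ^ N ≤ (2 * (Z : ℝ)) ^ N := by
      gcongr
      linarith
    have h4 : (Z : ℝ) ^ N * Z ≤ L := by
      refine le_trans ?_ hZ2
      rw [← pow_succ]
      apply pow_le_pow_right₀ hZR
      omega
    rw [mul_pow] at h3
    have h5 : (2 : ℝ) ^ N * (Z : ℝ) ^ N = 2 ^ N / (Z : ℝ) * ((Z : ℝ) ^ N * Z) := by
      field_simp
    rw [h5] at h3
    refine h3.trans ?_
    gcongr
  have h3 : (1 + B / (Z : ℝ)) ^ M * (Real.exp (B / (w : ℝ)) * L + (1 + (Z : ℝ)) ^ N) ≤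
      ((1 + B / (Z : ℝ)) ^ M * (Real.exp (B / (w : ℝ)) + 2 ^ N / (Z : ℝ))) * L := by
    rw [mul_assoc]
    apply mul_le_mul_of_nonneg_left
    · rw [add_mul]
      linarith
    · positivity
  refine h3.trans ?_
  apply mul_le_mul_of_nonneg_right (hZ₀ Z hZ1.le).le
  linarith

theorem avg_card (u v : ℤ) (huv : u ≤ v) :
    (v : ℝ) - u - 1 ≤ (((Finset.Ioc u v).erase 0).card : ℝ) ∧
    (((Finset.Ioc u v).erase 0).card : ℝ) ≤ (v : ℝ) - u := by
  have h1 : (((Finset.Ioc u v)).card : ℝ) = (v : ℝ) - u := by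
    rw [Int.card_Ioc]
    have : (((v - u).toNat : ℤ) : ℝ) = (v : ℝ) - u := by
      rw [Int.toNat_of_nonneg (by omega)]
      push_cast
      ring
    exact_mod_cast this
  constructor
  · have h2 := Finset.pred_card_le_card_erase (s := Finset.Ioc u v) (a := (0 : ℤ))
    have h3 : (Finset.Ioc u v).card ≤ ((Finset.Ioc u v).erase 0).card + 1 := by omega
    have h4 : (((Finset.Ioc u v)).card : ℝ) ≤ (((Finset.Ioc u v).erase 0).card : ℝ) + 1 := by
      exact_mod_cast h3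
    linarith
  · rw [← h1]
    exact_mod_cast Finset.card_le_card (Finset.erase_subset _ _)

theorem AVG2 (B : ℝ) (hB : 0 ≤ B) (A : ℕ) (ε : ℝ) (hε : 0 < ε) : ∃ w₀ : ℕ, ∀ w : ℕ, w₀ ≤ w →
    ∃ Y₀ : ℝ, ∀ Y : ℝ, Y₀ ≤ Y → ∀ u v : ℤ, |(u : ℝ)| ≤ Y ^ A → |(v : ℝ)| ≤ Y ^ A → Y ≤ (v : ℝ) - u →
    ∑ n ∈ (Finset.Ioc u v).erase 0,
      (∏ p ∈ n.natAbs.primeFactors.filter (fun p => w < p), (1 + B / (p : ℝ)) - 1) ≤ ε * ((v : ℝ) - u) := by
  have hlim : Filter.Tendsto (fun w : ℕ => Real.exp (B / (w : ℝ))) Filter.atTop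
      (nhds (Real.exp 0)) := by
    apply (Real.continuous_exp.tendsto 0).comp
    exact tendsto_const_div_atTop_nhds_zero_nat B
  rw [Real.exp_zero] at hlim
  have hlt : (1 : ℝ) < 1 + ε / 3 := by linarith
  obtain ⟨w₀, hw₀⟩ := Filter.eventually_atTop.mp (hlim.eventually (gt_mem_nhds hlt))
  refine ⟨w₀ + 1, ?_⟩
  intro w hw
  obtain ⟨Y₀, hY₀1, hY₀⟩ := avg_main B hB A w (by omega) (ε / 3) (by linarith)
  refine ⟨max Y₀ (3 / ε), ?_⟩
  intro Y hY u v hu hv huv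
  have h1 := hY₀ Y (le_trans (le_max_left _ _) hY) u v hu hv huv
  have hY1 : 1 ≤ Y := hY₀1.trans (le_trans (le_max_left _ _) hY)
  have huv' : u ≤ v := by
    have : (u : ℝ) ≤ v := by linarith
    exact_mod_cast this
  have h2 := (avg_card u v huv').1
  rw [Finset.sum_sub_distrib, Finset.sum_const, nsmul_eq_mul, mul_one]
  have h3 : Real.exp (B / (w : ℝ)) < 1 + ε / 3 := hw₀ w (by omega)
  have h4 : 3 / ε ≤ (v : ℝ) - u := (le_trans (le_max_right _ _) hY).trans huv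
  have h5 : 1 ≤ ε / 3 * ((v : ℝ) - u) := by
    have h6 : ε / 3 * (3 / ε) ≤ ε / 3 * ((v : ℝ) - u) := by
      apply mul_le_mul_of_nonneg_left h4
      linarith
    have h7 : ε / 3 * (3 / ε) = 1 := by
      field_simp
    linarith
  have h6 : (Real.exp (B / (w : ℝ)) + ε / 3) * ((v : ℝ) - u) ≤
      (1 + ε / 3 + ε / 3) * ((v : ℝ) - u) := by
    apply mul_le_mul_of_nonneg_right (by linarith) (by linarith)
  nlinarith

theorem AVG1 (B : ℝ) (hB : 0 ≤ B) (A : ℕ) : ∃ C Y₀ : ℝ, 0 < C ∧ ∀ Y : ℝ, Y₀ ≤ Y → ∀ u v : ℤ,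
    |(u : ℝ)| ≤ Y ^ A → |(v : ℝ)| ≤ Y ^ A → Y ≤ (v : ℝ) - u →
    ∑ n ∈ (Finset.Ioc u v).erase 0, ∏ p ∈ n.natAbs.primeFactors, (1 + B / (p : ℝ)) ≤ C * ((v : ℝ) - u) := by
  obtain ⟨Y₀, hY₀1, hY₀⟩ := avg_main B hB A 1 one_ne_zero 1 one_pos
  refine ⟨(1 + B) * (Real.exp (B / ((1 : ℕ) : ℝ)) + 1), Y₀, by positivity, ?_⟩
  intro Y hY u v hu hv huv
  have h1 := hY₀ Y hY u v hu hv huv
  rw [mul_assoc]
  refine le_trans ?_ (mul_le_mul_of_nonneg_left h1 (by linarith))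
  rw [Finset.mul_sum]
  apply Finset.sum_le_sum
  intro n _
  have h2 : n.natAbs.primeFactors.filter (fun p => 1 < p) = n.natAbs.primeFactors := by
    apply Finset.filter_true_of_mem
    intro p hp
    exact (Nat.prime_of_mem_primeFactors hp).one_lt
  rw [h2]
  have h3 : (0 : ℝ) ≤ ∏ p ∈ n.natAbs.primeFactors, (1 + B / (p : ℝ)) := by
    apply Finset.prod_nonneg
    intro i _
    positivity
  nlinarith

end Pool.Agent.H6.MF
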