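import Pool.Agent.H6.MF.SNG

/-!
# SUN: the singular series of `H ∪ (H + r)`

Let `K = H ∪ tr H r`, `|K| = 2k` (the sets are disjoint by hypothesis). Let `B = 4 k^2`. For every prime `p`:
* `nuH K p ≤ 2 nuH H p` always, and `nuH K p ≥ nuH H p =: ν`.
* if no `h, h' ∈ H` satisfy `p ∣ h + r - h'`, then the residue sets of `H` and `H + r` are disjoint, so
  `nuH K p = 2 ν` and `loc K p = (1 - 2ν/p)/(1-1/p)^(2k) ≤ ((1 - ν/p)/(1-1/p)^k)^2 = (loc H p)^2`.
* if some `h, h' ∈ H` satisfy `p ∣ h + r - h'`: `loc K p ≤ (1 - ν/p)/(1-1/p)^(2k) = (loc H p)^2/(1 - ν/p)`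
  and `1/(1 - ν/p) ≤ 1 + B/p`: if `p ≥ 2k` then `1/(1-ν/p) ≤ 1 + 2ν/p ≤ 1 + 2k/p`; if `p < 2k` then
  (admissibility) `1 - ν/p ≥ 1/p`, so `1/(1-ν/p) ≤ p < 2k ≤ B/p`. The prime `p` is a prime factor of the
  nonzero integer `h + r - h'`, so `1 + B/p` is one of the factors of the right hand side (all factors there
  are `≥ 1`).
So for every finite set `S` of primes containing all prime factors of the numbers `h + r - h'`:
`∏_{p ∈ S} loc K p ≤ (∏_{p ∈ S} loc H p)^2 · ∏_{h, h'} ∏_{p ∣ h + r - h'} (1 + B/p)` (each `p` with a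
divisibility is hit at least once on the right). Let `S` increase (`multipliable_loc`, or use
`sing_le_prod` for `K` and `prod_loc_le` for `H` with `y → ∞`).
-/

set_option autoImplicit false

namespace Pool.Agent.H6.MF

open Finset

/-- for all large `p` the elements of `H` are distinct modulo `p` -/
theorem SUN_big (H : Finset ℤ) : ∃ M : ℕ, ∀ p : ℕ, M < p → nuH H p = H.card := by
  refine ⟨∑ a ∈ H, ∑ b ∈ H, (a - b).natAbs, fun p hp => ?_⟩
  unfold nuH
  refine card_image_of_injOn ?_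
  intro a ha b hb hab
  have h1 : (p : ℤ) ∣ a - b := by
    have h0 : b ≡ a [ZMOD p] := hab.symm
    exact h0.dvd
  by_contra hne
  have h2 : 0 < (a - b).natAbs := Int.natAbs_pos.2 (sub_ne_zero.2 hne)
  have h3 : p ∣ (a - b).natAbs := by
    have := Int.natAbs_dvd_natAbs.2 h1
    simpa using this
  have h4 := Nat.le_of_dvd h2 h3
  have h5 : (a - b).natAbs ≤ ∑ b ∈ H, (a - b).natAbs :=
    single_le_sum (f := fun b => (a - b).natAbs) (fun _ _ => Nat.zero_le _) (mem_coe.1 hb)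
  have h6 : ∑ b ∈ H, (a - b).natAbs ≤ ∑ a ∈ H, ∑ b ∈ H, (a - b).natAbs :=
    single_le_sum (f := fun a => ∑ b ∈ H, (a - b).natAbs) (fun _ _ => Nat.zero_le _) (mem_coe.1 ha)
  omega

theorem SUN_nu_disj (H : Finset ℤ) (r : ℤ) (p : ℕ)
    (h : ∀ a ∈ H, ∀ b ∈ H, ¬ (p : ℤ) ∣ a + r - b) :
    nuH (H ∪ tr H r) p = 2 * nuH H p := by
  have h0 := nuH_tr H r p
  unfold nuH at *
  rw [image_union, card_union_of_disjoint, h0, two_mul]
  rw [disjoint_left]
  intro z hz hz'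
  obtain ⟨b, hb, hbz⟩ := mem_image.1 hz
  obtain ⟨c, hc, hcz⟩ := mem_image.1 hz'
  obtain ⟨a, ha, rfl⟩ := mem_image.1 hc
  refine h a ha b hb ?_
  have : b ≡ a + r [ZMOD p] := by
    show b % (p : ℤ) = (a + r) % (p : ℤ)
    rw [hcz]; exact hbz
  exact this.dvd

theorem SUN_loc (k : ℕ) (hk : 1 ≤ k) (H : Finset ℤ) (hH : H.card = k) (hadm : adm H) (r : ℤ)
    (hdis : ∀ h ∈ H, ∀ h' ∈ H, h + r ≠ h') (p : ℕ) (hp : p.Prime) :
    loc (H ∪ tr H r) p ≤ (loc H p) ^ 2 *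
      (if ∃ a ∈ H, ∃ b ∈ H, (p : ℤ) ∣ a + r - b then (1 + 4 * (k : ℝ) ^ 2 / p) else 1) := by
  have hcard : (H ∪ tr H r).card = 2 * k := by
    rw [card_union_of_disjoint, card_tr, hH, two_mul]
    rw [disjoint_left]
    intro z hz hz'
    obtain ⟨a, ha, haz⟩ := mem_image.1 hz'
    exact hdis a ha z hz haz
  have hp1 : (1 : ℝ) < p := by exact_mod_cast hp.one_lt
  have hp0 : (0 : ℝ) < p := by linarith
  have hq : (0 : ℝ) < 1 - 1 / p := by
    rw [sub_pos, div_lt_one hp0]; exact hp1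
  have hqk : (0 : ℝ) < (1 - 1 / (p : ℝ)) ^ (2 * k) := pow_pos hq _
  have hνk : (nuH H p : ℝ) ≤ k := by
    have := nuH_le_card H p
    rw [hH] at this
    exact_mod_cast this
  have hνp : (nuH H p : ℝ) + 1 ≤ p := by exact_mod_cast hadm p hp
  have hν0 : (0 : ℝ) ≤ nuH H p := Nat.cast_nonneg _
  have hk1 : (1 : ℝ) ≤ k := by exact_mod_cast hk
  have hsq : (loc H p) ^ 2 = (1 - (nuH H p : ℝ) / p) ^ 2 / (1 - 1 / (p : ℝ)) ^ (2 * k) := by
    unfold loc
    rw [div_pow, hH, ← pow_mul, mul_comm k 2]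
  rw [hsq]
  unfold loc
  rw [hcard, div_mul_eq_mul_div]
  refine div_le_div_of_nonneg_right ?_ hqk.le
  split_ifs with hc
  · have hge : (nuH H p : ℝ) ≤ nuH (H ∪ tr H r) p := by
      have : nuH H p ≤ nuH (H ∪ tr H r) p := by
        unfold nuH
        exact card_le_card (image_subset_image subset_union_left)
      exact_mod_cast this
    set ν : ℝ := (nuH H p : ℝ) with hν
    have h1 : 1 - (nuH (H ∪ tr H r) p : ℝ) / p ≤ 1 - ν / p := by
      have := div_le_div_of_nonneg_right hge hp0.le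
      linarith
    refine h1.trans ?_
    have h2 : 0 ≤ 1 - ν / p := by
      rw [sub_nonneg, div_le_one hp0]; linarith
    have h3 : 1 ≤ (1 - ν / p) * (1 + 4 * (k : ℝ) ^ 2 / p) := by
      have e : (1 - ν / p) * (1 + 4 * (k : ℝ) ^ 2 / p) = (p - ν) * (p + 4 * (k : ℝ) ^ 2) / (p * p) := by
        field_simp
      rw [e, le_div_iff₀ (by positivity)]
      rcases le_or_gt (2 * (k : ℝ)) p with hpk | hpk
      · nlinarith [mul_nonneg hν0 hν0, mul_le_mul hνk (le_refl (1:ℝ)) zero_le_one (by linarith),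
          mul_nonneg (sub_nonneg.2 hνk) (mul_nonneg (by linarith : (0:ℝ) ≤ k) (by linarith : (0:ℝ) ≤ k)),
          mul_nonneg (sub_nonneg.2 hpk) (mul_nonneg (by linarith : (0:ℝ) ≤ k) (by linarith : (0:ℝ) ≤ k)),
          mul_nonneg (sub_nonneg.2 hνk) hp0.le,
          mul_nonneg (sub_nonneg.2 hk1) (mul_nonneg (by linarith : (0:ℝ) ≤ k) hp0.le)]
      · nlinarith [mul_nonneg (by linarith : (0:ℝ) ≤ p - ν - 1) (by positivity : (0:ℝ) ≤ p + 4 * (k : ℝ) ^ 2),
          mul_pos hp0 hp0]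
    calc 1 - ν / p = (1 - ν / p) * 1 := by ring
      _ ≤ (1 - ν / p) * ((1 - ν / p) * (1 + 4 * (k : ℝ) ^ 2 / p)) := mul_le_mul_of_nonneg_left h3 h2
      _ = (1 - ν / p) ^ 2 * (1 + 4 * (k : ℝ) ^ 2 / p) := by ring
  · have h1 : nuH (H ∪ tr H r) p = 2 * nuH H p := by
      refine SUN_nu_disj H r p fun a ha b hb hd => hc ⟨a, ha, b, hb, hd⟩
    rw [h1]
    push_cast
    nlinarith [sq_nonneg ((nuH H p : ℝ) / p), mul_div_assoc (2 : ℝ) (nuH H p : ℝ) (p : ℝ)]

theorem SUN_prod_ge_one {ι : Type*} (s : Finset ι) (f : ι → ℝ) (h : ∀ i ∈ s, 1 ≤ f i) :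
    1 ≤ ∏ i ∈ s, f i := by
  have := prod_le_prod (s := s) (f := fun _ => (1 : ℝ)) (g := f) (fun _ _ => zero_le_one) h
  simpa using this

theorem SUN_single_le {ι : Type*} [DecidableEq ι] (s : Finset ι) (f : ι → ℝ) (h : ∀ i ∈ s, 1 ≤ f i)
    {i : ι} (hi : i ∈ s) : f i ≤ ∏ i ∈ s, f i := by
  rw [← mul_prod_erase s f hi]
  have h1 : 1 ≤ ∏ x ∈ s.erase i, f x := SUN_prod_ge_one _ _ fun j hj => h j (mem_of_mem_erase hj)
  have h2 : 0 ≤ f i := zero_le_one.trans (h i hi)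
  nlinarith

theorem SUN (k : ℕ) (hk : 1 ≤ k) : ∃ B : ℝ, 0 ≤ B ∧ ∀ H : Finset ℤ, H.card = k → adm H → ∀ r : ℤ,
    (∀ h ∈ H, ∀ h' ∈ H, h + r ≠ h') →
    sing (H ∪ tr H r) ≤ (sing H) ^ 2 *
      ∏ h ∈ H, ∏ h' ∈ H, ∏ p ∈ (h + r - h').natAbs.primeFactors, (1 + B / (p : ℝ)) := by
  classical
  refine ⟨4 * (k : ℝ) ^ 2, by positivity, fun H hH hadm r hdis => ?_⟩
  set R : ℝ := ∏ h ∈ H, ∏ h' ∈ H, ∏ p ∈ (h + r - h').natAbs.primeFactors, (1 + 4 * (k : ℝ) ^ 2 / (p : ℝ))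
    with hR
  obtain ⟨M1, hM1⟩ := SUN_big H
  obtain ⟨M2, hM2⟩ := SUN_big (H ∪ tr H r)
  set M3 : ℕ := ∑ a ∈ H, ∑ b ∈ H, (a + r - b).natAbs with hM3
  have hR1 : 1 ≤ R := by
    refine SUN_prod_ge_one _ _ fun a _ => SUN_prod_ge_one _ _ fun b _ => SUN_prod_ge_one _ _ fun p _ => ?_
    have : 0 ≤ 4 * (k : ℝ) ^ 2 / (p : ℝ) := by positivity
    linarith
  have key : ∀ y : ℕ, 2 * k ≤ y → 0 < y → (k : ℝ) ^ 2 ≤ y →
      (1 - (k : ℝ) ^ 2 / (y : ℝ)) ^ 2 * sing (H ∪ tr H r) ≤ (sing H) ^ 2 * R := by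
    intro y hy hy0 hky
    set T : ℕ := y + M1 + M2 + M3 with hT
    set S : Finset ℕ := (range (T + 1)).filter Nat.Prime with hS
    have hSp : ∀ p ∈ S, p.Prime := fun p hp => (mem_filter.1 hp).2
    have hmemS : ∀ p : ℕ, p.Prime → p ≤ T → p ∈ S := fun p hp h =>
      mem_filter.2 ⟨mem_range.2 (by omega), hp⟩
    have hA : (1 - (H.card : ℝ) ^ 2 / (y : ℝ)) * ∏ p ∈ S, loc H p ≤ sing H := by
      refine prod_loc_le H y (by rw [hH]; exact hy) hy0 S hSp (fun p hp h => hmemS p hp (by omega)) ?_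
      intro p hp h
      refine hmemS p hp ?_
      by_contra hcon
      exact h (hM1 p (by omega))
    rw [hH] at hA
    have hB : sing (H ∪ tr H r) ≤ ∏ p ∈ S, loc (H ∪ tr H r) p := by
      refine sing_le_prod _ S hSp ?_
      intro p hp h
      refine hmemS p hp ?_
      by_contra hcon
      exact h (hM2 p (by omega))
    set g : ℕ → ℝ := fun p => if ∃ a ∈ H, ∃ b ∈ H, (p : ℤ) ∣ a + r - b then (1 + 4 * (k : ℝ) ^ 2 / p) else 1
      with hg
    have hC : ∏ p ∈ S, loc (H ∪ tr H r) p ≤ ∏ p ∈ S, ((loc H p) ^ 2 * g p) := by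
      refine prod_le_prod (fun p hp => loc_nonneg _ (hSp p hp)) fun p hp => ?_
      exact SUN_loc k hk H hH hadm r hdis p (hSp p hp)
    have hR' : R = ∏ p ∈ S, ∏ h ∈ H, ∏ h' ∈ H,
        (if p ∈ (h + r - h').natAbs.primeFactors then (1 + 4 * (k : ℝ) ^ 2 / (p : ℝ)) else 1) := by
      rw [prod_comm, hR]
      refine prod_congr rfl fun a ha => ?_
      rw [prod_comm]
      refine prod_congr rfl fun b hb => ?_
      rw [← prod_filter]
      refine prod_congr ?_ fun _ _ => rfl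
      ext p
      rw [mem_filter]
      refine ⟨fun h => ⟨?_, h⟩, fun h => h.2⟩
      refine hmemS p (Nat.prime_of_mem_primeFactors h) ?_
      have h1 := Nat.le_of_mem_primeFactors h
      have h5 : (a + r - b).natAbs ≤ ∑ b ∈ H, (a + r - b).natAbs :=
        single_le_sum (f := fun b => (a + r - b).natAbs) (fun _ _ => Nat.zero_le _) hb
      have h6 : ∑ b ∈ H, (a + r - b).natAbs ≤ ∑ a ∈ H, ∑ b ∈ H, (a + r - b).natAbs :=
        single_le_sum (f := fun a => ∑ b ∈ H, (a + r - b).natAbs) (fun _ _ => Nat.zero_le _) ha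
      omega
    have hG : ∏ p ∈ S, g p ≤ R := by
      rw [hR']
      refine prod_le_prod (fun p _ => ?_) fun p hp => ?_
      · simp only [hg]; split_ifs <;> positivity
      · have hone : ∀ a b : ℤ, 1 ≤ (if p ∈ (a + r - b).natAbs.primeFactors then
            (1 + 4 * (k : ℝ) ^ 2 / (p : ℝ)) else 1) := by
          intro a b
          split_ifs
          · have : 0 ≤ 4 * (k : ℝ) ^ 2 / (p : ℝ) := by positivity
            linarith
          · exact le_rfl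
        simp only [hg]
        split_ifs with hc
        · obtain ⟨a, ha, b, hb, hd⟩ := hc
          have h1 : p ∈ (a + r - b).natAbs.primeFactors := by
            rw [Nat.mem_primeFactors]
            refine ⟨hSp p hp, ?_, ?_⟩
            · have := Int.natAbs_dvd_natAbs.2 hd
              simpa using this
            · rw [Int.natAbs_ne_zero]
              exact sub_ne_zero.2 (hdis a ha b hb)
          have h2 : (1 + 4 * (k : ℝ) ^ 2 / (p : ℝ)) ≤ (if p ∈ (a + r - b).natAbs.primeFactors then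
            (1 + 4 * (k : ℝ) ^ 2 / (p : ℝ)) else 1) := by rw [if_pos h1]
          refine h2.trans ?_
          refine (SUN_single_le H (fun b => if p ∈ (a + r - b).natAbs.primeFactors then
            (1 + 4 * (k : ℝ) ^ 2 / (p : ℝ)) else 1) (fun b _ => hone a b) hb).trans ?_
          exact SUN_single_le H (fun a => ∏ b ∈ H, if p ∈ (a + r - b).natAbs.primeFactors then
            (1 + 4 * (k : ℝ) ^ 2 / (p : ℝ)) else 1)
            (fun a _ => SUN_prod_ge_one _ _ fun b _ => hone a b) ha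
        · exact SUN_prod_ge_one _ _ fun a _ => SUN_prod_ge_one _ _ fun b _ => hone a b
    have hP0 : 0 ≤ ∏ p ∈ S, loc H p := prod_nonneg fun p hp => loc_nonneg _ (hSp p hp)
    have hD : ∏ p ∈ S, ((loc H p) ^ 2 * g p) = (∏ p ∈ S, loc H p) ^ 2 * ∏ p ∈ S, g p := by
      rw [prod_mul_distrib, prod_pow]
    have hw : 0 ≤ 1 - (k : ℝ) ^ 2 / (y : ℝ) := by
      have hy' : (0 : ℝ) < y := by exact_mod_cast hy0
      rw [sub_nonneg, div_le_one hy']
      exact hky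
    have hE : ((1 - (k : ℝ) ^ 2 / (y : ℝ)) * ∏ p ∈ S, loc H p) ^ 2 ≤ (sing H) ^ 2 :=
      pow_le_pow_left₀ (mul_nonneg hw hP0) hA 2
    calc (1 - (k : ℝ) ^ 2 / (y : ℝ)) ^ 2 * sing (H ∪ tr H r)
        ≤ (1 - (k : ℝ) ^ 2 / (y : ℝ)) ^ 2 * ((∏ p ∈ S, loc H p) ^ 2 * ∏ p ∈ S, g p) := by
          refine mul_le_mul_of_nonneg_left ?_ (sq_nonneg _)
          rw [← hD]; exact hB.trans hC
      _ ≤ (1 - (k : ℝ) ^ 2 / (y : ℝ)) ^ 2 * ((∏ p ∈ S, loc H p) ^ 2 * R) := by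
          refine mul_le_mul_of_nonneg_left (mul_le_mul_of_nonneg_left hG (sq_nonneg _)) (sq_nonneg _)
      _ = ((1 - (k : ℝ) ^ 2 / (y : ℝ)) * ∏ p ∈ S, loc H p) ^ 2 * R := by ring
      _ ≤ (sing H) ^ 2 * R := mul_le_mul_of_nonneg_right hE (by linarith)
  have hlim : Filter.Tendsto (fun y : ℕ => (1 - (k : ℝ) ^ 2 / (y : ℝ)) ^ 2 * sing (H ∪ tr H r))
      Filter.atTop (nhds ((1 - 0) ^ 2 * sing (H ∪ tr H r))) := by
    refine Filter.Tendsto.mul_const _ (Filter.Tendsto.pow (Filter.Tendsto.sub tendsto_const_nhds ?_) 2)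
    exact tendsto_const_div_atTop_nhds_zero_nat _
  rw [sub_zero, one_pow, one_mul] at hlim
  refine le_of_tendsto hlim ?_
  filter_upwards [Filter.eventually_ge_atTop (max (2 * k) (max 1 (k ^ 2)))] with y hy
  have h1 : 2 * k ≤ y := (le_max_left _ _).trans hy
  have h2 : 1 ≤ y := (le_max_left _ _).trans ((le_max_right _ _).trans hy)
  have h3 : k ^ 2 ≤ y := (le_max_right _ _).trans ((le_max_right _ _).trans hy)
  exact key y h1 (by omega) (by exact_mod_cast h3)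

end Pool.Agent.H6.MF
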