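import Pool.Agent.H6.MF.SIE
import Pool.Agent.H6.MF.SUN
import Pool.Agent.H6.MF.AVG

/-!
# SMB: pairs of `k`-tuples in a window of length `(log x)^k`

Let `L = ⌊η Λ^k⌋₊`, `S = sing H ≥ c > 0` (`sing_lower`), `r ∈ {1, ..., L-1}`.
* *Coincidences:* the `r` of the form `h' - h` (`h, h' ∈ H`): at most `k^2` values, and each
  `cnt x (H ∪ tr H r) ≤ cnt x H ≤ C S x/Λ^k` (`cnt_anti`, `SIE`).
* *Others:* `h + r ≠ h'` for all `h, h' ∈ H`; then `K = H ∪ tr H r` has `2k` elements, all of absolute value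
  `≤ 2 Λ^k ≤ Λ^(k+1)`. If `K` is not admissible: `cnt x K ≤ 2k` (`cnt_inadm`), in total `≤ 2 k L`, which is
  `≤ L S^2 x/Λ^(2k)` for large `x` because `S ≥ c`. If `K` is admissible: `SIE` with `2k` shifts and exponent
  `k+1` gives `cnt x K ≤ C sing K x/Λ^(2k)` and `SUN`:
  `sing K ≤ S^2 ∏_{h,h'} f(h + r - h')`, `f(m) = ∏_{p ∣ m} (1 + B/p)`. With `K₂ = k^2` factors:
  `∏ a_{h,h'} ≤ ∑ a_{h,h'}^{K₂}` (the largest one) and `f(m)^{K₂} ≤ ∏_{p ∣ m} (1 + B'/p)` for suitable `B'`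
  (`(1 + B/p)^{K₂} ≤ 1 + ((1+B)^{K₂})/p`, as `(1 + B t)^{K₂} - 1` is convex in `t`, `0 ≤ t ≤ 1`). Then `AVG1`
  (`Y = Λ`, exponent `k + 1`; the interval of the `h + r - h'` has length about `L ≥ Λ` for large `x`, `k ≥ 2`;
  enlarge it to `Ioc (h - h') (h - h' + L)`) gives `∑_r f(h + r - h')^{K₂} ≤ C' L`.
Total: `≤ C'' (S x/Λ^k + L S^2 x/Λ^(2k))`.
-/

set_option autoImplicit false

namespace Pool.Agent.H6.MF

open Finset

lemma SMB_pow (B : ℝ) (hB : 0 ≤ B) (K : ℕ) {t : ℝ} (ht : 0 ≤ t) (ht1 : t ≤ 1) :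
    (1 + B * t) ^ K ≤ 1 + ((1 + B) ^ K - 1) * t := by
  induction K with
  | zero => simp
  | succ K ih =>
    have hM : 0 ≤ (1 + B) ^ K - 1 := by
      have : (1 : ℝ) ≤ (1 + B) ^ K := one_le_pow₀ (by linarith)
      linarith
    calc (1 + B * t) ^ (K + 1) = (1 + B * t) ^ K * (1 + B * t) := pow_succ _ _
      _ ≤ (1 + ((1 + B) ^ K - 1) * t) * (1 + B * t) :=
          mul_le_mul_of_nonneg_right ih (by positivity)
      _ ≤ 1 + ((1 + B) ^ (K + 1) - 1) * t := by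
          rw [pow_succ]
          have h1 : 0 ≤ ((1 + B) ^ K - 1) * B * (t * (1 - t)) :=
            mul_nonneg (mul_nonneg hM hB) (mul_nonneg ht (by linarith))
          nlinarith

lemma SMB_max {ι : Type*} (s : Finset ι) (hs : s.Nonempty) (a : ι → ℝ) (ha : ∀ i ∈ s, 0 ≤ a i) :
    ∏ i ∈ s, a i ≤ ∑ i ∈ s, a i ^ s.card := by
  obtain ⟨m, hm, hmax⟩ := s.exists_max_image a hs
  calc ∏ i ∈ s, a i ≤ ∏ _i ∈ s, a m := Finset.prod_le_prod ha hmax
    _ = a m ^ s.card := by rw [Finset.prod_const]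
    _ ≤ ∑ i ∈ s, a i ^ s.card :=
        Finset.single_le_sum (f := fun i => a i ^ s.card) (fun i hi => pow_nonneg (ha i hi) _) hm

lemma SMB_G (B : ℝ) (hB : 0 ≤ B) (K : ℕ) (m : ℤ) :
    (∏ p ∈ m.natAbs.primeFactors, (1 + B / (p : ℝ))) ^ K
      ≤ ∏ p ∈ m.natAbs.primeFactors, (1 + ((1 + B) ^ K - 1) / (p : ℝ)) := by
  rw [← Finset.prod_pow]
  refine Finset.prod_le_prod (fun p _ => by positivity) (fun p hp => ?_)
  have hp1 : (1 : ℝ) ≤ (p : ℝ) := by
    exact_mod_cast (Nat.prime_of_mem_primeFactors hp).one_le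
  have := SMB_pow B hB K (t := 1 / (p : ℝ)) (by positivity)
    (by rw [div_le_one (by linarith)]; exact hp1)
  rw [mul_one_div, mul_one_div] at this
  exact this

theorem SMB (k : ℕ) (hk : 2 ≤ k) : ∃ C : ℝ, 0 < C ∧ ∀ η : ℝ, 0 < η → η ≤ 1 → ∃ X : ℝ, ∀ x : ℝ, X ≤ x →
    ∀ H : Finset ℤ, H.card = k → adm H → (∀ h ∈ H, |(h : ℝ)| ≤ (Real.log x) ^ k) →
    ∑ r ∈ Finset.Ico 1 ⌊η * (Real.log x) ^ k⌋₊, (cnt x (H ∪ tr H (r : ℤ)) : ℝ)
      ≤ C * (sing H * x / (Real.log x) ^ k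
          + (⌊η * (Real.log x) ^ k⌋₊ : ℝ) * (sing H) ^ 2 * x / (Real.log x) ^ (2 * k)) := by
  classical
  obtain ⟨C1, X1, hC1, h1⟩ := SIE k k (by omega)
  obtain ⟨C2, X2, hC2, h2⟩ := SIE (2 * k) (k + 1) (by omega)
  obtain ⟨B, hB, hsun⟩ := SUN k (by omega)
  obtain ⟨c, hc, hlow⟩ := sing_lower k
  set B' : ℝ := (1 + B) ^ (k * k) - 1 with hB'
  have hB'0 : 0 ≤ B' := by
    have : (1 : ℝ) ≤ (1 + B) ^ (k * k) := one_le_pow₀ (by linarith)
    linarith
  obtain ⟨C3, Y0, hC3, h3⟩ := AVG1 B' hB'0 (k + 1)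
  refine ⟨(k : ℝ) * k * C1 + 1 + C2 * ((k : ℝ) * k * C3), by positivity, ?_⟩
  intro η hη hη1
  have hev : ∀ᶠ x : ℝ in Filter.atTop, X1 ≤ x ∧ X2 ≤ x ∧ 0 < x ∧ 3 ≤ Real.log x ∧
      Y0 ≤ Real.log x ∧ 2 / η ≤ Real.log x ∧
      ‖Real.log x ^ (2 * k)‖ ≤ c ^ 2 / (2 * k) * ‖id x‖ := by
    have hl := Real.tendsto_log_atTop
    have e0 := (Real.isLittleO_pow_log_id_atTop (n := 2 * k)).def
      (show 0 < c ^ 2 / (2 * (k : ℝ)) by
        have : (0 : ℝ) < k := by exact_mod_cast (by omega : 0 < k)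
        positivity)
    filter_upwards [Filter.eventually_ge_atTop X1, Filter.eventually_ge_atTop X2,
      Filter.eventually_gt_atTop (0 : ℝ), hl.eventually_ge_atTop 3, hl.eventually_ge_atTop Y0,
      hl.eventually_ge_atTop (2 / η), e0] with x a1 a2 a3 a4 a5 a6 a7
    exact ⟨a1, a2, a3, a4, a5, a6, a7⟩
  obtain ⟨X, hX⟩ := Filter.eventually_atTop.1 hev
  refine ⟨X, fun x hx H hH hadm hHb => ?_⟩
  obtain ⟨b1, b2, b3, b4, b5, b6, b7⟩ := hX x hx
  set Λ : ℝ := Real.log x with hΛ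
  have hΛ0 : 0 < Λ := by linarith
  have hk0 : (0 : ℝ) < k := by exact_mod_cast (by omega : 0 < k)
  set L : ℕ := ⌊η * Λ ^ k⌋₊ with hL
  set S : ℝ := sing H with hS
  have hScs : c ≤ S := hlow H hH hadm
  have hS0 : 0 < S := hc.trans_le hScs
  have hΛk : 0 < Λ ^ k := by positivity
  have hLle : (L : ℝ) ≤ Λ ^ k := by
    calc (L : ℝ) ≤ η * Λ ^ k := Nat.floor_le (by positivity)
      _ ≤ 1 * Λ ^ k := mul_le_mul_of_nonneg_right hη1 hΛk.le
      _ = Λ ^ k := one_mul _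
  have hLge : Λ ≤ (L : ℝ) := by
    have e1 : η * Λ ^ k < (L : ℝ) + 1 := Nat.lt_floor_add_one _
    have e2 : Λ ^ 2 ≤ Λ ^ k := pow_le_pow_right₀ (by linarith) hk
    have e3 : 2 ≤ η * Λ := by
      rw [div_le_iff₀ hη] at b6; linarith
    have e4 : 2 * Λ ≤ η * Λ ^ k := by
      calc 2 * Λ ≤ (η * Λ) * Λ := mul_le_mul_of_nonneg_right e3 hΛ0.le
        _ = η * Λ ^ 2 := by ring
        _ ≤ η * Λ ^ k := mul_le_mul_of_nonneg_left e2 hη.le
    linarith
  have hΛk1 : 3 * Λ ^ k ≤ Λ ^ (k + 1) := by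
    rw [pow_succ]; nlinarith
  -- the weight for the average
  let G : ℤ → ℝ := fun m => ∏ p ∈ m.natAbs.primeFactors, (1 + B' / (p : ℝ))
  have hG0 : ∀ m, 0 ≤ G m := fun m => Finset.prod_nonneg fun p _ => by positivity
  let P : Finset (ℤ × ℤ) := H ×ˢ H
  have hPcard : P.card = k * k := by
    show (H ×ˢ H).card = k * k
    rw [Finset.card_product, hH]
  have hPne : P.Nonempty := by
    rw [← Finset.card_pos, hPcard]; positivity
  let t : ℕ → ℤ × ℤ → ℝ := fun r q => if q.1 + (r : ℤ) ≠ q.2 then G (q.1 + r - q.2) else 0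
  have ht0 : ∀ r q, 0 ≤ t r q := by
    intro r q
    simp only [t]
    split_ifs
    · exact hG0 _
    · exact le_rfl
  set W : ℝ := S ^ 2 * x / Λ ^ (2 * k) with hW
  have hW0 : 0 < W := by positivity
  have hbad0 : 0 ≤ C1 * (S * x / Λ ^ k) := by positivity
  -- pointwise bound
  have hpt : ∀ r ∈ Finset.Ico 1 L, (cnt x (H ∪ tr H (r : ℤ)) : ℝ) ≤
      (if (∃ h ∈ H, ∃ h' ∈ H, h + (r : ℤ) = h') then C1 * (S * x / Λ ^ k) else 0) +
        (2 * k + C2 * W * ∑ q ∈ P, t r q) := by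
    intro r hr
    rw [Finset.mem_Ico] at hr
    have hsum0 : 0 ≤ ∑ q ∈ P, t r q := Finset.sum_nonneg fun q _ => ht0 r q
    by_cases hb : ∃ h ∈ H, ∃ h' ∈ H, h + (r : ℤ) = h'
    · rw [if_pos hb]
      have e1 : (cnt x (H ∪ tr H (r : ℤ)) : ℝ) ≤ cnt x H := by
        exact_mod_cast cnt_anti x Finset.subset_union_left
      have e2 := h1 x b1 H hH hadm hHb
      have e3 : 0 ≤ C2 * W * ∑ q ∈ P, t r q := by positivity
      have e4 : (0 : ℝ) ≤ 2 * k := by positivity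
      linarith
    · rw [if_neg hb, zero_add]
      push Not at hb
      have hdisj : Disjoint H (tr H (r : ℤ)) := by
        rw [Finset.disjoint_left]
        intro a ha ha'
        simp only [tr, Finset.mem_image] at ha'
        obtain ⟨h, hh, he⟩ := ha'
        exact hb h hh a ha he
      have hKcard : (H ∪ tr H (r : ℤ)).card = 2 * k := by
        rw [Finset.card_union_of_disjoint hdisj, card_tr, hH]; ring
      by_cases hK : adm (H ∪ tr H (r : ℤ))
      · have hrL : (r : ℝ) ≤ Λ ^ k := by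
          have : (r : ℝ) ≤ L := by exact_mod_cast hr.2.le
          exact this.trans hLle
        have hKb : ∀ h ∈ H ∪ tr H (r : ℤ), |(h : ℝ)| ≤ Λ ^ (k + 1) := by
          intro h hh
          rw [Finset.mem_union] at hh
          rcases hh with hh | hh
          · exact (hHb h hh).trans (by linarith)
          · simp only [tr, Finset.mem_image] at hh
            obtain ⟨g, hg, rfl⟩ := hh
            push_cast
            calc |(g : ℝ) + r| ≤ |(g : ℝ)| + |(r : ℝ)| := abs_add_le _ _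
              _ ≤ Λ ^ k + Λ ^ k := by
                  refine add_le_add (hHb g hg) ?_
                  rw [abs_of_nonneg (by positivity)]; exact hrL
              _ ≤ Λ ^ (k + 1) := by linarith
        have e1 := h2 x b2 _ hKcard hK hKb
        have e2 := hsun H hH hadm (r : ℤ) hb
        have e3 : ∏ h ∈ H, ∏ h' ∈ H, ∏ p ∈ (h + (r : ℤ) - h').natAbs.primeFactors, (1 + B / (p : ℝ))
            ≤ ∑ q ∈ P, t r q := by
          rw [← Finset.prod_product' (s := H) (t := H)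
            (f := fun h h' => ∏ p ∈ (h + (r : ℤ) - h').natAbs.primeFactors, (1 + B / (p : ℝ)))]
          refine (SMB_max P hPne (fun q => ∏ p ∈ (q.1 + (r : ℤ) - q.2).natAbs.primeFactors,
            (1 + B / (p : ℝ))) (fun q _ => Finset.prod_nonneg fun p _ => by positivity)).trans ?_
          refine Finset.sum_le_sum fun q hq => ?_
          have hq' : q.1 ∈ H ∧ q.2 ∈ H := Finset.mem_product.1 hq
          have hne : q.1 + (r : ℤ) ≠ q.2 := hb q.1 hq'.1 q.2 hq'.2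
          simp only [t, if_pos hne, G]
          rw [hPcard]
          exact SMB_G B hB (k * k) _
        have e4 : sing (H ∪ tr H (r : ℤ)) ≤ S ^ 2 * ∑ q ∈ P, t r q :=
          e2.trans (mul_le_mul_of_nonneg_left e3 (by positivity))
        have e5 : C2 * (sing (H ∪ tr H (r : ℤ)) * x / Λ ^ (2 * k)) ≤
            C2 * (S ^ 2 * (∑ q ∈ P, t r q) * x / Λ ^ (2 * k)) := by
          gcongr
        have e6 : C2 * (S ^ 2 * (∑ q ∈ P, t r q) * x / Λ ^ (2 * k)) =
            C2 * W * ∑ q ∈ P, t r q := by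
          rw [hW]; ring
        have e7 : (0 : ℝ) ≤ 2 * k := by positivity
        linarith
      · have e1 : (cnt x (H ∪ tr H (r : ℤ)) : ℝ) ≤ 2 * k := by
          have := cnt_inadm x hK
          rw [hKcard] at this
          exact_mod_cast this
        have e3 : 0 ≤ C2 * W * ∑ q ∈ P, t r q := by positivity
        linarith
  -- the average over r for fixed q
  have hq : ∀ q ∈ P, ∑ r ∈ Finset.Ico 1 L, t r q ≤ C3 * L := by
    intro q hqP
    have hq' : q.1 ∈ H ∧ q.2 ∈ H := Finset.mem_product.1 hqP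
    have e1 : ∑ r ∈ Finset.Ico 1 L, t r q =
        ∑ r ∈ (Finset.Ico 1 L).filter (fun r : ℕ => q.1 + (r : ℤ) ≠ q.2),
          G (q.1 + (r : ℤ) - q.2) := by
      rw [Finset.sum_filter]
    have hinj : Set.InjOn (fun r : ℕ => q.1 + (r : ℤ) - q.2)
        (((Finset.Ico 1 L).filter (fun r : ℕ => q.1 + (r : ℤ) ≠ q.2) : Finset ℕ) : Set ℕ) := by
      intro a _ b _ hab
      have : q.1 + (a : ℤ) - q.2 = q.1 + (b : ℤ) - q.2 := hab
      omega
    have e2 : ∑ r ∈ (Finset.Ico 1 L).filter (fun r : ℕ => q.1 + (r : ℤ) ≠ q.2),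
          G (q.1 + (r : ℤ) - q.2) =
        ∑ n ∈ ((Finset.Ico 1 L).filter (fun r : ℕ => q.1 + (r : ℤ) ≠ q.2)).image
          (fun r : ℕ => q.1 + (r : ℤ) - q.2), G n := by
      rw [Finset.sum_image hinj]
    have hsub : ((Finset.Ico 1 L).filter (fun r : ℕ => q.1 + (r : ℤ) ≠ q.2)).image
          (fun r : ℕ => q.1 + (r : ℤ) - q.2) ⊆
        (Finset.Ioc (q.1 - q.2) (q.1 - q.2 + (L : ℤ))).erase 0 := by
      intro n hn
      rw [Finset.mem_image] at hn
      obtain ⟨r, hr, rfl⟩ := hn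
      rw [Finset.mem_filter, Finset.mem_Ico] at hr
      rw [Finset.mem_erase, Finset.mem_Ioc]
      have := hr.2
      refine ⟨by omega, by omega, by omega⟩
    have a1 := hHb q.1 hq'.1
    have a2 := hHb q.2 hq'.2
    rw [abs_le] at a1 a2
    have e3 := h3 Λ b5 (q.1 - q.2) (q.1 - q.2 + (L : ℤ))
      (by push_cast; rw [abs_le]; constructor <;> linarith [a1.1, a1.2, a2.1, a2.2])
      (by push_cast; rw [abs_le]; constructor <;> linarith [a1.1, a1.2, a2.1, a2.2])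
      (by push_cast; linarith)
    have e4 : (((q.1 - q.2 + (L : ℤ) : ℤ) : ℝ) - ((q.1 - q.2 : ℤ) : ℝ)) = L := by
      push_cast; ring
    rw [e4] at e3
    rw [e1, e2]
    exact (Finset.sum_le_sum_of_subset_of_nonneg hsub fun n _ _ => hG0 n).trans e3
  -- the number of coincidences
  have hcoin : (((Finset.Ico 1 L).filter (fun r : ℕ => ∃ h ∈ H, ∃ h' ∈ H, h + (r : ℤ) = h')).card : ℝ)
      ≤ (k : ℝ) * k := by
    have hsub : (Finset.Ico 1 L).filter (fun r : ℕ => ∃ h ∈ H, ∃ h' ∈ H, h + (r : ℤ) = h') ⊆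
        P.image (fun q => (q.2 - q.1).toNat) := by
      intro r hr
      rw [Finset.mem_filter] at hr
      obtain ⟨_, h, hh, h', hh', he⟩ := hr
      rw [Finset.mem_image]
      refine ⟨(h, h'), Finset.mem_product.2 ⟨hh, hh'⟩, ?_⟩
      show (h' - h).toNat = r
      omega
    have := (Finset.card_le_card hsub).trans Finset.card_image_le
    rw [hPcard] at this
    exact_mod_cast this
  have hfirst : ∑ r ∈ Finset.Ico 1 L, (if (∃ h ∈ H, ∃ h' ∈ H, h + (r : ℤ) = h')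
      then C1 * (S * x / Λ ^ k) else 0) ≤ (k : ℝ) * k * (C1 * (S * x / Λ ^ k)) := by
    rw [← Finset.sum_filter, Finset.sum_const, nsmul_eq_mul]
    exact mul_le_mul_of_nonneg_right hcoin hbad0
  have hsecond : ∑ r ∈ Finset.Ico 1 L, (2 * (k : ℝ)) ≤ L * W := by
    rw [Finset.sum_const, nsmul_eq_mul, Nat.card_Ico]
    have e1 : ((L - 1 : ℕ) : ℝ) ≤ L := by exact_mod_cast Nat.sub_le L 1
    have e2 : 2 * (k : ℝ) ≤ W := by
      rw [Real.norm_of_nonneg (by positivity), id, Real.norm_of_nonneg b3.le] at b7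
      rw [hW, le_div_iff₀ (by positivity)]
      have e3 : 2 * (k : ℝ) * Λ ^ (2 * k) ≤ c ^ 2 * x := by
        calc 2 * (k : ℝ) * Λ ^ (2 * k) ≤ 2 * (k : ℝ) * (c ^ 2 / (2 * k) * x) :=
              mul_le_mul_of_nonneg_left b7 (by positivity)
          _ = c ^ 2 * x := by field_simp
      have e4 : c ^ 2 * x ≤ S ^ 2 * x :=
        mul_le_mul_of_nonneg_right (pow_le_pow_left₀ hc.le hScs 2) b3.le
      linarith
    exact mul_le_mul e1 e2 (by positivity) (by positivity)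
  have hthird : ∑ r ∈ Finset.Ico 1 L, C2 * W * ∑ q ∈ P, t r q ≤
      C2 * W * ((k : ℝ) * k * (C3 * L)) := by
    rw [← Finset.mul_sum, Finset.sum_comm]
    refine mul_le_mul_of_nonneg_left ?_ (by positivity)
    calc ∑ q ∈ P, ∑ r ∈ Finset.Ico 1 L, t r q ≤ ∑ _q ∈ P, C3 * L := Finset.sum_le_sum hq
      _ = (k : ℝ) * k * (C3 * L) := by
          rw [Finset.sum_const, nsmul_eq_mul, hPcard]; push_cast; ring
  calc ∑ r ∈ Finset.Ico 1 L, (cnt x (H ∪ tr H (r : ℤ)) : ℝ)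
      ≤ ∑ r ∈ Finset.Ico 1 L, ((if (∃ h ∈ H, ∃ h' ∈ H, h + (r : ℤ) = h')
          then C1 * (S * x / Λ ^ k) else 0) + (2 * k + C2 * W * ∑ q ∈ P, t r q)) :=
        Finset.sum_le_sum hpt
    _ ≤ (k : ℝ) * k * (C1 * (S * x / Λ ^ k)) + (L * W + C2 * W * ((k : ℝ) * k * (C3 * L))) := by
        rw [Finset.sum_add_distrib, Finset.sum_add_distrib]
        exact add_le_add hfirst (add_le_add hsecond hthird)
    _ ≤ ((k : ℝ) * k * C1 + 1 + C2 * ((k : ℝ) * k * C3)) *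
          (S * x / Λ ^ k + (L : ℝ) * S ^ 2 * x / Λ ^ (2 * k)) := by
        have e1 : (L : ℝ) * S ^ 2 * x / Λ ^ (2 * k) = L * W := by rw [hW]; ring
        rw [e1]
        have p1 : 0 ≤ S * x / Λ ^ k := by positivity
        have p2 : 0 ≤ (L : ℝ) * W := by positivity
        have p3 : 0 ≤ (k : ℝ) * k * C1 := by positivity
        have p4 : 0 ≤ C2 * ((k : ℝ) * k * C3) := by positivity
        nlinarith [mul_nonneg p3 p2, mul_nonneg p4 p1, mul_nonneg p4 p2, mul_nonneg p3 p1]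

end Pool.Agent.H6.MF
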