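import Pool.Agent.H6.MF.Defs
import Pool.Agent.H17.PNT

/-!
# FMO: first moments of the number of primes in windows (from the prime number theorem)

`∑_{n ≤ N} win u v n = ∑_{b ∈ Ioc u v} #{0 ≤ n ≤ N : n - b prime}` (exchange the sums:
`Finset.sum_comm`, `Finset.card_filter`). For each `b` the map `n ↦ (n - b).toNat` is a bijection of
`{n : 0 ≤ n ≤ N, n - b prime}` onto the primes `q ≤ N - b` with `q ≥ -b`; so the count differs from
`π(N)` by at most `|b|` (for `b ≥ 0` it is `#{q prime, q ≤ N - b}`; for `b < 0` it is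
`#{q prime, -b ≤ q ≤ N - b}`; two injections up to `|b|` exceptional values are enough).
With `π(N) = (1 + o(1)) x / log x` (`Pool.Agent.H17.pi_tendsto`, a limit in terms of
`Nat.primeCounting ⌊x⌋₊`; `Nat.primeCounting N` is the number of primes `≤ N`, e.g.
`Nat.primesLE_card_eq_primeCounting`) and
`|b| ≤ 3 (log x)^k ≤ (ε/2) x / log x` for large `x` the sum over the `v - u` values `b` gives the claim.
-/

set_option autoImplicit false

namespace Pool.Agent.H6.MF

open Finset Filter Topology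

lemma FMO_card_eq (N : ℕ) (b : ℤ) :
    ((Finset.range (N + 1)).filter (fun n : ℕ => isP ((n : ℤ) - b))).card
      = ((Finset.Icc (-b) ((N : ℤ) - b)).filter isP).card := by
  apply Finset.card_nbij' (i := fun n : ℕ => (n : ℤ) - b) (j := fun m : ℤ => (m + b).toNat)
  · intro n hn
    simp only [Finset.coe_filter, Set.mem_ofPred_eq, Finset.mem_Icc, Finset.mem_range] at hn ⊢
    exact ⟨⟨by omega, by omega⟩, hn.2⟩
  · intro m hm
    simp only [Finset.coe_filter, Set.mem_ofPred_eq, Finset.mem_Icc, Finset.mem_range] at hm ⊢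
    refine ⟨by omega, ?_⟩
    have e : (((m + b).toNat : ℕ) : ℤ) - b = m := by
      rw [Int.toNat_of_nonneg (by omega)]; ring
    rw [e]
    exact hm.2
  · intro n _
    show (((n : ℤ) - b) + b).toNat = n
    simp
  · intro m hm
    simp only [Finset.coe_filter, Set.mem_ofPred_eq, Finset.mem_Icc] at hm
    show (((m + b).toNat : ℕ) : ℤ) - b = m
    rw [Int.toNat_of_nonneg (by omega)]; ring

lemma FMO_pi (N : ℕ) : Nat.primeCounting N = ((Finset.Icc (-(0 : ℤ)) ((N : ℤ) - 0)).filter isP).card := by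
  rw [← FMO_card_eq N 0]
  unfold Nat.primeCounting Nat.primeCounting'
  rw [Nat.count_eq_card_filter_range]
  congr 1

lemma FMO_cnt (N : ℕ) (b : ℤ) :
    |(((Finset.range (N + 1)).filter (fun n : ℕ => isP ((n : ℤ) - b))).card : ℝ) - (Nat.primeCounting N : ℝ)|
      ≤ |(b : ℝ)| := by
  rw [FMO_card_eq, FMO_pi]
  have h1 : ((Finset.Icc (-b) ((N : ℤ) - b)).filter isP).card
      ≤ ((Finset.Icc (-(0 : ℤ)) ((N : ℤ) - 0)).filter isP).card + b.natAbs := by
    rcases le_or_gt 0 b with hb | hb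
    · have h2 : (Finset.Icc (-b) ((N : ℤ) - b)).filter isP
          ⊆ (Finset.Icc (-(0 : ℤ)) ((N : ℤ) - 0)).filter isP ∪ Finset.Icc (-b) (-1) := by
        intro m hm
        simp only [Finset.mem_union, Finset.mem_filter, Finset.mem_Icc] at hm ⊢
        by_cases h : 0 ≤ m
        · left; exact ⟨⟨by omega, by omega⟩, hm.2⟩
        · right; exact ⟨by omega, by omega⟩
      refine ((Finset.card_le_card h2).trans (Finset.card_union_le _ _)).trans ?_
      rw [Int.card_Icc (-b) (-1)]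
      omega
    · have h2 : (Finset.Icc (-b) ((N : ℤ) - b)).filter isP
          ⊆ (Finset.Icc (-(0 : ℤ)) ((N : ℤ) - 0)).filter isP ∪ Finset.Ioc (N : ℤ) (N - b) := by
        intro m hm
        simp only [Finset.mem_union, Finset.mem_filter, Finset.mem_Icc, Finset.mem_Ioc] at hm ⊢
        by_cases h : m ≤ N
        · left; exact ⟨⟨by omega, by omega⟩, hm.2⟩
        · right; exact ⟨by omega, by omega⟩
      refine ((Finset.card_le_card h2).trans (Finset.card_union_le _ _)).trans ?_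
      rw [Int.card_Ioc]
      omega
  have h1' : ((Finset.Icc (-(0 : ℤ)) ((N : ℤ) - 0)).filter isP).card
      ≤ ((Finset.Icc (-b) ((N : ℤ) - b)).filter isP).card + b.natAbs := by
    rcases le_or_gt 0 b with hb | hb
    · have h2 : (Finset.Icc (-(0 : ℤ)) ((N : ℤ) - 0)).filter isP
          ⊆ (Finset.Icc (-b) ((N : ℤ) - b)).filter isP ∪ Finset.Ioc ((N : ℤ) - b) N := by
        intro m hm
        simp only [Finset.mem_union, Finset.mem_filter, Finset.mem_Icc, Finset.mem_Ioc] at hm ⊢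
        by_cases h : m ≤ N - b
        · left; exact ⟨⟨by omega, by omega⟩, hm.2⟩
        · right; exact ⟨by omega, by omega⟩
      refine ((Finset.card_le_card h2).trans (Finset.card_union_le _ _)).trans ?_
      rw [Int.card_Ioc]
      omega
    · have h2 : (Finset.Icc (-(0 : ℤ)) ((N : ℤ) - 0)).filter isP
          ⊆ (Finset.Icc (-b) ((N : ℤ) - b)).filter isP ∪ Finset.Ico (0 : ℤ) (-b) := by
        intro m hm
        simp only [Finset.mem_union, Finset.mem_filter, Finset.mem_Icc, Finset.mem_Ico] at hm ⊢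
        by_cases h : -b ≤ m
        · left; exact ⟨⟨by omega, by omega⟩, hm.2⟩
        · right; exact ⟨by omega, by omega⟩
      refine ((Finset.card_le_card h2).trans (Finset.card_union_le _ _)).trans ?_
      rw [Int.card_Ico]
      omega
  have h3 : ((b.natAbs : ℕ) : ℝ) = |(b : ℝ)| := by
    rw [Nat.cast_natAbs, Int.cast_abs]
  have h4 : ((((Finset.Icc (-b) ((N : ℤ) - b)).filter isP).card : ℕ) : ℝ)
      ≤ ((((Finset.Icc (-(0 : ℤ)) ((N : ℤ) - 0)).filter isP).card : ℕ) : ℝ) + ((b.natAbs : ℕ) : ℝ) := by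
    exact_mod_cast h1
  have h5 : ((((Finset.Icc (-(0 : ℤ)) ((N : ℤ) - 0)).filter isP).card : ℕ) : ℝ)
      ≤ ((((Finset.Icc (-b) ((N : ℤ) - b)).filter isP).card : ℕ) : ℝ) + ((b.natAbs : ℕ) : ℝ) := by
    exact_mod_cast h1'
  rw [h3] at h4 h5
  rw [abs_le]
  constructor <;> linarith

lemma FMO_sum (N : ℕ) (u v : ℤ) :
    ∑ n ∈ Finset.range (N + 1), (win u v (n : ℤ) : ℝ)
      = ∑ b ∈ Finset.Ioc u v, (((Finset.range (N + 1)).filter (fun n : ℕ => isP ((n : ℤ) - b))).card : ℝ) := by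
  simp only [win, Finset.card_filter]
  push_cast
  rw [Finset.sum_comm]

theorem FMO (k : ℕ) (ε : ℝ) (hε : 0 < ε) : ∃ X : ℝ, ∀ x : ℝ, X ≤ x → ∀ u v : ℤ,
    |(u : ℝ)| ≤ 3 * (Real.log x) ^ k → |(v : ℝ)| ≤ 3 * (Real.log x) ^ k → u ≤ v →
    |∑ n ∈ Finset.range (⌊x⌋₊ + 1), (win u v (n : ℤ) : ℝ) - ((v : ℝ) - u) * x / Real.log x|
      ≤ ε * (((v : ℝ) - u) * x / Real.log x) := by
  have hlog : Tendsto Real.log atTop atTop := Real.tendsto_log_atTop
  have e1 := (Metric.tendsto_nhds.mp Pool.Agent.H17.pi_tendsto) (ε / 2) (by positivity)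
  have e2 := (Real.isLittleO_pow_log_id_atTop (n := k + 1)).def (show (0 : ℝ) < ε / 6 by positivity)
  have e3 := hlog.eventually_ge_atTop 1
  have e4 := Filter.eventually_ge_atTop (1 : ℝ)
  obtain ⟨X, hX⟩ := Filter.eventually_atTop.mp (e1.and (e2.and (e3.and e4)))
  refine ⟨X, fun x hx u v hu hv huv => ?_⟩
  obtain ⟨h1, h2, h3, h4⟩ := hX x hx
  have hx0 : 0 < x := by linarith
  have hL0 : 0 < Real.log x := by linarith
  rw [Real.dist_eq] at h1
  have h5 : |(Nat.primeCounting ⌊x⌋₊ : ℝ) - x / Real.log x| ≤ ε / 2 * (x / Real.log x) := by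
    have e : (Nat.primeCounting ⌊x⌋₊ : ℝ) - x / Real.log x
        = ((Nat.primeCounting ⌊x⌋₊ : ℝ) * Real.log x / x - 1) * (x / Real.log x) := by
      field_simp
    rw [e, abs_mul, abs_of_pos (show 0 < x / Real.log x by positivity)]
    exact mul_le_mul_of_nonneg_right h1.le (by positivity)
  have h6 : 3 * (Real.log x) ^ k ≤ ε / 2 * (x / Real.log x) := by
    have e : ‖Real.log x ^ (k + 1)‖ = Real.log x ^ k * Real.log x := by
      rw [Real.norm_of_nonneg (by positivity), pow_succ]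
    rw [e, id, Real.norm_of_nonneg hx0.le] at h2
    have e' : ε / 2 * (x / Real.log x) = (3 * (ε / 6 * x)) / Real.log x := by ring
    rw [e', le_div_iff₀ hL0]
    linarith
  rw [FMO_sum]
  have h7 : ((v : ℝ) - u) * x / Real.log x = ∑ b ∈ Finset.Ioc u v, x / Real.log x := by
    rw [Finset.sum_const, nsmul_eq_mul, Int.card_Ioc]
    have e : (((v - u).toNat : ℕ) : ℝ) = (v : ℝ) - u := by
      have e0 : (((v - u).toNat : ℕ) : ℤ) = v - u := Int.toNat_of_nonneg (by omega)
      have e1 : ((((v - u).toNat : ℕ) : ℤ) : ℝ) = ((v - u : ℤ) : ℝ) := by rw [e0]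
      push_cast at e1
      exact e1
    rw [e]; ring
  have h8 : ε * (((v : ℝ) - u) * x / Real.log x) = ∑ b ∈ Finset.Ioc u v, ε * (x / Real.log x) := by
    rw [h7, Finset.mul_sum]
  rw [h8, h7, ← Finset.sum_sub_distrib]
  refine (Finset.abs_sum_le_sum_abs _ _).trans (Finset.sum_le_sum fun b hb => ?_)
  rw [Finset.mem_Ioc] at hb
  have h9 : |(b : ℝ)| ≤ 3 * (Real.log x) ^ k := by
    rw [abs_le] at hu hv ⊢
    have b1 : (u : ℝ) ≤ b := by exact_mod_cast hb.1.le
    have b2 : (b : ℝ) ≤ v := by exact_mod_cast hb.2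
    constructor <;> linarith
  have h10 := FMO_cnt ⌊x⌋₊ b
  have h11 := abs_add_le
    ((((Finset.range (⌊x⌋₊ + 1)).filter (fun n : ℕ => isP ((n : ℤ) - b))).card : ℝ) - (Nat.primeCounting ⌊x⌋₊ : ℝ))
    ((Nat.primeCounting ⌊x⌋₊ : ℝ) - x / Real.log x)
  rw [sub_add_sub_cancel] at h11
  refine h11.trans ?_
  have h12 : ε * (x / Real.log x) = ε / 2 * (x / Real.log x) + ε / 2 * (x / Real.log x) := by ring
  linarith

end Pool.Agent.H6.MF
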