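import Mathlib

/-!
# JEN: a moment close to its minimum forces concentration

Put `y i = X i / M ≥ 0`. Then `∑ y i ≥ (1 - ε) x`, `∑ (y i)^j ≤ (1 + ε) x`, `card s ≤ (1 + ε) x`.

* `j = 2`: `(y-1)^2 = y^2 - 2 y + 1`, the sum is `≤ (1+ε) x - 2 (1-ε) x + (1+ε) x = 4 ε x`.
* `j = 3`: `y^3 - 3 y + 2 = (y-1)^2 (y+2) ≥ 2 (y-1)^2`, the sum of `(y-1)^2` is
  `≤ (1/2) ((1+ε) - 3 (1-ε) + 2 (1+ε)) x = 3 ε x`.
* `j = 4`: `y^4 - 4 y + 3 = (y-1)^2 (y^2 + 2 y + 3) ≥ 3 (y-1)^2`, the sum of `(y-1)^2` is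
  `≤ (1/3) ((1+ε) - 4 (1-ε) + 3 (1+ε)) x = (8/3) ε x`.
Multiply by `M^2`.
-/

set_option autoImplicit false

namespace Pool.Agent.H6.MF

open Finset

theorem jensen2 {ι : Type*} (s : Finset ι) (X : ι → ℝ) (M ε x : ℝ) (hM : 0 < M)
    (h1 : (1 - ε) * (M * x) ≤ ∑ i ∈ s, X i) (h2 : ∑ i ∈ s, X i ^ 2 ≤ (1 + ε) * (M ^ 2 * x))
    (hc : (s.card : ℝ) ≤ (1 + ε) * x) : ∑ i ∈ s, (X i - M) ^ 2 ≤ 4 * ε * (M ^ 2 * x) := by
  have e : ∑ i ∈ s, (X i - M) ^ 2 = ∑ i ∈ s, X i ^ 2 - 2 * M * ∑ i ∈ s, X i + M ^ 2 * s.card := by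
    rw [Finset.mul_sum, ← Finset.sum_sub_distrib, mul_comm (M ^ 2), ← nsmul_eq_mul,
      ← Finset.sum_const, ← Finset.sum_add_distrib]
    refine Finset.sum_congr rfl fun i _ => ?_
    ring
  have h3 := mul_le_mul_of_nonneg_left h1 (by positivity : (0 : ℝ) ≤ 2 * M)
  have h4 := mul_le_mul_of_nonneg_left hc (by positivity : (0 : ℝ) ≤ M ^ 2)
  rw [e]
  linarith

theorem jensen3 {ι : Type*} (s : Finset ι) (X : ι → ℝ) (M ε x : ℝ) (hM : 0 < M) (hX : ∀ i ∈ s, 0 ≤ X i)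
    (hε : 0 ≤ ε) (hx : 0 ≤ x)
    (h1 : (1 - ε) * (M * x) ≤ ∑ i ∈ s, X i) (h3 : ∑ i ∈ s, X i ^ 3 ≤ (1 + ε) * (M ^ 3 * x))
    (hc : (s.card : ℝ) ≤ (1 + ε) * x) : ∑ i ∈ s, (X i - M) ^ 2 ≤ 4 * ε * (M ^ 2 * x) := by
  have e : (2 * M) * ∑ i ∈ s, (X i - M) ^ 2 ≤
      ∑ i ∈ s, X i ^ 3 - 3 * M ^ 2 * ∑ i ∈ s, X i + 2 * M ^ 3 * s.card := by
    rw [Finset.mul_sum, Finset.mul_sum, ← Finset.sum_sub_distrib, mul_comm (2 * M ^ 3), ← nsmul_eq_mul,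
      ← Finset.sum_const, ← Finset.sum_add_distrib]
    refine Finset.sum_le_sum fun i hi => ?_
    have h := hX i hi
    have h' : 0 ≤ (X i - M) ^ 2 * X i := by positivity
    nlinarith
  have h5 := mul_le_mul_of_nonneg_left h1 (by positivity : (0 : ℝ) ≤ 3 * M ^ 2)
  have h6 := mul_le_mul_of_nonneg_left hc (by positivity : (0 : ℝ) ≤ 2 * M ^ 3)
  have h7 : (2 * M) * ∑ i ∈ s, (X i - M) ^ 2 ≤ (2 * M) * (3 * ε * (M ^ 2 * x)) := by linarith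
  have h8 := le_of_mul_le_mul_left h7 (by positivity)
  have h9 : 0 ≤ ε * (M ^ 2 * x) := by positivity
  linarith

theorem jensen4 {ι : Type*} (s : Finset ι) (X : ι → ℝ) (M ε x : ℝ) (hM : 0 < M) (hX : ∀ i ∈ s, 0 ≤ X i)
    (hε : 0 ≤ ε) (hx : 0 ≤ x)
    (h1 : (1 - ε) * (M * x) ≤ ∑ i ∈ s, X i) (h4 : ∑ i ∈ s, X i ^ 4 ≤ (1 + ε) * (M ^ 4 * x))
    (hc : (s.card : ℝ) ≤ (1 + ε) * x) : ∑ i ∈ s, (X i - M) ^ 2 ≤ 4 * ε * (M ^ 2 * x) := by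
  have e : (3 * M ^ 2) * ∑ i ∈ s, (X i - M) ^ 2 ≤
      ∑ i ∈ s, X i ^ 4 - 4 * M ^ 3 * ∑ i ∈ s, X i + 3 * M ^ 4 * s.card := by
    rw [Finset.mul_sum, Finset.mul_sum, ← Finset.sum_sub_distrib, mul_comm (3 * M ^ 4), ← nsmul_eq_mul,
      ← Finset.sum_const, ← Finset.sum_add_distrib]
    refine Finset.sum_le_sum fun i hi => ?_
    have h := hX i hi
    have h' : 0 ≤ (X i - M) ^ 2 * (X i * (X i + 2 * M)) := by positivity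
    nlinarith
  have h5 := mul_le_mul_of_nonneg_left h1 (by positivity : (0 : ℝ) ≤ 4 * M ^ 3)
  have h6 := mul_le_mul_of_nonneg_left hc (by positivity : (0 : ℝ) ≤ 3 * M ^ 4)
  have h7 : (3 * M ^ 2) * ∑ i ∈ s, (X i - M) ^ 2 ≤ (3 * M ^ 2) * (8 / 3 * ε * (M ^ 2 * x)) := by linarith
  have h8 := le_of_mul_le_mul_left h7 (by positivity)
  have h9 : 0 ≤ ε * (M ^ 2 * x) := by positivity
  linarith

/-- `N^3 ≤ 6 C(N,3) + 3 N^2` and `3 N^2 ≤ N^3 / T + 27 T^2` (compare `N` with `3 T`). -/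
theorem cube_le (N : ℕ) (T : ℝ) (hT : 0 < T) :
    (1 - 1 / T) * (N : ℝ) ^ 3 ≤ 6 * (N.choose 3 : ℝ) + 27 * T ^ 2 := by
  have h1 : (N : ℝ) ^ 3 - 3 * (N : ℝ) ^ 2 ≤ 6 * (N.choose 3 : ℝ) := by
    rcases Nat.lt_or_ge N 2 with h | h
    · interval_cases N <;> norm_num
    · obtain ⟨m, rfl⟩ := Nat.exists_eq_add_of_le' h
      have h2 : (6 : ℝ) * ((m + 2).choose 3 : ℝ) = ((m : ℝ) + 2) * (m + 1) * m := by
        have h3 := Nat.descFactorial_eq_factorial_mul_choose (m + 2) 3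
        have h4 : (m + 2).descFactorial 3 = (m + 2 - 2) * ((m + 2 - 1) * (m + 2)) := by
          simp [Nat.descFactorial]
        rw [h4] at h3
        have h5 : (m + 2 - 2) * ((m + 2 - 1) * (m + 2)) = m * ((m + 1) * (m + 2)) := rfl
        rw [h5, show Nat.factorial 3 = 6 from rfl] at h3
        have h6 : ((m * ((m + 1) * (m + 2)) : ℕ) : ℝ) = ((6 * (m + 2).choose 3 : ℕ) : ℝ) := by rw [h3]
        push_cast at h6
        linarith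
      rw [h2]
      push_cast
      have : (0 : ℝ) ≤ m := Nat.cast_nonneg _
      nlinarith
  have hN : (0 : ℝ) ≤ (N : ℝ) := Nat.cast_nonneg _
  have h2 : 3 * (N : ℝ) ^ 2 ≤ 1 / T * (N : ℝ) ^ 3 + 27 * T ^ 2 := by
    rcases le_total (3 * T) N with h | h
    · have h3 : 3 * (N : ℝ) ^ 2 ≤ 1 / T * (N : ℝ) ^ 3 := by
        rw [one_div, inv_mul_eq_div, le_div_iff₀ hT]
        have : (0 : ℝ) ≤ (N : ℝ) ^ 2 := by positivity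
        nlinarith
      have : (0 : ℝ) ≤ 27 * T ^ 2 := by positivity
      linarith
    · have h3 : (N : ℝ) ^ 2 ≤ (3 * T) ^ 2 := pow_le_pow_left₀ hN h 2
      have : (0 : ℝ) ≤ 1 / T * (N : ℝ) ^ 3 := by positivity
      nlinarith
  have h3 : (1 - 1 / T) * (N : ℝ) ^ 3 = (N : ℝ) ^ 3 - 1 / T * (N : ℝ) ^ 3 := by ring
  rw [h3]
  linarith

end Pool.Agent.H6.MF
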