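import Pool.Agent.H6.MF.BAS

/-!
# UCH: `choose_pairs` and `choose_triples` (the header is shared with UPC.lean)

`ℓ = ⌊τ Λ^2⌋₊` with `τ ≤ 1/4`, `M = ℓ/Λ` (about `τ Λ → ∞`), `w(n) = win 0 ℓ n`.
First moment (`FMO`, `k = 2`): `∑_{n ≤ N} w(n) = (1 + o(1)) M x`. `N + 1 ≤ (1 + ε) x`.

* `choose_pairs`: `∑_{n ≤ N} C(w(n), 2) ≤ ∑_{d=1}^{ℓ} (ℓ - d) cnt x {0, d}`: `C(w(n),2)` is the number of pairs
  `0 < b₁ < b₂ ≤ ℓ` with `n - b₁, n - b₂` prime (`Finset.card_powersetCard`, or ordered pairs); for fixed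
  `(b₁,b₂)` the number of `n ≤ N` is `cnt x {b₁, b₂} ≤ cnt x {0, b₂ - b₁}` (`cnt_tr_le` with `b = b₁`); for a
  given `d = b₂ - b₁ ≥ 1` there are `ℓ - d` choices of `b₁`.
* `choose_triples`: in the same way `∑_{n ≤ N} C(w(n), 3) ≤ ∑_{d ≤ ℓ} ∑_{1 ≤ d' < d} (ℓ - d) cnt x {0, d', d}`
  (`b₁ < b₂ < b₃`, `d' = b₂ - b₁`, `d = b₃ - b₁`).
* `A2C`: `∑_{d ≤ ℓ} (ℓ - d) cnt x {0,d} = ∑_{s < ℓ} ∑_{d ≤ s} cnt x {0,d}`. `A2up` with `ε' = ε/10` and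
  `t' = τ ε/100`: for `s ≥ t' Λ^2` the inner sum is `≤ (1+ε') s x/Λ^2`, for smaller `s` it is at most the one
  for `s₀ = ⌈t' Λ^2⌉₊`. Total `≤ (1+ε') (x/Λ^2) (ℓ^2/2 + ℓ s₀)`, `ℓ s₀ ≤ (ε/20) ℓ^2`. `w^2 = 2 C(w,2) + w`, so
  `∑ w^2 ≤ (1 + ε/2) M^2 x + 2 M x ≤ (1+ε) M^2 x`. `jensen2`.
* `A3C`: `∑ (ℓ - d) ∑_{d'} cnt x {0,d',d} = ∑_{s<ℓ} ∑_{d ≤ s} ∑_{d' < d} cnt x {0,d',d}
  ≤ (1+ε') (x/Λ^3) (ℓ^3/6 + ℓ s₀^2)`. `cube_le` with a large fixed `T`: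
  `(1 - 1/T) ∑ w^3 ≤ 6 ∑ C(w,3) + 27 T^2 (N+1) ≤ (1+ε'') M^3 x` since `M → ∞`. `jensen3`.
(`M` versus `τ Λ^k/Λ` in the definition of `BaseConc`: `M ≤ τ Λ^2/Λ`.)
-/

set_option autoImplicit false

namespace Pool.Agent.H6.MF

open Finset

private lemma UCH_two (n : ℤ) (ℓ : ℕ) :
    (win 0 (ℓ : ℤ) n).choose 2 ≤ ∑ d ∈ Finset.Icc 1 ℓ, ∑ b ∈ Finset.Ioc (0 : ℤ) ((ℓ : ℤ) - d),
      (if ∀ h ∈ ({b, b + (d : ℤ)} : Finset ℤ), isP (n - h) then 1 else 0) := by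
  unfold win
  rw [← Finset.card_powersetCard]
  have h1 : Finset.powersetCard 2 ((Finset.Ioc 0 (ℓ : ℤ)).filter (fun b => isP (n - b)))
      ⊆ (((Finset.Icc 1 ℓ).sigma (fun d : ℕ => Finset.Ioc (0 : ℤ) ((ℓ : ℤ) - d))).filter
          (fun z : (Σ _ : ℕ, ℤ) => ∀ h ∈ ({z.2, z.2 + (z.1 : ℤ)} : Finset ℤ), isP (n - h))).image
          (fun z => ({z.2, z.2 + (z.1 : ℤ)} : Finset ℤ)) := by
    intro S hS
    rw [Finset.mem_powersetCard] at hS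
    obtain ⟨hS1, hS2⟩ := hS
    obtain ⟨x, y, hxy, rfl⟩ := Finset.card_eq_two.mp hS2
    have hx := hS1 (show x ∈ ({x, y} : Finset ℤ) by simp)
    have hy := hS1 (show y ∈ ({x, y} : Finset ℤ) by simp)
    rw [Finset.mem_filter, Finset.mem_Ioc] at hx hy
    have main : ∀ x y : ℤ, x < y → (0 < x ∧ x ≤ (ℓ : ℤ)) ∧ isP (n - x) → (0 < y ∧ y ≤ (ℓ : ℤ)) ∧ isP (n - y) →
        ({x, y} : Finset ℤ) ∈ (((Finset.Icc 1 ℓ).sigma (fun d : ℕ => Finset.Ioc (0 : ℤ) ((ℓ : ℤ) - d))).filter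
          (fun z : (Σ _ : ℕ, ℤ) => ∀ h ∈ ({z.2, z.2 + (z.1 : ℤ)} : Finset ℤ), isP (n - h))).image
          (fun z => ({z.2, z.2 + (z.1 : ℤ)} : Finset ℤ)) := by
      intro x y hlt hx hy
      rw [Finset.mem_image]
      obtain ⟨d, hd⟩ : ∃ d : ℕ, y = x + d := ⟨(y - x).toNat, by omega⟩
      refine ⟨⟨d, x⟩, ?_, ?_⟩
      · rw [Finset.mem_filter, Finset.mem_sigma, Finset.mem_Icc, Finset.mem_Ioc]
        refine ⟨⟨by dsimp only; omega, by dsimp only; omega⟩, ?_⟩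
        intro h hh
        dsimp only at hh
        rw [Finset.mem_insert, Finset.mem_singleton] at hh
        rcases hh with rfl | rfl
        · exact hx.2
        · rw [← hd]; exact hy.2
      · dsimp only
        rw [hd]
    rcases lt_or_gt_of_ne hxy with h | h
    · exact main x y h hx hy
    · rw [Finset.pair_comm]
      exact main y x h hy hx
  refine (Finset.card_le_card h1).trans (Finset.card_image_le.trans ?_)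
  rw [Finset.card_filter, Finset.sum_sigma]

private lemma UCH_three (n : ℤ) (ℓ : ℕ) :
    (win 0 (ℓ : ℤ) n).choose 3 ≤ ∑ d ∈ Finset.Icc 1 ℓ, ∑ d' ∈ Finset.Ico 1 d,
      ∑ b ∈ Finset.Ioc (0 : ℤ) ((ℓ : ℤ) - d),
      (if ∀ h ∈ ({b, b + (d' : ℤ), b + (d : ℤ)} : Finset ℤ), isP (n - h) then 1 else 0) := by
  unfold win
  rw [← Finset.card_powersetCard]
  have h1 : Finset.powersetCard 3 ((Finset.Ioc 0 (ℓ : ℤ)).filter (fun b => isP (n - b)))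
      ⊆ (((Finset.Icc 1 ℓ).sigma (fun d : ℕ => Finset.Ico 1 d ×ˢ Finset.Ioc (0 : ℤ) ((ℓ : ℤ) - d))).filter
          (fun z : (Σ _ : ℕ, ℕ × ℤ) => ∀ h ∈ ({z.2.2, z.2.2 + (z.2.1 : ℤ), z.2.2 + (z.1 : ℤ)} : Finset ℤ),
            isP (n - h))).image
          (fun z => ({z.2.2, z.2.2 + (z.2.1 : ℤ), z.2.2 + (z.1 : ℤ)} : Finset ℤ)) := by
    intro S hS
    rw [Finset.mem_powersetCard] at hS
    obtain ⟨hS1, hS2⟩ := hS
    obtain ⟨x, y, z, hxy, hxz, hyz, rfl⟩ := Finset.card_eq_three.mp hS2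
    have hx := hS1 (show x ∈ ({x, y, z} : Finset ℤ) by simp)
    have hy := hS1 (show y ∈ ({x, y, z} : Finset ℤ) by simp)
    have hz := hS1 (show z ∈ ({x, y, z} : Finset ℤ) by simp)
    rw [Finset.mem_filter, Finset.mem_Ioc] at hx hy hz
    have main : ∀ x y z : ℤ, x < y → y < z → (0 < x ∧ x ≤ (ℓ : ℤ)) ∧ isP (n - x) →
        (0 < y ∧ y ≤ (ℓ : ℤ)) ∧ isP (n - y) → (0 < z ∧ z ≤ (ℓ : ℤ)) ∧ isP (n - z) →
        ∀ T : Finset ℤ, T = {x, y, z} → T ∈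
        (((Finset.Icc 1 ℓ).sigma (fun d : ℕ => Finset.Ico 1 d ×ˢ Finset.Ioc (0 : ℤ) ((ℓ : ℤ) - d))).filter
          (fun z : (Σ _ : ℕ, ℕ × ℤ) => ∀ h ∈ ({z.2.2, z.2.2 + (z.2.1 : ℤ), z.2.2 + (z.1 : ℤ)} : Finset ℤ),
            isP (n - h))).image
          (fun z => ({z.2.2, z.2.2 + (z.2.1 : ℤ), z.2.2 + (z.1 : ℤ)} : Finset ℤ)) := by
      intro x y z hlt hlt2 hx hy hz T hT
      rw [hT, Finset.mem_image]
      obtain ⟨d', hd'⟩ : ∃ d : ℕ, y = x + d := ⟨(y - x).toNat, by omega⟩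
      obtain ⟨d, hd⟩ : ∃ d : ℕ, z = x + d := ⟨(z - x).toNat, by omega⟩
      refine ⟨⟨d, (d', x)⟩, ?_, ?_⟩
      · rw [Finset.mem_filter, Finset.mem_sigma, Finset.mem_Icc, Finset.mem_product, Finset.mem_Ico,
          Finset.mem_Ioc]
        refine ⟨⟨by dsimp only; omega, by dsimp only; omega, by dsimp only; omega⟩, ?_⟩
        intro h hh
        dsimp only at hh
        rw [Finset.mem_insert, Finset.mem_insert, Finset.mem_singleton] at hh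
        rcases hh with rfl | rfl | rfl
        · exact hx.2
        · rw [← hd']; exact hy.2
        · rw [← hd]; exact hz.2
      · dsimp only
        rw [hd, hd']
    rcases lt_or_gt_of_ne hxy with h | h <;> rcases lt_or_gt_of_ne hxz with h' | h' <;>
      rcases lt_or_gt_of_ne hyz with h'' | h''
    · exact main x y z h h'' hx hy hz _ rfl
    · exact main x z y h' h'' hx hz hy _ (by ext a; simp only [Finset.mem_insert, Finset.mem_singleton]; tauto)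
    · omega
    · exact main z x y h' h hz hx hy _ (by ext a; simp only [Finset.mem_insert, Finset.mem_singleton]; tauto)
    · exact main y x z h h' hy hx hz _ (by ext a; simp only [Finset.mem_insert, Finset.mem_singleton]; tauto)
    · omega
    · exact main y z x h'' h' hy hz hx _ (by ext a; simp only [Finset.mem_insert, Finset.mem_singleton]; tauto)
    · exact main z y x h'' h hz hy hx _ (by ext a; simp only [Finset.mem_insert, Finset.mem_singleton]; tauto)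
  refine (Finset.card_le_card h1).trans (Finset.card_image_le.trans ?_)
  rw [Finset.card_filter, Finset.sum_sigma]
  refine le_of_eq (Finset.sum_congr rfl (fun d _ => ?_))
  rw [Finset.sum_product]

private lemma UCH_cnt2 (x : ℝ) (d : ℕ) (ℓ : ℕ) (hd : d ≤ ℓ) :
    ∑ b ∈ Finset.Ioc (0 : ℤ) ((ℓ : ℤ) - d), ((∑ n ∈ Finset.range (⌊x⌋₊ + 1),
      (if ∀ h ∈ ({b, b + (d : ℤ)} : Finset ℤ), isP ((n : ℤ) - h) then 1 else 0) : ℕ) : ℝ)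
      ≤ ((ℓ : ℝ) - d) * (cnt x {0, (d : ℤ)} : ℝ) := by
  have h1 : ∀ b ∈ Finset.Ioc (0 : ℤ) ((ℓ : ℤ) - d), ((∑ n ∈ Finset.range (⌊x⌋₊ + 1),
      (if ∀ h ∈ ({b, b + (d : ℤ)} : Finset ℤ), isP ((n : ℤ) - h) then 1 else 0) : ℕ) : ℝ)
      ≤ (cnt x {0, (d : ℤ)} : ℝ) := by
    intro b hb
    rw [Finset.mem_Ioc] at hb
    rw [← Finset.card_filter]
    have h2 := cnt_tr_le x ({b, b + (d : ℤ)} : Finset ℤ) (b := b) (by simp) hb.1.le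
    have h3 : tr ({b, b + (d : ℤ)} : Finset ℤ) (-b) = {0, (d : ℤ)} := by
      unfold tr
      rw [Finset.image_insert, Finset.image_singleton]
      congr 1
      · ring
      · congr 1; ring
    rw [h3] at h2
    exact_mod_cast h2
  refine (Finset.sum_le_sum h1).trans (le_of_eq ?_)
  rw [Finset.sum_const, Int.card_Ioc, nsmul_eq_mul, sub_zero]
  congr 1
  have h4 : (((ℓ : ℤ) - (d : ℤ)).toNat : ℤ) = (ℓ : ℤ) - d := Int.toNat_of_nonneg (by omega)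
  exact_mod_cast h4

private lemma UCH_cnt3 (x : ℝ) (d d' : ℕ) (ℓ : ℕ) (hd : d ≤ ℓ) :
    ∑ b ∈ Finset.Ioc (0 : ℤ) ((ℓ : ℤ) - d), ((∑ n ∈ Finset.range (⌊x⌋₊ + 1),
      (if ∀ h ∈ ({b, b + (d' : ℤ), b + (d : ℤ)} : Finset ℤ), isP ((n : ℤ) - h) then 1 else 0) : ℕ) : ℝ)
      ≤ ((ℓ : ℝ) - d) * (cnt x {0, (d' : ℤ), (d : ℤ)} : ℝ) := by
  have h1 : ∀ b ∈ Finset.Ioc (0 : ℤ) ((ℓ : ℤ) - d), ((∑ n ∈ Finset.range (⌊x⌋₊ + 1),
      (if ∀ h ∈ ({b, b + (d' : ℤ), b + (d : ℤ)} : Finset ℤ), isP ((n : ℤ) - h) then 1 else 0) : ℕ) : ℝ)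
      ≤ (cnt x {0, (d' : ℤ), (d : ℤ)} : ℝ) := by
    intro b hb
    rw [Finset.mem_Ioc] at hb
    rw [← Finset.card_filter]
    have h2 := cnt_tr_le x ({b, b + (d' : ℤ), b + (d : ℤ)} : Finset ℤ) (b := b) (by simp) hb.1.le
    have h3 : tr ({b, b + (d' : ℤ), b + (d : ℤ)} : Finset ℤ) (-b) = {0, (d' : ℤ), (d : ℤ)} := by
      unfold tr
      rw [Finset.image_insert, Finset.image_insert, Finset.image_singleton]
      congr 1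
      · ring
      · congr 1
        · ring
        · congr 1; ring
    rw [h3] at h2
    exact_mod_cast h2
  refine (Finset.sum_le_sum h1).trans (le_of_eq ?_)
  rw [Finset.sum_const, Int.card_Ioc, nsmul_eq_mul, sub_zero]
  congr 1
  have h4 : (((ℓ : ℤ) - (d : ℤ)).toNat : ℤ) = (ℓ : ℤ) - d := Int.toNat_of_nonneg (by omega)
  exact_mod_cast h4

theorem choose_pairs (x : ℝ) (ℓ : ℕ) :
    ∑ n ∈ Finset.range (⌊x⌋₊ + 1), ((win 0 (ℓ : ℤ) (n : ℤ)).choose 2 : ℝ)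
      ≤ ∑ d ∈ Finset.Icc 1 ℓ, ((ℓ : ℝ) - d) * (cnt x {0, (d : ℤ)} : ℝ) := by
  have h1 : (∑ n ∈ Finset.range (⌊x⌋₊ + 1), (win 0 (ℓ : ℤ) (n : ℤ)).choose 2)
      ≤ ∑ d ∈ Finset.Icc 1 ℓ, ∑ b ∈ Finset.Ioc (0 : ℤ) ((ℓ : ℤ) - d), ∑ n ∈ Finset.range (⌊x⌋₊ + 1),
      (if ∀ h ∈ ({b, b + (d : ℤ)} : Finset ℤ), isP ((n : ℤ) - h) then 1 else 0) := by
    refine (Finset.sum_le_sum (fun (n : ℕ) _ => UCH_two (n : ℤ) ℓ)).trans (le_of_eq ?_)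
    rw [Finset.sum_comm]
    refine Finset.sum_congr rfl (fun d _ => ?_)
    rw [Finset.sum_comm]
  have h2 : (∑ n ∈ Finset.range (⌊x⌋₊ + 1), ((win 0 (ℓ : ℤ) (n : ℤ)).choose 2 : ℝ))
      ≤ ∑ d ∈ Finset.Icc 1 ℓ, ∑ b ∈ Finset.Ioc (0 : ℤ) ((ℓ : ℤ) - d), ((∑ n ∈ Finset.range (⌊x⌋₊ + 1),
      (if ∀ h ∈ ({b, b + (d : ℤ)} : Finset ℤ), isP ((n : ℤ) - h) then 1 else 0) : ℕ) : ℝ) := by
    exact_mod_cast h1
  refine h2.trans (Finset.sum_le_sum (fun d hd => ?_))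
  exact UCH_cnt2 x d ℓ (Finset.mem_Icc.mp hd).2

theorem choose_triples (x : ℝ) (ℓ : ℕ) :
    ∑ n ∈ Finset.range (⌊x⌋₊ + 1), ((win 0 (ℓ : ℤ) (n : ℤ)).choose 3 : ℝ)
      ≤ ∑ d ∈ Finset.Icc 1 ℓ, ∑ d' ∈ Finset.Ico 1 d, ((ℓ : ℝ) - d) * (cnt x {0, (d' : ℤ), (d : ℤ)} : ℝ) := by
  have h1 : (∑ n ∈ Finset.range (⌊x⌋₊ + 1), (win 0 (ℓ : ℤ) (n : ℤ)).choose 3)
      ≤ ∑ d ∈ Finset.Icc 1 ℓ, ∑ d' ∈ Finset.Ico 1 d, ∑ b ∈ Finset.Ioc (0 : ℤ) ((ℓ : ℤ) - d),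
      ∑ n ∈ Finset.range (⌊x⌋₊ + 1),
      (if ∀ h ∈ ({b, b + (d' : ℤ), b + (d : ℤ)} : Finset ℤ), isP ((n : ℤ) - h) then 1 else 0) := by
    refine (Finset.sum_le_sum (fun (n : ℕ) _ => UCH_three (n : ℤ) ℓ)).trans (le_of_eq ?_)
    rw [Finset.sum_comm]
    refine Finset.sum_congr rfl (fun d _ => ?_)
    rw [Finset.sum_comm]
    refine Finset.sum_congr rfl (fun d' _ => ?_)
    rw [Finset.sum_comm]
  have h2 : (∑ n ∈ Finset.range (⌊x⌋₊ + 1), ((win 0 (ℓ : ℤ) (n : ℤ)).choose 3 : ℝ))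
      ≤ ∑ d ∈ Finset.Icc 1 ℓ, ∑ d' ∈ Finset.Ico 1 d, ∑ b ∈ Finset.Ioc (0 : ℤ) ((ℓ : ℤ) - d),
      ((∑ n ∈ Finset.range (⌊x⌋₊ + 1),
      (if ∀ h ∈ ({b, b + (d' : ℤ), b + (d : ℤ)} : Finset ℤ), isP ((n : ℤ) - h) then 1 else 0) : ℕ) : ℝ) := by
    exact_mod_cast h1
  refine h2.trans (Finset.sum_le_sum (fun d hd => Finset.sum_le_sum (fun d' _ => ?_)))
  exact UCH_cnt3 x d d' ℓ (Finset.mem_Icc.mp hd).2

end Pool.Agent.H6.MF
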