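import Pool.Agent.H6.MF.SAV

/-!
# SAT: sums of the singular series of pairs and triples

Proofs: see the last part of the header of `SAV.lean` (`SAV1`, `SAV2`, `SAV3`).
-/

set_option autoImplicit false

namespace Pool.Agent.H6.MF

open Finset

theorem adm_pair {e : ℕ} (he : Even e) : adm {0, (e : ℤ)} := by
  intro p hp
  rcases hp.two_le.eq_or_lt with h2 | h2
  · subst h2
    unfold nuH
    rw [Finset.image_insert, Finset.image_singleton]
    have h0 : (0 : ℤ) % ((2 : ℕ) : ℤ) = 0 := by norm_num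
    have h1 : (e : ℤ) % ((2 : ℕ) : ℤ) = 0 := by
      have : (e % 2 : ℕ) = 0 := Nat.even_iff.mp he
      exact_mod_cast this
    rw [h0, h1]
    simp
  · have h1 := nuH_le_card {0, (e : ℤ)} p
    have h3 : ({0, (e : ℤ)} : Finset ℤ).card ≤ 2 := Finset.card_le_two
    omega

theorem sing_zero : sing {0} = 1 := by
  unfold sing
  have h : ∀ p : Nat.Primes, loc {0} (p : ℕ) = 1 := by
    intro p
    have hp := p.2.two_le
    have hp' : (2 : ℝ) ≤ ((p : ℕ) : ℝ) := by exact_mod_cast hp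
    unfold loc nuH
    rw [Finset.image_singleton, Finset.card_singleton, Finset.card_singleton, pow_one, Nat.cast_one]
    apply div_self
    have : (1 : ℝ) / ((p : ℕ) : ℝ) ≤ 1 / 2 := one_div_le_one_div_of_le (by norm_num) hp'
    linarith
  rw [show (fun p : Nat.Primes => loc {0} (p : ℕ)) = fun _ => (1 : ℝ) from funext h]
  exact tprod_one

theorem SAT_ioc (s : ℕ) (f : ℤ → ℝ) :
    ∑ b ∈ Finset.Ioc (0 : ℤ) (s : ℤ), f b = ∑ d ∈ Finset.Icc 1 s, f (d : ℤ) := by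
  symm
  refine Finset.sum_nbij' (fun d : ℕ => (d : ℤ)) (fun b : ℤ => b.toNat) ?_ ?_ ?_ ?_ ?_
  · intro d hd
    rw [Finset.mem_Icc] at hd
    rw [Finset.mem_Ioc]
    omega
  · intro b hb
    rw [Finset.mem_Ioc] at hb
    rw [Finset.mem_Icc]
    omega
  · intro d _
    simp
  · intro b hb
    rw [Finset.mem_Ioc] at hb
    omega
  · intro d _
    rfl

theorem SAT_nonneg (H : Finset ℤ) : 0 ≤ sing H := sing_nonneg H

theorem SAV1 (A : ℕ) (ε : ℝ) (hε : 0 < ε) : ∃ Y₀ : ℝ, ∀ Y : ℝ, Y₀ ≤ Y → ∀ s : ℕ, Y ≤ (s : ℝ) →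
    (s : ℝ) ≤ Y ^ A →
    |∑ d ∈ Finset.Icc 1 s, sing {0, (d : ℤ)} - (s : ℝ)| ≤ ε * s := by
  obtain ⟨Y₀, hY₀⟩ := SAV 1 le_rfl A ε hε
  refine ⟨max Y₀ 1, fun Y hY s hs1 hs2 => ?_⟩
  have hY1 : 1 ≤ Y := (le_max_right _ _).trans hY
  have hadm : adm {0} := by
    have := adm_pair (e := 0) (by simp)
    simpa using this
  have hpow : (0 : ℝ) ≤ Y ^ A := by positivity
  have h := hY₀ Y ((le_max_left _ _).trans hY) {0} (by simp) hadm
    (by intro x hx; rw [Finset.mem_singleton] at hx; rw [hx]; simpa using hpow) 0 (s : ℤ)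
    (by simpa using hpow) (by simpa [abs_of_nonneg] using hs2) (by simpa using hs1)
  rw [sing_zero] at h
  have h2 : (Finset.Ioc (0 : ℤ) (s : ℤ)) \ {0} = Finset.Ioc (0 : ℤ) (s : ℤ) := by
    rw [Finset.sdiff_singleton_eq_erase]
    apply Finset.erase_eq_of_notMem
    simp
  rw [h2, SAT_ioc s (fun b => sing (insert b {0}))] at h
  have h3 : ∀ d ∈ Finset.Icc 1 s, sing (insert (d : ℤ) {0}) = sing {0, (d : ℤ)} := by
    intro d _
    rw [Finset.pair_comm]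
  rw [Finset.sum_congr rfl h3] at h
  simpa using h

theorem SAT_symm (s : ℕ) (F : ℕ → ℕ → ℝ) (hF : ∀ a b, F a b = F b a) :
    2 * ∑ d ∈ Finset.Icc 1 s, ∑ d' ∈ Finset.Ico 1 d, F d' d =
      ∑ e ∈ Finset.Icc 1 s, ∑ b ∈ (Finset.Icc 1 s).erase e, F b e := by
  have h1 : ∀ e ∈ Finset.Icc 1 s, ∑ b ∈ (Finset.Icc 1 s).erase e, F b e =
      ∑ b ∈ Finset.Icc 1 s, (if b < e then F b e else 0) +
      ∑ b ∈ Finset.Icc 1 s, (if e < b then F b e else 0) := by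
    intro e he
    rw [← Finset.sum_add_distrib, ← Finset.add_sum_erase _ _ he]
    simp only [lt_irrefl, if_false, add_zero, zero_add]
    refine Finset.sum_congr rfl fun b hb => ?_
    have hne := Finset.ne_of_mem_erase hb
    rcases lt_or_gt_of_ne hne with h | h
    · rw [if_pos h, if_neg (not_lt.mpr h.le), add_zero]
    · rw [if_neg (not_lt.mpr h.le), if_pos h, zero_add]
  have h2 : ∀ e ∈ Finset.Icc 1 s, ∑ b ∈ Finset.Icc 1 s, (if b < e then F b e else 0) =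
      ∑ d' ∈ Finset.Ico 1 e, F d' e := by
    intro e he
    rw [← Finset.sum_filter]
    refine Finset.sum_congr ?_ fun _ _ => rfl
    rw [Finset.mem_Icc] at he
    ext b
    simp only [Finset.mem_filter, Finset.mem_Icc, Finset.mem_Ico]
    omega
  have h3 : ∑ e ∈ Finset.Icc 1 s, ∑ b ∈ Finset.Icc 1 s, (if e < b then F b e else 0) =
      ∑ e ∈ Finset.Icc 1 s, ∑ b ∈ Finset.Icc 1 s, (if b < e then F b e else 0) := by
    rw [Finset.sum_comm]
    refine Finset.sum_congr rfl fun b _ => Finset.sum_congr rfl fun e _ => ?_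
    rw [hF]
  rw [Finset.sum_congr rfl h1, Finset.sum_add_distrib, h3, Finset.sum_congr rfl h2]
  ring

theorem SAV2 (A : ℕ) (ε : ℝ) (hε : 0 < ε) : ∃ Y₀ : ℝ, ∀ Y : ℝ, Y₀ ≤ Y → ∀ s : ℕ, Y ≤ (s : ℝ) →
    (s : ℝ) ≤ Y ^ A →
    ∑ d ∈ Finset.Icc 1 s, ∑ d' ∈ Finset.Ico 1 d, sing {0, (d' : ℤ), (d : ℤ)} ≤ (1 + ε) * ((s : ℝ) ^ 2 / 2) := by
  set δ : ℝ := min 1 (ε / 3) with hδ
  have hδ0 : 0 < δ := lt_min one_pos (by positivity)
  have hδ1 : δ ≤ 1 := min_le_left _ _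
  have hδ2 : δ ≤ ε / 3 := min_le_right _ _
  obtain ⟨Y₁, hY₁⟩ := SAV1 A δ hδ0
  obtain ⟨Y₂, hY₂⟩ := SAV 2 (by norm_num) A δ hδ0
  refine ⟨max (max Y₁ Y₂) 1, fun Y hY s hs1 hs2 => ?_⟩
  have hYa : Y₁ ≤ Y := (le_max_left _ _).trans ((le_max_left _ _).trans hY)
  have hYb : Y₂ ≤ Y := (le_max_right _ _).trans ((le_max_left _ _).trans hY)
  have hY1 : 1 ≤ Y := (le_max_right _ _).trans hY
  have hpow : (0 : ℝ) ≤ Y ^ A := by positivity
  have hS1 := hY₁ Y hYa s hs1 hs2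
  have hS1' : ∑ d ∈ Finset.Icc 1 s, sing {0, (d : ℤ)} ≤ (1 + δ) * s := by
    have := (abs_le.mp hS1).2
    linarith
  have hinner : ∀ e ∈ Finset.Icc 1 s, ∑ b ∈ (Finset.Icc 1 s).erase e, sing {0, (b : ℤ), (e : ℤ)} ≤
      (1 + δ) * ((s : ℝ) * sing {0, (e : ℤ)}) := by
    intro e he
    have he' := Finset.mem_Icc.mp he
    rcases Nat.even_or_odd e with hev | hod
    · have hcard : ({0, (e : ℤ)} : Finset ℤ).card = 2 := by
        apply Finset.card_pair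
        intro h
        have : (e : ℤ) = 0 := h.symm
        omega
      have hes : (e : ℝ) ≤ s := by exact_mod_cast he'.2
      have h := hY₂ Y hYb {0, (e : ℤ)} hcard (adm_pair hev)
        (by
          intro x hx
          rw [Finset.mem_insert, Finset.mem_singleton] at hx
          rcases hx with rfl | rfl
          · simpa using hpow
          · rw [Int.cast_natCast, abs_of_nonneg (Nat.cast_nonneg _)]
            exact hes.trans hs2) 0 (s : ℤ)
        (by simpa using hpow) (by simpa [abs_of_nonneg] using hs2) (by simpa using hs1)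
      have hsum : ∑ b ∈ Finset.Ioc (0 : ℤ) (s : ℤ) \ {0, (e : ℤ)}, sing (insert b {0, (e : ℤ)}) =
          ∑ b ∈ (Finset.Icc 1 s).erase e, sing {0, (b : ℤ), (e : ℤ)} := by
        symm
        refine Finset.sum_nbij' (fun d : ℕ => (d : ℤ)) (fun b : ℤ => b.toNat) ?_ ?_ ?_ ?_ ?_
        · intro d hd
          rw [Finset.mem_erase, Finset.mem_Icc] at hd
          rw [Finset.mem_sdiff, Finset.mem_Ioc, Finset.mem_insert, Finset.mem_singleton]
          omega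
        · intro b hb
          rw [Finset.mem_sdiff, Finset.mem_Ioc, Finset.mem_insert, Finset.mem_singleton] at hb
          rw [Finset.mem_erase, Finset.mem_Icc]
          omega
        · intro d _
          simp
        · intro b hb
          rw [Finset.mem_sdiff, Finset.mem_Ioc] at hb
          omega
        · intro d _
          congr 1
          rw [Finset.insert_comm]
      rw [hsum] at h
      have h2 := (abs_le.mp h).2
      have h3 : (((s : ℤ) : ℝ) - ((0 : ℤ) : ℝ)) = (s : ℝ) := by push_cast; ring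
      rw [h3] at h2
      linarith
    · have hz : ∀ b ∈ (Finset.Icc 1 s).erase e, sing {0, (b : ℤ), (e : ℤ)} = 0 := by
        intro b _
        by_contra hne
        rw [← Ne, sing_ne_zero_iff] at hne
        exact not_adm_of_odd (H := {0, (b : ℤ), (e : ℤ)}) (b := (e : ℤ)) (by simp) (by simp)
          (by exact_mod_cast hod) hne
      rw [Finset.sum_eq_zero hz]
      have := sing_nonneg {0, (e : ℤ)}
      positivity
  have hsymm := SAT_symm s (fun b e => sing {0, (b : ℤ), (e : ℤ)}) (by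
    intro a b
    rw [Finset.pair_comm])
  have h4 : 2 * ∑ d ∈ Finset.Icc 1 s, ∑ d' ∈ Finset.Ico 1 d, sing {0, (d' : ℤ), (d : ℤ)} ≤
      (1 + δ) * ((s : ℝ) * ((1 + δ) * s)) := by
    rw [hsymm]
    calc _ ≤ ∑ e ∈ Finset.Icc 1 s, (1 + δ) * ((s : ℝ) * sing {0, (e : ℤ)}) :=
          Finset.sum_le_sum hinner
      _ = (1 + δ) * ((s : ℝ) * ∑ e ∈ Finset.Icc 1 s, sing {0, (e : ℤ)}) := by
          rw [Finset.mul_sum, Finset.mul_sum]
      _ ≤ _ := by
          refine mul_le_mul_of_nonneg_left (mul_le_mul_of_nonneg_left hS1' (Nat.cast_nonneg _))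
            (by linarith)
  have h5 : (1 + δ) * (1 + δ) ≤ 1 + ε := by nlinarith
  have h6 : (0 : ℝ) ≤ (s : ℝ) ^ 2 := by positivity
  nlinarith

theorem SAT_sq (s : ℕ) : ∑ m ∈ Finset.range s, (m : ℝ) ^ 2 ≤ (s : ℝ) ^ 3 / 3 := by
  induction s with
  | zero => simp
  | succ s ih =>
    rw [Finset.sum_range_succ]
    push_cast
    have : (0 : ℝ) ≤ s := Nat.cast_nonneg _
    nlinarith

theorem SAT_abel (a : ℕ → ℝ) (s : ℕ) : ∑ d ∈ Finset.Icc 1 s, ((s : ℝ) - d) * a d =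
    ∑ m ∈ Finset.range s, ∑ d ∈ Finset.Icc 1 m, a d := by
  induction s with
  | zero => simp
  | succ s ih =>
    rw [Finset.sum_range_succ, ← ih, Finset.sum_Icc_succ_top (by omega), ← Finset.sum_add_distrib]
    push_cast
    rw [sub_self, zero_mul, add_zero]
    refine Finset.sum_congr rfl fun d _ => ?_
    ring

theorem SAV3 (A : ℕ) (ε : ℝ) (hε : 0 < ε) : ∃ Y₀ : ℝ, ∀ Y : ℝ, Y₀ ≤ Y → ∀ s : ℕ, Y ≤ (s : ℝ) →
    (s : ℝ) ≤ Y ^ A →
    ∑ d ∈ Finset.Icc 1 s, ∑ d' ∈ Finset.Ico 1 d, ((s : ℝ) - d) * sing {0, (d' : ℤ), (d : ℤ)}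
      ≤ (1 + ε) * ((s : ℝ) ^ 3 / 6) := by
  set η : ℝ := min 1 (ε / 3) with hη
  have hη0 : 0 < η := lt_min one_pos (by positivity)
  have hη1 : η ≤ 1 := min_le_left _ _
  have hη2 : η ≤ ε / 3 := min_le_right _ _
  set δ : ℝ := min (1 / 12) η with hδ
  have hδ0 : 0 < δ := lt_min (by norm_num) hη0
  have hδ1 : δ ≤ 1 / 12 := min_le_left _ _
  have hδ2 : δ ≤ η := min_le_right _ _
  obtain ⟨Y₁, hY₁⟩ := SAV2 (A + 1) η hη0
  refine ⟨max (max (Y₁ / δ) ((1 / δ) ^ A / δ)) (1 / δ), fun Y hY s hs1 hs2 => ?_⟩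
  have hYa : Y₁ / δ ≤ Y := (le_max_left _ _).trans ((le_max_left _ _).trans hY)
  have hYb : (1 / δ) ^ A / δ ≤ Y := (le_max_right _ _).trans ((le_max_left _ _).trans hY)
  have hYc : 1 / δ ≤ Y := (le_max_right _ _).trans hY
  rw [div_le_iff₀ hδ0] at hYa hYb hYc
  have hY0 : 0 < Y := by
    by_contra h
    push Not at h
    nlinarith
  have hs0 : 0 < (s : ℝ) := lt_of_lt_of_le hY0 hs1
  set T : ℕ → ℝ := fun m => ∑ d ∈ Finset.Icc 1 m, ∑ d' ∈ Finset.Ico 1 d, sing {0, (d' : ℤ), (d : ℤ)}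
    with hT
  have hTmono : ∀ m n, m ≤ n → T m ≤ T n := by
    intro m n hmn
    refine Finset.sum_le_sum_of_subset_of_nonneg (Finset.Icc_subset_Icc_right hmn) ?_
    intro i _ _
    exact Finset.sum_nonneg fun j _ => sing_nonneg _
  -- the bound in the range `δ s ≤ m ≤ s`
  have hbig : ∀ m : ℕ, δ * (s : ℝ) ≤ m → m ≤ s → T m ≤ (1 + η) * ((m : ℝ) ^ 2 / 2) := by
    intro m hm1 hm2
    refine hY₁ (Y * δ) hYa m ?_ ?_
    · calc Y * δ ≤ (s : ℝ) * δ := mul_le_mul_of_nonneg_right hs1 hδ0.le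
        _ = δ * s := mul_comm _ _
        _ ≤ m := hm1
    · have h1 : (m : ℝ) ≤ s := by exact_mod_cast hm2
      have h2 : Y ^ A = (Y * δ) ^ A * (1 / δ) ^ A := by
        rw [← mul_pow]
        congr 1
        field_simp
      calc (m : ℝ) ≤ s := h1
        _ ≤ Y ^ A := hs2
        _ = (Y * δ) ^ A * (1 / δ) ^ A := h2
        _ ≤ (Y * δ) ^ A * (Y * δ) := mul_le_mul_of_nonneg_left hYb (by positivity)
        _ = (Y * δ) ^ (A + 1) := (pow_succ _ _).symm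
  set m₀ : ℕ := ⌈δ * (s : ℝ)⌉₊ with hm₀
  have hm₀1 : δ * (s : ℝ) ≤ m₀ := Nat.le_ceil _
  have hm₀2 : (m₀ : ℝ) < δ * s + 1 := Nat.ceil_lt_add_one (by positivity)
  have hδs : 1 ≤ δ * (s : ℝ) := by
    calc (1 : ℝ) ≤ Y * δ := hYc
      _ ≤ (s : ℝ) * δ := mul_le_mul_of_nonneg_right hs1 hδ0.le
      _ = δ * s := mul_comm _ _
  have hm₀3 : (m₀ : ℝ) ≤ 2 * δ * s := by linarith
  have hm₀4 : m₀ ≤ s := by
    have : (m₀ : ℝ) ≤ s := by nlinarith
    exact_mod_cast this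
  have hall : ∀ m ∈ Finset.range s, T m ≤ (1 + η) * ((m : ℝ) ^ 2 / 2 + 2 * δ ^ 2 * (s : ℝ) ^ 2) := by
    intro m hm
    rw [Finset.mem_range] at hm
    rcases le_total m₀ m with h | h
    · have h1 : (m₀ : ℝ) ≤ m := by exact_mod_cast h
      have h2 := hbig m (hm₀1.trans h1) hm.le
      have h3 : 0 ≤ (1 + η) * (2 * δ ^ 2 * (s : ℝ) ^ 2) := by positivity
      linarith
    · have h1 := (hTmono m m₀ h).trans (hbig m₀ hm₀1 hm₀4)
      have h2 : (m₀ : ℝ) ^ 2 ≤ (2 * δ * s) ^ 2 := pow_le_pow_left₀ (Nat.cast_nonneg _) hm₀3 2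
      have h3 : (m₀ : ℝ) ^ 2 / 2 ≤ (m : ℝ) ^ 2 / 2 + 2 * δ ^ 2 * (s : ℝ) ^ 2 := by
        have : (0 : ℝ) ≤ (m : ℝ) ^ 2 := by positivity
        nlinarith
      exact h1.trans (mul_le_mul_of_nonneg_left h3 (by linarith))
  have hid : ∑ d ∈ Finset.Icc 1 s, ∑ d' ∈ Finset.Ico 1 d, ((s : ℝ) - d) * sing {0, (d' : ℤ), (d : ℤ)} =
      ∑ m ∈ Finset.range s, T m := by
    rw [← SAT_abel (fun d => ∑ d' ∈ Finset.Ico 1 d, sing {0, (d' : ℤ), (d : ℤ)}) s]
    refine Finset.sum_congr rfl fun d _ => ?_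
    rw [Finset.mul_sum]
  rw [hid]
  have h7 : ∑ m ∈ Finset.range s, T m ≤
      (1 + η) * ((s : ℝ) ^ 3 / 6 + 2 * δ ^ 2 * (s : ℝ) ^ 3) := by
    calc _ ≤ ∑ m ∈ Finset.range s, (1 + η) * ((m : ℝ) ^ 2 / 2 + 2 * δ ^ 2 * (s : ℝ) ^ 2) :=
          Finset.sum_le_sum hall
      _ = (1 + η) * ((∑ m ∈ Finset.range s, (m : ℝ) ^ 2) / 2 + s * (2 * δ ^ 2 * (s : ℝ) ^ 2)) := by
          rw [← Finset.mul_sum, Finset.sum_add_distrib, ← Finset.sum_div, Finset.sum_const,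
            Finset.card_range, nsmul_eq_mul]
      _ ≤ _ := by
          refine mul_le_mul_of_nonneg_left ?_ (by linarith)
          have := SAT_sq s
          nlinarith
  have h8 : 12 * δ ^ 2 ≤ η := by nlinarith
  have h9 : (1 + η) * (1 + 12 * δ ^ 2) ≤ 1 + ε := by nlinarith
  have h10 : (0 : ℝ) ≤ (s : ℝ) ^ 3 / 6 := by positivity
  calc _ ≤ (1 + η) * ((s : ℝ) ^ 3 / 6 + 2 * δ ^ 2 * (s : ℝ) ^ 3) := h7
    _ = ((1 + η) * (1 + 12 * δ ^ 2)) * ((s : ℝ) ^ 3 / 6) := by ring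
    _ ≤ _ := mul_le_mul_of_nonneg_right h9 h10

end Pool.Agent.H6.MF
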