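import Pool.Agent.H6.MF.BAS
import Pool.Agent.H6.MF.SAT

/-!
# HUP: from asymptotics to the averaged upper bounds (`H2A`, `M3A`; the header is shared with Q1M.lean)

`Y = Λ = log x`, all `s` satisfy `Λ ≤ t Λ^2 ≤ s ≤ Λ^2` for large `x`, `A = 2`.
* `H2A`: for even `d ≤ s` (`d ≥ 2`): `cnt x {0,d} ≤ (1+ε') sing {0,d} x/Λ^2` (`HL2`); for odd `d`:
  `cnt x {0,d} ≤ 2` (`not_adm_of_odd`, `cnt_inadm`). `SAV1`: `∑_{d ≤ s} sing {0,d} ≤ (1+ε') s` (all terms are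
  `≥ 0`). The odd `d` contribute `≤ 2 s ≤ ε' s x/Λ^2`.
* `M3A`: `∑_{d ≤ s} ∑_{d' < d} cnt x {0,d',d} = (1/2) ∑_{e=1}^{s} ∑_{1 ≤ b ≤ s, b ≠ e} cnt x {0,b,e}` (symmetry
  `(d',d) ↔ (e,b)`; as finsets `{0,d',d} = insert b {0,e}`). For odd `e`: every term is `≤ 3`, in total
  `≤ 3 s^2`. For even `e` (`2 ≤ e ≤ s ≤ Λ^2`): `Mean3` with `u = 0`, `v = s`:
  the inner sum is `≤ (1+ε') (∑_{b ∈ Ioc 0 s \ {0,e}} sing (insert b {0,e})) x/Λ^3` and by `SAV` (`k = 2`, `H = {0,e}`,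
  `adm_pair`) this is `≤ (1+ε')^2 s sing {0,e} x/Λ^3`. By `SAV1` `∑_{e ≤ s} sing {0,e} ≤ (1+ε') s`.
* `Q1M`: let `e` be even, `H = {0,e}`, `b ∈ Ioc u v \ H`, so `b ≥ 1`, `b ≠ e`, `b ≤ Λ^2`. If `insert b H` is not
  admissible, then `sing (insert b H) = 0` and `cnt ≤ 3` (in particular if `b` is odd). Otherwise `b` is even
  and `HL3` applies to `(d', d) = (min b e, max b e)` (`insert b {0,e} = {0, d', d}`):
  `|cnt - sing x/Λ^3| ≤ ε' sing x/Λ^3`. Sum: the difference is `≤ ε' (∑ sing) x/Λ^3 + 3 (v - u)`, and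
  `3 (v-u) ≤ ε' (∑ sing) x/Λ^3` for large `x` because `∑ sing ≥ (1/2) (v-u) sing {0,e} ≥ (1/2) (v-u) c`
  (`SAV` with `ε = 1/2`, `sing_lower 2`).
-/

set_option autoImplicit false

namespace Pool.Agent.H6.MF

open Finset Filter

/-- `K (log x)^m ≤ x` for large `x` -/
theorem HUP_growth (K : ℝ) (m : ℕ) : ∀ᶠ x : ℝ in atTop, K * (Real.log x) ^ m ≤ x := by
  have h := (isLittleO_log_rpow_rpow_atTop (m : ℝ) (by norm_num : (0 : ℝ) < 1)).def
    (c := 1 / (|K| + 1)) (by positivity)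
  filter_upwards [h, eventually_ge_atTop (1 : ℝ)] with x hx h1
  rw [Real.rpow_natCast, Real.rpow_one, Real.norm_eq_abs, Real.norm_eq_abs, abs_of_nonneg (by linarith : (0 : ℝ) ≤ x)] at hx
  have h2 : 0 ≤ |Real.log x ^ m| := abs_nonneg _
  have h3 : K * (Real.log x) ^ m ≤ (|K| + 1) * |Real.log x ^ m| := by
    calc K * (Real.log x) ^ m ≤ |K * (Real.log x) ^ m| := le_abs_self _
      _ = |K| * |Real.log x ^ m| := abs_mul _ _
      _ ≤ (|K| + 1) * |Real.log x ^ m| := by nlinarith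
  have h4 : (|K| + 1) * |Real.log x ^ m| ≤ (|K| + 1) * (1 / (|K| + 1) * x) :=
    mul_le_mul_of_nonneg_left hx (by positivity)
  have h5 : (|K| + 1) * (1 / (|K| + 1) * x) = x := by
    field_simp
  linarith

theorem HUP_sym (s : ℕ) (f : ℕ → ℕ → ℝ) (hf : ∀ a b, f a b = f b a) :
    ∑ e ∈ Icc 1 s, ∑ b ∈ (Icc 1 s).erase e, f b e = 2 * ∑ d ∈ Icc 1 s, ∑ d' ∈ Ico 1 d, f d' d := by
  have h1 : ∀ e ∈ Icc 1 s, ∑ b ∈ (Icc 1 s).erase e, f b e
      = ∑ b ∈ Ico 1 e, f b e + ∑ b ∈ Ioc e s, f b e := by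
    intro e he
    rw [mem_Icc] at he
    rw [← Finset.sum_union]
    · apply Finset.sum_congr _ (fun _ _ => rfl)
      ext b
      simp only [mem_erase, mem_Icc, mem_union, mem_Ico, mem_Ioc]
      omega
    · rw [Finset.disjoint_left]
      intro b hb hb2
      rw [mem_Ico] at hb
      rw [mem_Ioc] at hb2
      omega
  rw [Finset.sum_congr rfl h1, Finset.sum_add_distrib]
  have h2 : ∑ e ∈ Icc 1 s, ∑ b ∈ Ioc e s, f b e = ∑ b ∈ Icc 1 s, ∑ e ∈ Ico 1 b, f b e := by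
    apply Finset.sum_comm'
    intro a b
    simp only [mem_Icc, mem_Ioc, mem_Ico]
    omega
  have h3 : ∑ b ∈ Icc 1 s, ∑ e ∈ Ico 1 b, f b e = ∑ d ∈ Icc 1 s, ∑ d' ∈ Ico 1 d, f d' d :=
    Finset.sum_congr rfl (fun b _ => Finset.sum_congr rfl (fun e _ => hf b e))
  rw [h2, h3]
  ring

theorem HUP_card2 (d : ℤ) : ({0, d} : Finset ℤ).card ≤ 2 := Finset.card_le_two

theorem HUP_odd2 (x : ℝ) (d : ℕ) (hd : Odd d) : cnt x {0, (d : ℤ)} ≤ 2 := by
  have h : ¬ adm ({0, (d : ℤ)} : Finset ℤ) :=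
    not_adm_of_odd (b := (d : ℤ)) (by simp) (by simp) (by exact_mod_cast hd)
  exact (cnt_inadm x h).trans (HUP_card2 _)

theorem HUP_odd3 (x : ℝ) (d : ℕ) (hd : Odd d) (b : ℤ) : cnt x (insert b {0, (d : ℤ)}) ≤ 3 := by
  have h : ¬ adm (insert b {0, (d : ℤ)} : Finset ℤ) :=
    not_adm_of_odd (b := (d : ℤ)) (by simp) (by simp) (by exact_mod_cast hd)
  exact (cnt_inadm x h).trans Finset.card_le_three

/-- reindexing: the sum over `Ioc 0 s \ {0,e}` in `ℤ` is the sum over `[1,s] \ {e}` in `ℕ` -/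
theorem HUP_cast (s e : ℕ) (g : ℤ → ℝ) :
    ∑ b ∈ Finset.Ioc ((0 : ℕ) : ℤ) (s : ℤ) \ {0, (e : ℤ)}, g b = ∑ b ∈ (Icc 1 s).erase e, g (b : ℤ) := by
  symm
  apply Finset.sum_bij (fun (b : ℕ) _ => (b : ℤ))
  · intro b hb
    simp only [mem_erase, mem_Icc] at hb
    simp only [Finset.mem_sdiff, mem_Ioc, mem_insert, mem_singleton]
    omega
  · intro a _ b _ hab
    exact_mod_cast hab
  · intro b hb
    simp only [Finset.mem_sdiff, mem_Ioc, mem_insert, mem_singleton] at hb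
    refine ⟨b.toNat, ?_, ?_⟩
    · simp only [mem_erase, mem_Icc]
      omega
    · omega
  · intro b _
    rfl

theorem H2A (h : HL2) : A2up := by
  intro ε hε t ht
  set ε1 : ℝ := min ε 1 / 4 with hε1
  have he0 : 0 < ε1 := by
    have : 0 < min ε 1 := lt_min hε one_pos
    positivity
  have he1 : ε1 ≤ ε / 4 := by
    have : min ε 1 ≤ ε := min_le_left _ _
    rw [hε1]; linarith
  have he2 : ε1 ≤ 1 / 4 := by
    have : min ε 1 ≤ 1 := min_le_right _ _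
    rw [hε1]; linarith
  obtain ⟨X1, hX1⟩ := h ε1 he0
  obtain ⟨Y0, hY0⟩ := SAV1 2 ε1 he0
  have hlog : Tendsto Real.log atTop atTop := Real.tendsto_log_atTop
  have hev : ∀ᶠ x : ℝ in atTop, X1 ≤ x ∧ Y0 ≤ Real.log x ∧ 1 ≤ Real.log x ∧ 1 / t ≤ Real.log x
      ∧ (2 / ε1) * (Real.log x) ^ 2 ≤ x ∧ 0 ≤ x := by
    filter_upwards [eventually_ge_atTop X1, hlog.eventually_ge_atTop Y0, hlog.eventually_ge_atTop 1,
      hlog.eventually_ge_atTop (1 / t), HUP_growth (2 / ε1) 2, eventually_ge_atTop (0 : ℝ)]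
      with x a1 a2 a3 a4 a5 a6
    exact ⟨a1, a2, a3, a4, a5, a6⟩
  rw [eventually_atTop] at hev
  obtain ⟨X, hX⟩ := hev
  refine ⟨X, fun x hx s hs1 hs2 => ?_⟩
  obtain ⟨b1, b2, b3, b4, b5, b6⟩ := hX x hx
  set L := Real.log x with hL
  have hLpos : 0 < L := by linarith
  have hLs : L ≤ (s : ℝ) := by
    have : 1 ≤ t * L := by
      rw [div_le_iff₀ ht] at b4
      linarith
    nlinarith
  have hterm : ∀ d ∈ Icc 1 s, (cnt x {0, (d : ℤ)} : ℝ) ≤ (1 + ε1) * (x / L ^ 2) * sing {0, (d : ℤ)} + 2 := by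
    intro d hd
    rw [mem_Icc] at hd
    have hsn := sing_nonneg {0, (d : ℤ)}
    rcases Nat.even_or_odd d with hev | hodd
    · have hd2 : 2 ≤ d := by
        obtain ⟨r, hr⟩ := hev
        omega
      have hdL : (d : ℝ) ≤ L ^ 2 := by
        have : (d : ℝ) ≤ s := by exact_mod_cast hd.2
        linarith
      have h1 := hX1 x b1 d hev hd2 hdL
      rw [abs_le] at h1
      have h2 : (1 + ε1) * (x / L ^ 2) * sing {0, (d : ℤ)} = (1 + ε1) * (sing {0, (d : ℤ)} * x / L ^ 2) := by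
        ring
      rw [h2]
      linarith [h1.2]
    · have h1 : (cnt x {0, (d : ℤ)} : ℝ) ≤ 2 := by exact_mod_cast HUP_odd2 x d hodd
      have : 0 ≤ (1 + ε1) * (x / L ^ 2) * sing {0, (d : ℤ)} := by positivity
      linarith
  have hsum : ∑ d ∈ Finset.Icc 1 s, (cnt x {0, (d : ℤ)} : ℝ)
      ≤ (1 + ε1) * (x / L ^ 2) * ∑ d ∈ Icc 1 s, sing {0, (d : ℤ)} + 2 * s := by
    refine (Finset.sum_le_sum hterm).trans ?_
    rw [Finset.sum_add_distrib, ← Finset.mul_sum]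
    simp
    linarith
  have hav := hY0 L b2 s hLs hs2
  rw [abs_le] at hav
  have hav2 : ∑ d ∈ Icc 1 s, sing {0, (d : ℤ)} ≤ (1 + ε1) * s := by linarith [hav.2]
  have hxL : 0 ≤ x / L ^ 2 := by positivity
  have h2s : 2 * (s : ℝ) ≤ ε1 * (s * x / L ^ 2) := by
    have h3 : 2 ≤ ε1 * (x / L ^ 2) := by
      rw [div_mul_eq_mul_div, div_le_iff₀ he0] at b5
      rw [mul_div_assoc', le_div_iff₀ (by positivity)]
      linarith
    have h4 : ε1 * (s * x / L ^ 2) = s * (ε1 * (x / L ^ 2)) := by ring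
    rw [h4]
    have : (0 : ℝ) ≤ s := by positivity
    nlinarith
  have h5 : (1 + ε1) * (x / L ^ 2) * ∑ d ∈ Icc 1 s, sing {0, (d : ℤ)} ≤ (1 + ε1) * (x / L ^ 2) * ((1 + ε1) * s) :=
    mul_le_mul_of_nonneg_left hav2 (by positivity)
  have h6 : (1 + ε1) * (x / L ^ 2) * ((1 + ε1) * s) = (1 + ε1) ^ 2 * (s * x / L ^ 2) := by ring
  have h7 : 0 ≤ (s : ℝ) * x / L ^ 2 := by positivity
  have h8 : (1 + ε1) ^ 2 + ε1 ≤ 1 + ε := by nlinarith
  calc ∑ d ∈ Finset.Icc 1 s, (cnt x {0, (d : ℤ)} : ℝ)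
      ≤ (1 + ε1) ^ 2 * (s * x / L ^ 2) + ε1 * (s * x / L ^ 2) := by linarith
    _ = ((1 + ε1) ^ 2 + ε1) * (s * x / L ^ 2) := by ring
    _ ≤ (1 + ε) * (s * x / L ^ 2) := mul_le_mul_of_nonneg_right h8 h7

theorem M3A (h : Mean3) : A3up := by
  intro ε hε t ht
  set ε1 : ℝ := min ε 1 / 16 with hε1
  have he0 : 0 < ε1 := by
    have : 0 < min ε 1 := lt_min hε one_pos
    positivity
  have he1 : ε1 ≤ ε / 16 := by
    have : min ε 1 ≤ ε := min_le_left _ _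
    rw [hε1]; linarith
  have he2 : ε1 ≤ 1 / 16 := by
    have : min ε 1 ≤ 1 := min_le_right _ _
    rw [hε1]; linarith
  obtain ⟨X1, hX1⟩ := h ε1 he0 t ht
  obtain ⟨Y0, hY0⟩ := SAV1 2 ε1 he0
  obtain ⟨Y1, hY1⟩ := SAV 2 (by norm_num) 2 ε1 he0
  have hlog : Tendsto Real.log atTop atTop := Real.tendsto_log_atTop
  have hev : ∀ᶠ x : ℝ in atTop, X1 ≤ x ∧ Y0 ≤ Real.log x ∧ 1 ≤ Real.log x ∧ 1 / t ≤ Real.log x
      ∧ (3 / ε1) * (Real.log x) ^ 3 ≤ x ∧ 0 ≤ x ∧ Y1 ≤ Real.log x := by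
    filter_upwards [eventually_ge_atTop X1, hlog.eventually_ge_atTop Y0, hlog.eventually_ge_atTop 1,
      hlog.eventually_ge_atTop (1 / t), HUP_growth (3 / ε1) 3, eventually_ge_atTop (0 : ℝ),
      hlog.eventually_ge_atTop Y1]
      with x a1 a2 a3 a4 a5 a6 a7
    exact ⟨a1, a2, a3, a4, a5, a6, a7⟩
  rw [eventually_atTop] at hev
  obtain ⟨X, hX⟩ := hev
  refine ⟨X, fun x hx s hs1 hs2 => ?_⟩
  obtain ⟨b1, b2, b3, b4, b5, b6, b7⟩ := hX x hx
  set L := Real.log x with hL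
  have hLpos : 0 < L := by linarith
  have hLs : L ≤ (s : ℝ) := by
    have : 1 ≤ t * L := by
      rw [div_le_iff₀ ht] at b4
      linarith
    nlinarith
  have hs0 : (0 : ℝ) ≤ s := by positivity
  have hrow : ∀ e ∈ Icc 1 s, ∑ b ∈ (Icc 1 s).erase e, (cnt x {0, (b : ℤ), (e : ℤ)} : ℝ)
      ≤ (1 + ε1) ^ 2 * (s * x / L ^ 3) * sing {0, (e : ℤ)} + 3 * s := by
    intro e he
    rw [mem_Icc] at he
    have hcomm : ∀ b : ℤ, ({0, b, (e : ℤ)} : Finset ℤ) = insert b {0, (e : ℤ)} := by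
      intro b
      exact Finset.insert_comm 0 b {(e : ℤ)}
    have hsn := sing_nonneg {0, (e : ℤ)}
    rcases Nat.even_or_odd e with hev | hodd
    · have he2' : 2 ≤ e := by
        obtain ⟨r, hr⟩ := hev
        omega
      have heL : (e : ℝ) ≤ L ^ 2 := by
        have : (e : ℝ) ≤ s := by exact_mod_cast he.2
        linarith
      have h1 := hX1 x b1 e hev he2' heL 0 s hs2 (by simpa using hs1)
      rw [abs_le, ← hL] at h1
      have h2 := hY1 L b7 {0, (e : ℤ)} (by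
          rw [Finset.card_pair]
          intro h0
          have : (e : ℤ) = 0 := h0.symm
          omega) (adm_pair hev) (by
          intro h0 hh0
          simp only [mem_insert, mem_singleton] at hh0
          rcases hh0 with hh0 | hh0
          · rw [hh0]; simp; positivity
          · rw [hh0]; simp; exact heL) ((0 : ℕ) : ℤ) (s : ℤ) (by simp; positivity) (by simpa using hs2)
          (by simpa using hLs)
      rw [abs_le] at h2
      have h3 : ∑ b ∈ (Icc 1 s).erase e, (cnt x {0, (b : ℤ), (e : ℤ)} : ℝ)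
          = ∑ b ∈ Finset.Ioc ((0 : ℕ) : ℤ) (s : ℤ) \ {0, (e : ℤ)}, (cnt x (insert b {0, (e : ℤ)}) : ℝ) := by
        rw [HUP_cast s e (fun b => (cnt x (insert b {0, (e : ℤ)}) : ℝ))]
        apply Finset.sum_congr rfl
        intro b _
        rw [hcomm]
      rw [h3]
      set S := ∑ b ∈ Finset.Ioc ((0 : ℕ) : ℤ) (s : ℤ) \ {0, (e : ℤ)}, sing (insert b {0, (e : ℤ)}) with hS
      have h4 : S ≤ (1 + ε1) * (s * sing {0, (e : ℤ)}) := by
        have := h2.2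
        simp only [Int.cast_natCast, Nat.cast_zero, Int.cast_zero, sub_zero] at this
        linarith
      have h5 : S * x / L ^ 3 ≤ (1 + ε1) * (s * sing {0, (e : ℤ)}) * x / L ^ 3 := by
        gcongr
      have h6 : (∑ b ∈ Finset.Ioc ((0 : ℕ) : ℤ) (s : ℤ) \ {0, (e : ℤ)}, (cnt x (insert b {0, (e : ℤ)}) : ℝ))
          ≤ (1 + ε1) * (S * x / L ^ 3) := by
        linarith [h1.2]
      have h7 : (1 + ε1) * (S * x / L ^ 3) ≤ (1 + ε1) * ((1 + ε1) * (s * sing {0, (e : ℤ)}) * x / L ^ 3) :=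
        mul_le_mul_of_nonneg_left h5 (by linarith)
      have h8 : (1 + ε1) * ((1 + ε1) * (s * sing {0, (e : ℤ)}) * x / L ^ 3)
          = (1 + ε1) ^ 2 * (s * x / L ^ 3) * sing {0, (e : ℤ)} := by ring
      linarith
    · have h1 : ∑ b ∈ (Icc 1 s).erase e, (cnt x {0, (b : ℤ), (e : ℤ)} : ℝ) ≤ ∑ b ∈ (Icc 1 s).erase e, (3 : ℝ) := by
        apply Finset.sum_le_sum
        intro b _
        rw [hcomm]
        exact_mod_cast HUP_odd3 x e hodd b
      have h2 : ∑ b ∈ (Icc 1 s).erase e, (3 : ℝ) ≤ 3 * s := by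
        rw [Finset.sum_const, nsmul_eq_mul]
        have : (((Icc 1 s).erase e).card : ℝ) ≤ s := by
          have h3 : ((Icc 1 s).erase e).card ≤ (Icc 1 s).card := Finset.card_le_card (Finset.erase_subset _ _)
          rw [Nat.card_Icc] at h3
          have : ((Icc 1 s).erase e).card ≤ s := by omega
          exact_mod_cast this
        linarith
      have h3 : 0 ≤ (1 + ε1) ^ 2 * (s * x / L ^ 3) * sing {0, (e : ℤ)} := by positivity
      linarith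
  have hsym := HUP_sym s (fun b e => (cnt x {0, (b : ℤ), (e : ℤ)} : ℝ)) (by
    intro a b
    have : ({0, (a : ℤ), (b : ℤ)} : Finset ℤ) = {0, (b : ℤ), (a : ℤ)} := by
      ext z
      simp only [mem_insert, mem_singleton]
      tauto
    simp only [this])
  have hsum : ∑ e ∈ Icc 1 s, ∑ b ∈ (Icc 1 s).erase e, (cnt x {0, (b : ℤ), (e : ℤ)} : ℝ)
      ≤ (1 + ε1) ^ 2 * (s * x / L ^ 3) * ∑ e ∈ Icc 1 s, sing {0, (e : ℤ)} + 3 * s ^ 2 := by
    refine (Finset.sum_le_sum hrow).trans ?_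
    rw [Finset.sum_add_distrib, ← Finset.mul_sum]
    simp
    apply le_of_eq
    ring
  have hav := hY0 L b2 s hLs hs2
  rw [abs_le] at hav
  have hav2 : ∑ d ∈ Icc 1 s, sing {0, (d : ℤ)} ≤ (1 + ε1) * s := by linarith [hav.2]
  have h3s : 3 * (s : ℝ) ^ 2 ≤ ε1 * (s ^ 2 * x / L ^ 3) := by
    have h3 : 3 ≤ ε1 * (x / L ^ 3) := by
      rw [div_mul_eq_mul_div, div_le_iff₀ he0] at b5
      rw [mul_div_assoc', le_div_iff₀ (by positivity)]
      linarith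
    have h4 : ε1 * (s ^ 2 * x / L ^ 3) = s ^ 2 * (ε1 * (x / L ^ 3)) := by ring
    rw [h4]
    have : (0 : ℝ) ≤ (s : ℝ) ^ 2 := by positivity
    nlinarith
  have h5 : (1 + ε1) ^ 2 * (s * x / L ^ 3) * ∑ d ∈ Icc 1 s, sing {0, (d : ℤ)}
      ≤ (1 + ε1) ^ 2 * (s * x / L ^ 3) * ((1 + ε1) * s) :=
    mul_le_mul_of_nonneg_left hav2 (by positivity)
  have h6 : (1 + ε1) ^ 2 * (s * x / L ^ 3) * ((1 + ε1) * s) = (1 + ε1) ^ 3 * (s ^ 2 * x / L ^ 3) := by ring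
  have h7 : 0 ≤ (s : ℝ) ^ 2 * x / L ^ 3 := by positivity
  have h8 : (1 + ε1) ^ 3 + ε1 ≤ 1 + ε := by nlinarith [mul_pos he0 he0]
  have h9 : 2 * ∑ d ∈ Icc 1 s, ∑ d' ∈ Ico 1 d, (cnt x {0, (d' : ℤ), (d : ℤ)} : ℝ)
      ≤ (1 + ε) * (s ^ 2 * x / L ^ 3) := by
    rw [← hsym]
    calc ∑ e ∈ Icc 1 s, ∑ b ∈ (Icc 1 s).erase e, (cnt x {0, (b : ℤ), (e : ℤ)} : ℝ)
        ≤ (1 + ε1) ^ 3 * (s ^ 2 * x / L ^ 3) + ε1 * (s ^ 2 * x / L ^ 3) := by linarith
      _ = ((1 + ε1) ^ 3 + ε1) * (s ^ 2 * x / L ^ 3) := by ring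
      _ ≤ (1 + ε) * (s ^ 2 * x / L ^ 3) := mul_le_mul_of_nonneg_right h8 h7
  have h10 : (1 + ε) * ((s : ℝ) ^ 2 / 2 * x / L ^ 3) = ((1 + ε) * (s ^ 2 * x / L ^ 3)) / 2 := by ring
  rw [h10]
  linarith

end Pool.Agent.H6.MF
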