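import Pool.Agent.H6.MF.Defs

/-!
# BAS: elementary facts on `cnt`, `nuH`, `adm`, `tr`, `win`

* `cnt_anti`: a condition for more shifts is stronger (`Finset.card_le_card`).
* `cnt_le`: the filter of a range.
* `nuH_le`: the residues `h % p` lie in `Finset.Ico 0 p` (cast), `p > 0`.
* `cnt_inadm`: there is a prime `p` with `nuH H p = p` (`nuH_le` and `¬ nuH H p < p`), so every residue
  class mod `p` contains an element of `H`: for every `n` there is `h ∈ H` with `p ∣ n - h` (the class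
  `n % p` is of the form `h % p`). If `n` is counted by `cnt`, `(n - h).toNat` is a prime divisible by `p`,
  hence `= p` and `n = h + p`. So the counted `n` inject (by the cast) into `H.image (· + p)`.
* `nuH_tr`: `(h + r) % p` depends on `h % p` only and conversely (`Int.emod_emod_of_dvd`, or use the
  bijection `z ↦ (z + r) % p` on residues). `adm_tr` follows. `card_tr`: `h ↦ h + r` is injective.
* `sing_tr`: the local factors agree (`nuH_tr`, `card_tr`).
* `cnt_tr_le`: if `n` is counted on the left, `n - b` is a prime, so `m = n - b` is a natural number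
  `≤ n ≤ ⌊x⌋₊`, and `m - (c - b) = n - c`. The map `n ↦ (n - b).toNat` is injective on the counted `n`.
* `win_mono`: more `b`.
* `win_neg`: for `n ≤ 0` and `b > 0`, `n - b < 0` is not prime (`Int.toNat` of a negative number is `0`).
* `win_shift`: substitute `b ↦ b + a` (`Finset.card_bij` or `Finset.card_nbij'`).
* `win_add`: `Ioc u w` is the disjoint union of `Ioc u v` and `Ioc v w`.
* `win_le`: the cardinality of `Ioc u v` is `(v - u).toNat`.
* `cnt_odd`: if `H ∋ 0` contains an odd integer then `nuH H 2 = 2`, so `H` is not admissible.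
-/

set_option autoImplicit false

namespace Pool.Agent.H6.MF

open Finset

theorem cnt_anti (x : ℝ) {H K : Finset ℤ} (h : H ⊆ K) : cnt x K ≤ cnt x H := by
  refine card_le_card fun n hn => ?_
  rw [mem_filter] at hn ⊢
  exact ⟨hn.1, fun a ha => hn.2 a (h ha)⟩

theorem cnt_le (x : ℝ) (H : Finset ℤ) : cnt x H ≤ ⌊x⌋₊ + 1 := by
  unfold cnt
  exact (card_filter_le _ _).trans (by rw [card_range])

theorem nuH_le (H : Finset ℤ) {p : ℕ} (hp : 0 < p) : nuH H p ≤ p := by
  unfold nuH
  have h1 : H.image (fun h => h % (p : ℤ)) ⊆ Ico (0 : ℤ) p := by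
    intro a ha
    obtain ⟨b, -, rfl⟩ := mem_image.1 ha
    rw [mem_Ico]
    have hp' : (0 : ℤ) < p := by exact_mod_cast hp
    exact ⟨Int.emod_nonneg _ hp'.ne', Int.emod_lt_of_pos _ hp'⟩
  have h2 := card_le_card h1
  simpa using h2

theorem nuH_le_card (H : Finset ℤ) (p : ℕ) : nuH H p ≤ H.card := card_image_le

/-- if all residue classes are met then every class contains an element of `H` -/
theorem BAS_exists {H : Finset ℤ} {p : ℕ} (hp : 0 < p) (h : p ≤ nuH H p) (n : ℤ) :
    ∃ b ∈ H, (p : ℤ) ∣ n - b := by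
  have hp' : (0 : ℤ) < p := by exact_mod_cast hp
  have h1 : H.image (fun h => h % (p : ℤ)) ⊆ Ico (0 : ℤ) p := by
    intro a ha
    obtain ⟨b, -, rfl⟩ := mem_image.1 ha
    rw [mem_Ico]
    exact ⟨Int.emod_nonneg _ hp'.ne', Int.emod_lt_of_pos _ hp'⟩
  have h2 : H.image (fun h => h % (p : ℤ)) = Ico (0 : ℤ) p := by
    refine eq_of_subset_of_card_le h1 ?_
    unfold nuH at h
    simpa using h
  have h3 : n % (p : ℤ) ∈ H.image (fun h => h % (p : ℤ)) := by
    rw [h2, mem_Ico]
    exact ⟨Int.emod_nonneg _ hp'.ne', Int.emod_lt_of_pos _ hp'⟩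
  obtain ⟨b, hb, hbn⟩ := mem_image.1 h3
  refine ⟨b, hb, ?_⟩
  exact (Int.ModEq.dvd (hbn : b % (p : ℤ) = n % (p : ℤ)))

theorem cnt_inadm (x : ℝ) {H : Finset ℤ} (h : ¬ adm H) : cnt x H ≤ H.card := by
  unfold adm at h
  push Not at h
  obtain ⟨p, hp, hpn⟩ := h
  have h1 : ∀ n : ℕ, (∀ h ∈ H, isP ((n : ℤ) - h)) → ∃ b ∈ H, (n : ℤ) = b + p := by
    intro n hn
    obtain ⟨b, hb, hd⟩ := BAS_exists hp.pos hpn n
    refine ⟨b, hb, ?_⟩
    have h2 : ((n : ℤ) - b).toNat.Prime := hn b hb
    have h3 : 0 < (n : ℤ) - b := by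
      by_contra hcon
      rw [Int.toNat_of_nonpos (not_lt.1 hcon)] at h2
      exact Nat.not_prime_zero h2
    have h4 : (((n : ℤ) - b).toNat : ℤ) = (n : ℤ) - b := Int.toNat_of_nonneg h3.le
    have h5 : p ∣ ((n : ℤ) - b).toNat := by
      rw [← h4] at hd
      exact_mod_cast hd
    have h6 : p = ((n : ℤ) - b).toNat := (Nat.prime_dvd_prime_iff_eq hp h2).1 h5
    rw [← h6] at h4
    linarith
  have h2 : ((range (⌊x⌋₊ + 1)).filter (fun n : ℕ => ∀ h ∈ H, isP ((n : ℤ) - h))).image
      (fun n : ℕ => (n : ℤ)) ⊆ H.image (fun b => b + (p : ℤ)) := by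
    intro z hz
    obtain ⟨n, hn, rfl⟩ := mem_image.1 hz
    obtain ⟨b, hb, hbn⟩ := h1 n (mem_filter.1 hn).2
    exact mem_image.2 ⟨b, hb, hbn.symm⟩
  have h3 := card_le_card h2
  rw [card_image_of_injective _ Nat.cast_injective] at h3
  exact h3.trans card_image_le

theorem adm_anti {H K : Finset ℤ} (h : H ⊆ K) (hK : adm K) : adm H := fun p hp =>
  lt_of_le_of_lt (card_le_card (image_subset_image h)) (hK p hp)

theorem card_tr (H : Finset ℤ) (r : ℤ) : (tr H r).card = H.card :=
  card_image_of_injective _ (add_left_injective r)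

theorem nuH_tr (H : Finset ℤ) (r : ℤ) (p : ℕ) : nuH (tr H r) p = nuH H p := by
  unfold nuH tr
  rw [image_image]
  have h1 : H.image ((fun h => h % (p : ℤ)) ∘ fun h => h + r) =
      (H.image (fun h => h % (p : ℤ))).image (fun z => (z + r) % (p : ℤ)) := by
    rw [image_image]
    refine image_congr fun a _ => ?_
    simp [Function.comp]
  rw [h1]
  refine card_image_of_injOn ?_
  intro a ha b hb hab
  obtain ⟨a', -, rfl⟩ := mem_image.1 (mem_coe.1 ha)
  obtain ⟨b', -, rfl⟩ := mem_image.1 (mem_coe.1 hb)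
  have h2 : (a' % (p : ℤ) + r) ≡ (b' % (p : ℤ) + r) [ZMOD p] := hab
  have h3 : (a' % (p : ℤ)) ≡ (b' % (p : ℤ)) [ZMOD p] := Int.ModEq.add_right_cancel' r h2
  have h4 : a' % (p : ℤ) % (p : ℤ) = b' % (p : ℤ) % (p : ℤ) := h3
  simpa using h4

theorem adm_tr (H : Finset ℤ) (r : ℤ) : adm (tr H r) ↔ adm H := by
  unfold adm
  simp only [nuH_tr]

theorem sing_tr (H : Finset ℤ) (r : ℤ) : sing (tr H r) = sing H := by
  unfold sing loc
  simp only [nuH_tr, card_tr]

theorem cnt_tr_le (x : ℝ) (H : Finset ℤ) {b : ℤ} (hb : b ∈ H) (hb0 : 0 ≤ b) :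
    cnt x H ≤ cnt x (tr H (-b)) := by
  unfold cnt
  have hpos : ∀ n : ℕ, n ∈ (range (⌊x⌋₊ + 1)).filter (fun n : ℕ => ∀ h ∈ H, isP ((n : ℤ) - h)) →
      0 < (n : ℤ) - b := by
    intro n hn
    have h2 : ((n : ℤ) - b).toNat.Prime := (mem_filter.1 hn).2 b hb
    by_contra hcon
    rw [Int.toNat_of_nonpos (not_lt.1 hcon)] at h2
    exact Nat.not_prime_zero h2
  refine card_le_card_of_injOn (fun n : ℕ => ((n : ℤ) - b).toNat) ?_ ?_
  · intro n hn
    have hn' := mem_coe.1 hn
    have h1 := hpos n hn'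
    have h4 : (((n : ℤ) - b).toNat : ℤ) = (n : ℤ) - b := Int.toNat_of_nonneg h1.le
    rw [mem_filter, mem_range] at hn'
    show ((n : ℤ) - b).toNat ∈ (filter _ _ : Finset ℕ)
    rw [mem_filter, mem_range]
    refine ⟨by omega, ?_⟩
    intro h hh
    obtain ⟨c, hc, rfl⟩ := mem_image.1 hh
    have h5 : (((n : ℤ) - b).toNat : ℤ) - (c + -b) = (n : ℤ) - c := by rw [h4]; ring
    rw [h5]
    exact hn'.2 c hc
  · intro n hn m hm hnm
    have h1 := hpos n (mem_coe.1 hn)
    have h2 := hpos m (mem_coe.1 hm)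
    have h3 : ((n : ℤ) - b).toNat = ((m : ℤ) - b).toNat := hnm
    omega

theorem win_mono {u v u' v' n : ℤ} (hu : u' ≤ u) (hv : v ≤ v') : win u v n ≤ win u' v' n :=
  card_le_card (filter_subset_filter _ (Ioc_subset_Ioc hu hv))

theorem win_neg {u v n : ℤ} (hu : 0 ≤ u) (hn : n ≤ 0) : win u v n = 0 := by
  unfold win
  rw [card_eq_zero, filter_eq_empty_iff]
  intro b hb hP
  rw [mem_Ioc] at hb
  have h2 : (n - b).toNat.Prime := hP
  rw [Int.toNat_of_nonpos (by omega)] at h2
  exact Nat.not_prime_zero h2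

theorem win_shift (u v n a : ℤ) : win (u + a) (v + a) (n + a) = win u v n := by
  unfold win
  refine card_nbij' (fun b => b - a) (fun b => b + a) ?_ ?_ ?_ ?_
  · intro b hb
    simp only [coe_filter, mem_Ioc, Set.mem_ofPred_eq] at hb ⊢
    refine ⟨by omega, ?_⟩
    have h1 : n - (b - a) = n + a - b := by ring
    rw [h1]
    exact hb.2
  · intro b hb
    simp only [coe_filter, mem_Ioc, Set.mem_ofPred_eq] at hb ⊢
    refine ⟨by omega, ?_⟩
    have h1 : n + a - (b + a) = n - b := by ring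
    rw [h1]
    exact hb.2
  · intro b _
    simp
  · intro b _
    simp

theorem win_add {u v w : ℤ} (huv : u ≤ v) (hvw : v ≤ w) (n : ℤ) : win u w n = win u v n + win v w n := by
  unfold win
  rw [← card_union_of_disjoint, ← filter_union, Ioc_union_Ioc_eq_Ioc huv hvw]
  refine disjoint_filter_filter ?_
  rw [disjoint_left]
  intro a ha hb
  rw [mem_Ioc] at ha hb
  omega

theorem win_le (u v n : ℤ) : win u v n ≤ (v - u).toNat := by
  unfold win
  refine (card_filter_le _ _).trans ?_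
  rw [Int.card_Ioc]

theorem not_adm_of_odd {H : Finset ℤ} {b : ℤ} (h0 : (0 : ℤ) ∈ H) (hb : b ∈ H) (hodd : Odd b) : ¬ adm H := by
  intro h
  have h1 := h 2 Nat.prime_two
  have h2 : ({0, 1} : Finset ℤ) ⊆ H.image (fun h => h % ((2 : ℕ) : ℤ)) := by
    intro a ha
    rw [mem_insert, mem_singleton] at ha
    rcases ha with rfl | rfl
    · exact mem_image.2 ⟨0, h0, by simp⟩
    · refine mem_image.2 ⟨b, hb, ?_⟩
      obtain ⟨k, hk⟩ := hodd
      push_cast
      omega
  have h3 := card_le_card h2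
  have h4 : ({0, 1} : Finset ℤ).card = 2 := by decide
  unfold nuH at h1
  omega

end Pool.Agent.H6.MF
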