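import Pool.Agent.H6.MF.SNG

/-!
# BRG: the question in the form of the frozen statement

`UniformTriples` is the frozen statement S16055 verbatim. For naturals `d' < d`, `0 < d'`:
* `sing {0,(d':ℤ),(d:ℤ)}` is the infinite product of the frozen statement: the set `{0,d',d} : Finset ℤ` has `3`
  elements and its image under `% (p : ℤ)` is the cast of the image of `{0,d',d} : Finset ℕ` under `% p`
  (`Nat.cast` is injective; `Int.natCast_mod`), so the factors agree (`tprod_congr`).
* `cnt x {0,d',d}` is the cardinality in the frozen statement: `isP (n - 0) ↔ n.Prime`,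
  `isP ((n:ℤ) - d') ↔ (n - d').Prime` because `((n:ℤ) - d').toNat = n - d'` (`Int.toNat_sub`), the order of the
  conjuncts is different.
-/

set_option autoImplicit false

namespace Pool.Agent.H6.MF

open Finset

/-- the frozen statement S16055 -/
def UniformTriples : Prop :=
    ∀ ε : ℝ, 0 < ε → ∃ X : ℝ, ∀ x : ℝ, X ≤ x →
      ∀ d d' : ℕ, Even d → Even d' → 2 ≤ d' → d' < d → (d : ℝ) ≤ (Real.log x) ^ 2 →
      ∀ S : ℝ,
        S = (∏' p : Nat.Primes,
              ((1 - ((((({0, d', d} : Finset ℕ).image (fun n => n % (p : ℕ))).card : ℕ) : ℝ) / ((p : ℕ) : ℝ)))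
                / (1 - 1 / ((p : ℕ) : ℝ)) ^ 3)) →
        S ≠ 0 →
        |((((Finset.range (⌊x⌋₊ + 1)).filter
              (fun p => p.Prime ∧ (p - d).Prime ∧ (p - d').Prime)).card : ℕ) : ℝ)
            - S * x / (Real.log x) ^ 3|
          ≤ ε * (S * x / (Real.log x) ^ 3)

theorem BRG_set (d d' : ℕ) : ({0, (d' : ℤ), (d : ℤ)} : Finset ℤ)
    = ({0, d', d} : Finset ℕ).image (fun n : ℕ => (n : ℤ)) := by
  simp [Finset.image_insert]

theorem sing_triple {d d' : ℕ} (h0 : 0 < d') (h1 : d' < d) : sing {0, (d' : ℤ), (d : ℤ)}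
    = (∏' p : Nat.Primes,
              ((1 - ((((({0, d', d} : Finset ℕ).image (fun n => n % (p : ℕ))).card : ℕ) : ℝ) / ((p : ℕ) : ℝ)))
                / (1 - 1 / ((p : ℕ) : ℝ)) ^ 3)) := by
  unfold sing
  refine tprod_congr fun p => ?_
  unfold loc nuH
  have hinj : Function.Injective (fun n : ℕ => (n : ℤ)) := Nat.cast_injective
  have hcard : ({0, (d' : ℤ), (d : ℤ)} : Finset ℤ).card = 3 := by
    rw [BRG_set, Finset.card_image_of_injective _ hinj, Finset.card_eq_three]
    exact ⟨0, d', d, by omega, by omega, by omega, rfl⟩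
  have himg : (({0, (d' : ℤ), (d : ℤ)} : Finset ℤ).image (fun h => h % ((p : ℕ) : ℤ))).card
      = (({0, d', d} : Finset ℕ).image (fun n => n % (p : ℕ))).card := by
    have e : ({0, (d' : ℤ), (d : ℤ)} : Finset ℤ).image (fun h => h % ((p : ℕ) : ℤ))
        = ((({0, d', d} : Finset ℕ).image (fun n => n % (p : ℕ))).image (fun n : ℕ => (n : ℤ))) := by
      rw [BRG_set, Finset.image_image, Finset.image_image]
      refine Finset.image_congr fun n _ => ?_
      simp
    rw [e, Finset.card_image_of_injective _ hinj]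
  rw [hcard, himg]

theorem cnt_triple (x : ℝ) (d d' : ℕ) : cnt x {0, (d' : ℤ), (d : ℤ)}
    = ((Finset.range (⌊x⌋₊ + 1)).filter (fun p => p.Prime ∧ (p - d).Prime ∧ (p - d').Prime)).card := by
  unfold cnt
  congr 1
  refine Finset.filter_congr fun n _ => ?_
  have h : ∀ m : ℕ, isP ((n : ℤ) - (m : ℤ)) ↔ (n - m).Prime := by
    intro m
    unfold isP
    rw [Int.toNat_sub]
  constructor
  · intro hn
    have a := hn 0 (by simp)
    have b := hn (d' : ℤ) (by simp)
    have c := hn (d : ℤ) (by simp)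
    have a' := (h 0).1 (by simpa using a)
    exact ⟨by simpa using a', (h d).1 c, (h d').1 b⟩
  · rintro ⟨a, b, c⟩ m hm
    simp only [Finset.mem_insert, Finset.mem_singleton] at hm
    rcases hm with rfl | rfl | rfl
    · have := (h 0).2 (by simpa using a)
      simpa using this
    · exact (h d').2 c
    · exact (h d).2 b

theorem BRG : HL3 ↔ UniformTriples := by
  constructor
  · intro H ε hε
    obtain ⟨X, hX⟩ := H ε hε
    refine ⟨X, fun x hx d d' hd hd' h2 hlt hle S hS hS0 => ?_⟩
    have h := hX x hx d d' hd hd' h2 hlt hle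
    rw [sing_triple (by omega) hlt, ← hS, cnt_triple] at h
    exact h hS0
  · intro H ε hε
    obtain ⟨X, hX⟩ := H ε hε
    refine ⟨X, fun x hx d d' hd hd' h2 hlt hle hS0 => ?_⟩
    have h := hX x hx d d' hd hd' h2 hlt hle (sing {0, (d' : ℤ), (d : ℤ)})
      (sing_triple (by omega) hlt) hS0
    rw [cnt_triple]
    exact h

end Pool.Agent.H6.MF
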