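import Pool.Agent.H6.MF.ROC
import Pool.Agent.H6.MF.SMB

/-!
# ROW: the row principle

Write `k = |H| ≥ 2`, `S = sing H ≥ c > 0`, `C = cnt x H ≤ C₁ S x/Λ^k` (`SIE` with exponent `A = k`), `D = v - u`,
`T = ∑_{n good} win u v n`, `L = ⌊η Λ^k⌋₊`, `R = ∑_{b ∈ Ioc u v \ H} cnt x (insert b H)`. The target scale is
`Q = D S x/Λ^(k+1)`; recall `t Λ^k ≤ D ≤ 2 Λ^k`.

1. `|R - T| ≤ k C` (`sum_insert_le`, `le_sum_insert`) and `k C ≤ k C₁ S x/Λ^k ≤ (ε/8) Q` for large `x`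
   (because `D/Λ ≥ t Λ^(k-1) → ∞`).
2. *Upper bound.* `L T ≤ ∑_m tt(m) win u (v+L) m` (`row_upper`), `M' = (D + L)/Λ`. By `sum_tt` and
   Cauchy-Schwarz `∑_m tt(m) win u (v+L) m ≤ M' L C + (∑ tt^2)^(1/2) (∑_m (win u (v+L) m - M')^2)^(1/2)`, the sums
   over `m < N + 1 + L`.
   * `∑ tt^2 ≤ L (C + 2 ∑_r cnt x (H ∪ tr H r)) ≤ C₂ L (S x/Λ^k + L S^2 x/Λ^(2k)) ≤ C₃ S^2 x` (`sum_tt_sq`, `SMB`,
     `L ≤ Λ^k`, `S ≥ c`); `C₃` depends on `k` only.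
   * `∑_{m ≤ N} (win - M')^2 ≤ ε' M'^2 x` by `Conc k` (`|u|, |v + L| ≤ 2 Λ^k`, length `≥ t Λ^k`), and the
     `m ∈ (N, N + L]` contribute at most `L (D + L + M')^2 ≤ ε' M'^2 x` for large `x`.
   So `T ≤ M' C + (1/L) (C₃ S^2 x · 2 ε' M'^2 x)^(1/2) = M' C + (2 C₃ ε')^(1/2) S x M'/L`. Here
   `M' C - (D/Λ) C = (L/Λ) C ≤ η Λ^(k-1) C₁ S x/Λ^k ≤ (C₁ η/t) Q`, `M' ≤ (1 + η/t) D/Λ`, `1/L ≤ 2/(η Λ^k)`, so
   the last term is `≤ (2 C₃ ε')^(1/2) (2/η) (1 + η/t) Q`. Choose first `η ≤ t` with `C₁ η/t ≤ ε/8`, then `ε'`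
   with `(2 C₃ ε')^(1/2) · 4/η ≤ ε/8`.
3. *Lower bound.* `row_lower`: `L T ≥ ∑_m tt(m) win (u+L) v m ≥ M'' L C - (...)^(1/2)`, `M'' = (D - L)/Λ`, the
   window `(u+L, v]` has length `D - L ≥ (t/2) Λ^k` (`η ≤ t/2`). The same estimates.
-/

set_option autoImplicit false

namespace Pool.Agent.H6.MF

open Finset

private lemma ROW_cs (s : Finset ℕ) (f g : ℕ → ℝ) (M A B δ : ℝ) (hA : ∑ i ∈ s, f i ^ 2 ≤ A)
    (hB : ∑ i ∈ s, (g i - M) ^ 2 ≤ B) (hAB : A * B ≤ δ ^ 2) (hδ : 0 ≤ δ) :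
    |∑ i ∈ s, f i * g i - M * ∑ i ∈ s, f i| ≤ δ := by
  have h1 : ∑ i ∈ s, f i * g i - M * ∑ i ∈ s, f i = ∑ i ∈ s, f i * (g i - M) := by
    rw [Finset.mul_sum, ← Finset.sum_sub_distrib]
    exact Finset.sum_congr rfl fun i _ => by ring
  rw [h1]
  refine abs_le_of_sq_le_sq ?_ hδ
  have h2 : 0 ≤ ∑ i ∈ s, f i ^ 2 := Finset.sum_nonneg fun i _ => sq_nonneg _
  have h3 : 0 ≤ ∑ i ∈ s, (g i - M) ^ 2 := Finset.sum_nonneg fun i _ => sq_nonneg _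
  calc (∑ i ∈ s, f i * (g i - M)) ^ 2 ≤ (∑ i ∈ s, f i ^ 2) * ∑ i ∈ s, (g i - M) ^ 2 :=
        Finset.sum_mul_sq_le_sq_mul_sq s f fun i => g i - M
    _ ≤ A * B := mul_le_mul hA hB h3 (h2.trans hA)
    _ ≤ δ ^ 2 := hAB

private lemma ROW_win {x lam S eps C3 δ : ℝ} {H : Finset ℤ} {L : ℕ} {a b : ℤ} (hx : 0 ≤ x)
    (hlam : 1 ≤ lam) (hS : 0 ≤ S) (hδ : 0 ≤ δ) (hab : a ≤ b)
    (hconc : ∑ n ∈ Finset.range (⌊x⌋₊ + 1), ((win a b (n : ℤ) : ℝ) - ((b : ℝ) - a) / lam) ^ 2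
      ≤ eps * (((b : ℝ) - a) / lam) ^ 2 * x)
    (hL : (L : ℝ) * lam ^ 2 ≤ eps * x)
    (htt : ∑ m ∈ Finset.range (⌊x⌋₊ + 1 + L), (tt x H L m : ℝ) ^ 2 ≤ C3 * S ^ 2 * x)
    (hC : 2 * C3 * eps ≤ δ ^ 2) :
    |∑ m ∈ Finset.range (⌊x⌋₊ + 1 + L), (tt x H L m : ℝ) * (win a b (m : ℤ) : ℝ)
      - ((b : ℝ) - a) / lam * (L * cnt x H)| ≤ δ * (S * x * (((b : ℝ) - a) / lam)) := by
  have hab' : (0 : ℝ) ≤ (b : ℝ) - a := by
    have : (a : ℝ) ≤ b := by exact_mod_cast hab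
    linarith
  have hlam0 : 0 < lam := by linarith
  have hM0 : 0 ≤ ((b : ℝ) - a) / lam := div_nonneg hab' hlam0.le
  have hM1 : ((b : ℝ) - a) / lam ≤ (b : ℝ) - a := div_le_self hab' hlam
  have hMl : ((b : ℝ) - a) / lam * lam = (b : ℝ) - a := by field_simp
  generalize ((b : ℝ) - a) / lam = M at *
  have h1 : ∀ m : ℤ, ((win a b m : ℝ) - M) ^ 2 ≤ ((b : ℝ) - a) ^ 2 := by
    intro m
    have h2 : (win a b m : ℝ) ≤ (b : ℝ) - a := by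
      have h3 := win_le a b m
      have h5 : (win a b m : ℤ) ≤ b - a := by omega
      exact_mod_cast h5
    have h3 : (0 : ℝ) ≤ (win a b m : ℝ) := Nat.cast_nonneg _
    refine sq_le_sq' ?_ ?_ <;> linarith
  have h2 : ∑ m ∈ Finset.range (⌊x⌋₊ + 1 + L), ((win a b (m : ℤ) : ℝ) - M) ^ 2
      ≤ 2 * eps * M ^ 2 * x := by
    rw [Finset.sum_range_add]
    have h3 : ∑ i ∈ Finset.range L, ((win a b ((⌊x⌋₊ + 1 + i : ℕ) : ℤ) : ℝ) - M) ^ 2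
        ≤ L * ((b : ℝ) - a) ^ 2 := by
      have := Finset.sum_le_card_nsmul (Finset.range L)
        (fun i => ((win a b ((⌊x⌋₊ + 1 + i : ℕ) : ℤ) : ℝ) - M) ^ 2) (((b : ℝ) - a) ^ 2)
        (fun i _ => h1 _)
      rwa [Finset.card_range, nsmul_eq_mul] at this
    have h4 : (L : ℝ) * ((b : ℝ) - a) ^ 2 ≤ eps * M ^ 2 * x := by
      rw [← hMl]
      calc (L : ℝ) * (M * lam) ^ 2 = M ^ 2 * (L * lam ^ 2) := by ring
        _ ≤ M ^ 2 * (eps * x) := mul_le_mul_of_nonneg_left hL (sq_nonneg _)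
        _ = eps * M ^ 2 * x := by ring
    calc _ ≤ eps * M ^ 2 * x + eps * M ^ 2 * x := add_le_add hconc (h3.trans h4)
      _ = 2 * eps * M ^ 2 * x := by ring
  have h3 : ∑ m ∈ Finset.range (⌊x⌋₊ + 1 + L), (tt x H L m : ℝ) = L * cnt x H := by
    have := sum_tt x H L
    exact_mod_cast this
  rw [← h3]
  refine ROW_cs _ _ _ _ _ _ _ htt h2 ?_ (mul_nonneg hδ (mul_nonneg (mul_nonneg hS hx) hM0))
  calc C3 * S ^ 2 * x * (2 * eps * M ^ 2 * x) = (2 * C3 * eps) * (S * x * M) ^ 2 := by ring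
    _ ≤ δ ^ 2 * (S * x * M) ^ 2 := mul_le_mul_of_nonneg_right hC (sq_nonneg _)
    _ = (δ * (S * x * M)) ^ 2 := by ring

private lemma ROW_tt {x P S C1 C2 c : ℝ} {H : Finset ℤ} {L : ℕ} (hx : 0 ≤ x) (hP : 0 < P)
    (hc : 0 < c) (hS : c ≤ S) (hC1 : 0 ≤ C1) (hC2 : 0 ≤ C2) (hLP : (L : ℝ) ≤ P)
    (h1 : (cnt x H : ℝ) ≤ C1 * (S * x / P))
    (h2 : ∑ r ∈ Finset.Ico 1 L, (cnt x (H ∪ tr H (r : ℤ)) : ℝ)
      ≤ C2 * (S * x / P + (L : ℝ) * S ^ 2 * x / P ^ 2)) :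
    ∑ m ∈ Finset.range (⌊x⌋₊ + 1 + L), (tt x H L m : ℝ) ^ 2
      ≤ ((C1 + 2 * C2) / c + 2 * C2) * S ^ 2 * x := by
  have h3 : ∑ m ∈ Finset.range (⌊x⌋₊ + 1 + L), (tt x H L m : ℝ) ^ 2
      ≤ L * ((cnt x H : ℝ) + 2 * ∑ r ∈ Finset.Ico 1 L, (cnt x (H ∪ tr H (r : ℤ)) : ℝ)) := by
    have := sum_tt_sq x H L
    exact_mod_cast this
  refine h3.trans ?_
  have hL0 : (0 : ℝ) ≤ L := Nat.cast_nonneg _
  have hS0 : 0 < S := lt_of_lt_of_le hc hS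
  have h4 : (L : ℝ) * (S * x / P) ≤ S * x := by
    rw [← mul_div_assoc, div_le_iff₀ hP]
    nlinarith [mul_nonneg hS0.le hx]
  have h5 : (L : ℝ) * ((L : ℝ) * S ^ 2 * x / P ^ 2) ≤ S ^ 2 * x := by
    rw [← mul_div_assoc, div_le_iff₀ (by positivity)]
    have h6 : (L : ℝ) ^ 2 ≤ P ^ 2 := by gcongr
    calc (L : ℝ) * ((L : ℝ) * S ^ 2 * x) = (L : ℝ) ^ 2 * (S ^ 2 * x) := by ring
      _ ≤ P ^ 2 * (S ^ 2 * x) := mul_le_mul_of_nonneg_right h6 (by positivity)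
      _ = S ^ 2 * x * P ^ 2 := by ring
  have h6 : S * x ≤ S ^ 2 * x / c := by
    rw [le_div_iff₀ hc]
    nlinarith [mul_nonneg (mul_nonneg hS0.le hx) (sub_nonneg.2 hS)]
  calc (L : ℝ) * ((cnt x H : ℝ) + 2 * ∑ r ∈ Finset.Ico 1 L, (cnt x (H ∪ tr H (r : ℤ)) : ℝ))
      ≤ (L : ℝ) * (C1 * (S * x / P) + 2 * (C2 * (S * x / P + (L : ℝ) * S ^ 2 * x / P ^ 2))) := by
        gcongr
    _ = (C1 + 2 * C2) * ((L : ℝ) * (S * x / P)) + 2 * C2 * ((L : ℝ) * ((L : ℝ) * S ^ 2 * x / P ^ 2)) := by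
        ring
    _ ≤ (C1 + 2 * C2) * (S ^ 2 * x / c) + 2 * C2 * (S ^ 2 * x) := by
        gcongr
        exact h4.trans h6
    _ = ((C1 + 2 * C2) / c + 2 * C2) * S ^ 2 * x := by
        field_simp

/-- the real-number bookkeeping at the end -/
private lemma ROW_end {ε t κ η δ lam P S x D L C C1 T R U V : ℝ} {k : ℕ} (hε : 0 < ε)
    (hlam : 1 ≤ lam) (hP : 0 < P) (hx : 0 ≤ x) (hS : 0 ≤ S) (hC0 : 0 ≤ C) (ht : 0 < t) (hC1 : 0 ≤ C1)
    (hκ : 0 ≤ κ) (hκ1 : κ ≤ 1) (hκC : κ * C1 ≤ ε / 4) (hη : η = κ * t) (hη0 : 0 < η) (hδ : δ = ε * η / 16)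
    (hD : t * P ≤ D) (hPl : lam ^ 2 ≤ P) (hkl : 4 * k * C1 ≤ ε * t * lam)
    (hL1 : L ≤ η * P) (hL2 : η * P / 2 ≤ L)
    (hC : C ≤ C1 * (S * x / P))
    (hU : L * T ≤ U) (hU2 : |U - (D + L) / lam * (L * C)| ≤ δ * (S * x * ((D + L) / lam)))
    (hV : V ≤ L * T) (hV2 : |V - (D - L) / lam * (L * C)| ≤ δ * (S * x * ((D - L) / lam)))
    (hR1 : R ≤ T) (hR2 : T ≤ R + k * C) :
    |R - D / lam * C| ≤ ε * (D * S * x / (P * lam)) := by
  have hlam0 : 0 < lam := by linarith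
  have hηP : 0 < η * P := mul_pos hη0 hP
  have hL0 : 0 < L := by linarith
  have hLD : L ≤ κ * D := by
    calc L ≤ η * P := hL1
      _ = κ * (t * P) := by rw [hη]; ring
      _ ≤ κ * D := mul_le_mul_of_nonneg_left hD hκ
  have hD0 : 0 < D := lt_of_lt_of_le (mul_pos ht hP) hD
  have hLD' : L ≤ D := hLD.trans (by nlinarith)
  have hq : 0 ≤ S * x / P := div_nonneg (mul_nonneg hS hx) hP.le
  have hSx : 0 ≤ S * x := mul_nonneg hS hx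
  -- Q = (D/lam) * q
  obtain ⟨q, hqd⟩ : ∃ q, q = S * x / P := ⟨_, rfl⟩
  obtain ⟨y, hyd⟩ : ∃ y, y = D / lam := ⟨_, rfl⟩
  have hy0 : 0 ≤ y := by rw [hyd]; positivity
  have hq0 : 0 ≤ q := by rw [hqd]; exact hq
  have hQ : D * S * x / (P * lam) = y * q := by
    rw [hyd, hqd]; field_simp
  have hqP : q * P = S * x := by rw [hqd]; field_simp
  rw [← hqd] at hC
  rw [hQ, ← hyd]
  obtain ⟨l, hld⟩ : ∃ l, l = L / lam := ⟨_, rfl⟩
  have hl0 : 0 ≤ l := by rw [hld]; positivity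
  have hly : l ≤ κ * y := by
    rw [hld, hyd, ← mul_div_assoc]
    gcongr
  have hp : (D + L) / lam = y + l := by rw [hyd, hld]; ring
  have hm : (D - L) / lam = y - l := by rw [hyd, hld]; ring
  rw [hp] at hU2
  rw [hm] at hV2
  -- l * C ≤ (ε/4) y q
  have e1 : l * C ≤ ε / 4 * (y * q) := by
    calc l * C ≤ (κ * y) * (C1 * q) := mul_le_mul hly hC hC0 (mul_nonneg hκ hy0)
      _ = (κ * C1) * (y * q) := by ring
      _ ≤ ε / 4 * (y * q) := mul_le_mul_of_nonneg_right hκC (mul_nonneg hy0 hq0)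
  have hly' : l ≤ y := by
    rw [hld, hyd]; gcongr
  -- δ S x (y + l) ≤ L (ε/4) y q
  have e2 : δ * (S * x * (y + l)) ≤ L * (ε / 4 * (y * q)) := by
    have hδ0 : 0 ≤ δ := by rw [hδ]; positivity
    calc δ * (S * x * (y + l)) ≤ δ * (S * x * (2 * y)) := by
          refine mul_le_mul_of_nonneg_left (mul_le_mul_of_nonneg_left ?_ hSx) hδ0
          linarith
      _ = (η * P / 2) * (ε / 4 * (y * q)) := by
          rw [← hqP, hδ]; ring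
      _ ≤ L * (ε / 4 * (y * q)) := by
          refine mul_le_mul_of_nonneg_right hL2 ?_
          positivity
  have e3 : δ * (S * x * (y - l)) ≤ L * (ε / 4 * (y * q)) := by
    have hδ0 : 0 ≤ δ := by rw [hδ]; positivity
    refine le_trans (mul_le_mul_of_nonneg_left (mul_le_mul_of_nonneg_left ?_ hSx) hδ0) e2
    linarith
  have f1 := (abs_le.1 hU2).2
  have f2 := (abs_le.1 hV2).1
  have u1 : L * T ≤ L * (y * C + ε / 2 * (y * q)) := by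
    have : L * (l * C) ≤ L * (ε / 4 * (y * q)) := mul_le_mul_of_nonneg_left e1 hL0.le
    nlinarith
  have u2 : L * (y * C - ε / 2 * (y * q)) ≤ L * T := by
    have : L * (l * C) ≤ L * (ε / 4 * (y * q)) := mul_le_mul_of_nonneg_left e1 hL0.le
    nlinarith
  have u3 : T ≤ y * C + ε / 2 * (y * q) := le_of_mul_le_mul_left u1 hL0
  have u4 : y * C - ε / 2 * (y * q) ≤ T := le_of_mul_le_mul_left u2 hL0
  -- k C ≤ (ε/4) y q
  have e4 : (k : ℝ) * C ≤ ε / 4 * (y * q) := by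
    have g1 : t * lam ≤ y := by
      rw [hyd, le_div_iff₀ hlam0]
      calc t * lam * lam = t * lam ^ 2 := by ring
        _ ≤ t * P := mul_le_mul_of_nonneg_left hPl ht.le
        _ ≤ D := hD
    have g2 : (k : ℝ) * C1 ≤ ε / 4 * y := by
      have : ε * (t * lam) ≤ ε * y := mul_le_mul_of_nonneg_left g1 hε.le
      nlinarith
    calc (k : ℝ) * C ≤ k * (C1 * q) := mul_le_mul_of_nonneg_left hC (Nat.cast_nonneg _)
      _ = (k * C1) * q := by ring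
      _ ≤ (ε / 4 * y) * q := mul_le_mul_of_nonneg_right g2 hq0
      _ = ε / 4 * (y * q) := by ring
  have e5 : 0 ≤ ε * (y * q) := by positivity
  rw [abs_le]
  constructor <;> nlinarith

theorem ROW (k : ℕ) (hk : 2 ≤ k) (h : Conc k) : Row k := by
  intro ε hε t ht
  obtain ⟨C1, X1, hC1, hSIE⟩ := SIE k k (by omega)
  obtain ⟨c, hc, hsl⟩ := sing_lower k
  obtain ⟨C2, hC2, hSMB⟩ := SMB k hk
  obtain ⟨κ, hκd⟩ : ∃ κ : ℝ, κ = min (min (1 / 2) (ε / (4 * C1))) (1 / (t + 1)) := ⟨_, rfl⟩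
  have hκ0 : 0 < κ := by
    rw [hκd]
    exact lt_min (lt_min (by norm_num) (by positivity)) (by positivity)
  have hκ1 : κ ≤ 1 / 2 := by
    rw [hκd]; exact (min_le_left _ _).trans (min_le_left _ _)
  have hκ2 : κ * C1 ≤ ε / 4 := by
    have : κ ≤ ε / (4 * C1) := by
      rw [hκd]; exact (min_le_left _ _).trans (min_le_right _ _)
    rw [le_div_iff₀ (by positivity)] at this
    linarith
  have hκ3 : κ * t ≤ 1 := by
    have : κ ≤ 1 / (t + 1) := by rw [hκd]; exact min_le_right _ _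
    rw [le_div_iff₀ (by positivity)] at this
    linarith
  obtain ⟨η, hηd⟩ : ∃ η : ℝ, η = κ * t := ⟨_, rfl⟩
  have hη0 : 0 < η := by rw [hηd]; positivity
  have hη1 : η ≤ 1 := by rw [hηd]; exact hκ3
  obtain ⟨X2, hX2⟩ := hSMB η hη0 hη1
  obtain ⟨C3, hC3d⟩ : ∃ C3 : ℝ, C3 = (C1 + 2 * C2) / c + 2 * C2 := ⟨_, rfl⟩
  have hC3 : 0 < C3 := by rw [hC3d]; positivity
  obtain ⟨δ, hδd⟩ : ∃ δ : ℝ, δ = ε * η / 16 := ⟨_, rfl⟩
  have hδ0 : 0 < δ := by rw [hδd]; positivity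
  obtain ⟨ε', hε'd⟩ : ∃ ε' : ℝ, ε' = δ ^ 2 / (2 * C3) := ⟨_, rfl⟩
  have hε'0 : 0 < ε' := by rw [hε'd]; positivity
  have hε'C : 2 * C3 * ε' ≤ δ ^ 2 := by
    rw [hε'd]
    apply le_of_eq
    field_simp
  obtain ⟨X3, hX3⟩ := h ε' hε'0 (t / 2) (by positivity)
  have hg : ∀ᶠ x : ℝ in Filter.atTop, (Real.log x) ^ (k + 2) ≤ ε' * x := by
    have h1 := (Real.isLittleO_pow_log_id_atTop (n := k + 2)).def hε'0
    filter_upwards [h1, Filter.eventually_ge_atTop (0 : ℝ)] with x h2 h3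
    simp only [id, Real.norm_eq_abs] at h2
    rw [abs_of_nonneg h3] at h2
    exact (le_abs_self _).trans h2
  have hl : ∀ᶠ x : ℝ in Filter.atTop,
      max 1 (max (4 * k * C1 / (ε * t)) (2 / η)) ≤ Real.log x :=
    Real.tendsto_log_atTop.eventually_ge_atTop _
  obtain ⟨X4, hX4⟩ := Filter.eventually_atTop.1 (hg.and hl)
  refine ⟨max (max X1 X2) (max X3 (max X4 1)), fun x hx H hH hadm hHb u v hu hv huv => ?_⟩
  have hx1 : X1 ≤ x := ((le_max_left _ _).trans (le_max_left _ _)).trans hx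
  have hx2 : X2 ≤ x := ((le_max_right _ _).trans (le_max_left _ _)).trans hx
  have hx3 : X3 ≤ x := ((le_max_left _ _).trans (le_max_right _ _)).trans hx
  have hx4 : X4 ≤ x :=
    ((le_max_left _ _).trans ((le_max_right _ _).trans (le_max_right _ _))).trans hx
  have hx5 : (1 : ℝ) ≤ x :=
    ((le_max_right _ _).trans ((le_max_right _ _).trans (le_max_right _ _))).trans hx
  have hx0 : 0 ≤ x := by linarith
  obtain ⟨hgx, hlx⟩ := hX4 x hx4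
  have hS := hsl H hH hadm
  have hC := hSIE x hx1 H hH hadm hHb
  have hM := hX2 x hx2 H hH hadm hHb
  have hK := hX3 x hx3
  obtain ⟨lam, hlamd⟩ : ∃ lam : ℝ, lam = Real.log x := ⟨_, rfl⟩
  rw [← hlamd] at hgx hlx hC hM hu hv huv hHb hK ⊢
  have hlam : 1 ≤ lam := (le_max_left _ _).trans hlx
  have hlam0 : 0 < lam := by linarith
  have hlam2 : 4 * k * C1 ≤ ε * t * lam := by
    have h1 : 4 * k * C1 / (ε * t) ≤ lam := ((le_max_left _ _).trans (le_max_right _ _)).trans hlx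
    rw [div_le_iff₀ (by positivity)] at h1
    linarith
  have hlam3 : 2 ≤ η * lam := by
    have h1 : 2 / η ≤ lam := ((le_max_right _ _).trans (le_max_right _ _)).trans hlx
    rw [div_le_iff₀ hη0] at h1
    linarith
  have hPP : lam ^ (2 * k) = (lam ^ k) ^ 2 := by rw [← pow_mul, mul_comm]
  have hPQ : lam ^ (k + 1) = lam ^ k * lam := pow_succ _ _
  have hPl : lam ^ 2 ≤ lam ^ k := pow_le_pow_right₀ hlam hk
  have hP0 : 0 < lam ^ k := by positivity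
  have hlk : lam ≤ lam ^ k := by
    calc lam = lam ^ 1 := (pow_one _).symm
      _ ≤ lam ^ k := pow_le_pow_right₀ hlam (by omega)
  have hgx' : lam ^ k * lam ^ 2 ≤ ε' * x := by rw [← pow_add]; exact hgx
  rw [hPP] at hM
  rw [hPQ]
  obtain ⟨P, hPd⟩ : ∃ P : ℝ, P = lam ^ k := ⟨_, rfl⟩
  rw [← hPd] at hC hM hu hv huv hPl hP0 hlk hgx' ⊢
  simp only [← hPd] at hK
  obtain ⟨S, hSd⟩ : ∃ S : ℝ, S = sing H := ⟨_, rfl⟩
  rw [← hSd] at hS hC hM ⊢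
  have hS0 : 0 < S := lt_of_lt_of_le hc hS
  obtain ⟨L, hLd⟩ : ∃ L : ℕ, L = ⌊η * P⌋₊ := ⟨_, rfl⟩
  rw [← hLd] at hM
  have hηP : 2 ≤ η * P := hlam3.trans (mul_le_mul_of_nonneg_left hlk hη0.le)
  have hL1 : (L : ℝ) ≤ η * P := by rw [hLd]; exact Nat.floor_le (by positivity)
  have hL2 : η * P / 2 ≤ (L : ℝ) := by
    have h1 : η * P < (L : ℝ) + 1 := by rw [hLd]; exact Nat.lt_floor_add_one _
    linarith
  have hLP : (L : ℝ) ≤ P := hL1.trans (by nlinarith)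
  have hLe : (L : ℝ) * lam ^ 2 ≤ ε' * x :=
    (mul_le_mul_of_nonneg_right hLP (by positivity)).trans hgx'
  have htt : ∑ m ∈ Finset.range (⌊x⌋₊ + 1 + L), (tt x H L m : ℝ) ^ 2 ≤ C3 * S ^ 2 * x := by
    rw [hC3d]
    exact ROW_tt hx0 hP0 hc hS hC1.le hC2.le hLP hC hM
  have hLD : (L : ℝ) ≤ κ * ((v : ℝ) - u) := by
    calc (L : ℝ) ≤ η * P := hL1
      _ = κ * (t * P) := by rw [hηd]; ring
      _ ≤ κ * ((v : ℝ) - u) := mul_le_mul_of_nonneg_left huv hκ0.le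
  have hD0 : 0 < (v : ℝ) - u := lt_of_lt_of_le (by positivity) huv
  have hLD2 : (L : ℝ) ≤ ((v : ℝ) - u) / 2 := by nlinarith
  have hL0 : (0 : ℝ) ≤ L := Nat.cast_nonneg _
  -- the two windows
  have hcu : (((v + (L : ℤ) : ℤ) : ℝ)) = (v : ℝ) + L := by push_cast; ring
  have hcl : (((u + (L : ℤ) : ℤ) : ℝ)) = (u : ℝ) + L := by push_cast; ring
  have hu' := abs_le.1 hu
  have hv' := abs_le.1 hv
  have hup := ROW_win (x := x) (lam := lam) (S := S) (eps := ε') (C3 := C3) (δ := δ) (H := H)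
    (L := L) (a := u) (b := v + (L : ℤ)) hx0 hlam hS0.le hδ0.le
    (by
      have : (u : ℝ) ≤ ((v + (L : ℤ) : ℤ) : ℝ) := by rw [hcu]; linarith
      exact_mod_cast this)
    (hK u (v + (L : ℤ)) (by rw [abs_le]; constructor <;> linarith)
      (by rw [hcu, abs_le]; constructor <;> linarith) (by rw [hcu]; nlinarith))
    hLe htt hε'C
  have hlo := ROW_win (x := x) (lam := lam) (S := S) (eps := ε') (C3 := C3) (δ := δ) (H := H)
    (L := L) (a := u + (L : ℤ)) (b := v) hx0 hlam hS0.le hδ0.le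
    (by
      have : ((u + (L : ℤ) : ℤ) : ℝ) ≤ (v : ℝ) := by rw [hcl]; linarith
      exact_mod_cast this)
    (hK (u + (L : ℤ)) v (by rw [hcl, abs_le]; constructor <;> linarith)
      (by rw [abs_le]; constructor <;> linarith) (by rw [hcl]; nlinarith))
    hLe htt hε'C
  rw [hcu] at hup
  rw [hcl] at hlo
  have g1 : (v : ℝ) + L - u = (v : ℝ) - u + L := by ring
  have g2 : (v : ℝ) - (u + L) = (v : ℝ) - u - L := by ring
  rw [g1] at hup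
  rw [g2] at hlo
  have r1 : (L : ℝ) * ∑ n ∈ goodS x H, (win u v (n : ℤ) : ℝ)
      ≤ ∑ m ∈ Finset.range (⌊x⌋₊ + 1 + L), (tt x H L m : ℝ) * (win u (v + (L : ℤ)) (m : ℤ) : ℝ) := by
    exact_mod_cast row_upper x H L u v
  have r2 : ∑ m ∈ Finset.range (⌊x⌋₊ + 1 + L), (tt x H L m : ℝ) * (win (u + (L : ℤ)) v (m : ℤ) : ℝ)
      ≤ (L : ℝ) * ∑ n ∈ goodS x H, (win u v (n : ℤ) : ℝ) := by
    exact_mod_cast row_lower x H L u v
  have r3 : ∑ b ∈ Finset.Ioc u v \ H, (cnt x (insert b H) : ℝ)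
      ≤ ∑ n ∈ goodS x H, (win u v (n : ℤ) : ℝ) := by
    exact_mod_cast sum_insert_le x H u v
  have r4 : ∑ n ∈ goodS x H, (win u v (n : ℤ) : ℝ)
      ≤ ∑ b ∈ Finset.Ioc u v \ H, (cnt x (insert b H) : ℝ) + (k : ℝ) * (cnt x H : ℝ) := by
    rw [← hH]
    exact_mod_cast le_sum_insert x H u v
  exact ROW_end hε hlam hP0 hx0 hS0.le (Nat.cast_nonneg _) ht hC1.le hκ0.le (by linarith) hκ2 hηd hη0 hδd
    huv hPl hlam2 hL1 hL2 hC r1 hup r2 hlo r3 r4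

end Pool.Agent.H6.MF
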