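import Pool.Agent.H6.MF.BAS

/-!
# M4J: `jensen_block` (first bullet of the header, which is shared with M4B.lean)

* `jensen_block` (for naturals `N, h, ℓ` with `h ≤ ℓ`, `0 < ℓ`). Let `Z(n) = win 0 h n`, `Y_c(n) = win (-c) (ℓ-c) n =
  win 0 ℓ (n + c)` (`win_shift`). `∑_{c<ℓ} ∑_{n ≤ N} Z(n)^3 Y_c(n)`: substitute `s = n + c` and keep only the `s` with
  `ℓ ≤ s ≤ N`: `≥ ∑_{s=ℓ}^{N} win 0 ℓ s · ∑_{n ∈ (s-ℓ, s]} Z(n)^3`. By the power mean inequality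
  (`inner_le_nnorm_mul_nnorm`, or `inv_pow_le`/`pow_arith_mean_le_arith_mean_pow`):
  `∑_{n ∈ (s-ℓ,s]} Z(n)^3 ≥ ℓ^(-2) (∑_{n ∈ (s-ℓ, s]} Z(n))^3`. Every prime `q` with `s - ℓ ≤ q < s - h` (there are
  `win h ℓ s` of them) is counted in `Z(n)` (primes in `[n - h, n)`) for the `h` values `n ∈ (q, q+h] ⊆ (s-ℓ, s]`,
  so `∑_{n ∈ (s-ℓ,s]} Z(n) ≥ h · win h ℓ s`. And `win 0 ℓ s ≥ win h ℓ s`. Together `≥ (h^3/ℓ^2) ∑_s (win h ℓ s)^4`.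
* `M4B`. Fix `ε, τ ≤ 1/4`. Let `δ ≤ ε τ/100` (also `δ ≤ 1/2`), `h = ⌊δ Λ^2⌋₊`, `ℓ = ⌊τ Λ^3⌋₊`, `M = (ℓ - h)/Λ` (about
  `τ Λ^2`; `h/ℓ → 0`). `M4A` summed over `c < ℓ`, with `jensen_block` (`N = ⌊x⌋₊`):
  `∑_{s=ℓ}^{N} (win h ℓ s)^4 ≤ (ℓ^2/h^3) ℓ (1+ε') (δ Λ)^3 (τ Λ^2) x ≤ (1 + 2ε') M^4 x` for large `x` (as
  `h/(δ Λ^2) → 1`, `ℓ/(τ Λ^3) → 1`). The `s < ℓ` contribute `≤ ℓ^5 ≤ ε' M^4 x`. First moment (`FMO`, `k = 3`):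
  `∑_{s ≤ N} win h ℓ s ≥ (1-ε') M x`. `jensen4`: `∑_{s ≤ N} (win h ℓ s - M)^2 ≤ 16 ε' M^2 x`. Finally
  `win 0 ℓ s = win 0 h s + win h ℓ s` with `0 ≤ win 0 h s ≤ h ≤ δ Λ^2 ≤ (ε/50) M`, and `|ℓ/Λ - M| = h/Λ ≤ ε' M`, so
  `(win 0 ℓ s - ℓ/Λ)^2 ≤ 3 (win h ℓ s - M)^2 + 3 h^2 + 3 (h/Λ)^2`; sum and compare with `ε (τ Λ^3/Λ)^2 x`
  (`δ^2 Λ^4 ≤ (ε τ/100)^2 Λ^4`, fine for `ε ≤ 1`).
-/

set_option autoImplicit false

namespace Pool.Agent.H6.MF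

open Finset

/-- the inner first moment: primes in `(h, ℓ]` are counted `h` times -/
theorem M4J_first (h ℓ : ℕ) (s : ℤ) :
    h * win (h : ℤ) (ℓ : ℤ) s ≤ ∑ c ∈ Finset.range ℓ, win 0 (h : ℤ) (s - c) := by
  have h1 : ∀ c ∈ Finset.range ℓ, win 0 (h : ℤ) (s - c) =
      ∑ b ∈ Finset.Ioc (0 : ℤ) h, if isP (s - c - b) then 1 else 0 := by
    intro c _
    unfold win
    rw [card_filter]
  rw [sum_congr rfl h1, sum_comm]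
  have h2 : ∀ b ∈ Finset.Ioc (0 : ℤ) h, win (h : ℤ) (ℓ : ℤ) s ≤
      ∑ c ∈ Finset.range ℓ, if isP (s - c - b) then 1 else 0 := by
    intro b hb
    rw [mem_Ioc] at hb
    rw [← card_filter]
    unfold win
    refine card_le_card_of_injOn (fun d : ℤ => (d - b).toNat) ?_ ?_
    · intro d hd
      have hd' := mem_coe.1 hd
      rw [mem_filter, mem_Ioc] at hd'
      show (d - b).toNat ∈ (filter _ _ : Finset ℕ)
      rw [mem_filter, mem_range]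
      have h4 : ((d - b).toNat : ℤ) = d - b := Int.toNat_of_nonneg (by omega)
      refine ⟨by omega, ?_⟩
      have h5 : s - ((d - b).toNat : ℤ) - b = s - d := by rw [h4]; ring
      rw [h5]
      exact hd'.2
    · intro d hd e he hde
      have hd' := mem_coe.1 hd
      have he' := mem_coe.1 he
      rw [mem_filter, mem_Ioc] at hd' he'
      have h3 : (d - b).toNat = (e - b).toNat := hde
      omega
  have h3 := card_nsmul_le_sum (Finset.Ioc (0 : ℤ) h) _ _ h2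
  rw [Int.card_Ioc, smul_eq_mul] at h3
  simpa using h3

/-- the real inequality behind `jensen_block` -/
theorem M4J_real {h ℓ w W A B : ℝ} (hh : 0 ≤ h) (hw : 0 ≤ w) (hℓ : 0 < ℓ) (hB : 0 ≤ B)
    (h2 : A ^ (2 + 1) / ℓ ^ 2 ≤ B) (h3 : h * w ≤ A) (h4 : w ≤ W) :
    h ^ 3 / ℓ ^ 2 * w ^ 4 ≤ B * W := by
  have h0 : 0 ≤ h * w := mul_nonneg hh hw
  have h5 : (h * w) ^ 3 / ℓ ^ 2 ≤ B :=
    le_trans (div_le_div_of_nonneg_right (pow_le_pow_left₀ h0 h3 3) (by positivity)) h2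
  calc h ^ 3 / ℓ ^ 2 * w ^ 4 = (h * w) ^ 3 / ℓ ^ 2 * w := by ring
    _ ≤ B * W := mul_le_mul h5 h4 hw hB

theorem jensen_block (N h ℓ : ℕ) (hhℓ : h ≤ ℓ) (hℓ : 0 < ℓ) :
    (h : ℝ) ^ 3 / (ℓ : ℝ) ^ 2 * ∑ s ∈ Finset.Icc ℓ N, (win (h : ℤ) (ℓ : ℤ) (s : ℤ) : ℝ) ^ 4
      ≤ ∑ c ∈ Finset.range ℓ, ∑ n ∈ Finset.range (N + 1),
          ((win 0 (h : ℤ) (n : ℤ) : ℝ) ^ 3 * (win (-(c : ℤ)) ((ℓ : ℤ) - c) (n : ℤ) : ℝ)) := by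
  have hℓ' : (0 : ℝ) < ℓ := by exact_mod_cast hℓ
  -- step 1: substitution
  have h1 : ∀ c ∈ Finset.range ℓ, ∑ s ∈ Finset.Icc ℓ N,
      ((win 0 (h : ℤ) ((s : ℤ) - c) : ℝ) ^ 3 * (win 0 (ℓ : ℤ) (s : ℤ) : ℝ)) ≤
      ∑ n ∈ Finset.range (N + 1),
          ((win 0 (h : ℤ) (n : ℤ) : ℝ) ^ 3 * (win (-(c : ℤ)) ((ℓ : ℤ) - c) (n : ℤ) : ℝ)) := by
    intro c hc
    rw [mem_range] at hc
    have h2 : ∑ s ∈ Finset.Icc ℓ N,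
        ((win 0 (h : ℤ) ((s : ℤ) - c) : ℝ) ^ 3 * (win 0 (ℓ : ℤ) (s : ℤ) : ℝ)) =
        ∑ n ∈ (Finset.Icc ℓ N).image (fun s => s - c),
          ((win 0 (h : ℤ) (n : ℤ) : ℝ) ^ 3 * (win (-(c : ℤ)) ((ℓ : ℤ) - c) (n : ℤ) : ℝ)) := by
      rw [sum_image]
      · refine sum_congr rfl fun s hs => ?_
        rw [mem_Icc] at hs
        have h3 : ((s - c : ℕ) : ℤ) = (s : ℤ) - c := by
          rw [Nat.cast_sub (by omega)]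
        rw [h3]
        have h4 := win_shift (-(c : ℤ)) ((ℓ : ℤ) - c) ((s : ℤ) - c) c
        have h5 : -(c : ℤ) + c = 0 := by ring
        have h6 : (ℓ : ℤ) - c + c = ℓ := by ring
        have h7 : (s : ℤ) - c + c = s := by ring
        rw [h5, h6, h7] at h4
        rw [h4]
      · intro a ha b hb hab
        have ha' := mem_Icc.1 (mem_coe.1 ha)
        have hb' := mem_Icc.1 (mem_coe.1 hb)
        have hab' : a - c = b - c := hab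
        omega
    rw [h2]
    refine sum_le_sum_of_subset_of_nonneg ?_ (fun n _ _ => mul_nonneg (pow_nonneg (Nat.cast_nonneg _) _)
      (Nat.cast_nonneg _))
    intro n hn
    obtain ⟨s, hs, rfl⟩ := mem_image.1 hn
    rw [mem_Icc] at hs
    rw [mem_range]
    omega
  refine le_trans ?_ (sum_le_sum h1)
  rw [sum_comm, mul_sum]
  refine sum_le_sum fun s _ => ?_
  rw [← sum_mul]
  -- step 2: power mean
  have h2 : (∑ c ∈ Finset.range ℓ, (win 0 (h : ℤ) ((s : ℤ) - c) : ℝ)) ^ (2 + 1) / (ℓ : ℝ) ^ 2 ≤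
      ∑ c ∈ Finset.range ℓ, (win 0 (h : ℤ) ((s : ℤ) - c) : ℝ) ^ (2 + 1) := by
    have h3 := pow_sum_div_card_le_sum_pow (s := Finset.range ℓ)
      (f := fun c : ℕ => (win 0 (h : ℤ) ((s : ℤ) - c) : ℝ)) (fun _ _ => Nat.cast_nonneg _) 2
    rwa [card_range] at h3
  have h3 : (h : ℝ) * (win (h : ℤ) (ℓ : ℤ) (s : ℤ) : ℝ) ≤
      ∑ c ∈ Finset.range ℓ, (win 0 (h : ℤ) ((s : ℤ) - c) : ℝ) := by
    exact_mod_cast M4J_first h ℓ (s : ℤ)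
  have h4 : (win (h : ℤ) (ℓ : ℤ) (s : ℤ) : ℝ) ≤ (win 0 (ℓ : ℤ) (s : ℤ) : ℝ) := by
    exact_mod_cast win_mono (u := (h : ℤ)) (v := (ℓ : ℤ)) (u' := 0) (v' := (ℓ : ℤ)) (n := (s : ℤ))
      (by omega) le_rfl
  exact M4J_real (Nat.cast_nonneg _) (Nat.cast_nonneg _) hℓ'
    (sum_nonneg fun c _ => pow_nonneg (Nat.cast_nonneg _) _) h2 h3 h4

end Pool.Agent.H6.MF
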