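import Pool.Agent.H6.MF.M4A
import Pool.Agent.H6.MF.M4J

/-!
# M4B: `Mean4` implies concentration at scale `3`

* `jensen_block` (for naturals `N, h, ℓ` with `h ≤ ℓ`, `0 < ℓ`). Let `Z(n) = win 0 h n`, `Y_c(n) = win (-c) (ℓ-c) n =
  win 0 ℓ (n + c)` (`win_shift`). `∑_{c<ℓ} ∑_{n ≤ N} Z(n)^3 Y_c(n)`: substitute `s = n + c` and keep only the `s` with
  `ℓ ≤ s ≤ N`: `≥ ∑_{s=ℓ}^{N} win 0 ℓ s · ∑_{n ∈ (s-ℓ, s]} Z(n)^3`. By the power mean inequality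
  (`inner_le_nnorm_mul_nnorm`, or `inv_pow_le`/`pow_arith_mean_le_arith_mean_pow`):
  `∑_{n ∈ (s-ℓ,s]} Z(n)^3 ≥ ℓ^(-2) (∑_{n ∈ (s-ℓ, s]} Z(n))^3`. Every prime `q` with `s - ℓ ≤ q < s - h` (there are
  `win h ℓ s` of them) is counted in `Z(n)` (primes in `[n - h, n)`) for the `h` values `n ∈ (q, q+h] ⊆ (s-ℓ, s]`,
  so `∑_{n ∈ (s-ℓ,s]} Z(n) ≥ h · win h ℓ s`. And `win 0 ℓ s ≥ win h ℓ s`. Together `≥ (h^3/ℓ^2) ∑_s (win h ℓ s)^4`.
* `M4B`. Fix `ε, τ ≤ 1/4`. Let `δ ≤ ε τ/100` (also `δ ≤ 1/2`), `h = ⌊δ Λ^2⌋₊`, `ℓ = ⌊τ Λ^3⌋₊`, `M = (ℓ - h)/Λ` (about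
  `τ Λ^2`; `h/ℓ → 0`). `M4A` summed over `c < ℓ`, with `jensen_block` (`N = ⌊x⌋₊`):
  `∑_{s=ℓ}^{N} (win h ℓ s)^4 ≤ (ℓ^2/h^3) ℓ (1+ε') (δ Λ)^3 (τ Λ^2) x ≤ (1 + 2ε') M^4 x` for large `x` (as
  `h/(δ Λ^2) → 1`, `ℓ/(τ Λ^3) → 1`). The `s < ℓ` contribute `≤ ℓ^5 ≤ ε' M^4 x`. First moment (`FMO`, `k = 3`):
  `∑_{s ≤ N} win h ℓ s ≥ (1-ε') M x`. `jensen4`: `∑_{s ≤ N} (win h ℓ s - M)^2 ≤ 16 ε' M^2 x`. Finally
  `win 0 ℓ s = win 0 h s + win h ℓ s` with `0 ≤ win 0 h s ≤ h ≤ δ Λ^2 ≤ (ε/50) M`, and `|ℓ/Λ - M| = h/Λ ≤ ε' M`, so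
  `(win 0 ℓ s - ℓ/Λ)^2 ≤ 3 (win h ℓ s - M)^2 + 3 h^2 + 3 (h/Λ)^2`; sum and compare with `ε (τ Λ^3/Λ)^2 x`
  (`δ^2 Λ^4 ≤ (ε τ/100)^2 Λ^4`, fine for `ε ≤ 1`).
-/

set_option autoImplicit false

namespace Pool.Agent.H6.MF

open Finset

/-- the constants -/
theorem M4B_const {η : ℝ} (h0 : 0 < η) (h1 : η ≤ 1 / 1000) :
    1 + η ≤ (1 + 20 * η) * ((1 - η) ^ 3 * (1 - 2 * η) ^ 4) := by
  have a1 : 1 - 3 * η ≤ (1 - η) ^ 3 := by nlinarith [mul_pos h0 h0]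
  have a2 : 1 - 8 * η ≤ (1 - 2 * η) ^ 4 := by
    have b1 : 1 - 4 * η ≤ (1 - 2 * η) ^ 2 := by nlinarith [mul_pos h0 h0]
    have b2 : (1 - 4 * η) ^ 2 ≤ ((1 - 2 * η) ^ 2) ^ 2 := pow_le_pow_left₀ (by linarith) b1 2
    nlinarith [mul_pos h0 h0]
  have a3 : (1 - 3 * η) * (1 - 8 * η) ≤ (1 - η) ^ 3 * (1 - 2 * η) ^ 4 :=
    mul_le_mul a1 a2 (by linarith) (by have : 0 ≤ 1 - η := by linarith
                                       positivity)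
  have a4 : (1 + 20 * η) * ((1 - 3 * η) * (1 - 8 * η)) ≤ (1 + 20 * η) * ((1 - η) ^ 3 * (1 - 2 * η) ^ 4) :=
    mul_le_mul_of_nonneg_left a3 (by linarith)
  refine le_trans ?_ a4
  have h2 : η * η ≤ η * (1 / 1000) := mul_le_mul_of_nonneg_left h1 h0.le
  have h3 : 0 ≤ η ^ 3 := by positivity
  nlinarith

theorem M4B_num {a e : ℝ} (h0 : 0 < a) (h1 : a ≤ 1) (h2 : a ≤ e) : 252 * (a / 1000) + 12 * (a / 100) ^ 2 ≤ e := by
  have h3 : a * a ≤ a * 1 := mul_le_mul_of_nonneg_left h1 h0.le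
  nlinarith

theorem M4B_three (z y q D : ℝ) (h7 : z ^ 2 ≤ D) (h8 : q ^ 2 ≤ D) : (z + y - q) ^ 2 ≤ 3 * y ^ 2 + 6 * D := by
  nlinarith [sq_nonneg (z - y), sq_nonneg (z + q), sq_nonneg (y + q)]

/-- the fourth moment of the long windows -/
theorem M4B_fourth {η δ τ L x : ℝ} {h l : ℕ} {S : ℝ} (h0 : 0 < η) (h1 : η ≤ 1 / 1000) (hδ : 0 < δ) (hτ : 0 < τ)
    (hL : 1 ≤ L) (hx : 0 ≤ x) (hh : (1 - η) * (δ * L ^ 2) ≤ h) (hl : (l : ℝ) ≤ τ * L ^ 3)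
    (hl0 : 0 < l) (hS0 : 0 ≤ S)
    (hM : (1 - 2 * η) * (τ * L ^ 2) ≤ ((l : ℝ) - h) / L)
    (hS : (h : ℝ) ^ 3 / (l : ℝ) ^ 2 * S ≤ l * ((1 + η) * ((δ * L) ^ 3 * (τ * L ^ 2) * x))) :
    S ≤ (1 + 20 * η) * ((((l : ℝ) - h) / L) ^ 4 * x) := by
  have hl0' : (0 : ℝ) < l := by exact_mod_cast hl0
  have hη1 : 0 < 1 - η := by linarith
  have hη2 : 0 < 1 - 2 * η := by linarith
  have hL0 : 0 < L := by linarith
  have hhp : 0 < (1 - η) * (δ * L ^ 2) := by positivity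
  have hh0 : (0 : ℝ) < h := hhp.trans_le hh
  have hh3 : ((1 - η) * (δ * L ^ 2)) ^ 3 ≤ (h : ℝ) ^ 3 := pow_le_pow_left₀ hhp.le hh 3
  -- `h^3 S ≤ l^3 (1+η) (δ L)^3 τ L^2 x`
  have e1 : (h : ℝ) ^ 3 * S ≤ (l : ℝ) ^ 3 * ((1 + η) * ((δ * L) ^ 3 * (τ * L ^ 2) * x)) := by
    have := mul_le_mul_of_nonneg_left hS (show (0 : ℝ) ≤ (l : ℝ) ^ 2 by positivity)
    have e : (l : ℝ) ^ 2 * ((h : ℝ) ^ 3 / (l : ℝ) ^ 2 * S) = (h : ℝ) ^ 3 * S := by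
      field_simp
    rw [e] at this
    refine this.trans (le_of_eq (by ring))
  have e2 : (l : ℝ) ^ 3 * ((1 + η) * ((δ * L) ^ 3 * (τ * L ^ 2) * x))
      ≤ (τ * L ^ 3) ^ 3 * ((1 + η) * ((δ * L) ^ 3 * (τ * L ^ 2) * x)) :=
    mul_le_mul_of_nonneg_right (pow_le_pow_left₀ hl0'.le hl 3) (by positivity)
  have e3 : ((1 - η) * (δ * L ^ 2)) ^ 3 * S ≤ (τ * L ^ 3) ^ 3 * ((1 + η) * ((δ * L) ^ 3 * (τ * L ^ 2) * x)) :=
    (mul_le_mul_of_nonneg_right hh3 hS0).trans (e1.trans e2)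
  have e4 : (1 - η) ^ 3 * S ≤ (1 + η) * (τ ^ 4 * L ^ 8 * x) := by
    have hc : 0 < δ ^ 3 * L ^ 6 := by positivity
    have : (δ ^ 3 * L ^ 6) * ((1 - η) ^ 3 * S) ≤ (δ ^ 3 * L ^ 6) * ((1 + η) * (τ ^ 4 * L ^ 8 * x)) := by
      calc (δ ^ 3 * L ^ 6) * ((1 - η) ^ 3 * S) = ((1 - η) * (δ * L ^ 2)) ^ 3 * S := by ring
        _ ≤ (τ * L ^ 3) ^ 3 * ((1 + η) * ((δ * L) ^ 3 * (τ * L ^ 2) * x)) := e3
        _ = (δ ^ 3 * L ^ 6) * ((1 + η) * (τ ^ 4 * L ^ 8 * x)) := by ring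
    exact le_of_mul_le_mul_left this hc
  have e5 : (1 - 2 * η) ^ 4 * (τ ^ 4 * L ^ 8) ≤ (((l : ℝ) - h) / L) ^ 4 := by
    have := pow_le_pow_left₀ (show 0 ≤ (1 - 2 * η) * (τ * L ^ 2) by positivity) hM 4
    refine le_trans (le_of_eq (by ring)) this
  have e6 := M4B_const h0 h1
  -- multiply by `(1-η)^3`
  have hc : 0 < (1 - η) ^ 3 := by positivity
  refine le_of_mul_le_mul_left ?_ hc
  calc (1 - η) ^ 3 * S ≤ (1 + η) * (τ ^ 4 * L ^ 8 * x) := e4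
    _ ≤ ((1 + 20 * η) * ((1 - η) ^ 3 * (1 - 2 * η) ^ 4)) * (τ ^ 4 * L ^ 8 * x) :=
        mul_le_mul_of_nonneg_right e6 (by positivity)
    _ = (1 - η) ^ 3 * ((1 + 20 * η) * (((1 - 2 * η) ^ 4 * (τ ^ 4 * L ^ 8)) * x)) := by ring
    _ ≤ (1 - η) ^ 3 * ((1 + 20 * η) * ((((l : ℝ) - h) / L) ^ 4 * x)) := by
        refine mul_le_mul_of_nonneg_left ?_ hc.le
        refine mul_le_mul_of_nonneg_left ?_ (by linarith)
        exact mul_le_mul_of_nonneg_right e5 hx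

theorem M4B (hM : Mean4) : BaseConc 3 := by
  intro ε hε τ hτ hτ1
  set ε1 : ℝ := min ε 1 with hε1
  have hε1p : 0 < ε1 := lt_min hε one_pos
  have hε11 : ε1 ≤ 1 := min_le_right _ _
  have hε1ε : ε1 ≤ ε := min_le_left _ _
  set η : ℝ := ε1 / 1000 with hη
  have hη0 : 0 < η := by positivity
  have hη1 : η ≤ 1 / 1000 := by rw [hη]; linarith
  set δ : ℝ := ε1 * τ / 100 with hδ
  have hδ0 : 0 < δ := by positivity
  have hδ1 : δ ≤ 1 / 2 := by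
    have : ε1 * τ ≤ 1 * (1 / 4) := mul_le_mul hε11 hτ1 hτ.le (by norm_num)
    rw [hδ]; linarith
  obtain ⟨X₁, hX₁⟩ := M4A hM η hη0 δ hδ0 hδ1 τ hτ (by linarith)
  obtain ⟨X₂, hX₂⟩ := FMO 3 η hη0
  set K : ℝ := 1 + 1 / (η * δ) + 1 / (η * τ) + δ / (η * τ) with hK
  have ev : ∀ᶠ x : ℝ in Filter.atTop, K ≤ Real.log x ∧ (Real.log x) ^ 7 ≤ (η / 2) * x ∧
      X₁ ≤ x ∧ X₂ ≤ x ∧ 1 ≤ x ∧ 1 / (21 * η) ≤ x := by
    have e1 := Real.tendsto_log_atTop.eventually (Filter.eventually_ge_atTop K)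
    have e2 : ∀ᶠ x : ℝ in Filter.atTop, (Real.log x) ^ 7 ≤ (η / 2) * x := by
      have := (Real.isLittleO_pow_log_id_atTop (n := 7)).bound (show 0 < η / 2 by positivity)
      filter_upwards [this, Filter.eventually_ge_atTop (1 : ℝ)] with x hx hx1
      simp only [id, Real.norm_eq_abs] at hx
      rw [abs_of_nonneg (show (0 : ℝ) ≤ x by linarith)] at hx
      exact (le_abs_self _).trans hx
    filter_upwards [e1, e2, Filter.eventually_ge_atTop X₁, Filter.eventually_ge_atTop X₂,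
      Filter.eventually_ge_atTop (1 : ℝ), Filter.eventually_ge_atTop (1 / (21 * η))] with x a b c d e f
    exact ⟨a, b, c, d, e, f⟩
  obtain ⟨X, hX⟩ := Filter.eventually_atTop.mp ev
  refine ⟨X, fun x hx => ?_⟩
  obtain ⟨hKL, hL7, hx1, hx2, hx3, hx4⟩ := hX x hx
  have hA := hX₁ x hx1
  have hF := hX₂ x hx2
  set L : ℝ := Real.log x with hLdef
  set l : ℕ := ⌊τ * L ^ 3⌋₊ with hl
  set h : ℕ := ⌊δ * L ^ 2⌋₊ with hh
  set N : ℕ := ⌊x⌋₊ with hN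
  have hx0 : 0 ≤ x := by linarith
  have p1 : 0 < 1 / (η * δ) := by positivity
  have p2 : 0 < 1 / (η * τ) := by positivity
  have p3 : 0 < δ / (η * τ) := by positivity
  have hL1 : 1 ≤ L := by rw [hK] at hKL; linarith
  have hL0 : 0 < L := by linarith
  have hLa : 1 / (η * δ) ≤ L := by rw [hK] at hKL; linarith
  have hLb : 1 / (η * τ) ≤ L := by rw [hK] at hKL; linarith
  have hLc : δ / (η * τ) ≤ L := by rw [hK] at hKL; linarith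
  rw [div_le_iff₀ (by positivity)] at hLa hLb hLc
  have hL2 : L ≤ L ^ 2 := by nlinarith
  have hL3 : L ≤ L ^ 3 := by nlinarith [mul_pos hL0 hL0]
  -- floors
  have hhle : (h : ℝ) ≤ δ * L ^ 2 := Nat.floor_le (by positivity)
  have hlle : (l : ℝ) ≤ τ * L ^ 3 := Nat.floor_le (by positivity)
  have hhge : (1 - η) * (δ * L ^ 2) ≤ h := by
    have a1 : δ * L ^ 2 < h + 1 := Nat.lt_floor_add_one _
    have a2 : 1 ≤ L ^ 2 * (η * δ) := hLa.trans (mul_le_mul_of_nonneg_right hL2 (by positivity))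
    nlinarith
  have hlge : (1 - η) * (τ * L ^ 3) ≤ l := by
    have a1 : τ * L ^ 3 < l + 1 := Nat.lt_floor_add_one _
    have a2 : 1 ≤ L ^ 3 * (η * τ) := hLb.trans (mul_le_mul_of_nonneg_right hL3 (by positivity))
    nlinarith
  have hhl : (h : ℝ) ≤ η * (τ * L ^ 3) := by
    have a1 : δ * L ^ 2 ≤ (L * (η * τ)) * L ^ 2 := mul_le_mul_of_nonneg_right hLc (by positivity)
    calc (h : ℝ) ≤ δ * L ^ 2 := hhle
      _ ≤ (L * (η * τ)) * L ^ 2 := a1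
      _ = η * (τ * L ^ 3) := by ring
  have hτL3 : 0 < τ * L ^ 3 := by positivity
  have hhl' : (h : ℝ) ≤ l := by
    have : η * (τ * L ^ 3) ≤ (1 - η) * (τ * L ^ 3) := mul_le_mul_of_nonneg_right (by linarith) hτL3.le
    linarith
  have hhlN : h ≤ l := by exact_mod_cast hhl'
  have hlpos : (0 : ℝ) < l := lt_of_lt_of_le (mul_pos (by linarith) hτL3) hlge
  have hlposN : 0 < l := by exact_mod_cast hlpos
  set M : ℝ := ((l : ℝ) - h) / L with hMdef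
  have hMge : (1 - 2 * η) * (τ * L ^ 2) ≤ M := by
    rw [hMdef, le_div_iff₀ hL0]
    calc (1 - 2 * η) * (τ * L ^ 2) * L = (1 - η) * (τ * L ^ 3) - η * (τ * L ^ 3) := by ring
      _ ≤ (l : ℝ) - h := by linarith
  have hMle : M ≤ τ * L ^ 2 := by
    rw [hMdef, div_le_iff₀ hL0]
    calc (l : ℝ) - h ≤ l := by linarith [Nat.cast_nonneg (α := ℝ) h]
      _ ≤ τ * L ^ 2 * L := by rw [show τ * L ^ 2 * L = τ * L ^ 3 by ring]; exact hlle
  have hM0 : 0 < M := lt_of_lt_of_le (by have : 0 < 1 - 2 * η := by linarith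
                                         positivity) hMge
  -- the fourth moment
  set W : ℕ → ℝ := fun n => (win (h : ℤ) (l : ℤ) (n : ℤ) : ℝ) with hW
  have hW0 : ∀ n, 0 ≤ W n := fun n => Nat.cast_nonneg _
  have hWl : ∀ n, W n ≤ l := by
    intro n
    have h1 := win_le (h : ℤ) (l : ℤ) (n : ℤ)
    have h2 : ((l : ℤ) - h).toNat ≤ l := by omega
    simp only [hW]
    exact_mod_cast h1.trans h2
  have hblock := jensen_block N h l hhlN hlposN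
  have hsumA : ∑ c ∈ Finset.range l, ∑ n ∈ Finset.range (N + 1),
          ((win 0 (h : ℤ) (n : ℤ) : ℝ) ^ 3 * (win (-(c : ℤ)) ((l : ℤ) - c) (n : ℤ) : ℝ))
      ≤ l * ((1 + η) * ((δ * L) ^ 3 * (τ * L ^ 2) * x)) := by
    have : ∀ c ∈ Finset.range l, ∑ n ∈ Finset.range (N + 1),
          ((win 0 (h : ℤ) (n : ℤ) : ℝ) ^ 3 * (win (-(c : ℤ)) ((l : ℤ) - c) (n : ℤ) : ℝ))
        ≤ (1 + η) * ((δ * L) ^ 3 * (τ * L ^ 2) * x) := by
      intro c hc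
      exact hA c (Finset.mem_range.mp hc)
    refine (Finset.sum_le_sum this).trans ?_
    rw [Finset.sum_const, Finset.card_range, nsmul_eq_mul]
  have hfour : ∑ s ∈ Finset.Icc l N, W s ^ 4 ≤ (1 + 20 * η) * (M ^ 4 * x) :=
    M4B_fourth (δ := δ) (τ := τ) (h := h) (l := l) hη0 hη1 hδ0 hτ hL1 hx0 hhge hlle hlposN
      (Finset.sum_nonneg fun s _ => by have := hW0 s; positivity) hMge (hblock.trans hsumA)
  have hsmall : ∑ s ∈ Finset.range l, W s ^ 4 ≤ η * (M ^ 4 * x) := by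
    have h1 : ∑ s ∈ Finset.range l, W s ^ 4 ≤ (l : ℝ) * (l : ℝ) ^ 4 := by
      refine (Finset.sum_le_sum fun s _ => pow_le_pow_left₀ (hW0 s) (hWl s) 4).trans ?_
      rw [Finset.sum_const, Finset.card_range, nsmul_eq_mul]
    have h2 : (l : ℝ) * (l : ℝ) ^ 4 ≤ (τ * L ^ 3) ^ 5 := by
      have := pow_le_pow_left₀ hlpos.le hlle 5
      refine le_trans (le_of_eq (by ring)) this
    have h3 : (τ * L ^ 2) ^ 4 * (1 / 2) ≤ M ^ 4 := by
      have a1 := pow_le_pow_left₀ (show 0 ≤ (1 - 2 * η) * (τ * L ^ 2) by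
        have : 0 < 1 - 2 * η := by linarith
        positivity) hMge 4
      have a2 : (1 : ℝ) / 2 ≤ (1 - 2 * η) ^ 4 := by
        have b1 : (499 : ℝ) / 500 ≤ 1 - 2 * η := by linarith
        calc (1 : ℝ) / 2 ≤ (499 / 500) ^ 4 := by norm_num
          _ ≤ (1 - 2 * η) ^ 4 := pow_le_pow_left₀ (by norm_num) b1 4
      calc (τ * L ^ 2) ^ 4 * (1 / 2) ≤ (τ * L ^ 2) ^ 4 * (1 - 2 * η) ^ 4 :=
            mul_le_mul_of_nonneg_left a2 (by positivity)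
        _ = ((1 - 2 * η) * (τ * L ^ 2)) ^ 4 := by ring
        _ ≤ M ^ 4 := a1
    have h4 : (τ * L ^ 3) ^ 5 ≤ η * (M ^ 4 * x) := by
      calc (τ * L ^ 3) ^ 5 = (τ * L ^ 2) ^ 4 * (τ * L ^ 7) := by ring
        _ ≤ (τ * L ^ 2) ^ 4 * (1 * (η / 2 * x)) := by
            refine mul_le_mul_of_nonneg_left ?_ (by positivity)
            exact mul_le_mul (by linarith) hL7 (by positivity) (by norm_num)
        _ = η * (((τ * L ^ 2) ^ 4 * (1 / 2)) * x) := by ring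
        _ ≤ η * (M ^ 4 * x) :=
            mul_le_mul_of_nonneg_left (mul_le_mul_of_nonneg_right h3 hx0) hη0.le
    exact h1.trans (h2.trans h4)
  have hfull : ∑ s ∈ Finset.range (N + 1), W s ^ 4 ≤ (1 + 21 * η) * (M ^ 4 * x) := by
    rw [← Finset.sum_filter_add_sum_filter_not (Finset.range (N + 1)) (fun s => s < l)]
    have h1 : ∑ s ∈ (Finset.range (N + 1)).filter (fun s => s < l), W s ^ 4 ≤ ∑ s ∈ Finset.range l, W s ^ 4 := by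
      refine Finset.sum_le_sum_of_subset_of_nonneg ?_ (fun s _ _ => by have := hW0 s; positivity)
      intro s hs
      exact Finset.mem_range.mpr (Finset.mem_filter.mp hs).2
    have h2 : ∑ s ∈ (Finset.range (N + 1)).filter (fun s => ¬ s < l), W s ^ 4 ≤ ∑ s ∈ Finset.Icc l N, W s ^ 4 := by
      refine Finset.sum_le_sum_of_subset_of_nonneg ?_ (fun s _ _ => by have := hW0 s; positivity)
      intro s hs
      rw [Finset.mem_filter, Finset.mem_range] at hs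
      exact Finset.mem_Icc.mpr ⟨by omega, by omega⟩
    linarith
  -- the first moment
  have hfirst : (1 - 21 * η) * (M * x) ≤ ∑ s ∈ Finset.range (N + 1), W s := by
    have h1 := hF (h : ℤ) (l : ℤ) (by
      push_cast
      rw [abs_of_nonneg (Nat.cast_nonneg _)]
      have : τ * L ^ 3 ≤ 3 * L ^ 3 := mul_le_mul_of_nonneg_right (by linarith) (by positivity)
      linarith) (by
      push_cast
      rw [abs_of_nonneg (Nat.cast_nonneg _)]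
      have : τ * L ^ 3 ≤ 3 * L ^ 3 := mul_le_mul_of_nonneg_right (by linarith) (by positivity)
      linarith) (by exact_mod_cast hhlN)
    push_cast at h1
    have h2 := (abs_le.mp h1).1
    have h3 : ((l : ℝ) - h) * x / L = M * x := by rw [hMdef]; ring
    rw [h3] at h2
    have h4 : 0 ≤ η * (M * x) := by positivity
    simp only [hW]
    linarith
  have hcard : ((Finset.range (N + 1)).card : ℝ) ≤ (1 + 21 * η) * x := by
    rw [Finset.card_range]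
    push_cast
    have h1 : (N : ℝ) ≤ x := Nat.floor_le hx0
    rw [div_le_iff₀ (by positivity)] at hx4
    linarith
  have hJ := jensen4 (Finset.range (N + 1)) W M (21 * η) x hM0 (fun i _ => hW0 i) (by positivity) hx0
    hfirst hfull hcard
  -- conclusion
  have hpt : ∀ n ∈ Finset.range (N + 1), ((win 0 (l : ℤ) (n : ℤ) : ℝ) - (l : ℝ) / L) ^ 2
      ≤ 3 * (W n - M) ^ 2 + 6 * (δ * L ^ 2) ^ 2 := by
    intro n _
    have h1 : (win 0 (l : ℤ) (n : ℤ) : ℝ) = (win 0 (h : ℤ) (n : ℤ) : ℝ) + W n := by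
      simp only [hW]
      exact_mod_cast win_add (u := 0) (v := (h : ℤ)) (w := (l : ℤ)) (by omega) (by exact_mod_cast hhlN) n
    have h2 : (win 0 (h : ℤ) (n : ℤ) : ℝ) ≤ h := by
      have h1 := win_le 0 (h : ℤ) (n : ℤ)
      have h2 : ((h : ℤ) - 0).toNat ≤ h := by omega
      exact_mod_cast h1.trans h2
    have h3 : (0 : ℝ) ≤ (win 0 (h : ℤ) (n : ℤ) : ℝ) := Nat.cast_nonneg _
    have h4 : (l : ℝ) / L = M + h / L := by rw [hMdef]; ring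
    have h5 : (h : ℝ) / L ≤ h := div_le_self (Nat.cast_nonneg _) hL1
    have h6 : 0 ≤ (h : ℝ) / L := by positivity
    rw [h1, h4]
    set z := (win 0 (h : ℤ) (n : ℤ) : ℝ)
    have h7 : z ^ 2 ≤ (δ * L ^ 2) ^ 2 := pow_le_pow_left₀ h3 (h2.trans hhle) 2
    have h8 : ((h : ℝ) / L) ^ 2 ≤ (δ * L ^ 2) ^ 2 := pow_le_pow_left₀ h6 (h5.trans hhle) 2
    have h9 := M4B_three z (W n - M) ((h : ℝ) / L) _ h7 h8
    refine le_trans (le_of_eq ?_) h9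
    ring
  refine (Finset.sum_le_sum hpt).trans ?_
  rw [Finset.sum_add_distrib, ← Finset.mul_sum, Finset.sum_const, Finset.card_range, nsmul_eq_mul]
  have hNx : ((N + 1 : ℕ) : ℝ) ≤ 2 * x := by
    push_cast
    have h1 : (N : ℝ) ≤ x := Nat.floor_le hx0
    linarith
  have hM2 : M ^ 2 ≤ (τ * L ^ 2) ^ 2 := pow_le_pow_left₀ hM0.le hMle 2
  have f1 : 3 * ∑ n ∈ Finset.range (N + 1), (W n - M) ^ 2 ≤ 252 * η * ((τ * L ^ 2) ^ 2 * x) := by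
    have : 4 * (21 * η) * (M ^ 2 * x) ≤ 4 * (21 * η) * ((τ * L ^ 2) ^ 2 * x) :=
      mul_le_mul_of_nonneg_left (mul_le_mul_of_nonneg_right hM2 hx0) (by positivity)
    linarith
  have f2 : ((N + 1 : ℕ) : ℝ) * (6 * (δ * L ^ 2) ^ 2) ≤ 2 * x * (6 * (δ * L ^ 2) ^ 2) :=
    mul_le_mul_of_nonneg_right hNx (by positivity)
  have f3 : 2 * x * (6 * (δ * L ^ 2) ^ 2) = 12 * (ε1 / 100) ^ 2 * ((τ * L ^ 2) ^ 2 * x) := by
    rw [hδ]; ring
  have f4 : τ * L ^ 3 / L = τ * L ^ 2 := by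
    rw [div_eq_iff hL0.ne']; ring
  rw [f4]
  have f5 : 252 * η + 12 * (ε1 / 100) ^ 2 ≤ ε := by
    rw [hη]
    exact M4B_num hε1p hε11 hε1ε
  have f6 : 0 ≤ (τ * L ^ 2) ^ 2 * x := by positivity
  have f7 : (252 * η + 12 * (ε1 / 100) ^ 2) * ((τ * L ^ 2) ^ 2 * x) ≤ ε * ((τ * L ^ 2) ^ 2 * x) :=
    mul_le_mul_of_nonneg_right f5 f6
  linarith

end Pool.Agent.H6.MF
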