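import Pool.Agent.H6.MF.BAS
import Pool.Agent.H6.MF.SAT

/-!
# Q1M: `HL3` implies `Mean3` (the header is shared with HUP.lean)

`Y = Λ = log x`, all `s` satisfy `Λ ≤ t Λ^2 ≤ s ≤ Λ^2` for large `x`, `A = 2`.
* `H2A`: for even `d ≤ s` (`d ≥ 2`): `cnt x {0,d} ≤ (1+ε') sing {0,d} x/Λ^2` (`HL2`); for odd `d`:
  `cnt x {0,d} ≤ 2` (`not_adm_of_odd`, `cnt_inadm`). `SAV1`: `∑_{d ≤ s} sing {0,d} ≤ (1+ε') s` (all terms are
  `≥ 0`). The odd `d` contribute `≤ 2 s ≤ ε' s x/Λ^2`.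
* `M3A`: `∑_{d ≤ s} ∑_{d' < d} cnt x {0,d',d} = (1/2) ∑_{e=1}^{s} ∑_{1 ≤ b ≤ s, b ≠ e} cnt x {0,b,e}` (symmetry
  `(d',d) ↔ (e,b)`; as finsets `{0,d',d} = insert b {0,e}`). For odd `e`: every term is `≤ 3`, in total
  `≤ 3 s^2`. For even `e` (`2 ≤ e ≤ s ≤ Λ^2`): `Mean3` with `u = 0`, `v = s`:
  the inner sum is `≤ (1+ε') (∑_{b ∈ Ioc 0 s \ {0,e}} sing (insert b {0,e})) x/Λ^3` and by `SAV` (`k = 2`, `H = {0,e}`,
  `adm_pair`) this is `≤ (1+ε')^2 s sing {0,e} x/Λ^3`. By `SAV1` `∑_{e ≤ s} sing {0,e} ≤ (1+ε') s`.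
* `Q1M`: let `e` be even, `H = {0,e}`, `b ∈ Ioc u v \ H`, so `b ≥ 1`, `b ≠ e`, `b ≤ Λ^2`. If `insert b H` is not
  admissible, then `sing (insert b H) = 0` and `cnt ≤ 3` (in particular if `b` is odd). Otherwise `b` is even
  and `HL3` applies to `(d', d) = (min b e, max b e)` (`insert b {0,e} = {0, d', d}`):
  `|cnt - sing x/Λ^3| ≤ ε' sing x/Λ^3`. Sum: the difference is `≤ ε' (∑ sing) x/Λ^3 + 3 (v - u)`, and
  `3 (v-u) ≤ ε' (∑ sing) x/Λ^3` for large `x` because `∑ sing ≥ (1/2) (v-u) sing {0,e} ≥ (1/2) (v-u) c`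
  (`SAV` with `ε = 1/2`, `sing_lower 2`).
-/

set_option autoImplicit false

namespace Pool.Agent.H6.MF

open Finset

/-- one term of the sum -/
theorem Q1M_term {x : ℝ} {δ : ℝ} (_hx0 : 0 ≤ x / (Real.log x) ^ 3) (_hδ : 0 ≤ δ)
    (hHL : ∀ d d' : ℕ, Even d → Even d' → 2 ≤ d' → d' < d →
      (d : ℝ) ≤ (Real.log x) ^ 2 → sing {0, (d' : ℤ), (d : ℤ)} ≠ 0 →
      |(cnt x {0, (d' : ℤ), (d : ℤ)} : ℝ) - sing {0, (d' : ℤ), (d : ℤ)} * x / (Real.log x) ^ 3|
        ≤ δ * (sing {0, (d' : ℤ), (d : ℤ)} * x / (Real.log x) ^ 3))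
    {e : ℕ} (he : Even e) (he2 : 2 ≤ e) (heL : (e : ℝ) ≤ (Real.log x) ^ 2) {b : ℤ} (hb1 : 1 ≤ b)
    (hbe : b ≠ e) (hbL : (b : ℝ) ≤ (Real.log x) ^ 2) :
    |(cnt x (insert b {0, (e : ℤ)}) : ℝ) - sing (insert b {0, (e : ℤ)}) * (x / (Real.log x) ^ 3)|
      ≤ δ * (sing (insert b {0, (e : ℤ)}) * (x / (Real.log x) ^ 3)) + 3 := by
  by_cases hadm : adm (insert b {0, (e : ℤ)})
  · have hev : Even b := by
      by_contra hodd
      rw [Int.not_even_iff_odd] at hodd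
      exact not_adm_of_odd (H := insert b {0, (e : ℤ)}) (by simp) (by simp) hodd hadm
    obtain ⟨m, rfl⟩ : ∃ m : ℕ, b = (m : ℤ) := ⟨b.toNat, by omega⟩
    have hm : Even m := by exact_mod_cast hev
    have hm2 : 2 ≤ m := by
      obtain ⟨k, hk⟩ := hm
      omega
    have hne : m ≠ e := by
      intro h
      exact hbe (by rw [h])
    have hsing : sing (insert (m : ℤ) {0, (e : ℤ)}) ≠ 0 := (sing_ne_zero_iff _).2 hadm
    have hmL : (m : ℝ) ≤ (Real.log x) ^ 2 := by exact_mod_cast hbL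
    rcases lt_or_gt_of_ne hne with hlt | hgt
    · have hset : (insert (m : ℤ) {0, (e : ℤ)} : Finset ℤ) = {0, (m : ℤ), (e : ℤ)} := by
        ext z
        simp only [mem_insert, mem_singleton]
        tauto
      rw [hset] at hsing ⊢
      have h1 := hHL e m he hm hm2 hlt heL hsing
      rw [mul_div_assoc] at h1
      linarith
    · have hset : (insert (m : ℤ) {0, (e : ℤ)} : Finset ℤ) = {0, (e : ℤ), (m : ℤ)} := by
        ext z
        simp only [mem_insert, mem_singleton]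
        tauto
      rw [hset] at hsing ⊢
      have h1 := hHL m e hm he he2 hgt hmL hsing
      rw [mul_div_assoc] at h1
      linarith
  · have h0 : sing (insert b {0, (e : ℤ)}) = 0 := by
      by_contra h
      exact hadm ((sing_ne_zero_iff _).1 h)
    have h1 : cnt x (insert b {0, (e : ℤ)}) ≤ 3 := by
      refine (cnt_inadm x hadm).trans ?_
      refine (card_insert_le _ _).trans ?_
      have := card_le_two (a := (0 : ℤ)) (b := (e : ℤ))
      omega
    have h2 : (cnt x (insert b {0, (e : ℤ)}) : ℝ) ≤ 3 := by exact_mod_cast h1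
    rw [h0]
    simp only [zero_mul, mul_zero, sub_zero, zero_add]
    rw [abs_of_nonneg (Nat.cast_nonneg _)]
    exact h2

theorem Q1M_ev {K : ℝ} (hK : 0 < K) : ∀ᶠ x : ℝ in Filter.atTop, K ≤ x / (Real.log x) ^ 3 := by
  have h1 := (Asymptotics.isLittleO_iff.1 (Real.isLittleO_pow_log_id_atTop (n := 3))) (inv_pos.2 hK)
  filter_upwards [h1, Filter.eventually_gt_atTop (1 : ℝ)] with x hx hx1
  have hlog : 0 < Real.log x := Real.log_pos hx1
  rw [Real.norm_of_nonneg (by positivity)] at hx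
  simp only [id, Real.norm_of_nonneg (by linarith : (0 : ℝ) ≤ x)] at hx
  rw [le_div_iff₀ (by positivity)]
  calc K * Real.log x ^ 3 ≤ K * (K⁻¹ * x) := mul_le_mul_of_nonneg_left hx hK.le
    _ = x := by field_simp

theorem Q1M (h : HL3) : Mean3 := by
  intro ε hε t ht
  obtain ⟨X1, hX1⟩ := h (ε / 2) (half_pos hε)
  obtain ⟨c, hc, hcl⟩ := sing_lower 2
  obtain ⟨Y0, hY0⟩ := SAV 2 (by norm_num) 2 (1 / 2) (by norm_num)
  have hK : 0 < 12 / (ε * c) := by positivity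
  have e1 : ∀ᶠ x : ℝ in Filter.atTop, Y0 ≤ Real.log x :=
    Real.tendsto_log_atTop.eventually_ge_atTop _
  have e2 : ∀ᶠ x : ℝ in Filter.atTop, 1 / t ≤ Real.log x :=
    Real.tendsto_log_atTop.eventually_ge_atTop _
  obtain ⟨X, hX⟩ := Filter.eventually_atTop.1 (e1.and (e2.and ((Q1M_ev hK).and
    ((Filter.eventually_ge_atTop X1).and (Filter.eventually_gt_atTop (1 : ℝ))))))
  refine ⟨X, fun x hx e he he2 heL u v hv huv => ?_⟩
  obtain ⟨hx1, hx2, hx3, hx4, hx5⟩ := hX x hx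
  have hlog : 0 < Real.log x := Real.log_pos hx5
  have hxΛ : 0 < x / (Real.log x) ^ 3 := by positivity
  have hcard : ({0, (e : ℤ)} : Finset ℤ).card = 2 := card_pair (by
    intro h0
    have : (e : ℤ) = 0 := h0.symm
    omega)
  have hae : adm {0, (e : ℤ)} := adm_pair he
  -- the length of the window
  have hYuv : Real.log x ≤ (v : ℝ) - u := by
    refine le_trans ?_ huv
    have h1 : 1 ≤ t * Real.log x := by
      rw [div_le_iff₀ ht] at hx2
      linarith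
    nlinarith
  have huv0 : 0 < (v : ℝ) - u := lt_of_lt_of_le hlog hYuv
  have hu0 : (0 : ℝ) ≤ u := Nat.cast_nonneg _
  have hv0 : (0 : ℝ) ≤ v := Nat.cast_nonneg _
  -- the lower bound for the sum of the singular series
  have hsav := hY0 (Real.log x) hx1 {0, (e : ℤ)} hcard hae (by
    intro a ha
    rw [mem_insert, mem_singleton] at ha
    rcases ha with rfl | rfl
    · simp only [Int.cast_zero, abs_zero]
      positivity
    · rw [Int.cast_natCast, abs_of_nonneg (Nat.cast_nonneg _)]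
      exact heL) (u : ℤ) (v : ℤ)
    (by rw [Int.cast_natCast, abs_of_nonneg hu0]; linarith)
    (by rw [Int.cast_natCast, abs_of_nonneg hv0]; exact hv)
    (by rw [Int.cast_natCast, Int.cast_natCast]; exact hYuv)
  rw [Int.cast_natCast, Int.cast_natCast] at hsav
  have hcs := hcl {0, (e : ℤ)} hcard hae
  set S : ℝ := ∑ b ∈ Finset.Ioc (u : ℤ) (v : ℤ) \ {0, (e : ℤ)}, sing (insert b {0, (e : ℤ)}) with hS
  have hSlow : (1 / 2) * (((v : ℝ) - u) * c) ≤ S := by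
    have h1 := (abs_le.1 hsav).1
    have h2 : ((v : ℝ) - u) * c ≤ ((v : ℝ) - u) * sing {0, (e : ℤ)} :=
      mul_le_mul_of_nonneg_left hcs huv0.le
    linarith
  -- the sum of the errors
  have hmain : |∑ b ∈ Finset.Ioc (u : ℤ) (v : ℤ) \ {0, (e : ℤ)}, (cnt x (insert b {0, (e : ℤ)}) : ℝ)
        - S * (x / (Real.log x) ^ 3)|
      ≤ (ε / 2) * (S * (x / (Real.log x) ^ 3)) + 3 * ((v : ℝ) - u) := by
    rw [hS, sum_mul, ← sum_sub_distrib]
    refine (abs_sum_le_sum_abs _ _).trans ?_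
    have h1 : ∀ b ∈ Finset.Ioc (u : ℤ) (v : ℤ) \ {0, (e : ℤ)},
        |(cnt x (insert b {0, (e : ℤ)}) : ℝ) - sing (insert b {0, (e : ℤ)}) * (x / (Real.log x) ^ 3)|
          ≤ (ε / 2) * (sing (insert b {0, (e : ℤ)}) * (x / (Real.log x) ^ 3)) + 3 := by
      intro b hb
      rw [mem_sdiff, mem_Ioc, mem_insert, mem_singleton] at hb
      obtain ⟨⟨hb1, hb2⟩, hb3⟩ := hb
      push Not at hb3
      refine Q1M_term hxΛ.le (half_pos hε).le (hX1 x hx4) he he2 heL (by omega) hb3.2 ?_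
      refine le_trans ?_ hv
      exact_mod_cast hb2
    refine (sum_le_sum h1).trans ?_
    rw [sum_add_distrib, ← mul_sum, sum_const, nsmul_eq_mul]
    have h2 : (((Finset.Ioc (u : ℤ) (v : ℤ) \ {0, (e : ℤ)}).card : ℕ) : ℝ) ≤ (v : ℝ) - u := by
      have h3 : (Finset.Ioc (u : ℤ) (v : ℤ) \ {0, (e : ℤ)}).card ≤ ((v : ℤ) - u).toNat := by
        refine (card_le_card sdiff_subset).trans ?_
        rw [Int.card_Ioc]
      have h4 : (u : ℤ) ≤ v := by
        have : (u : ℝ) ≤ v := by linarith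
        exact_mod_cast this
      have h5 : ((((v : ℤ) - u).toNat : ℕ) : ℝ) = (v : ℝ) - u := by
        have h6 : ((((v : ℤ) - u).toNat : ℕ) : ℤ) = (v : ℤ) - u := Int.toNat_of_nonneg (by omega)
        have h7 : (((((v : ℤ) - u).toNat : ℕ) : ℤ) : ℝ) = (((v : ℤ) - u : ℤ) : ℝ) := by rw [h6]
        push_cast at h7
        exact_mod_cast h7
      rw [← h5]
      exact_mod_cast h3
    nlinarith
  -- conclusion
  rw [mul_div_assoc]
  refine hmain.trans ?_
  have h3 : 3 * ((v : ℝ) - u) ≤ (ε / 2) * (S * (x / (Real.log x) ^ 3)) := by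
    have h4 : 12 / (ε * c) * (1 / 2 * (((v : ℝ) - u) * c)) ≤ S * (x / (Real.log x) ^ 3) := by
      have h5 : 0 ≤ 1 / 2 * (((v : ℝ) - u) * c) := by positivity
      calc 12 / (ε * c) * (1 / 2 * (((v : ℝ) - u) * c))
          ≤ (x / (Real.log x) ^ 3) * (1 / 2 * (((v : ℝ) - u) * c)) :=
            mul_le_mul_of_nonneg_right hx3 h5
        _ ≤ (x / (Real.log x) ^ 3) * S := mul_le_mul_of_nonneg_left hSlow hxΛ.le
        _ = S * (x / (Real.log x) ^ 3) := mul_comm _ _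
    have h6 : 12 / (ε * c) * (1 / 2 * (((v : ℝ) - u) * c)) = 6 * ((v : ℝ) - u) / ε := by
      field_simp
      ring
    rw [h6, div_le_iff₀ hε] at h4
    linarith
  linarith

end Pool.Agent.H6.MF
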