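import Pool.Agent.H6.MF.SAT
import Pool.Agent.H6.MF.BAS

/-!
# R2M: `R2a`, `R2b` (the header is shared with ASM.lean)

* `R2a` (`Mean3 → HL2` from `Row 2`): for even `e ∈ [2, Λ^2]` take `H = {0, e}`, `u = 0`, `v = ⌊Λ^2⌋₊`, `D = v` (`t = 1/2`).
  `Row 2`: `|R - (D/Λ) cnt x H| ≤ ε' D S x/Λ^3`; `Mean3`: `|R - (∑ sing) x/Λ^3| ≤ ε' (∑ sing) x/Λ^3`; `SAV` (`k = 2`, `A = 2`):
  `|∑ sing - D S| ≤ ε' D S`. So `|(D/Λ) cnt x H - D S x/Λ^3| ≤ 4 ε' D S x/Λ^3`; multiply by `Λ/D`.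
* `R2b` (`HL2 → Mean3`): the same inequalities for the given `u, v`.
* `R3a` (`HL3 → Mean4` from `Row 3`), `R3b` (`Mean4 → HL3` from `Row 3`): `H = {0,d',d}`, `k = 3`, `A = 3`; in `R3b` take
  `u = 0`, `v = ⌊Λ^3⌋`.
* `main`.
-/

set_option autoImplicit false

namespace Pool.Agent.H6.MF

open Finset

/-- the three inequalities imply the asymptotics for `C` -/
theorem R2M_core1 {D L S x C R T ε' ε : ℝ} (m : ℕ) (hD : 0 < D) (hL : 0 < L) (hS : 0 ≤ S) (hx : 0 ≤ x)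
    (hε' : 0 < ε') (hε1 : ε' ≤ 1) (hεε : 4 * ε' ≤ ε)
    (h1 : |R - D / L * C| ≤ ε' * (D * S * x / L ^ (m + 1)))
    (h2 : |R - T * x / L ^ (m + 1)| ≤ ε' * (T * x / L ^ (m + 1)))
    (h3 : |T - D * S| ≤ ε' * (D * S)) :
    |C - S * x / L ^ m| ≤ ε * (S * x / L ^ m) := by
  have hLm : 0 < L ^ (m + 1) := pow_pos hL _
  have hy : 0 ≤ x / L ^ (m + 1) := div_nonneg hx hLm.le
  have hDS : 0 ≤ D * S := mul_nonneg hD.le hS
  rw [abs_le] at h1 h2 h3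
  obtain ⟨y, hyd⟩ : ∃ y, y = x / L ^ (m + 1) := ⟨_, rfl⟩
  have e1 : D * S * x / L ^ (m + 1) = D * S * y := by rw [hyd]; ring
  have e2 : T * x / L ^ (m + 1) = T * y := by rw [hyd]; ring
  rw [e1] at h1
  rw [e2] at h2
  rw [← hyd] at hy
  have hTy1 : T * y ≤ (1 + ε') * (D * S * y) := by nlinarith [mul_le_mul_of_nonneg_right h3.2 hy]
  have hTy2 : (1 - ε') * (D * S * y) ≤ T * y := by nlinarith [mul_le_mul_of_nonneg_right h3.1 hy]
  have hz : 0 ≤ D * S * y := mul_nonneg hDS hy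
  have hmain : |D / L * C - D * S * y| ≤ ε * (D * S * y) := by
    rw [abs_le]
    have h5 : ε' * (T * y) ≤ 2 * ε' * (D * S * y) := by
      calc ε' * (T * y) ≤ ε' * ((1 + ε') * (D * S * y)) := mul_le_mul_of_nonneg_left hTy1 hε'.le
        _ = (1 + ε') * (ε' * (D * S * y)) := by ring
        _ ≤ 2 * (ε' * (D * S * y)) :=
            mul_le_mul_of_nonneg_right (by linarith) (mul_nonneg hε'.le hz)
        _ = _ := by ring
    have h6 : 4 * ε' * (D * S * y) ≤ ε * (D * S * y) := mul_le_mul_of_nonneg_right hεε hz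
    constructor <;> nlinarith [h1.1, h1.2, h2.1, h2.2, hTy1, hTy2]
  have e3 : C - S * x / L ^ m = L / D * (D / L * C - D * S * y) := by
    rw [hyd, pow_succ]
    field_simp
  have e4 : ε * (S * x / L ^ m) = L / D * (ε * (D * S * y)) := by
    rw [hyd, pow_succ]
    field_simp
  rw [e3, e4, abs_mul, abs_of_pos (div_pos hL hD)]
  exact mul_le_mul_of_nonneg_left hmain (div_pos hL hD).le

/-- the three inequalities imply the asymptotics for `R` -/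
theorem R2M_core2 {D L S x C R T ε' ε : ℝ} (m : ℕ) (hD : 0 < D) (hL : 0 < L) (hS : 0 ≤ S) (hx : 0 ≤ x)
    (hε' : 0 < ε') (hε1 : ε' ≤ 1 / 2) (hεε : 6 * ε' ≤ ε)
    (h1 : |R - D / L * C| ≤ ε' * (D * S * x / L ^ (m + 1)))
    (h2 : |C - S * x / L ^ m| ≤ ε' * (S * x / L ^ m))
    (h3 : |T - D * S| ≤ ε' * (D * S)) :
    |R - T * x / L ^ (m + 1)| ≤ ε * (T * x / L ^ (m + 1)) := by
  have hLm : 0 < L ^ (m + 1) := pow_pos hL _
  have hy : 0 ≤ x / L ^ (m + 1) := div_nonneg hx hLm.le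
  have hDS : 0 ≤ D * S := mul_nonneg hD.le hS
  obtain ⟨y, hyd⟩ : ∃ y, y = x / L ^ (m + 1) := ⟨_, rfl⟩
  have h2' : |D / L * C - D * S * y| ≤ ε' * (D * S * y) := by
    have e3 : D / L * C - D * S * y = D / L * (C - S * x / L ^ m) := by
      rw [hyd, pow_succ]
      field_simp
    have e4 : ε' * (D * S * y) = D / L * (ε' * (S * x / L ^ m)) := by
      rw [hyd, pow_succ]
      field_simp
    rw [e3, e4, abs_mul, abs_of_pos (div_pos hD hL)]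
    exact mul_le_mul_of_nonneg_left h2 (div_pos hD hL).le
  have e1 : D * S * x / L ^ (m + 1) = D * S * y := by rw [hyd]; ring
  have e2 : T * x / L ^ (m + 1) = T * y := by rw [hyd]; ring
  rw [e1] at h1
  rw [e2]
  rw [← hyd] at hy
  rw [abs_le] at h1 h2' h3 ⊢
  have hTy1 : T * y ≤ (1 + ε') * (D * S * y) := by nlinarith [mul_le_mul_of_nonneg_right h3.2 hy]
  have hTy2 : (1 - ε') * (D * S * y) ≤ T * y := by nlinarith [mul_le_mul_of_nonneg_right h3.1 hy]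
  have hz : 0 ≤ D * S * y := mul_nonneg hDS hy
  have h7 : (D * S * y) ≤ 2 * (T * y) := by
    have : (1 / 2 : ℝ) * (D * S * y) ≤ (1 - ε') * (D * S * y) :=
      mul_le_mul_of_nonneg_right (by linarith) hz
    linarith
  have h8 : 0 ≤ T * y := by linarith
  have h9 : 3 * ε' * (D * S * y) ≤ ε * (T * y) := by
    calc 3 * ε' * (D * S * y) ≤ 3 * ε' * (2 * (T * y)) :=
          mul_le_mul_of_nonneg_left h7 (by linarith)
      _ = 6 * ε' * (T * y) := by ring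
      _ ≤ ε * (T * y) := mul_le_mul_of_nonneg_right hεε h8
  constructor <;> nlinarith [h1.1, h1.2, h2'.1, h2'.2, hTy1, hTy2]

theorem R2M_card {e : ℕ} (he : 2 ≤ e) : ({0, (e : ℤ)} : Finset ℤ).card = 2 := by
  rw [card_pair]
  intro h
  have h1 : (e : ℤ) = 0 := h.symm
  omega

theorem R2M_data (hR : Row 2) (ε' : ℝ) (hε' : 0 < ε') (t : ℝ) (ht : 0 < t) : ∃ X : ℝ, ∀ x : ℝ, X ≤ x →
    (2 ≤ Real.log x ∧ 0 ≤ x) ∧ ∀ e : ℕ, Even e → 2 ≤ e → (e : ℝ) ≤ (Real.log x) ^ 2 → ∀ u v : ℕ,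
    (v : ℝ) ≤ (Real.log x) ^ 2 → t * (Real.log x) ^ 2 ≤ (v : ℝ) - u →
    (|∑ b ∈ Finset.Ioc (u : ℤ) (v : ℤ) \ {0, (e : ℤ)}, (cnt x (insert b {0, (e : ℤ)}) : ℝ)
      - ((v : ℝ) - u) / Real.log x * (cnt x {0, (e : ℤ)} : ℝ)|
      ≤ ε' * (((v : ℝ) - u) * sing {0, (e : ℤ)} * x / (Real.log x) ^ (2 + 1))) ∧
    (|∑ b ∈ Finset.Ioc (u : ℤ) (v : ℤ) \ {0, (e : ℤ)}, sing (insert b {0, (e : ℤ)})
      - ((v : ℝ) - u) * sing {0, (e : ℤ)}| ≤ ε' * (((v : ℝ) - u) * sing {0, (e : ℤ)})) := by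
  obtain ⟨X1, hX1⟩ := hR ε' hε' t ht
  obtain ⟨Y0, hY0⟩ := SAV 2 (by norm_num) 2 ε' hε'
  refine ⟨max X1 (max 1 (Real.exp (max Y0 (max 2 (1 / t))))), fun x hx => ?_⟩
  have hx1 : X1 ≤ x := (le_max_left _ _).trans hx
  have hx2 : 1 ≤ x := ((le_max_left _ _).trans (le_max_right _ _)).trans hx
  have hx3 : Real.exp (max Y0 (max 2 (1 / t))) ≤ x := ((le_max_right _ _).trans (le_max_right _ _)).trans hx
  have hx0 : 0 < x := by linarith
  have hlog : max Y0 (max 2 (1 / t)) ≤ Real.log x := (Real.le_log_iff_exp_le hx0).2 hx3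
  have hl0 : Y0 ≤ Real.log x := (le_max_left _ _).trans hlog
  have hl1 : 2 ≤ Real.log x := ((le_max_left _ _).trans (le_max_right _ _)).trans hlog
  have hl2 : 1 / t ≤ Real.log x := ((le_max_right _ _).trans (le_max_right _ _)).trans hlog
  refine ⟨⟨hl1, hx0.le⟩, fun e he he2 hel u v hv huv => ?_⟩
  have hcard := R2M_card he2
  have hadm := adm_pair he
  have hL2 : 0 < (Real.log x) ^ 2 := by positivity
  have hu0 : (0 : ℝ) ≤ u := Nat.cast_nonneg u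
  have hv0 : (0 : ℝ) ≤ v := Nat.cast_nonneg v
  have hH : ∀ h ∈ ({0, (e : ℤ)} : Finset ℤ), |(h : ℝ)| ≤ (Real.log x) ^ 2 := by
    intro h hh
    rw [mem_insert, mem_singleton] at hh
    rcases hh with rfl | rfl
    · simpa using hL2.le
    · rw [Int.cast_natCast, abs_of_nonneg (Nat.cast_nonneg e)]
      exact hel
  have hu' : |((u : ℤ) : ℝ)| ≤ (Real.log x) ^ 2 := by
    rw [Int.cast_natCast, abs_of_nonneg hu0]
    have : 0 < t * (Real.log x) ^ 2 := mul_pos ht hL2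
    linarith
  have hv' : |((v : ℤ) : ℝ)| ≤ (Real.log x) ^ 2 := by
    rw [Int.cast_natCast, abs_of_nonneg hv0]
    exact hv
  constructor
  · have := hX1 x hx1 {0, (e : ℤ)} hcard hadm hH u v hu' hv' (by simpa using huv)
    simpa using this
  · have h5 : Real.log x ≤ ((v : ℤ) : ℝ) - ((u : ℤ) : ℝ) := by
      rw [Int.cast_natCast, Int.cast_natCast]
      refine le_trans ?_ huv
      have : 1 ≤ t * Real.log x := by
        rw [div_le_iff₀ ht] at hl2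
        linarith
      nlinarith
    have := hY0 (Real.log x) hl0 {0, (e : ℤ)} hcard hadm hH u v hu' hv' h5
    simpa using this

theorem R2a (hR : Row 2) (hM : Mean3) : HL2 := by
  intro ε hε
  have hε' : 0 < min 1 (ε / 4) := lt_min one_pos (by linarith)
  have hε1 : min 1 (ε / 4) ≤ 1 := min_le_left _ _
  have hε2 : 4 * min 1 (ε / 4) ≤ ε := by
    have := min_le_right 1 (ε / 4)
    linarith
  obtain ⟨X1, hX1⟩ := R2M_data hR (min 1 (ε / 4)) hε' (1 / 2) (by norm_num)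
  obtain ⟨X2, hX2⟩ := hM (min 1 (ε / 4)) hε' (1 / 2) (by norm_num)
  refine ⟨max X1 X2, fun x hx e he he2 hel => ?_⟩
  obtain ⟨⟨hl, hx0⟩, h3⟩ := hX1 x ((le_max_left _ _).trans hx)
  have hL2 : (4 : ℝ) ≤ (Real.log x) ^ 2 := by nlinarith
  have hf1 : ((⌊(Real.log x) ^ 2⌋₊ : ℕ) : ℝ) ≤ (Real.log x) ^ 2 := Nat.floor_le (by positivity)
  have hf2 : (1 / 2 : ℝ) * (Real.log x) ^ 2 ≤ ((⌊(Real.log x) ^ 2⌋₊ : ℕ) : ℝ) - ((0 : ℕ) : ℝ) := by
    have := Nat.lt_floor_add_one ((Real.log x) ^ 2)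
    rw [Nat.cast_zero]
    linarith
  obtain ⟨h4, h5⟩ := h3 e he he2 hel 0 ⌊(Real.log x) ^ 2⌋₊ hf1 hf2
  have h6 := hX2 x ((le_max_right _ _).trans hx) e he he2 hel 0 ⌊(Real.log x) ^ 2⌋₊ hf1 hf2
  have hD : (0 : ℝ) < ((⌊(Real.log x) ^ 2⌋₊ : ℕ) : ℝ) - ((0 : ℕ) : ℝ) :=
    lt_of_lt_of_le (by positivity) hf2
  have hS : 0 ≤ sing {0, (e : ℤ)} := by
    have h7 := (abs_nonneg _).trans h5
    rw [← mul_assoc] at h7
    exact nonneg_of_mul_nonneg_right h7 (mul_pos hε' hD)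
  exact R2M_core1 2 hD (by linarith) hS hx0 hε' hε1 hε2 h4 h6 h5

theorem R2b (hR : Row 2) (hH : HL2) : Mean3 := by
  intro ε hε t ht
  have hε' : 0 < min (1 / 2) (ε / 6) := lt_min (by norm_num) (by linarith)
  have hε1 : min (1 / 2) (ε / 6) ≤ 1 / 2 := min_le_left _ _
  have hε2 : 6 * min (1 / 2) (ε / 6) ≤ ε := by
    have := min_le_right (1 / 2) (ε / 6)
    linarith
  obtain ⟨X1, hX1⟩ := R2M_data hR (min (1 / 2) (ε / 6)) hε' t ht
  obtain ⟨X2, hX2⟩ := hH (min (1 / 2) (ε / 6)) hε'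
  refine ⟨max X1 X2, fun x hx e he he2 hel u v hv huv => ?_⟩
  obtain ⟨⟨hl, hx0⟩, h3⟩ := hX1 x ((le_max_left _ _).trans hx)
  have hL2 : (4 : ℝ) ≤ (Real.log x) ^ 2 := by nlinarith
  obtain ⟨h4, h5⟩ := h3 e he he2 hel u v hv huv
  have h6 := hX2 x ((le_max_right _ _).trans hx) e he he2 hel
  have hD : (0 : ℝ) < (v : ℝ) - u := lt_of_lt_of_le (mul_pos ht (by linarith)) huv
  have hS : 0 ≤ sing {0, (e : ℤ)} := by
    have h7 := (abs_nonneg _).trans h5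
    rw [← mul_assoc] at h7
    exact nonneg_of_mul_nonneg_right h7 (mul_pos hε' hD)
  exact R2M_core2 2 hD (by linarith) hS hx0 hε' hε1 hε2 h4 h6 h5

end Pool.Agent.H6.MF
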