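import Pool.Agent.H6.MF.SAT
import Pool.Agent.H6.MF.BAS

/-!
# R3M: `R3a`, `R3b` (the header is shared with ASM.lean)

* `R2a` (`Mean3 → HL2` from `Row 2`): for even `e ∈ [2, Λ^2]` take `H = {0, e}`, `u = 0`, `v = ⌊Λ^2⌋₊`, `D = v` (`t = 1/2`).
  `Row 2`: `|R - (D/Λ) cnt x H| ≤ ε' D S x/Λ^3`; `Mean3`: `|R - (∑ sing) x/Λ^3| ≤ ε' (∑ sing) x/Λ^3`; `SAV` (`k = 2`, `A = 2`):
  `|∑ sing - D S| ≤ ε' D S`. So `|(D/Λ) cnt x H - D S x/Λ^3| ≤ 4 ε' D S x/Λ^3`; multiply by `Λ/D`.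
* `R2b` (`HL2 → Mean3`): the same inequalities for the given `u, v`.
* `R3a` (`HL3 → Mean4` from `Row 3`), `R3b` (`Mean4 → HL3` from `Row 3`): `H = {0,d',d}`, `k = 3`, `A = 3`; in `R3b` take
  `u = 0`, `v = ⌊Λ^3⌋`.
* `main`.
-/

set_option autoImplicit false

namespace Pool.Agent.H6.MF

open Finset

/-- the common bounds for the set `{0, d', d}` -/
theorem R3M_H {x : ℝ} (hx : 1 ≤ Real.log x) {d d' : ℕ} (h2 : 2 ≤ d') (hd : d' < d)
    (hle : (d : ℝ) ≤ (Real.log x) ^ 2) :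
    (({0, (d' : ℤ), (d : ℤ)} : Finset ℤ)).card = 3 ∧
      ∀ h ∈ ({0, (d' : ℤ), (d : ℤ)} : Finset ℤ), |(h : ℝ)| ≤ (Real.log x) ^ 3 := by
  constructor
  · rw [card_eq_three]
    refine ⟨0, (d' : ℤ), (d : ℤ), ?_, ?_, ?_, rfl⟩
    · have : (0 : ℤ) < d' := by omega
      exact this.ne
    · have : (0 : ℤ) < d := by omega
      exact this.ne
    · exact_mod_cast hd.ne
  · have h1 : (Real.log x) ^ 2 ≤ (Real.log x) ^ 3 := pow_le_pow_right₀ hx (by norm_num)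
    have hdd : (d' : ℝ) ≤ d := by exact_mod_cast hd.le
    intro h hh
    simp only [mem_insert, mem_singleton] at hh
    rcases hh with rfl | rfl | rfl
    · simp; positivity
    · rw [Int.cast_natCast, abs_of_nonneg (Nat.cast_nonneg _)]; linarith
    · rw [Int.cast_natCast, abs_of_nonneg (Nat.cast_nonneg _)]; linarith

/-- the application of `SAV` -/
theorem R3M_sav (ε : ℝ) (hε : 0 < ε) (t : ℝ) (ht : 0 < t) : ∃ X : ℝ, ∀ x : ℝ, X ≤ x →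
    1 ≤ Real.log x ∧ 0 < x ∧
    ∀ H : Finset ℤ, H.card = 3 → adm H → (∀ h ∈ H, |(h : ℝ)| ≤ (Real.log x) ^ 3) → ∀ u v : ℤ,
    |(u : ℝ)| ≤ (Real.log x) ^ 3 → |(v : ℝ)| ≤ (Real.log x) ^ 3 →
    t * (Real.log x) ^ 3 ≤ (v : ℝ) - u →
    |∑ b ∈ Finset.Ioc u v \ H, sing (insert b H) - ((v : ℝ) - u) * sing H|
      ≤ ε * (((v : ℝ) - u) * sing H) := by
  obtain ⟨Y₀, hY⟩ := SAV 3 (by norm_num) 2 ε hε
  have hlog : Filter.Tendsto Real.log Filter.atTop Filter.atTop := Real.tendsto_log_atTop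
  have h1 : ∀ᶠ x : ℝ in Filter.atTop, 1 ≤ Real.log x := hlog.eventually_ge_atTop 1
  have h2 : ∀ᶠ x : ℝ in Filter.atTop, |Y₀| / t ≤ Real.log x := hlog.eventually_ge_atTop _
  have h3 : ∀ᶠ x : ℝ in Filter.atTop, 1 / t ^ 2 ≤ Real.log x := hlog.eventually_ge_atTop _
  have h4 : ∀ᶠ x : ℝ in Filter.atTop, 1 ≤ x := Filter.eventually_ge_atTop 1
  obtain ⟨X, hX⟩ := Filter.eventually_atTop.mp (((h1.and h2).and h3).and h4)
  refine ⟨X, fun x hx => ?_⟩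
  obtain ⟨⟨⟨a1, a2⟩, a3⟩, a4⟩ := hX x hx
  refine ⟨a1, by linarith, ?_⟩
  intro H hH hadm hh u v hu hv huv
  set Λ := Real.log x with hΛ
  have hΛ0 : 0 < Λ := by linarith
  have hΛ3 : Λ ≤ Λ ^ 3 := by
    calc Λ = Λ ^ 1 := (pow_one _).symm
      _ ≤ Λ ^ 3 := pow_le_pow_right₀ a1 (by norm_num)
  -- `Y = t Λ^3`
  have b1 : Y₀ ≤ t * Λ ^ 3 := by
    rw [div_le_iff₀ ht] at a2
    calc Y₀ ≤ |Y₀| := le_abs_self _
      _ ≤ Λ * t := a2
      _ ≤ Λ ^ 3 * t := mul_le_mul_of_nonneg_right hΛ3 ht.le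
      _ = t * Λ ^ 3 := mul_comm _ _
  have b2 : Λ ^ 3 ≤ (t * Λ ^ 3) ^ 2 := by
    have c1 : 1 ≤ t ^ 2 * Λ ^ 3 := by
      rw [div_le_iff₀ (by positivity)] at a3
      calc 1 ≤ Λ * t ^ 2 := a3
        _ ≤ Λ ^ 3 * t ^ 2 := mul_le_mul_of_nonneg_right hΛ3 (by positivity)
        _ = t ^ 2 * Λ ^ 3 := mul_comm _ _
    calc Λ ^ 3 = 1 * Λ ^ 3 := (one_mul _).symm
      _ ≤ (t ^ 2 * Λ ^ 3) * Λ ^ 3 := mul_le_mul_of_nonneg_right c1 (by positivity)
      _ = (t * Λ ^ 3) ^ 2 := by ring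
  exact hY (t * Λ ^ 3) b1 H hH hadm (fun h h' => (hh h h').trans b2) u v (hu.trans b2) (hv.trans b2) huv

theorem R3a (hR : Row 3) (hH : HL3) : Mean4 := by
  intro ε hε t ht
  set η : ℝ := min (ε / 6) (1 / 2) with hη
  have hη0 : 0 < η := lt_min (by positivity) (by norm_num)
  have hη1 : η ≤ ε / 6 := min_le_left _ _
  have hη2 : η ≤ 1 / 2 := min_le_right _ _
  obtain ⟨X₁, h1⟩ := hR η hη0 t ht
  obtain ⟨X₂, h2⟩ := hH η hη0
  obtain ⟨X₃, h3⟩ := R3M_sav η hη0 t ht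
  refine ⟨max X₁ (max X₂ X₃), fun x hx d d' he he' hd2 hdd hle hs u v hu hv huv => ?_⟩
  have hx1 : X₁ ≤ x := (le_max_left _ _).trans hx
  have hx2 : X₂ ≤ x := ((le_max_left _ _).trans (le_max_right _ _)).trans hx
  have hx3 : X₃ ≤ x := ((le_max_right _ _).trans (le_max_right _ _)).trans hx
  obtain ⟨hΛ1, hx0, h3'⟩ := h3 x hx3
  obtain ⟨hc, hb⟩ := R3M_H hΛ1 hd2 hdd hle
  have hadm := (sing_ne_zero_iff _).mp hs
  have i1 := h1 x hx1 _ hc hadm hb u v hu hv huv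
  have i2 := h2 x hx2 d d' he he' hd2 hdd hle hs
  have i3 := h3' _ hc hadm hb u v hu hv huv
  set H : Finset ℤ := {0, (d' : ℤ), (d : ℤ)} with hHdef
  set Λ := Real.log x with hΛdef
  have hΛ0 : 0 < Λ := by linarith
  set L : ℝ := (v : ℝ) - u with hL
  have hL0 : 0 < L := lt_of_lt_of_le (by positivity) huv
  set S := sing H with hS
  have hS0 : 0 < S := lt_of_le_of_ne (sing_nonneg H) (Ne.symm hs)
  set P := ∑ b ∈ Finset.Ioc u v \ H, (cnt x (insert b H) : ℝ) with hP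
  set Q := ∑ b ∈ Finset.Ioc u v \ H, sing (insert b H) with hQ
  set c := (cnt x H : ℝ) with hcdef
  have hΛ4 : 0 < Λ ^ 4 := by positivity
  have e31 : (3 : ℕ) + 1 = 4 := rfl
  rw [e31] at i1
  -- rewrite everything in terms of `D`
  set D := L * S * x / Λ ^ 4 with hD
  have hD0 : 0 < D := by positivity
  have j2 : |L / Λ * c - D| ≤ η * D := by
    have : L / Λ * c - D = L / Λ * (c - S * x / Λ ^ 3) := by
      rw [hD]; field_simp
    rw [this, abs_mul, abs_of_pos (by positivity : 0 < L / Λ)]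
    calc L / Λ * |c - S * x / Λ ^ 3| ≤ L / Λ * (η * (S * x / Λ ^ 3)) :=
          mul_le_mul_of_nonneg_left i2 (by positivity)
      _ = η * D := by rw [hD]; field_simp
  have j3 : |Q * x / Λ ^ 4 - D| ≤ η * D := by
    have : Q * x / Λ ^ 4 - D = (Q - L * S) * (x / Λ ^ 4) := by
      rw [hD]; ring
    rw [this, abs_mul, abs_of_pos (by positivity : 0 < x / Λ ^ 4)]
    calc |Q - L * S| * (x / Λ ^ 4) ≤ η * (L * S) * (x / Λ ^ 4) :=
          mul_le_mul_of_nonneg_right i3 (by positivity)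
      _ = η * D := by rw [hD]; ring
  rw [abs_le] at i1 j2 j3
  have hDM : D ≤ 2 * (Q * x / Λ ^ 4) := by nlinarith [j3.1, hη2, hD0]
  have hM0 : 0 < Q * x / Λ ^ 4 := by linarith
  have hfin : 3 * (η * D) ≤ ε * (Q * x / Λ ^ 4) := by
    calc 3 * (η * D) ≤ 3 * (η * (2 * (Q * x / Λ ^ 4))) := by
          apply mul_le_mul_of_nonneg_left _ (by norm_num)
          exact mul_le_mul_of_nonneg_left hDM hη0.le
      _ = (6 * η) * (Q * x / Λ ^ 4) := by ring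
      _ ≤ ε * (Q * x / Λ ^ 4) := by
          apply mul_le_mul_of_nonneg_right _ hM0.le
          linarith
  rw [abs_le]
  constructor
  · linarith [i1.1, j2.1, j3.2]
  · linarith [i1.2, j2.2, j3.1]

theorem R3b (hR : Row 3) (hM : Mean4) : HL3 := by
  intro ε hε
  set η : ℝ := min (ε / 4) (1 / 2) with hη
  have hη0 : 0 < η := lt_min (by positivity) (by norm_num)
  have hη1 : η ≤ ε / 4 := min_le_left _ _
  have hη2 : η ≤ 1 / 2 := min_le_right _ _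
  obtain ⟨X₁, h1⟩ := hR η hη0 (1 / 2) (by norm_num)
  obtain ⟨X₂, h2⟩ := hM η hη0 (1 / 2) (by norm_num)
  obtain ⟨X₃, h3⟩ := R3M_sav η hη0 (1 / 2) (by norm_num)
  obtain ⟨X₄, h4⟩ := Filter.eventually_atTop.mp (Real.tendsto_log_atTop.eventually_ge_atTop 2)
  refine ⟨max (max X₁ X₂) (max X₃ X₄), fun x hx d d' he he' hd2 hdd hle hs => ?_⟩
  have hx1 : X₁ ≤ x := ((le_max_left _ _).trans (le_max_left _ _)).trans hx
  have hx2 : X₂ ≤ x := ((le_max_right _ _).trans (le_max_left _ _)).trans hx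
  have hx3 : X₃ ≤ x := ((le_max_left _ _).trans (le_max_right _ _)).trans hx
  have hx4 : X₄ ≤ x := ((le_max_right _ _).trans (le_max_right _ _)).trans hx
  obtain ⟨hΛ1, hx0, h3'⟩ := h3 x hx3
  have hΛ2 : 2 ≤ Real.log x := h4 x hx4
  obtain ⟨hc, hb⟩ := R3M_H hΛ1 hd2 hdd hle
  have hadm := (sing_ne_zero_iff _).mp hs
  -- the window
  have w0 : (0 : ℝ) < (Real.log x) ^ 3 := by positivity
  have w1 : (⌊(Real.log x) ^ 3⌋₊ : ℝ) ≤ (Real.log x) ^ 3 := Nat.floor_le w0.le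
  have w2 : (Real.log x) ^ 3 < (⌊(Real.log x) ^ 3⌋₊ : ℝ) + 1 := Nat.lt_floor_add_one _
  have w3 : (8 : ℝ) ≤ (Real.log x) ^ 3 := by
    calc (8 : ℝ) = 2 ^ 3 := by norm_num
      _ ≤ (Real.log x) ^ 3 := pow_le_pow_left₀ (by norm_num) hΛ2 3
  have hu : |((0 : ℤ) : ℝ)| ≤ (Real.log x) ^ 3 := by simp; positivity
  have hv : |(((⌊(Real.log x) ^ 3⌋₊ : ℕ) : ℤ) : ℝ)| ≤ (Real.log x) ^ 3 := by
    rw [Int.cast_natCast, abs_of_nonneg (Nat.cast_nonneg _)]; exact w1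
  have huv : 1 / 2 * (Real.log x) ^ 3 ≤ (((⌊(Real.log x) ^ 3⌋₊ : ℕ) : ℤ) : ℝ) - ((0 : ℤ) : ℝ) := by
    rw [Int.cast_natCast, Int.cast_zero]; linarith
  have i1 := h1 x hx1 _ hc hadm hb 0 _ hu hv huv
  have i2 := h2 x hx2 d d' he he' hd2 hdd hle hs 0 _ hu hv huv
  have i3 := h3' _ hc hadm hb 0 _ hu hv huv
  set V : ℤ := ((⌊(Real.log x) ^ 3⌋₊ : ℕ) : ℤ) with hV
  set H : Finset ℤ := {0, (d' : ℤ), (d : ℤ)} with hHdef
  set Λ := Real.log x with hΛdef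
  have hΛ0 : 0 < Λ := by linarith
  set L : ℝ := (V : ℝ) - ((0 : ℤ) : ℝ) with hL
  have hL0 : 0 < L := lt_of_lt_of_le (by positivity) huv
  set S := sing H with hS
  have hS0 : 0 < S := lt_of_le_of_ne (sing_nonneg H) (Ne.symm hs)
  set P := ∑ b ∈ Finset.Ioc 0 V \ H, (cnt x (insert b H) : ℝ) with hP
  set Q := ∑ b ∈ Finset.Ioc 0 V \ H, sing (insert b H) with hQ
  set c := (cnt x H : ℝ) with hcdef
  have e31 : (3 : ℕ) + 1 = 4 := rfl
  rw [e31] at i1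
  set D := L * S * x / Λ ^ 4 with hD
  have hD0 : 0 < D := by positivity
  have j3 : |Q * x / Λ ^ 4 - D| ≤ η * D := by
    have : Q * x / Λ ^ 4 - D = (Q - L * S) * (x / Λ ^ 4) := by
      rw [hD]; ring
    rw [this, abs_mul, abs_of_pos (by positivity : 0 < x / Λ ^ 4)]
    calc |Q - L * S| * (x / Λ ^ 4) ≤ η * (L * S) * (x / Λ ^ 4) :=
          mul_le_mul_of_nonneg_right i3 (by positivity)
      _ = η * D := by rw [hD]; ring
  rw [abs_le] at j3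
  have hMD : Q * x / Λ ^ 4 ≤ 2 * D := by nlinarith [j3.2, hη2, hD0]
  have j2 : |P - Q * x / Λ ^ 4| ≤ 2 * (η * D) := by
    refine i2.trans ?_
    calc η * (Q * x / Λ ^ 4) ≤ η * (2 * D) := mul_le_mul_of_nonneg_left hMD hη0.le
      _ = 2 * (η * D) := by ring
  rw [abs_le] at i1 j2
  have j4 : |L / Λ * c - D| ≤ 4 * (η * D) := by
    rw [abs_le]
    constructor
    · linarith [i1.2, j2.1, j3.1]
    · linarith [i1.1, j2.2, j3.2]
  have hk : c - S * x / Λ ^ 3 = Λ / L * (L / Λ * c - D) := by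
    rw [hD]; field_simp
  rw [hk, abs_mul, abs_of_pos (by positivity : 0 < Λ / L)]
  calc Λ / L * |L / Λ * c - D| ≤ Λ / L * (4 * (η * D)) := mul_le_mul_of_nonneg_left j4 (by positivity)
    _ = (4 * η) * (S * x / Λ ^ 3) := by rw [hD]; field_simp
    _ ≤ ε * (S * x / Λ ^ 3) := by
        apply mul_le_mul_of_nonneg_right _ (by positivity)
        linarith

end Pool.Agent.H6.MF
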