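import Pool.Agent.H6.MF.UCH
import Pool.Agent.H6.MF.FMO
import Pool.Agent.H6.MF.JEN

/-!
# UPC: upper bounds for pairs resp. triples on average imply concentration

`ℓ = ⌊τ Λ^2⌋₊` with `τ ≤ 1/4`, `M = ℓ/Λ` (about `τ Λ → ∞`), `w(n) = win 0 ℓ n`.
First moment (`FMO`, `k = 2`): `∑_{n ≤ N} w(n) = (1 + o(1)) M x`. `N + 1 ≤ (1 + ε) x`.

* `choose_pairs`: `∑_{n ≤ N} C(w(n), 2) ≤ ∑_{d=1}^{ℓ} (ℓ - d) cnt x {0, d}`: `C(w(n),2)` is the number of pairs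
  `0 < b₁ < b₂ ≤ ℓ` with `n - b₁, n - b₂` prime (`Finset.card_powersetCard`, or ordered pairs); for fixed
  `(b₁,b₂)` the number of `n ≤ N` is `cnt x {b₁, b₂} ≤ cnt x {0, b₂ - b₁}` (`cnt_tr_le` with `b = b₁`); for a
  given `d = b₂ - b₁ ≥ 1` there are `ℓ - d` choices of `b₁`.
* `choose_triples`: in the same way `∑_{n ≤ N} C(w(n), 3) ≤ ∑_{d ≤ ℓ} ∑_{1 ≤ d' < d} (ℓ - d) cnt x {0, d', d}`
  (`b₁ < b₂ < b₃`, `d' = b₂ - b₁`, `d = b₃ - b₁`).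
* `A2C`: `∑_{d ≤ ℓ} (ℓ - d) cnt x {0,d} = ∑_{s < ℓ} ∑_{d ≤ s} cnt x {0,d}`. `A2up` with `ε' = ε/10` and
  `t' = τ ε/100`: for `s ≥ t' Λ^2` the inner sum is `≤ (1+ε') s x/Λ^2`, for smaller `s` it is at most the one
  for `s₀ = ⌈t' Λ^2⌉₊`. Total `≤ (1+ε') (x/Λ^2) (ℓ^2/2 + ℓ s₀)`, `ℓ s₀ ≤ (ε/20) ℓ^2`. `w^2 = 2 C(w,2) + w`, so
  `∑ w^2 ≤ (1 + ε/2) M^2 x + 2 M x ≤ (1+ε) M^2 x`. `jensen2`.
* `A3C`: `∑ (ℓ - d) ∑_{d'} cnt x {0,d',d} = ∑_{s<ℓ} ∑_{d ≤ s} ∑_{d' < d} cnt x {0,d',d}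
  ≤ (1+ε') (x/Λ^3) (ℓ^3/6 + ℓ s₀^2)`. `cube_le` with a large fixed `T`:
  `(1 - 1/T) ∑ w^3 ≤ 6 ∑ C(w,3) + 27 T^2 (N+1) ≤ (1+ε'') M^3 x` since `M → ∞`. `jensen3`.
(`M` versus `τ Λ^k/Λ` in the definition of `BaseConc`: `M ≤ τ Λ^2/Λ`.)
-/

set_option autoImplicit false

namespace Pool.Agent.H6.MF

open Finset

theorem UPC_abel (g : ℕ → ℝ) (ℓ : ℕ) :
    ∑ d ∈ Finset.Icc 1 ℓ, ((ℓ : ℝ) - d) * g d
      = ∑ s ∈ Finset.range ℓ, ∑ d ∈ Finset.Icc 1 s, g d := by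
  induction ℓ with
  | zero => simp
  | succ n ih =>
    rw [Finset.sum_range_succ, ← ih, Finset.sum_Icc_succ_top (by omega)]
    push_cast
    have : ∑ d ∈ Finset.Icc 1 n, ((n : ℝ) + 1 - d) * g d
        = ∑ d ∈ Finset.Icc 1 n, ((n : ℝ) - d) * g d + ∑ d ∈ Finset.Icc 1 n, g d := by
      rw [← Finset.sum_add_distrib]
      exact Finset.sum_congr rfl fun d _ => by ring
    rw [this]; ring

theorem UPC_sum (G : ℕ → ℝ) (hG : Monotone G) (C : ℝ) (hC : 0 ≤ C) (ℓ s₀ j : ℕ) (hs : s₀ ≤ ℓ)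
    (h : ∀ s, s₀ ≤ s → s ≤ ℓ → G s ≤ C * (s : ℝ) ^ j) :
    ∑ s ∈ Finset.range ℓ, G s
      ≤ C * (∑ s ∈ Finset.range ℓ, (s : ℝ) ^ j + ℓ * (s₀ : ℝ) ^ j) := by
  have h1 : ∀ s ∈ Finset.range ℓ, G s ≤ C * ((s : ℝ) ^ j + (s₀ : ℝ) ^ j) := by
    intro s hsl
    have hsl' : s < ℓ := Finset.mem_range.1 hsl
    by_cases hc : s₀ ≤ s
    · refine (h s hc hsl'.le).trans ?_
      have : (0 : ℝ) ≤ C * (s₀ : ℝ) ^ j := by positivity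
      linarith [mul_add C ((s : ℝ) ^ j) ((s₀ : ℝ) ^ j)]
    · refine (hG (by omega : s ≤ s₀)).trans ((h s₀ le_rfl hs).trans ?_)
      have : (0 : ℝ) ≤ C * (s : ℝ) ^ j := by positivity
      linarith [mul_add C ((s : ℝ) ^ j) ((s₀ : ℝ) ^ j)]
  refine (Finset.sum_le_sum h1).trans (le_of_eq ?_)
  rw [← Finset.mul_sum, Finset.sum_add_distrib, Finset.sum_const, Finset.card_range, nsmul_eq_mul]

theorem UPC_pow1 (ℓ : ℕ) : ∑ s ∈ Finset.range ℓ, (s : ℝ) ^ 1 ≤ (ℓ : ℝ) ^ 2 / 2 := by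
  induction ℓ with
  | zero => simp
  | succ n ih =>
    rw [Finset.sum_range_succ]
    push_cast
    nlinarith

theorem UPC_pow2 (ℓ : ℕ) : ∑ s ∈ Finset.range ℓ, (s : ℝ) ^ 2 ≤ (ℓ : ℝ) ^ 3 / 3 := by
  induction ℓ with
  | zero => simp
  | succ n ih =>
    rw [Finset.sum_range_succ]
    push_cast
    have : (0 : ℝ) ≤ n := Nat.cast_nonneg n
    nlinarith

theorem UPC_large (τ η K : ℝ) (hτ : 0 < τ) (hη : 0 < η) (hη1 : η ≤ 1) :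
    ∃ L : ℝ, 1 ≤ L ∧ ∀ Λ : ℝ, L ≤ Λ →
      (⌈η * τ / 4 * Λ ^ 2⌉₊ : ℝ) ≤ η * (⌊τ * Λ ^ 2⌋₊ : ℝ) ∧ K ≤ (⌊τ * Λ ^ 2⌋₊ : ℝ) / Λ := by
  refine ⟨max 1 (max (3 / (η * τ)) ((K + 1) / τ)), le_max_left _ _, fun Λ hΛ => ?_⟩
  have h1 : 1 ≤ Λ := (le_max_left _ _).trans hΛ
  have h2 : 3 / (η * τ) ≤ Λ := ((le_max_left _ _).trans (le_max_right _ _)).trans hΛ
  have h3 : (K + 1) / τ ≤ Λ := ((le_max_right _ _).trans (le_max_right _ _)).trans hΛ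
  have hA : 0 ≤ τ * Λ ^ 2 := by positivity
  have hfl : τ * Λ ^ 2 - 1 < (⌊τ * Λ ^ 2⌋₊ : ℝ) := by
    have := Nat.lt_floor_add_one (τ * Λ ^ 2)
    linarith
  have hce : (⌈η * τ / 4 * Λ ^ 2⌉₊ : ℝ) < η * τ / 4 * Λ ^ 2 + 1 :=
    Nat.ceil_lt_add_one (by positivity)
  have h2' : 3 ≤ Λ * (η * τ) := (div_le_iff₀ (by positivity)).1 h2
  have h3' : K + 1 ≤ Λ * τ := (div_le_iff₀ hτ).1 h3
  refine ⟨?_, ?_⟩
  · have h4 : 3 ≤ η * (τ * Λ ^ 2) := by nlinarith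
    nlinarith
  · rw [le_div_iff₀ (by linarith)]
    nlinarith

/-- the setting common to both statements -/
theorem UPC_core (j : ℕ) (hj : j = 2 ∨ j = 3)
    (H : ∀ τ : ℝ, 0 < τ → τ ≤ 1 / 4 → ∀ δ : ℝ, 0 < δ → δ ≤ 1 → ∃ X : ℝ, ∀ x : ℝ, X ≤ x →
      ∑ n ∈ Finset.range (⌊x⌋₊ + 1), (win 0 (⌊τ * (Real.log x) ^ 2⌋₊ : ℤ) (n : ℤ) : ℝ) ^ j
        ≤ (1 + δ) * (((⌊τ * (Real.log x) ^ 2⌋₊ : ℝ) / Real.log x) ^ j * x)) : BaseConc 2 := by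
  intro ε hε τ hτ hτ4
  obtain ⟨δ, hδdef⟩ : ∃ δ : ℝ, δ = min (ε / 4) 1 := ⟨_, rfl⟩
  have hδ : 0 < δ := by rw [hδdef]; exact lt_min (by linarith) one_pos
  have hδ1 : δ ≤ 1 := by rw [hδdef]; exact min_le_right _ _
  have hδε : 4 * δ ≤ ε := by
    have : δ ≤ ε / 4 := by rw [hδdef]; exact min_le_left _ _
    linarith
  obtain ⟨X₁, hX₁⟩ := H τ hτ hτ4 δ hδ hδ1
  obtain ⟨X₂, hX₂⟩ := FMO 2 δ hδ
  obtain ⟨L, hL1, hL⟩ := UPC_large τ 1 1 hτ one_pos le_rfl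
  refine ⟨max (max X₁ X₂) (max (Real.exp L) (1 / δ)), fun x hx => ?_⟩
  have hx1 : X₁ ≤ x := ((le_max_left _ _).trans (le_max_left _ _)).trans hx
  have hx2 : X₂ ≤ x := ((le_max_right _ _).trans (le_max_left _ _)).trans hx
  have hx3 : Real.exp L ≤ x := ((le_max_left _ _).trans (le_max_right _ _)).trans hx
  have hx4 : 1 / δ ≤ x := ((le_max_right _ _).trans (le_max_right _ _)).trans hx
  have hx0 : 0 < x := (Real.exp_pos L).trans_le hx3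
  have hLx : L ≤ Real.log x := (Real.le_log_iff_exp_le hx0).2 hx3
  have h1 := hX₁ x hx1
  obtain ⟨Λ, hΛ⟩ : ∃ Λ : ℝ, Λ = Real.log x := ⟨_, rfl⟩
  have h2 := hX₂ x hx2 0 (⌊τ * (Real.log x) ^ 2⌋₊ : ℤ)
  rw [← hΛ] at h1 h2 hLx ⊢
  have hK := (hL Λ hLx).2
  have hΛ1 : 1 ≤ Λ := hL1.trans hLx
  have hΛ0 : 0 < Λ := by linarith
  obtain ⟨ℓ, hℓ⟩ : ∃ ℓ : ℕ, ℓ = ⌊τ * Λ ^ 2⌋₊ := ⟨_, rfl⟩
  rw [← hℓ] at h1 h2 hK ⊢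
  have hℓle : (ℓ : ℝ) ≤ τ * Λ ^ 2 := by rw [hℓ]; exact Nat.floor_le (by positivity)
  have hℓ0 : (0 : ℝ) ≤ ℓ := Nat.cast_nonneg _
  have hℓΛ : (ℓ : ℝ) ≤ Λ ^ 2 := by nlinarith [sq_nonneg Λ]
  have h2' := h2 (by simp; positivity)
    (by rw [Int.cast_natCast, abs_of_nonneg hℓ0]; nlinarith [sq_nonneg Λ]) (Int.natCast_nonneg _)
  have hM : (0 : ℝ) < (ℓ : ℝ) / Λ := lt_of_lt_of_le one_pos hK
  have hm1 : (1 - δ) * ((ℓ : ℝ) / Λ * x)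
      ≤ ∑ n ∈ Finset.range (⌊x⌋₊ + 1), (win 0 (ℓ : ℤ) (n : ℤ) : ℝ) := by
    have := (abs_le.1 h2').1
    push_cast at this
    have e : ((ℓ : ℝ) - 0) * x / Λ = (ℓ : ℝ) / Λ * x := by ring
    rw [e] at this
    linarith
  have hc : ((Finset.range (⌊x⌋₊ + 1)).card : ℝ) ≤ (1 + δ) * x := by
    rw [Finset.card_range]
    push_cast
    have a1 : (⌊x⌋₊ : ℝ) ≤ x := Nat.floor_le hx0.le
    have a2 : 1 ≤ x * δ := (div_le_iff₀ hδ).1 hx4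
    linarith
  have hfin : 4 * δ * (((ℓ : ℝ) / Λ) ^ 2 * x) ≤ ε * (τ * Λ ^ 2 / Λ) ^ 2 * x := by
    have b1 : (ℓ : ℝ) / Λ ≤ τ * Λ ^ 2 / Λ := div_le_div_of_nonneg_right hℓle hΛ0.le
    have b2 : ((ℓ : ℝ) / Λ) ^ 2 ≤ (τ * Λ ^ 2 / Λ) ^ 2 := pow_le_pow_left₀ hM.le b1 2
    have b3 : ((ℓ : ℝ) / Λ) ^ 2 * x ≤ (τ * Λ ^ 2 / Λ) ^ 2 * x :=
      mul_le_mul_of_nonneg_right b2 hx0.le
    calc 4 * δ * (((ℓ : ℝ) / Λ) ^ 2 * x) ≤ ε * ((τ * Λ ^ 2 / Λ) ^ 2 * x) :=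
          mul_le_mul hδε b3 (by positivity) hε.le
      _ = ε * (τ * Λ ^ 2 / Λ) ^ 2 * x := by ring
  refine le_trans ?_ hfin
  rcases hj with rfl | rfl
  · exact jensen2 _ _ _ _ _ hM hm1 h1 hc
  · exact jensen3 _ _ _ _ _ hM (fun _ _ => Nat.cast_nonneg _) hδ.le hx0.le hm1 h1 hc

theorem A2C (h : A2up) : BaseConc 2 := by
  refine UPC_core 2 (Or.inl rfl) fun τ hτ hτ4 δ hδ hδ1 => ?_
  obtain ⟨η, hη⟩ : ∃ η : ℝ, η = δ / 10 := ⟨_, rfl⟩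
  have hη0 : 0 < η := by rw [hη]; positivity
  have hη1 : η ≤ 1 := by rw [hη]; linarith
  obtain ⟨X₁, hX₁⟩ := h η hη0 (η * τ / 4) (by positivity)
  obtain ⟨X₂, hX₂⟩ := FMO 2 1 one_pos
  obtain ⟨L, hL1, hL⟩ := UPC_large τ η (1 / η) hτ hη0 hη1
  refine ⟨max (max X₁ X₂) (Real.exp L), fun x hx => ?_⟩
  have hx1 : X₁ ≤ x := ((le_max_left _ _).trans (le_max_left _ _)).trans hx
  have hx2 : X₂ ≤ x := ((le_max_right _ _).trans (le_max_left _ _)).trans hx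
  have hx3 : Real.exp L ≤ x := (le_max_right _ _).trans hx
  have hx0 : 0 < x := (Real.exp_pos L).trans_le hx3
  have hLx : L ≤ Real.log x := (Real.le_log_iff_exp_le hx0).2 hx3
  have h1 := hX₁ x hx1
  have h2 := hX₂ x hx2 0 (⌊τ * (Real.log x) ^ 2⌋₊ : ℤ)
  obtain ⟨Λ, hΛ⟩ : ∃ Λ : ℝ, Λ = Real.log x := ⟨_, rfl⟩
  rw [← hΛ] at h1 h2 hLx ⊢
  obtain ⟨hs, hK⟩ := hL Λ hLx
  have hΛ1 : 1 ≤ Λ := hL1.trans hLx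
  have hΛ0 : 0 < Λ := by linarith
  obtain ⟨ℓ, hℓ⟩ : ∃ ℓ : ℕ, ℓ = ⌊τ * Λ ^ 2⌋₊ := ⟨_, rfl⟩
  obtain ⟨s₀, hs₀⟩ : ∃ s₀ : ℕ, s₀ = ⌈η * τ / 4 * Λ ^ 2⌉₊ := ⟨_, rfl⟩
  rw [← hℓ] at hs hK h2 ⊢
  rw [← hs₀] at hs
  have hℓle : (ℓ : ℝ) ≤ τ * Λ ^ 2 := by rw [hℓ]; exact Nat.floor_le (by positivity)
  have hℓ0 : (0 : ℝ) ≤ ℓ := Nat.cast_nonneg _
  have hs00 : (0 : ℝ) ≤ s₀ := Nat.cast_nonneg _
  have hℓΛ : (ℓ : ℝ) ≤ Λ ^ 2 := by nlinarith [sq_nonneg Λ]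
  have hsℓ : s₀ ≤ ℓ := by
    have : (s₀ : ℝ) ≤ ℓ := by nlinarith
    exact_mod_cast this
  have hs₀t : η * τ / 4 * Λ ^ 2 ≤ s₀ := by rw [hs₀]; exact Nat.le_ceil _
  have h2' := h2 (by simp; positivity)
    (by rw [Int.cast_natCast, abs_of_nonneg hℓ0]; nlinarith [sq_nonneg Λ]) (Int.natCast_nonneg _)
  have hM0 : (0 : ℝ) < (ℓ : ℝ) / Λ := lt_of_lt_of_le (by positivity) hK
  have hw1 : ∑ n ∈ Finset.range (⌊x⌋₊ + 1), (win 0 (ℓ : ℤ) (n : ℤ) : ℝ) ≤ 2 * ((ℓ : ℝ) / Λ * x) := by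
    have := (abs_le.1 h2').2
    push_cast at this
    have e : ((ℓ : ℝ) - 0) * x / Λ = (ℓ : ℝ) / Λ * x := by ring
    rw [e] at this
    linarith
  have hG : Monotone (fun s : ℕ => ∑ d ∈ Finset.Icc 1 s, (cnt x {0, (d : ℤ)} : ℝ)) := by
    intro a b hab
    exact Finset.sum_le_sum_of_subset_of_nonneg (Finset.Icc_subset_Icc_right hab)
      (fun _ _ _ => Nat.cast_nonneg _)
  have hC0 : (0 : ℝ) ≤ (1 + η) * (x / Λ ^ 2) := by positivity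
  have hsum := UPC_sum _ hG ((1 + η) * (x / Λ ^ 2)) hC0 ℓ s₀ 1 hsℓ (by
    intro s h0 h3
    have c1 : (s₀ : ℝ) ≤ s := by exact_mod_cast h0
    have c2 : (s : ℝ) ≤ ℓ := by exact_mod_cast h3
    refine (h1 s (hs₀t.trans c1) (c2.trans hℓΛ)).trans (le_of_eq ?_)
    ring)
  have hpairs := choose_pairs x ℓ
  rw [UPC_abel (fun d => (cnt x {0, (d : ℤ)} : ℝ)) ℓ] at hpairs
  have hsq : ∀ n : ℕ, (win 0 (ℓ : ℤ) (n : ℤ) : ℝ) ^ 2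
      = 2 * ((win 0 (ℓ : ℤ) (n : ℤ)).choose 2 : ℝ) + (win 0 (ℓ : ℤ) (n : ℤ) : ℝ) := by
    intro n
    rw [Nat.cast_choose_two]; ring
  rw [Finset.sum_congr rfl (fun n _ => hsq n), Finset.sum_add_distrib, ← Finset.mul_sum]
  have hp1 := UPC_pow1 ℓ
  have hbig : ∑ n ∈ Finset.range (⌊x⌋₊ + 1), ((win 0 (ℓ : ℤ) (n : ℤ)).choose 2 : ℝ)
      ≤ (1 + η) * (x / Λ ^ 2) * ((ℓ : ℝ) ^ 2 / 2 + ℓ * (η * ℓ)) := by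
    refine hpairs.trans (hsum.trans (mul_le_mul_of_nonneg_left ?_ hC0))
    have : (ℓ : ℝ) * (s₀ : ℝ) ^ 1 ≤ ℓ * (η * ℓ) := by
      rw [pow_one]; exact mul_le_mul_of_nonneg_left hs hℓ0
    linarith
  have he : (1 + η) * (x / Λ ^ 2) * ((ℓ : ℝ) ^ 2 / 2 + ℓ * (η * ℓ))
      = (1 + η) * (1 / 2 + η) * (((ℓ : ℝ) / Λ) ^ 2 * x) := by
    field_simp
  rw [he] at hbig
  obtain ⟨M, hM⟩ : ∃ M : ℝ, M = (ℓ : ℝ) / Λ := ⟨_, rfl⟩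
  rw [← hM] at hbig hw1 hK hM0 ⊢
  have hMη : 1 ≤ M * η := (div_le_iff₀ hη0).1 hK
  have hMx : M * x ≤ η * (M ^ 2 * x) := by
    have : M ≤ M * (M * η) := by nlinarith
    calc M * x ≤ M * (M * η) * x := mul_le_mul_of_nonneg_right this hx0.le
      _ = η * (M ^ 2 * x) := by ring
  have hM2 : 0 ≤ M ^ 2 * x := by positivity
  have hcoef : 2 * ((1 + η) * (1 / 2 + η)) + 2 * η ≤ 1 + δ := by
    have : δ = 10 * η := by rw [hη]; ring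
    rw [this]; nlinarith
  calc 2 * ∑ n ∈ Finset.range (⌊x⌋₊ + 1), ((win 0 (ℓ : ℤ) (n : ℤ)).choose 2 : ℝ)
        + ∑ n ∈ Finset.range (⌊x⌋₊ + 1), (win 0 (ℓ : ℤ) (n : ℤ) : ℝ)
      ≤ 2 * ((1 + η) * (1 / 2 + η) * (M ^ 2 * x)) + 2 * (M * x) := by linarith
    _ ≤ 2 * ((1 + η) * (1 / 2 + η) * (M ^ 2 * x)) + 2 * (η * (M ^ 2 * x)) := by linarith
    _ = (2 * ((1 + η) * (1 / 2 + η)) + 2 * η) * (M ^ 2 * x) := by ring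
    _ ≤ (1 + δ) * (M ^ 2 * x) := mul_le_mul_of_nonneg_right hcoef hM2

theorem A3C (h : A3up) : BaseConc 2 := by
  refine UPC_core 3 (Or.inr rfl) fun τ hτ hτ4 δ hδ hδ1 => ?_
  obtain ⟨η, hη⟩ : ∃ η : ℝ, η = δ / 10 := ⟨_, rfl⟩
  have hη0 : 0 < η := by rw [hη]; positivity
  have hη1 : η ≤ 1 / 10 := by rw [hη]; linarith
  obtain ⟨X₁, hX₁⟩ := h η hη0 (η * τ / 4) (by positivity)
  obtain ⟨L, hL1, hL⟩ := UPC_large τ η (max 1 (54 * (1 / η) ^ 2 / η)) hτ hη0 (by linarith)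
  refine ⟨max X₁ (Real.exp L), fun x hx => ?_⟩
  have hx1 : X₁ ≤ x := (le_max_left _ _).trans hx
  have hx3 : Real.exp L ≤ x := (le_max_right _ _).trans hx
  have hx0 : 0 < x := (Real.exp_pos L).trans_le hx3
  have hLx : L ≤ Real.log x := (Real.le_log_iff_exp_le hx0).2 hx3
  have hx1' : 1 ≤ x := by
    have : (1 : ℝ) ≤ Real.exp L := by
      have := Real.add_one_le_exp L
      linarith
    linarith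
  have h1 := hX₁ x hx1
  obtain ⟨Λ, hΛ⟩ : ∃ Λ : ℝ, Λ = Real.log x := ⟨_, rfl⟩
  rw [← hΛ] at h1 hLx ⊢
  obtain ⟨hs, hK⟩ := hL Λ hLx
  have hΛ1 : 1 ≤ Λ := hL1.trans hLx
  have hΛ0 : 0 < Λ := by linarith
  obtain ⟨ℓ, hℓ⟩ : ∃ ℓ : ℕ, ℓ = ⌊τ * Λ ^ 2⌋₊ := ⟨_, rfl⟩
  obtain ⟨s₀, hs₀⟩ : ∃ s₀ : ℕ, s₀ = ⌈η * τ / 4 * Λ ^ 2⌉₊ := ⟨_, rfl⟩
  rw [← hℓ] at hs hK ⊢
  rw [← hs₀] at hs
  have hℓle : (ℓ : ℝ) ≤ τ * Λ ^ 2 := by rw [hℓ]; exact Nat.floor_le (by positivity)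
  have hℓ0 : (0 : ℝ) ≤ ℓ := Nat.cast_nonneg _
  have hs00 : (0 : ℝ) ≤ s₀ := Nat.cast_nonneg _
  have hℓΛ : (ℓ : ℝ) ≤ Λ ^ 2 := by nlinarith [sq_nonneg Λ]
  have hsℓ : s₀ ≤ ℓ := by
    have : (s₀ : ℝ) ≤ ℓ := by nlinarith
    exact_mod_cast this
  have hs₀t : η * τ / 4 * Λ ^ 2 ≤ s₀ := by rw [hs₀]; exact Nat.le_ceil _
  have hG : Monotone (fun s : ℕ => ∑ d ∈ Finset.Icc 1 s, ∑ d' ∈ Finset.Ico 1 d,
      (cnt x {0, (d' : ℤ), (d : ℤ)} : ℝ)) := by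
    intro a b hab
    exact Finset.sum_le_sum_of_subset_of_nonneg (Finset.Icc_subset_Icc_right hab)
      (fun _ _ _ => Finset.sum_nonneg fun _ _ => Nat.cast_nonneg _)
  have hC0 : (0 : ℝ) ≤ (1 + η) * (x / (2 * Λ ^ 3)) := by positivity
  have hsum := UPC_sum _ hG ((1 + η) * (x / (2 * Λ ^ 3))) hC0 ℓ s₀ 2 hsℓ (by
    intro s h0 h3
    have c1 : (s₀ : ℝ) ≤ s := by exact_mod_cast h0
    have c2 : (s : ℝ) ≤ ℓ := by exact_mod_cast h3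
    refine (h1 s (hs₀t.trans c1) (c2.trans hℓΛ)).trans (le_of_eq ?_)
    field_simp)
  have htr := choose_triples x ℓ
  have htr' : ∑ n ∈ Finset.range (⌊x⌋₊ + 1), ((win 0 (ℓ : ℤ) (n : ℤ)).choose 3 : ℝ)
      ≤ ∑ s ∈ Finset.range ℓ, ∑ d ∈ Finset.Icc 1 s, ∑ d' ∈ Finset.Ico 1 d,
          (cnt x {0, (d' : ℤ), (d : ℤ)} : ℝ) := by
    refine htr.trans (le_of_eq ?_)
    rw [← UPC_abel (fun d => ∑ d' ∈ Finset.Ico 1 d, (cnt x {0, (d' : ℤ), (d : ℤ)} : ℝ)) ℓ]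
    exact Finset.sum_congr rfl fun d _ => by rw [Finset.mul_sum]
  have hp2 := UPC_pow2 ℓ
  have hbig : ∑ n ∈ Finset.range (⌊x⌋₊ + 1), ((win 0 (ℓ : ℤ) (n : ℤ)).choose 3 : ℝ)
      ≤ (1 + η) * (x / (2 * Λ ^ 3)) * ((ℓ : ℝ) ^ 3 / 3 + ℓ * (η * ℓ) ^ 2) := by
    refine htr'.trans (hsum.trans (mul_le_mul_of_nonneg_left ?_ hC0))
    have : (ℓ : ℝ) * (s₀ : ℝ) ^ 2 ≤ ℓ * (η * ℓ) ^ 2 :=
      mul_le_mul_of_nonneg_left (pow_le_pow_left₀ hs00 hs 2) hℓ0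
    linarith
  have he : (1 + η) * (x / (2 * Λ ^ 3)) * ((ℓ : ℝ) ^ 3 / 3 + ℓ * (η * ℓ) ^ 2)
      = (1 + η) * (1 / 6 + η ^ 2 / 2) * (((ℓ : ℝ) / Λ) ^ 3 * x) := by
    field_simp
    ring
  rw [he] at hbig
  obtain ⟨M, hM⟩ : ∃ M : ℝ, M = (ℓ : ℝ) / Λ := ⟨_, rfl⟩
  rw [← hM] at hbig hK ⊢
  have hM1 : 1 ≤ M := (le_max_left _ _).trans hK
  have hM54 : 54 * (1 / η) ^ 2 ≤ M * η := by
    have := (le_max_right _ _).trans hK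
    exact (div_le_iff₀ hη0).1 this
  have hM3 : 0 ≤ M ^ 3 * x := by positivity
  have hMM : M ≤ M ^ 3 := by nlinarith [mul_nonneg (by linarith : (0:ℝ) ≤ M) (by nlinarith : (0:ℝ) ≤ M ^ 2 - 1)]
  have hcube : (1 - η) * ∑ n ∈ Finset.range (⌊x⌋₊ + 1), (win 0 (ℓ : ℤ) (n : ℤ) : ℝ) ^ 3
      ≤ 6 * ∑ n ∈ Finset.range (⌊x⌋₊ + 1), ((win 0 (ℓ : ℤ) (n : ℤ)).choose 3 : ℝ)
        + 27 * (1 / η) ^ 2 * (⌊x⌋₊ + 1) := by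
    rw [Finset.mul_sum, Finset.mul_sum]
    have : (27 * (1 / η) ^ 2 * ((⌊x⌋₊ : ℝ) + 1)) = ∑ n ∈ Finset.range (⌊x⌋₊ + 1), 27 * (1 / η) ^ 2 := by
      rw [Finset.sum_const, Finset.card_range, nsmul_eq_mul]; push_cast; ring
    rw [this, ← Finset.sum_add_distrib]
    refine Finset.sum_le_sum fun n _ => ?_
    have hc := cube_le (win 0 (ℓ : ℤ) (n : ℤ)) (1 / η) (by positivity)
    rwa [one_div_one_div] at hc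
  have hfl : ((⌊x⌋₊ : ℝ) + 1) ≤ 2 * x := by
    have := Nat.floor_le hx0.le
    linarith
  have hT : 27 * (1 / η) ^ 2 * ((⌊x⌋₊ : ℝ) + 1) ≤ η * (M ^ 3 * x) := by
    have d1 : (0 : ℝ) ≤ 27 * (1 / η) ^ 2 := by positivity
    calc 27 * (1 / η) ^ 2 * ((⌊x⌋₊ : ℝ) + 1) ≤ 27 * (1 / η) ^ 2 * (2 * x) :=
          mul_le_mul_of_nonneg_left hfl d1
      _ = 54 * (1 / η) ^ 2 * x := by ring
      _ ≤ M * η * x := mul_le_mul_of_nonneg_right hM54 hx0.le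
      _ ≤ M ^ 3 * η * x := by
          refine mul_le_mul_of_nonneg_right (mul_le_mul_of_nonneg_right hMM hη0.le) hx0.le
      _ = η * (M ^ 3 * x) := by ring
  have hcoef : 6 * ((1 + η) * (1 / 6 + η ^ 2 / 2)) + η ≤ (1 - η) * (1 + δ) := by
    have : δ = 10 * η := by rw [hη]; ring
    rw [this]
    nlinarith [mul_pos hη0 hη0, mul_pos (mul_pos hη0 hη0) hη0]
  have hprod : (1 - η) * ∑ n ∈ Finset.range (⌊x⌋₊ + 1), (win 0 (ℓ : ℤ) (n : ℤ) : ℝ) ^ 3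
      ≤ (1 - η) * ((1 + δ) * (M ^ 3 * x)) := by
    calc (1 - η) * ∑ n ∈ Finset.range (⌊x⌋₊ + 1), (win 0 (ℓ : ℤ) (n : ℤ) : ℝ) ^ 3
        ≤ 6 * ((1 + η) * (1 / 6 + η ^ 2 / 2) * (M ^ 3 * x)) + η * (M ^ 3 * x) := by linarith
      _ = (6 * ((1 + η) * (1 / 6 + η ^ 2 / 2)) + η) * (M ^ 3 * x) := by ring
      _ ≤ (1 - η) * (1 + δ) * (M ^ 3 * x) := mul_le_mul_of_nonneg_right hcoef hM3
      _ = (1 - η) * ((1 + δ) * (M ^ 3 * x)) := by ring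
  exact le_of_mul_le_mul_left hprod (by linarith)

end Pool.Agent.H6.MF
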