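import Pool.Agent.H6.MF.BCA
import Pool.Agent.H6.MF.R2M
import Pool.Agent.H6.MF.R3M
import Pool.Agent.H6.MF.Q1M
import Pool.Agent.H6.MF.UPC
import Pool.Agent.H6.MF.HUP
import Pool.Agent.H6.MF.ROW
import Pool.Agent.H6.MF.M4B

/-!
# ASM: assembly

* `R2a` (`Mean3 → HL2` from `Row 2`): for even `e ∈ [2, Λ^2]` take `H = {0, e}`, `u = 0`, `v = ⌊Λ^2⌋₊`, `D = v` (`t = 1/2`).
  `Row 2`: `|R - (D/Λ) cnt x H| ≤ ε' D S x/Λ^3`; `Mean3`: `|R - (∑ sing) x/Λ^3| ≤ ε' (∑ sing) x/Λ^3`; `SAV` (`k = 2`, `A = 2`):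
  `|∑ sing - D S| ≤ ε' D S`. So `|(D/Λ) cnt x H - D S x/Λ^3| ≤ 4 ε' D S x/Λ^3`; multiply by `Λ/D`.
* `R2b` (`HL2 → Mean3`): the same inequalities for the given `u, v`.
* `R3a` (`HL3 → Mean4` from `Row 3`), `R3b` (`Mean4 → HL3` from `Row 3`): `H = {0,d',d}`, `k = 3`, `A = 3`; in `R3b` take
  `u = 0`, `v = ⌊Λ^3⌋`.
* `main`.
-/

set_option autoImplicit false

namespace Pool.Agent.H6.MF

open Finset

theorem mean3_conc (h : Mean3) : Conc 2 := BC1 2 le_rfl (A3C (M3A h))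

theorem main : (HL3 → HL2) ∧ (Mean3 ↔ HL2) ∧ (HL3 ↔ Mean4) := by
  have h1 : Mean3 → HL2 := fun h => R2a (ROW 2 le_rfl (mean3_conc h)) h
  have h2 : HL2 → Mean3 := fun h => R2b (ROW 2 le_rfl (BC1 2 le_rfl (A2C (H2A h)))) h
  refine ⟨fun h => h1 (Q1M h), ⟨h1, h2⟩, fun h => ?_, fun h => ?_⟩
  · have hb : BaseConc 2 := A3C (M3A (Q1M h))
    exact R3a (ROW 3 (by norm_num) (BC1 3 (by norm_num) (BC2 hb))) h
  · exact R3b (ROW 3 (by norm_num) (BC1 3 (by norm_num) (M4B h))) h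

end Pool.Agent.H6.MF
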