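import Pool.Agent.H6.MF.BCT

/-!
# BCA: from the base windows to all windows; from scale `2` to scale `3`

* `trans_le` (translation). Let `a : ℤ`, `M ≥ 0`. `win a (a + ℓ) n = win 0 ℓ (n - a)` (`win_shift`). If `a ≥ 0`:
  the numbers `m = n - a` run through `[-a, N - a]`; those `< 0` (at most `a` of them) have `win 0 ℓ m = 0`
  (`win_neg`) and contribute `M^2` each, the others are in `[0, N]`. If `a < 0`: the numbers `n - a` run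
  through `[|a|, N + |a|]`, at most `|a|` of them are `> N`, each contributes `≤ (ℓ + M)^2` (`win_le`).
* `BC1`. Given `ε, t` choose an integer `q₀ ≥ 100/ε + 100` and `τ ≤ min (1/4) (t/(2 q₀))`, `ℓ = ⌊τ Λ^k⌋₊`,
  `M₀ = ℓ/Λ`, `q = ⌊(v-u)/ℓ⌋ ≥ q₀`. `Ioc u v` is the union of the `q` blocks `Ioc (u+iℓ) (u+(i+1)ℓ)` and a
  remainder contained in the block `i = q` (`win_add`, `win_mono`). So
  `win u v n - (v-u)/Λ = ∑_{i<q} (w_i - M₀) + (w_rem - M_rem)`, `0 ≤ w_rem ≤ w_q`, `0 ≤ M_rem ≤ M₀`,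
  `(w_rem - M_rem)^2 ≤ 2 w_q^2 + 2 M₀^2 ≤ 4 (w_q - M₀)^2 + 6 M₀^2`. By Cauchy-Schwarz
  `(∑_{q+1 terms})^2 ≤ (q+1) ∑ (...)^2`, so with `V = ∑_{n ≤ N} (win 0 ℓ n - M₀)^2` and `trans_le`
  (`|a| ≤ 4 Λ^k`), `E = 4 Λ^k (ℓ + M₀)^2`:
  `∑_n (win u v n - (v-u)/Λ)^2 ≤ (q+1) (q+4) (V + E) + 6 (q+1) M₀^2 (N+1)`.
  `BaseConc` with `ε/100`: `V ≤ (ε/100) (τ Λ^k/Λ)^2 x ≤ (ε/50) M₀^2 x`; `E ≤ (ε/100) M₀^2 x` for large `x`. As
  `(v-u)/Λ ≥ q M₀` and `q ≥ q₀`, the total is `≤ ε ((v-u)/Λ)^2 x`.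
* `BC2`. Base windows at scale `3`: `ℓ₃ = ⌊τ Λ^3⌋₊`. Use blocks of length `ℓ₂ = ⌊Λ^2/4⌋₊` (`BaseConc 2` with
  `τ = 1/4`): the same computation as for `BC1` with `u = 0`, `v = ℓ₃`, `q = ⌊ℓ₃/ℓ₂⌋ → ∞` (about `4 τ Λ`) and
  `|a| ≤ Λ^3`, `E = Λ^3 (ℓ₂ + M₀)^2`.
  (It is convenient to prove one lemma: for all `x`, `ℓ > 0`, `u ≤ v`, `q = ⌊(v-u)/ℓ⌋`, `|u|, |v| ≤ D`:
  `∑_n (win u v n - (v-u)/Λ)^2 ≤ (q+1) (q+4) (V + 2 D (ℓ + ℓ/Λ)^2) + 6 (q+1) (ℓ/Λ)^2 (N+1)`.)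
-/

set_option autoImplicit false

namespace Pool.Agent.H6.MF

open Finset

theorem BCA_core (ε x D : ℝ) (hε : 0 < ε) (hx : 1 < x) (hL : 1 ≤ Real.log x) (ℓ : ℕ) (hℓ : 0 < ℓ)
    (u v : ℤ) (huv : u ≤ v) (q : ℕ) (hq : (q : ℤ) = (v - u) / ℓ) (hq1 : (100 : ℝ) ≤ q)
    (hq2 : 100 / ε ≤ (q : ℝ)) (hu : |(u : ℝ)| ≤ D) (hv : |(v : ℝ)| ≤ D)
    (hV : ∑ n ∈ Finset.range (⌊x⌋₊ + 1), ((win 0 (ℓ : ℤ) (n : ℤ) : ℝ) - (ℓ : ℝ) / Real.log x) ^ 2
      ≤ ε / 25 * ((ℓ : ℝ) / Real.log x) ^ 2 * x)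
    (hD : 8 * D * (Real.log x) ^ 2 ≤ ε / 100 * x) :
    ∑ n ∈ Finset.range (⌊x⌋₊ + 1), ((win u v (n : ℤ) : ℝ) - ((v : ℝ) - u) / Real.log x) ^ 2
      ≤ ε * (((v : ℝ) - u) / Real.log x) ^ 2 * x := by
  have h0 := blocks_le x hx ℓ hℓ u v huv q hq D hu hv
  refine h0.trans ?_
  set L := Real.log x with hLd
  have hL0 : 0 < L := by linarith
  have hD0 : 0 ≤ D := (abs_nonneg _).trans hu
  have hℓ' : (0 : ℝ) < ℓ := by exact_mod_cast hℓ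
  set M : ℝ := (ℓ : ℝ) / L with hM
  have hM0 : 0 < M := div_pos hℓ' hL0
  have hML : (ℓ : ℝ) = M * L := by rw [hM]; field_simp
  -- the error term
  have h1 : 2 * D * ((ℓ : ℝ) + M) ^ 2 ≤ ε / 100 * M ^ 2 * x := by
    have h2 : (ℓ : ℝ) + M ≤ 2 * (M * L) := by
      rw [hML]
      nlinarith
    have h3 : ((ℓ : ℝ) + M) ^ 2 ≤ (2 * (M * L)) ^ 2 := by
      apply pow_le_pow_left₀ (by positivity) h2
    calc 2 * D * ((ℓ : ℝ) + M) ^ 2 ≤ 2 * D * (2 * (M * L)) ^ 2 := by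
          apply mul_le_mul_of_nonneg_left h3 (by positivity)
      _ = (8 * D * L ^ 2) * M ^ 2 := by ring
      _ ≤ (ε / 100 * x) * M ^ 2 := by
          apply mul_le_mul_of_nonneg_right hD (by positivity)
      _ = ε / 100 * M ^ 2 * x := by ring
  have hq0 : (0 : ℝ) < q := by linarith
  -- q M ≤ W
  have h4 : (q : ℝ) * M ≤ ((v : ℝ) - u) / L := by
    have h5 : (q : ℤ) * ℓ ≤ v - u := by
      rw [hq]
      exact Int.ediv_mul_le _ (by exact_mod_cast hℓ.ne')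
    have h6 : (q : ℝ) * ℓ ≤ (v : ℝ) - u := by exact_mod_cast h5
    rw [hM, ← mul_div_assoc]
    exact div_le_div_of_nonneg_right h6 hL0.le
  have h5 : ((q : ℝ) * M) ^ 2 ≤ (((v : ℝ) - u) / L) ^ 2 := pow_le_pow_left₀ (by positivity) h4 2
  have hx0 : 0 < x := by linarith
  have h6 : ((⌊x⌋₊ : ℝ) + 1) ≤ 2 * x := by
    have := Nat.floor_le hx0.le
    linarith
  have h7 : ((q : ℝ) + 1) * (q + 4) ≤ 2 * (q : ℝ) ^ 2 := by nlinarith
  have h8 : 6 * ((q : ℝ) + 1) * M ^ 2 * ((⌊x⌋₊ : ℝ) + 1) ≤ 24 * q * M ^ 2 * x := by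
    calc 6 * ((q : ℝ) + 1) * M ^ 2 * ((⌊x⌋₊ : ℝ) + 1) ≤ 6 * ((q : ℝ) + 1) * M ^ 2 * (2 * x) := by
          apply mul_le_mul_of_nonneg_left h6 (by positivity)
      _ ≤ 6 * ((q : ℝ) + q) * M ^ 2 * (2 * x) := by
          gcongr
          linarith
      _ = 24 * q * M ^ 2 * x := by ring
  have h9 : 24 * (q : ℝ) ≤ 24 / 100 * ε * (q : ℝ) ^ 2 := by
    have h10 : 100 ≤ ε * q := by
      rw [div_le_iff₀ hε] at hq2
      linarith
    nlinarith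
  have hMx : 0 ≤ M ^ 2 * x := by positivity
  calc ((q : ℝ) + 1) * (q + 4) *
          (∑ n ∈ Finset.range (⌊x⌋₊ + 1), ((win 0 (ℓ : ℤ) (n : ℤ) : ℝ) - M) ^ 2
            + 2 * D * ((ℓ : ℝ) + M) ^ 2)
        + 6 * ((q : ℝ) + 1) * M ^ 2 * ((⌊x⌋₊ : ℝ) + 1)
      ≤ ((q : ℝ) + 1) * (q + 4) * (ε / 25 * M ^ 2 * x + ε / 100 * M ^ 2 * x)
        + 24 * q * M ^ 2 * x := by
        apply add_le_add _ h8
        apply mul_le_mul_of_nonneg_left (add_le_add hV h1) (by positivity)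
    _ ≤ 2 * (q : ℝ) ^ 2 * (ε / 25 * M ^ 2 * x + ε / 100 * M ^ 2 * x) + 24 * q * M ^ 2 * x := by
        apply add_le_add _ le_rfl
        apply mul_le_mul_of_nonneg_right h7
        have : ε / 25 * M ^ 2 * x + ε / 100 * M ^ 2 * x = ε / 20 * (M ^ 2 * x) := by ring
        rw [this]
        positivity
    _ = ε / 10 * (q : ℝ) ^ 2 * (M ^ 2 * x) + 24 * q * (M ^ 2 * x) := by ring
    _ ≤ ε / 10 * (q : ℝ) ^ 2 * (M ^ 2 * x) + 24 / 100 * ε * (q : ℝ) ^ 2 * (M ^ 2 * x) := by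
        apply add_le_add le_rfl
        exact mul_le_mul_of_nonneg_right h9 hMx
    _ ≤ ε * ((q : ℝ) * M) ^ 2 * x := by
        have : ε * ((q : ℝ) * M) ^ 2 * x = ε * (q : ℝ) ^ 2 * (M ^ 2 * x) := by ring
        rw [this]
        have h10 : 0 ≤ ε * (q : ℝ) ^ 2 * (M ^ 2 * x) := by positivity
        nlinarith
    _ ≤ ε * (((v : ℝ) - u) / L) ^ 2 * x := by
        apply mul_le_mul_of_nonneg_right _ hx0.le
        exact mul_le_mul_of_nonneg_left h5 hε.le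

/-- powers of the logarithm are small -/
theorem BCA_log (m : ℕ) (c C : ℝ) (hc : 0 < c) :
    ∃ X : ℝ, ∀ x : ℝ, X ≤ x → C * (Real.log x) ^ m ≤ c * x := by
  have h1 := Real.isLittleO_pow_log_id_atTop (n := m)
  have hC : 0 < |C| + 1 := by positivity
  have h2 := h1.def (show (0 : ℝ) < c / (|C| + 1) by positivity)
  obtain ⟨X, hX⟩ := Filter.eventually_atTop.1 (h2.and (Filter.eventually_ge_atTop (0 : ℝ)))
  refine ⟨X, fun x hx => ?_⟩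
  obtain ⟨h3, h4⟩ := hX x hx
  rw [id, Real.norm_eq_abs, Real.norm_eq_abs, abs_of_nonneg h4] at h3
  calc C * (Real.log x) ^ m ≤ |C * (Real.log x) ^ m| := le_abs_self _
    _ = |C| * |(Real.log x) ^ m| := abs_mul _ _
    _ ≤ (|C| + 1) * |(Real.log x) ^ m| := by
        apply mul_le_mul_of_nonneg_right (by linarith) (abs_nonneg _)
    _ ≤ (|C| + 1) * (c / (|C| + 1) * x) := by
        apply mul_le_mul_of_nonneg_left h3 hC.le
    _ = c * x := by field_simp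

/-- the logarithm is large -/
theorem BCA_large (C : ℝ) : ∃ X : ℝ, ∀ x : ℝ, X ≤ x → 1 < x ∧ C ≤ Real.log x := by
  obtain ⟨X, hX⟩ := Filter.eventually_atTop.1
    ((Real.tendsto_log_atTop.eventually_ge_atTop C).and (Filter.eventually_gt_atTop (1 : ℝ)))
  exact ⟨X, fun x hx => ⟨(hX x hx).2, (hX x hx).1⟩⟩

/-- the variance of the base windows in terms of the length of the window -/
theorem BCA_base (ε x L y V : ℝ) (ℓ : ℕ) (hε : 0 < ε) (hx : 0 < x) (hL : 0 < L) (hy : y < ℓ + 1)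
    (hy1 : 1 ≤ y) (hℓ : 0 < ℓ)
    (h : V ≤ ε / 100 * (y / L) ^ 2 * x) : V ≤ ε / 25 * ((ℓ : ℝ) / L) ^ 2 * x := by
  refine h.trans ?_
  have hℓ' : (1 : ℝ) ≤ ℓ := by exact_mod_cast hℓ
  have h1 : y / L ≤ 2 * ((ℓ : ℝ) / L) := by
    rw [← mul_div_assoc]
    apply div_le_div_of_nonneg_right (by linarith) hL.le
  have h2 : (y / L) ^ 2 ≤ (2 * ((ℓ : ℝ) / L)) ^ 2 := pow_le_pow_left₀ (by positivity) h1 2
  calc ε / 100 * (y / L) ^ 2 * x ≤ ε / 100 * (2 * ((ℓ : ℝ) / L)) ^ 2 * x := by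
        gcongr
    _ = ε / 25 * ((ℓ : ℝ) / L) ^ 2 * x := by ring

theorem BC1 (k : ℕ) (hk : 2 ≤ k) (h : BaseConc k) : Conc k := by
  intro ε hε t ht
  set q₀ : ℕ := ⌈100 / ε⌉₊ + 100 with hq₀
  have hq₀1 : 100 / ε ≤ (q₀ : ℝ) := by
    rw [hq₀]
    push_cast
    have := Nat.le_ceil (100 / ε)
    linarith
  have hq₀2 : (100 : ℝ) ≤ q₀ := by
    rw [hq₀]
    push_cast
    have : (0 : ℝ) ≤ (⌈100 / ε⌉₊ : ℝ) := by positivity
    linarith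
  have hq₀0 : (0 : ℝ) < q₀ := by linarith
  set τ : ℝ := min (1 / 4) (t / q₀) with hτ
  have hτ0 : 0 < τ := lt_min (by norm_num) (div_pos ht hq₀0)
  have hτ1 : τ ≤ 1 / 4 := min_le_left _ _
  have hτ2 : (q₀ : ℝ) * τ ≤ t := by
    have h1 : τ ≤ t / q₀ := min_le_right _ _
    rw [le_div_iff₀ hq₀0] at h1
    linarith
  obtain ⟨X₁, hX₁⟩ := h (ε / 100) (by positivity) τ hτ0 hτ1
  obtain ⟨X₂, hX₂⟩ := BCA_log (k + 2) (ε / 100) 16 (by positivity)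
  obtain ⟨X₃, hX₃⟩ := BCA_large (1 / τ + 1)
  refine ⟨max X₁ (max X₂ X₃), fun x hx u v hu hv huv => ?_⟩
  have hx1 := hX₁ x ((le_max_left _ _).trans hx)
  have hx2 := hX₂ x (((le_max_left _ _).trans (le_max_right _ _)).trans hx)
  obtain ⟨hx3, hx4⟩ := hX₃ x (((le_max_right _ _).trans (le_max_right _ _)).trans hx)
  have hτ3 : 0 < 1 / τ := by positivity
  have hL1 : 1 ≤ Real.log x := by linarith
  have hL0 : 0 < Real.log x := by linarith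
  have hx0 : 0 < x := by linarith
  have hLk : Real.log x ≤ (Real.log x) ^ k := by
    calc Real.log x = (Real.log x) ^ 1 := (pow_one _).symm
      _ ≤ (Real.log x) ^ k := pow_le_pow_right₀ hL1 (by omega)
  have hy1 : 1 ≤ τ * (Real.log x) ^ k := by
    have h1 : 1 / τ ≤ (Real.log x) ^ k := by linarith
    rw [div_le_iff₀ hτ0] at h1
    linarith
  set ℓ : ℕ := ⌊τ * (Real.log x) ^ k⌋₊ with hℓ
  have hℓ1 : 0 < ℓ := Nat.floor_pos.2 hy1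
  have hℓ2 : (ℓ : ℝ) ≤ τ * (Real.log x) ^ k := Nat.floor_le (by positivity)
  have hℓ3 : τ * (Real.log x) ^ k < ℓ + 1 := Nat.lt_floor_add_one _
  have hLk0 : 0 < (Real.log x) ^ k := by positivity
  have huv1 : (0 : ℝ) < (v : ℝ) - u := lt_of_lt_of_le (by positivity) huv
  have huv2 : u ≤ v := by
    have : (u : ℝ) ≤ v := by linarith
    exact_mod_cast this
  have hqq : ((q₀ : ℤ)) ≤ (v - u) / ℓ := by
    apply Int.le_ediv_of_mul_le (by exact_mod_cast hℓ1)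
    have h1 : (q₀ : ℝ) * ℓ ≤ (v : ℝ) - u := by
      calc (q₀ : ℝ) * ℓ ≤ q₀ * (τ * (Real.log x) ^ k) := by gcongr
        _ = (q₀ * τ) * (Real.log x) ^ k := by ring
        _ ≤ t * (Real.log x) ^ k := by gcongr
        _ ≤ (v : ℝ) - u := huv
    exact_mod_cast h1
  obtain ⟨q, hq⟩ := Int.eq_ofNat_of_zero_le (a := (v - u) / ℓ) (by omega)
  have hq3 : q₀ ≤ q := by
    rw [hq] at hqq
    exact_mod_cast hqq
  have hq4 : (q₀ : ℝ) ≤ q := by exact_mod_cast hq3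
  refine BCA_core ε x (2 * (Real.log x) ^ k) hε hx3 hL1 ℓ hℓ1 u v huv2 q hq.symm
    (by linarith) (by linarith) hu hv ?_ ?_
  · exact BCA_base ε x (Real.log x) _ _ ℓ hε hx0 hL0 hℓ3 hy1 hℓ1 hx1
  · calc 8 * (2 * (Real.log x) ^ k) * (Real.log x) ^ 2 = 16 * (Real.log x) ^ (k + 2) := by ring
      _ ≤ ε / 100 * x := hx2

theorem BC2 (h : BaseConc 2) : BaseConc 3 := by
  intro ε hε τ hτ0 hτ1
  set q₀ : ℕ := ⌈100 / ε⌉₊ + 100 with hq₀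
  have hq₀1 : 100 / ε ≤ (q₀ : ℝ) := by
    rw [hq₀]
    push_cast
    have := Nat.le_ceil (100 / ε)
    linarith
  have hq₀2 : (100 : ℝ) ≤ q₀ := by
    rw [hq₀]
    push_cast
    have : (0 : ℝ) ≤ (⌈100 / ε⌉₊ : ℝ) := by positivity
    linarith
  have hq₀0 : (0 : ℝ) < q₀ := by linarith
  obtain ⟨X₁, hX₁⟩ := h (ε / 100) (by positivity) (1 / 4) (by norm_num) le_rfl
  obtain ⟨X₂, hX₂⟩ := BCA_log 5 (ε / 100) 8 (by positivity)
  obtain ⟨X₃, hX₃⟩ := BCA_large (q₀ / τ + 4)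
  refine ⟨max X₁ (max X₂ X₃), fun x hx => ?_⟩
  have hx1 := hX₁ x ((le_max_left _ _).trans hx)
  have hx2 := hX₂ x (((le_max_left _ _).trans (le_max_right _ _)).trans hx)
  obtain ⟨hx3, hx4⟩ := hX₃ x (((le_max_right _ _).trans (le_max_right _ _)).trans hx)
  have hqτ : 0 < (q₀ : ℝ) / τ := by positivity
  have hL4 : 4 ≤ Real.log x := by linarith
  have hL1 : 1 ≤ Real.log x := by linarith
  have hL0 : 0 < Real.log x := by linarith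
  have hx0 : 0 < x := by linarith
  have hτL : (q₀ : ℝ) ≤ τ * Real.log x := by
    have h1 : (q₀ : ℝ) / τ ≤ Real.log x := by linarith
    rw [div_le_iff₀ hτ0] at h1
    linarith
  have hy1 : 1 ≤ 1 / 4 * (Real.log x) ^ 2 := by nlinarith
  set ℓ : ℕ := ⌊1 / 4 * (Real.log x) ^ 2⌋₊ with hℓ
  have hℓ1 : 0 < ℓ := Nat.floor_pos.2 hy1
  have hℓ2 : (ℓ : ℝ) ≤ 1 / 4 * (Real.log x) ^ 2 := Nat.floor_le (by positivity)
  have hℓ3 : 1 / 4 * (Real.log x) ^ 2 < ℓ + 1 := Nat.lt_floor_add_one _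
  set m : ℕ := ⌊τ * (Real.log x) ^ 3⌋₊ with hm
  have hm2 : (m : ℝ) ≤ τ * (Real.log x) ^ 3 := Nat.floor_le (by positivity)
  have hm3 : τ * (Real.log x) ^ 3 < m + 1 := Nat.lt_floor_add_one _
  have hqq : ((q₀ : ℤ)) ≤ ((m : ℤ) - 0) / ℓ := by
    apply Int.le_ediv_of_mul_le (by exact_mod_cast hℓ1)
    have h1 : (q₀ : ℝ) * ℓ ≤ (m : ℝ) - 0 := by
      have h2 : (1 : ℝ) ≤ (Real.log x) ^ 2 := by nlinarith
      calc (q₀ : ℝ) * ℓ ≤ (τ * Real.log x) * (1 / 4 * (Real.log x) ^ 2) := by gcongr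
        _ ≤ (m : ℝ) - 0 := by
          have h3 : 100 * 1 ≤ (τ * Real.log x) * (Real.log x) ^ 2 :=
            mul_le_mul (by linarith) h2 (by norm_num) (by positivity)
          have h4 : τ * (Real.log x) ^ 3 = (τ * Real.log x) * (Real.log x) ^ 2 := by ring
          linarith
    exact_mod_cast h1
  obtain ⟨q, hq⟩ := Int.eq_ofNat_of_zero_le (a := ((m : ℤ) - 0) / ℓ) (by omega)
  have hq3 : q₀ ≤ q := by
    rw [hq] at hqq
    exact_mod_cast hqq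
  have hq4 : (q₀ : ℝ) ≤ q := by exact_mod_cast hq3
  have hD : |((m : ℤ) : ℝ)| ≤ (Real.log x) ^ 3 := by
    rw [Int.cast_natCast, abs_of_nonneg (by positivity)]
    refine hm2.trans ?_
    have : 0 < (Real.log x) ^ 3 := by positivity
    nlinarith
  have hmain := BCA_core ε x ((Real.log x) ^ 3) hε hx3 hL1 ℓ hℓ1 0 m (by positivity) q hq.symm
    (by linarith) (by linarith) (by simp only [Int.cast_zero, abs_zero]; positivity) hD
    (BCA_base ε x (Real.log x) _ _ ℓ hε hx0 hL0 hℓ3 hy1 hℓ1 hx1)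
    (by
      calc 8 * (Real.log x) ^ 3 * (Real.log x) ^ 2 = 8 * (Real.log x) ^ 5 := by ring
        _ ≤ ε / 100 * x := hx2)
  have h1 : (((m : ℤ) : ℝ) - ((0 : ℤ) : ℝ)) = (m : ℝ) := by simp
  rw [h1] at hmain
  refine hmain.trans ?_
  have h2 : (m : ℝ) / Real.log x ≤ τ * (Real.log x) ^ 3 / Real.log x :=
    div_le_div_of_nonneg_right hm2 hL0.le
  gcongr

end Pool.Agent.H6.MF
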