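import Pool.Agent.H6.MF.BAS
import Pool.Agent.H6.MF.FMO

/-!
# BCT: translation and decomposition of windows (`trans_le`, `blocks_le`; the header is shared with BCA.lean)

* `trans_le` (translation). Let `a : ℤ`, `M ≥ 0`. `win a (a + ℓ) n = win 0 ℓ (n - a)` (`win_shift`). If `a ≥ 0`:
  the numbers `m = n - a` run through `[-a, N - a]`; those `< 0` (at most `a` of them) have `win 0 ℓ m = 0`
  (`win_neg`) and contribute `M^2` each, the others are in `[0, N]`. If `a < 0`: the numbers `n - a` run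
  through `[|a|, N + |a|]`, at most `|a|` of them are `> N`, each contributes `≤ (ℓ + M)^2` (`win_le`).
* `BC1`. Given `ε, t` choose an integer `q₀ ≥ 100/ε + 100` and `τ ≤ min (1/4) (t/(2 q₀))`, `ℓ = ⌊τ Λ^k⌋₊`,
  `M₀ = ℓ/Λ`, `q = ⌊(v-u)/ℓ⌋ ≥ q₀`. `Ioc u v` is the union of the `q` blocks `Ioc (u+iℓ) (u+(i+1)ℓ)` and a
  remainder contained in the block `i = q` (`win_add`, `win_mono`). So
  `win u v n - (v-u)/Λ = ∑_{i<q} (w_i - M₀) + (w_rem - M_rem)`, `0 ≤ w_rem ≤ w_q`, `0 ≤ M_rem ≤ M₀`,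
  `(w_rem - M_rem)^2 ≤ 2 w_q^2 + 2 M₀^2 ≤ 4 (w_q - M₀)^2 + 6 M₀^2`. By Cauchy-Schwarz
  `(∑_{q+1 terms})^2 ≤ (q+1) ∑ (...)^2`, so with `V = ∑_{n ≤ N} (win 0 ℓ n - M₀)^2` and `trans_le`
  (`|a| ≤ 4 Λ^k`), `E = 4 Λ^k (ℓ + M₀)^2`:
  `∑_n (win u v n - (v-u)/Λ)^2 ≤ (q+1) (q+4) (V + E) + 6 (q+1) M₀^2 (N+1)`.
  `BaseConc` with `ε/100`: `V ≤ (ε/100) (τ Λ^k/Λ)^2 x ≤ (ε/50) M₀^2 x`; `E ≤ (ε/100) M₀^2 x` for large `x`. As
  `(v-u)/Λ ≥ q M₀` and `q ≥ q₀`, the total is `≤ ε ((v-u)/Λ)^2 x`.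
* `BC2`. Base windows at scale `3`: `ℓ₃ = ⌊τ Λ^3⌋₊`. Use blocks of length `ℓ₂ = ⌊Λ^2/4⌋₊` (`BaseConc 2` with
  `τ = 1/4`): the same computation as for `BC1` with `u = 0`, `v = ℓ₃`, `q = ⌊ℓ₃/ℓ₂⌋ → ∞` (about `4 τ Λ`) and
  `|a| ≤ Λ^3`, `E = Λ^3 (ℓ₂ + M₀)^2`.
  (It is convenient to prove one lemma: for all `x`, `ℓ > 0`, `u ≤ v`, `q = ⌊(v-u)/ℓ⌋`, `|u|, |v| ≤ D`:
  `∑_n (win u v n - (v-u)/Λ)^2 ≤ (q+1) (q+4) (V + 2 D (ℓ + ℓ/Λ)^2) + 6 (q+1) (ℓ/Λ)^2 (N+1)`.)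
-/

set_option autoImplicit false

namespace Pool.Agent.H6.MF

open Finset

theorem BCT_shift_sum (N : ℕ) (a : ℤ) (F : ℤ → ℝ) :
    ∑ n ∈ Finset.range (N + 1), F ((n : ℤ) - a) = ∑ m ∈ Finset.Icc (-a) ((N : ℤ) - a), F m := by
  refine sum_nbij' (fun n => (n : ℤ) - a) (fun m => (m + a).toNat) ?_ ?_ ?_ ?_ ?_
  · intro n hn
    rw [mem_range] at hn
    rw [mem_Icc]
    omega
  · intro m hm
    rw [mem_Icc] at hm
    rw [mem_range]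
    omega
  · intro n _
    simp
  · intro m hm
    rw [mem_Icc] at hm
    have h1 : 0 ≤ m + a := by omega
    show (((m + a).toNat : ℕ) : ℤ) - a = m
    rw [Int.toNat_of_nonneg h1]
    ring
  · intro n _
    rfl

theorem BCT_sq_le (ℓ : ℕ) (M : ℝ) (hM : 0 ≤ M) (m : ℤ) :
    ((win 0 (ℓ : ℤ) m : ℝ) - M) ^ 2 ≤ ((ℓ : ℝ) + M) ^ 2 := by
  have h1 : win 0 (ℓ : ℤ) m ≤ ℓ := by
    have := win_le 0 (ℓ : ℤ) m
    simpa using this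
  have h2 : (win 0 (ℓ : ℤ) m : ℝ) ≤ ℓ := by exact_mod_cast h1
  have h3 : (0 : ℝ) ≤ (win 0 (ℓ : ℤ) m : ℝ) := Nat.cast_nonneg _
  have h4 : (0 : ℝ) ≤ (ℓ : ℝ) := Nat.cast_nonneg _
  exact sq_le_sq' (by linarith) (by linarith)

theorem BCT_card (N : ℕ) (a : ℤ) :
    (((Finset.Icc (-a) ((N : ℤ) - a) \ Finset.Icc 0 (N : ℤ)).card : ℕ) : ℝ) ≤ |(a : ℝ)| := by
  rcases le_or_gt 0 a with ha | ha
  · have h1 : Finset.Icc (-a) ((N : ℤ) - a) \ Finset.Icc 0 (N : ℤ) ⊆ Finset.Ico (-a) 0 := by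
      intro m hm
      rw [mem_sdiff, mem_Icc, mem_Icc] at hm
      rw [mem_Ico]
      omega
    have h2 := card_le_card h1
    rw [Int.card_Ico] at h2
    have h3 : ((Finset.Icc (-a) ((N : ℤ) - a) \ Finset.Icc 0 (N : ℤ)).card : ℤ) ≤ a := by
      omega
    have h4 : (((Finset.Icc (-a) ((N : ℤ) - a) \ Finset.Icc 0 (N : ℤ)).card : ℕ) : ℝ) ≤ (a : ℝ) := by
      exact_mod_cast h3
    exact h4.trans (le_abs_self _)
  · have h1 : Finset.Icc (-a) ((N : ℤ) - a) \ Finset.Icc 0 (N : ℤ) ⊆ Finset.Ioc (N : ℤ) ((N : ℤ) - a) := by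
      intro m hm
      rw [mem_sdiff, mem_Icc, mem_Icc] at hm
      rw [mem_Ioc]
      omega
    have h2 := card_le_card h1
    rw [Int.card_Ioc] at h2
    have h3 : ((Finset.Icc (-a) ((N : ℤ) - a) \ Finset.Icc 0 (N : ℤ)).card : ℤ) ≤ -a := by
      omega
    have h4 : (((Finset.Icc (-a) ((N : ℤ) - a) \ Finset.Icc 0 (N : ℤ)).card : ℕ) : ℝ) ≤ -(a : ℝ) := by
      exact_mod_cast h3
    exact h4.trans (neg_le_abs _)

theorem trans_le (x : ℝ) (a : ℤ) (ℓ : ℕ) (M : ℝ) (hM : 0 ≤ M) :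
    ∑ n ∈ Finset.range (⌊x⌋₊ + 1), ((win a (a + ℓ) (n : ℤ) : ℝ) - M) ^ 2
      ≤ ∑ n ∈ Finset.range (⌊x⌋₊ + 1), ((win 0 (ℓ : ℤ) (n : ℤ) : ℝ) - M) ^ 2 + |(a : ℝ)| * ((ℓ : ℝ) + M) ^ 2 := by
  set N := ⌊x⌋₊
  set F : ℤ → ℝ := fun m => ((win 0 (ℓ : ℤ) m : ℝ) - M) ^ 2 with hF
  have h1 : ∑ n ∈ Finset.range (N + 1), ((win a (a + ℓ) (n : ℤ) : ℝ) - M) ^ 2
      = ∑ m ∈ Finset.Icc (-a) ((N : ℤ) - a), F m := by
    rw [← BCT_shift_sum N a F]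
    refine sum_congr rfl fun n _ => ?_
    have h := win_shift 0 (ℓ : ℤ) ((n : ℤ) - a) a
    rw [zero_add, sub_add_cancel, add_comm (ℓ : ℤ) a] at h
    rw [hF, h]
  have h2 : ∑ n ∈ Finset.range (N + 1), ((win 0 (ℓ : ℤ) (n : ℤ) : ℝ) - M) ^ 2
      = ∑ m ∈ Finset.Icc 0 (N : ℤ), F m := by
    have h := BCT_shift_sum N 0 F
    simp only [sub_zero, neg_zero] at h
    rw [← h]
  have hFn : ∀ m, 0 ≤ F m := fun m => sq_nonneg _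
  have hFl : ∀ m, F m ≤ ((ℓ : ℝ) + M) ^ 2 := fun m => BCT_sq_le ℓ M hM m
  rw [h1, h2]
  have h3 : ∑ m ∈ Finset.Icc (-a) ((N : ℤ) - a), F m
      = ∑ m ∈ Finset.Icc (-a) ((N : ℤ) - a) ∩ Finset.Icc 0 (N : ℤ), F m
        + ∑ m ∈ Finset.Icc (-a) ((N : ℤ) - a) \ Finset.Icc 0 (N : ℤ), F m :=
    (sum_inter_add_sum_sdiff _ _ _).symm
  rw [h3]
  have h4 : ∑ m ∈ Finset.Icc (-a) ((N : ℤ) - a) ∩ Finset.Icc 0 (N : ℤ), F m
      ≤ ∑ m ∈ Finset.Icc 0 (N : ℤ), F m :=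
    sum_le_sum_of_subset_of_nonneg inter_subset_right fun m _ _ => hFn m
  have h5 : ∑ m ∈ Finset.Icc (-a) ((N : ℤ) - a) \ Finset.Icc 0 (N : ℤ), F m
      ≤ |(a : ℝ)| * ((ℓ : ℝ) + M) ^ 2 := by
    refine (sum_le_card_nsmul _ _ _ fun m _ => hFl m).trans ?_
    rw [nsmul_eq_mul]
    exact mul_le_mul_of_nonneg_right (BCT_card N a) (sq_nonneg _)
  exact add_le_add h4 h5

theorem BCT_win_sum (u : ℤ) (ℓ : ℕ) (n : ℤ) (q : ℕ) :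
    win u (u + (q : ℤ) * ℓ) n = ∑ i ∈ Finset.range q, win (u + (i : ℤ) * ℓ) (u + (i : ℤ) * ℓ + ℓ) n := by
  induction q with
  | zero =>
    simp [win]
  | succ q ih =>
    rw [sum_range_succ, ← ih]
    have h1 : u + ((q + 1 : ℕ) : ℤ) * ℓ = u + (q : ℤ) * ℓ + ℓ := by push_cast; ring
    rw [h1]
    refine win_add ?_ ?_ n
    · have : (0 : ℤ) ≤ (q : ℤ) * ℓ := by positivity
      omega
    · have : (0 : ℤ) ≤ (ℓ : ℤ) := by positivity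
      omega

/-- the pointwise inequality -/
theorem BCT_point (L : ℝ) (hL : 0 < L) (ℓ : ℕ) (hℓ : 0 < ℓ) (u v : ℤ) (huv : u ≤ v) (q : ℕ)
    (hq : (q : ℤ) = (v - u) / ℓ) (n : ℤ) :
    ((win u v n : ℝ) - ((v : ℝ) - u) / L) ^ 2
      ≤ ((q : ℝ) + 1) * (∑ i ∈ Finset.range q,
            ((win (u + (i : ℤ) * ℓ) (u + (i : ℤ) * ℓ + ℓ) n : ℝ) - (ℓ : ℝ) / L) ^ 2
          + (2 * ((win (u + (q : ℤ) * ℓ) (u + (q : ℤ) * ℓ + ℓ) n : ℝ) - (ℓ : ℝ) / L) ^ 2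
            + 3 * ((ℓ : ℝ) / L) ^ 2)) := by
  have hℓ' : (0 : ℤ) < ℓ := by exact_mod_cast hℓ
  have hq1 : (q : ℤ) * ℓ ≤ v - u := by
    rw [hq]
    exact Int.ediv_mul_le _ hℓ'.ne'
  have hq2 : v - u < (q : ℤ) * ℓ + ℓ := by
    have := Int.lt_ediv_add_one_mul_self (v - u) hℓ'
    rw [← hq] at this
    linarith
  set W : ℕ → ℝ := fun i => (win (u + (i : ℤ) * ℓ) (u + (i : ℤ) * ℓ + ℓ) n : ℝ) with hW
  set R : ℝ := (win (u + (q : ℤ) * ℓ) v n : ℝ) with hR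
  set M : ℝ := (ℓ : ℝ) / L with hMd
  set ρ : ℝ := ((v : ℝ) - u - q * ℓ) / L with hρ
  have hdec : (win u v n : ℝ) = ∑ i ∈ Finset.range q, W i + R := by
    have h1 := win_add (u := u) (v := u + (q : ℤ) * ℓ) (w := v)
      (by have : (0 : ℤ) ≤ (q : ℤ) * ℓ := by positivity
          omega) (by omega) n
    rw [h1, BCT_win_sum]
    push_cast
    rfl
  have hM0 : 0 ≤ M := by positivity
  have hρ0 : 0 ≤ ρ := by
    apply div_nonneg _ hL.le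
    have : ((q : ℤ) * ℓ : ℝ) ≤ ((v - u : ℤ) : ℝ) := by exact_mod_cast hq1
    push_cast at this
    linarith
  have hρ1 : ρ ≤ M := by
    apply div_le_div_of_nonneg_right _ hL.le
    have : ((v - u : ℤ) : ℝ) < ((q : ℤ) * ℓ + ℓ : ℝ) := by exact_mod_cast hq2
    push_cast at this
    linarith
  have hR0 : 0 ≤ R := Nat.cast_nonneg _
  have hR1 : R ≤ W q := by
    have h9 := win_mono (n := n) (le_refl (u + (q : ℤ) * ℓ)) (show v ≤ u + (q : ℤ) * ℓ + ℓ by omega)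
    exact Nat.cast_le.2 h9
  have hdiff : (win u v n : ℝ) - ((v : ℝ) - u) / L
      = ∑ i ∈ Finset.range q, (W i - M) + (R - ρ) := by
    rw [hdec, sum_sub_distrib, sum_const, card_range, nsmul_eq_mul, hρ, hMd]
    field_simp
    ring
  have hlast : (R - ρ) ^ 2 ≤ 2 * (W q - M) ^ 2 + 3 * M ^ 2 := by
    have h1 : (R - ρ) ^ 2 ≤ W q ^ 2 + M ^ 2 := by nlinarith
    nlinarith [sq_nonneg (W q - 2 * M)]
  have hcs : (∑ i ∈ Finset.range q, (W i - M) + (R - ρ)) ^ 2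
      ≤ ((q : ℝ) + 1) * (∑ i ∈ Finset.range q, (W i - M) ^ 2 + (R - ρ) ^ 2) := by
    have h := sq_sum_le_card_mul_sum_sq (s := Finset.range (q + 1))
      (f := fun i => if i < q then W i - M else R - ρ)
    rw [sum_range_succ, sum_range_succ, card_range] at h
    simp only [lt_irrefl, if_false] at h
    have e1 : ∑ i ∈ Finset.range q, (if i < q then W i - M else R - ρ)
        = ∑ i ∈ Finset.range q, (W i - M) :=
      sum_congr rfl fun i hi => if_pos (mem_range.1 hi)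
    have e2 : ∑ i ∈ Finset.range q, (if i < q then W i - M else R - ρ) ^ 2
        = ∑ i ∈ Finset.range q, (W i - M) ^ 2 :=
      sum_congr rfl fun i hi => by rw [if_pos (mem_range.1 hi)]
    rw [e1, e2] at h
    push_cast at h
    exact h
  rw [hdiff]
  refine hcs.trans ?_
  have hq0 : (0 : ℝ) ≤ (q : ℝ) + 1 := by positivity
  exact mul_le_mul_of_nonneg_left (add_le_add le_rfl hlast) hq0

theorem blocks_le (x : ℝ) (hx : 1 < x) (ℓ : ℕ) (hℓ : 0 < ℓ) (u v : ℤ) (huv : u ≤ v) (q : ℕ)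
    (hq : (q : ℤ) = (v - u) / ℓ) (D : ℝ) (hu : |(u : ℝ)| ≤ D) (hv : |(v : ℝ)| ≤ D) :
    ∑ n ∈ Finset.range (⌊x⌋₊ + 1), ((win u v (n : ℤ) : ℝ) - ((v : ℝ) - u) / Real.log x) ^ 2
      ≤ ((q : ℝ) + 1) * (q + 4) *
          (∑ n ∈ Finset.range (⌊x⌋₊ + 1), ((win 0 (ℓ : ℤ) (n : ℤ) : ℝ) - (ℓ : ℝ) / Real.log x) ^ 2
            + 2 * D * ((ℓ : ℝ) + (ℓ : ℝ) / Real.log x) ^ 2)
        + 6 * ((q : ℝ) + 1) * ((ℓ : ℝ) / Real.log x) ^ 2 * ((⌊x⌋₊ : ℝ) + 1) := by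
  have hL : 0 < Real.log x := Real.log_pos hx
  have hℓ' : (0 : ℤ) < ℓ := by exact_mod_cast hℓ
  have hq1 : (q : ℤ) * ℓ ≤ v - u := by
    rw [hq]
    exact Int.ediv_mul_le _ hℓ'.ne'
  set L := Real.log x
  set N := ⌊x⌋₊
  set M : ℝ := (ℓ : ℝ) / L with hMd
  have hM0 : 0 ≤ M := by positivity
  set V : ℝ := ∑ n ∈ Finset.range (N + 1), ((win 0 (ℓ : ℤ) (n : ℤ) : ℝ) - M) ^ 2 with hV
  set E : ℝ := ((ℓ : ℝ) + M) ^ 2 with hE
  have hV0 : 0 ≤ V := sum_nonneg fun _ _ => sq_nonneg _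
  have hE0 : 0 ≤ E := sq_nonneg _
  have hD0 : 0 ≤ D := (abs_nonneg _).trans hu
  have hS : ∀ i : ℕ, i ≤ q → ∑ n ∈ Finset.range (N + 1),
      ((win (u + (i : ℤ) * ℓ) (u + (i : ℤ) * ℓ + ℓ) (n : ℤ) : ℝ) - M) ^ 2 ≤ V + D * E := by
    intro i hi
    refine (trans_le x (u + (i : ℤ) * ℓ) ℓ M hM0).trans ?_
    have h1 : |((u + (i : ℤ) * ℓ : ℤ) : ℝ)| ≤ D := by
      have h2 : (0 : ℤ) ≤ (i : ℤ) * ℓ := by positivity
      have h3 : (i : ℤ) * ℓ ≤ (q : ℤ) * ℓ := by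
        have : (i : ℤ) ≤ q := by exact_mod_cast hi
        exact mul_le_mul_of_nonneg_right this hℓ'.le
      have h4 : u ≤ u + (i : ℤ) * ℓ := by omega
      have h5 : u + (i : ℤ) * ℓ ≤ v := by omega
      have h4' : (u : ℝ) ≤ ((u + (i : ℤ) * ℓ : ℤ) : ℝ) := by exact_mod_cast h4
      have h5' : ((u + (i : ℤ) * ℓ : ℤ) : ℝ) ≤ (v : ℝ) := by exact_mod_cast h5
      rw [abs_le] at hu hv ⊢
      constructor <;> linarith [hu.1, hu.2, hv.1, hv.2]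
    have h6 := mul_le_mul_of_nonneg_right h1 hE0
    exact add_le_add le_rfl h6
  have hmain : ∑ n ∈ Finset.range (N + 1), ((win u v (n : ℤ) : ℝ) - ((v : ℝ) - u) / L) ^ 2
      ≤ ((q : ℝ) + 1) * ((q : ℝ) * (V + D * E) + (2 * (V + D * E) + 3 * M ^ 2 * ((N : ℝ) + 1))) := by
    have hpt : ∀ n ∈ Finset.range (N + 1), ((win u v (n : ℤ) : ℝ) - ((v : ℝ) - u) / L) ^ 2 ≤ _ :=
      fun n _ => BCT_point L hL ℓ hℓ u v huv q hq (n : ℤ)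
    refine (sum_le_sum hpt).trans ?_
    rw [← mul_sum]
    refine mul_le_mul_of_nonneg_left ?_ (by positivity)
    rw [sum_add_distrib, sum_comm, sum_add_distrib, ← mul_sum, sum_const, card_range, nsmul_eq_mul]
    refine add_le_add ?_ (add_le_add ?_ ?_)
    · refine (sum_le_card_nsmul _ _ (V + D * E) fun i hi => hS i (mem_range.1 hi).le).trans ?_
      rw [card_range, nsmul_eq_mul]
    · exact mul_le_mul_of_nonneg_left (hS q le_rfl) (by norm_num)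
    · push_cast
      apply le_of_eq
      ring
  refine hmain.trans ?_
  have hq0 : (0 : ℝ) ≤ (q : ℝ) := Nat.cast_nonneg _
  have hN0 : (0 : ℝ) ≤ (N : ℝ) := Nat.cast_nonneg _
  have hDE : 0 ≤ D * E := mul_nonneg hD0 hE0
  have hMN : 0 ≤ M ^ 2 * ((N : ℝ) + 1) := by positivity
  have e1 : ((q : ℝ) + 1) * ((q : ℝ) * (V + D * E) + (2 * (V + D * E) + 3 * M ^ 2 * ((N : ℝ) + 1)))
      = ((q : ℝ) + 1) * (q + 2) * (V + D * E) + 3 * ((q : ℝ) + 1) * (M ^ 2 * ((N : ℝ) + 1)) := by ring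
  have e2 : ((q : ℝ) + 1) * (q + 4) * (V + 2 * D * E) + 6 * ((q : ℝ) + 1) * M ^ 2 * ((N : ℝ) + 1)
      = ((q : ℝ) + 1) * (q + 4) * (V + 2 * (D * E)) + 6 * ((q : ℝ) + 1) * (M ^ 2 * ((N : ℝ) + 1)) := by ring
  rw [e1, e2]
  have i1 : ((q : ℝ) + 1) * (q + 2) * (V + D * E) ≤ ((q : ℝ) + 1) * (q + 4) * (V + 2 * (D * E)) := by
    have h7 : ((q : ℝ) + 1) * (q + 2) ≤ ((q : ℝ) + 1) * (q + 4) :=
      mul_le_mul_of_nonneg_left (by linarith) (by linarith)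
    exact mul_le_mul h7 (by linarith) (by linarith) (by positivity)
  have i2 : 3 * ((q : ℝ) + 1) * (M ^ 2 * ((N : ℝ) + 1)) ≤ 6 * ((q : ℝ) + 1) * (M ^ 2 * ((N : ℝ) + 1)) :=
    mul_le_mul_of_nonneg_right (by linarith) hMN
  exact add_le_add i1 i2

end Pool.Agent.H6.MF
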