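import Pool.Agent.H6.MF.TSE
import Pool.Agent.H6.MF.GLK
import Pool.Agent.H6.MF.SNG

/-!
# DEN: `denom_lower` (the header is shared with SIE.lean)

Generalisation of `Op_hf_lower` and `pi3_upper` of `Pool/Agent/H17/UpperMain.lean` (any constant `C` is
good enough here, so choose fixed parameters: `z = ⌊x^(1/4)⌋₊`, `y` a constant with `k^2/y ≤ 1/2`).

Let `H ⊆ ℤ`, `k = |H|`, `|h| ≤ Λ^A`. Let `M = max H` and `K = {M - h : h ∈ H} ⊆ ℕ` (all `≤ 2 Λ^A`), `0 ∈ K`.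
If `n ≤ N = ⌊x⌋₊` and all `n - h` are prime then `m = n - M` is prime, `m ≥ 1`, `m ≤ N + Λ^A` and
`m + (M - h) = n - h`; so `cnt x H ≤ #{1 ≤ m ≤ N' : m + h' prime for all h' ∈ K}`, `N' = N + ⌈Λ^A⌉₊ ≤ 2 x`.
`h ↦ M - h` maps classes mod `p` bijectively, so `nuH H p` is the number of classes of `K` mod `p`
(admissibility and all local factors agree).

*Lower bound for the denominator.* `G = Op (PP z) (hfK K) one1 z`. Let `Δ = ∏_{h' ≠ h'' ∈ K, h' < h''} (h'' - h')`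
(`≠ 0`, `≤ (2 Λ^A)^(k^2)`), `S₁ = (Δ · WW y).primeFactors` (all primes `≤ y` and all `p ∣ Δ`; they are `≤ z`),
`S₂ = PP z \ S₁`. For `p ∈ S₂`: `ν = k`, so `hfK K p = (k/p)/(1-k/p) ≥ hwK k p` (equivalent to
`1 - k/p ≤ (1-1/p)^k`, Bernoulli). `∏_{p ∈ S₁} (1 + hfK K p)/(1 + hwK k p) = ∏_{p ∈ S₁} (loc H p)⁻¹`
(`1 + hfK = (1 - ν/p)⁻¹`, `1 + hwK k p = ((1-1/p)^k)⁻¹`). `GK_compare` with `v = z/∏_{p ∈ S₁} p ≥ x^(1/8)` (for
large `x`, as `∏_{p ∈ S₁} p ≤ Δ WW y ≤ x^(1/16)`), and `prod_loc_le`: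
`(1/2) ∏_{p ∈ S₁} loc H p ≤ sing H`. So `(1/2) ((log x)/8)^k / k! ≤ sing H · G`, i.e.
`G⁻¹ ≤ 2 · 8^k k! sing H/(log x)^k`.

*Error terms.* `z ≤ x^(1/4)`; `(∑_{l ≤ z} k^{ω(l)})^2 ≤ (C_δ z^{1+δ})^2 ≤ C x^(3/4)`: `k^{ω(l)} ≤ C_δ l^δ`
(`omega_bound` in `UpperMain.lean` for `3`; same proof; or simply `k^{ω(l)} ≤ (number of divisors)^{log_2 k}`;
an easy way: `k^{ω(l)} ≤ ∏_{p ∣ l} k` and for `p > k^{1/δ}` the factor is `≤ p^δ`, the others contribute at
most `k^{k^{1/δ}}`). Both are `≤ c_k x/(log x)^k ≤ sing H x/(log x)^k` for large `x` (`sing_lower`).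
-/

set_option autoImplicit false

open Filter Topology

namespace Pool.Agent.H6.MF

open Pool.Agent.H17

/-- the set of shifts as integers -/
def DEN_H (K : Finset ℕ) : Finset ℤ := K.image (fun h : ℕ => (h : ℤ))

lemma DEN_card (K : Finset ℕ) : (DEN_H K).card = K.card :=
  Finset.card_image_of_injective K Nat.cast_injective

lemma DEN_nu (K : Finset ℕ) (p : ℕ) : nuH (DEN_H K) p = (K.image (fun h => h % p)).card := by
  unfold nuH DEN_H
  rw [Finset.image_image]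
  have h1 : K.image ((fun h : ℤ => h % (p : ℤ)) ∘ (fun h : ℕ => (h : ℤ)))
      = (K.image (fun h => h % p)).image (fun h : ℕ => (h : ℤ)) := by
    rw [Finset.image_image]
    apply Finset.image_congr
    intro h _
    simp
  rw [h1, Finset.card_image_of_injective _ Nat.cast_injective]

lemma DEN_one_add_hf {K : Finset ℕ} {p : ℕ} (hp : p.Prime) (hadm : (K.image (fun h => h % p)).card < p) :
    1 + hfK K p = (1 - ((K.image (fun h => h % p)).card : ℝ) / p)⁻¹ := by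
  have hp0 : (0 : ℝ) < p := by exact_mod_cast hp.pos
  have h1 : ((K.image (fun h => h % p)).card : ℝ) / p < 1 := by
    rw [div_lt_one hp0]; exact_mod_cast hadm
  have h2 : (1 : ℝ) - ((K.image (fun h => h % p)).card : ℝ) / p ≠ 0 := by linarith
  unfold hfK
  generalize ((K.image (fun h => h % p)).card : ℝ) / p = t at h2 ⊢
  field_simp
  ring

lemma DEN_one_add_hw (k : ℕ) {p : ℕ} (hp : p.Prime) : 1 + hwK k p = ((1 - 1 / (p : ℝ)) ^ k)⁻¹ := by
  have hp0 : (0 : ℝ) < p := by exact_mod_cast hp.pos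
  have h2 : (2 : ℝ) ≤ p := by exact_mod_cast hp.two_le
  have h3 : (0 : ℝ) < (p : ℝ) - 1 := by linarith
  unfold hwK
  have h4 : (1 : ℝ) - 1 / p = (p - 1) / p := by field_simp
  have h5 : (1 : ℝ) + 1 / ((p : ℝ) - 1) = p / (p - 1) := by field_simp; ring
  rw [h4, h5, ← inv_pow, inv_div]
  ring

lemma DEN_ratio {K : Finset ℕ} {p : ℕ} (hp : p.Prime) (hadm : (K.image (fun h => h % p)).card < p) :
    (1 + hfK K p) / (1 + hwK K.card p) = (loc (DEN_H K) p)⁻¹ := by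
  rw [DEN_one_add_hf hp hadm, DEN_one_add_hw K.card hp]
  unfold loc
  rw [DEN_nu, DEN_card, inv_div, div_inv_eq_mul, inv_mul_eq_div]

lemma DEN_hf_nonneg {K : Finset ℕ} {p : ℕ} (hp : p.Prime) (hadm : (K.image (fun h => h % p)).card < p) :
    0 ≤ hfK K p := by
  have hp0 : (0 : ℝ) < p := by exact_mod_cast hp.pos
  have h1 : ((K.image (fun h => h % p)).card : ℝ) / p < 1 := by
    rw [div_lt_one hp0]; exact_mod_cast hadm
  unfold hfK
  have h2 : (0 : ℝ) < 1 - ((K.image (fun h => h % p)).card : ℝ) / p := by linarith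
  positivity

lemma DEN_hw_le_hf {K : Finset ℕ} {p : ℕ} (hp : p.Prime) (hadm : (K.image (fun h => h % p)).card < p)
    (h3 : (K.image (fun h => h % p)).card = K.card) : hwK K.card p ≤ hfK K p := by
  have h1 := DEN_ratio hp hadm
  have h2 : loc (DEN_H K) p ≤ 1 := loc_le_one hp (by rw [DEN_nu, DEN_card, h3])
  have h4 : 0 < loc (DEN_H K) p := loc_pos hp (by rw [DEN_nu]; exact hadm)
  have h5 : 0 ≤ hwK K.card p := hwK_nonneg K.card hp
  have h6 : 1 ≤ (loc (DEN_H K) p)⁻¹ := (one_le_inv₀ h4).mpr h2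
  rw [← h1, le_div_iff₀ (by linarith)] at h6
  linarith

/-- the product of the differences -/
def DEN_D (K : Finset ℕ) : ℕ := ∏ q ∈ (K ×ˢ K).filter (fun q => q.1 < q.2), (q.2 - q.1)

lemma DEN_D_pos (K : Finset ℕ) : 0 < DEN_D K := by
  unfold DEN_D
  apply Finset.prod_pos
  intro q hq
  have := (Finset.mem_filter.mp hq).2
  omega

lemma DEN_dvd {K : Finset ℕ} {a b : ℕ} (ha : a ∈ K) (hb : b ∈ K) (hab : a < b) : b - a ∣ DEN_D K := by
  unfold DEN_D
  exact Finset.dvd_prod_of_mem (fun q : ℕ × ℕ => q.2 - q.1) (a := (a, b))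
    (Finset.mem_filter.mpr ⟨Finset.mem_product.mpr ⟨ha, hb⟩, hab⟩)

lemma DEN_nu_eq {K : Finset ℕ} {p : ℕ} (h : ¬ p ∣ DEN_D K) :
    (K.image (fun h => h % p)).card = K.card := by
  apply Finset.card_image_of_injOn
  intro a ha b hb hab
  have hab' : a % p = b % p := hab
  rcases Nat.lt_trichotomy a b with h1 | h1 | h1
  · exact absurd (dvd_trans ((Nat.modEq_iff_dvd' h1.le).mp hab') (DEN_dvd ha hb h1)) h
  · exact h1
  · exact absurd (dvd_trans ((Nat.modEq_iff_dvd' h1.le).mp hab'.symm) (DEN_dvd hb ha h1)) h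

lemma DEN_prime_le {K : Finset ℕ} {p z : ℕ} (hp : p.Prime) (hz : ∀ h ∈ K, h ≤ z) (h : p ∣ DEN_D K) :
    p ≤ z := by
  unfold DEN_D at h
  obtain ⟨q, hq, hpq⟩ := (hp.prime.dvd_finset_prod_iff _).mp h
  rw [Finset.mem_filter, Finset.mem_product] at hq
  have h1 := Nat.le_of_dvd (by omega) hpq
  have h2 := hz q.2 hq.1.2
  omega

lemma DEN_D_le {K : Finset ℕ} {L : ℝ} (hL1 : 1 ≤ L) (hL : ∀ h ∈ K, (h : ℝ) ≤ L) :
    (DEN_D K : ℝ) ≤ L ^ (K.card ^ 2) := by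
  unfold DEN_D
  push_cast
  calc (∏ q ∈ (K ×ˢ K).filter (fun q => q.1 < q.2), (((q.2 - q.1 : ℕ)) : ℝ))
      ≤ ∏ _q ∈ (K ×ˢ K).filter (fun q => q.1 < q.2), L := by
        apply Finset.prod_le_prod
        · intro q _
          exact Nat.cast_nonneg _
        · intro q hq
          rw [Finset.mem_filter, Finset.mem_product] at hq
          have h1 : ((q.2 - q.1 : ℕ) : ℝ) ≤ (q.2 : ℝ) := by exact_mod_cast Nat.sub_le _ _
          exact h1.trans (hL q.2 hq.1.2)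
    _ = L ^ ((K ×ˢ K).filter (fun q => q.1 < q.2)).card := by rw [Finset.prod_const]
    _ ≤ L ^ (K.card ^ 2) := by
        apply pow_le_pow_right₀ hL1
        calc ((K ×ˢ K).filter (fun q => q.1 < q.2)).card ≤ (K ×ˢ K).card := Finset.card_filter_le _ _
          _ = K.card ^ 2 := by rw [Finset.card_product, sq]

/-- the comparison for fixed `z` -/
lemma DEN_main {K : Finset ℕ} {z y : ℕ} (hk : 1 ≤ K.card) (hy2 : 2 * K.card ^ 2 ≤ y) (hy3 : 2 * K.card ≤ y)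
    (hadm : ∀ p : ℕ, p.Prime → (K.image (fun h => h % p)).card < p)
    (hyz : y ≤ z) (hKz : ∀ h ∈ K, h ≤ z) {v : ℝ} (hv1 : 1 ≤ v)
    (hv : v ≤ (z : ℝ) / ((DEN_D K * WW y : ℕ) : ℝ)) :
    (1 / 2) * ((Real.log v) ^ K.card / (Nat.factorial K.card : ℝ))
      ≤ sing (DEN_H K) * Op (PP z) (hfK K) one1 z := by
  set Δ := DEN_D K with hΔ
  have hΔ0 : Δ ≠ 0 := (DEN_D_pos K).ne'
  have hW := (WW_pos y).ne'
  have hm0 : Δ * WW y ≠ 0 := mul_ne_zero hΔ0 hW
  set S1 := (Δ * WW y).primeFactors with hS1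
  have hS1p : ∀ p ∈ S1, p.Prime := fun p hp => Nat.prime_of_mem_primeFactors hp
  have hmemS1 : ∀ p : ℕ, p.Prime → (p ∈ S1 ↔ (p ≤ y ∨ p ∣ Δ)) := by
    intro p hp
    rw [hS1, Nat.mem_primeFactors]
    constructor
    · rintro ⟨_, h2, _⟩
      rcases (hp.dvd_mul).mp h2 with h3 | h3
      · right; exact h3
      · left
        have : p ∈ (WW y).primeFactors := by
          rw [Nat.mem_primeFactors]; exact ⟨hp, h3, hW⟩
        rw [primeFactors_WW, mem_PP] at this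
        exact this.1
    · intro h2
      refine ⟨hp, ?_, hm0⟩
      rcases h2 with h3 | h3
      · apply Dvd.dvd.mul_left
        unfold WW
        exact Finset.dvd_prod_of_mem _ (mem_PP.mpr ⟨h3, hp⟩)
      · exact Dvd.dvd.mul_right h3 _
  have hsub : S1 ⊆ PP z := by
    intro p hp
    have hpp := hS1p p hp
    rw [mem_PP]
    refine ⟨?_, hpp⟩
    rcases (hmemS1 p hpp).mp hp with h1 | h1
    · omega
    · exact DEN_prime_le hpp hKz h1
  set S2 := PP z \ S1 with hS2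
  have hunion : S1 ∪ S2 = PP z := Finset.union_sdiff_of_subset hsub
  have hdisj : Disjoint S1 S2 := Finset.disjoint_sdiff
  have hkk : ∏ p ∈ S1, p ≤ Δ * WW y := by
    apply Nat.le_of_dvd (Nat.pos_of_ne_zero hm0)
    exact Nat.prod_primeFactors_dvd _
  have hkpos : 0 < ∏ p ∈ S1, p := Finset.prod_pos (fun p hp => (hS1p p hp).pos)
  set v' : ℝ := (z : ℝ) / ((∏ p ∈ S1, p : ℕ) : ℝ) with hv'
  have hvv' : v ≤ v' := by
    refine hv.trans ?_
    rw [hv']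
    apply div_le_div_of_nonneg_left (Nat.cast_nonneg _)
    · exact_mod_cast hkpos
    · exact_mod_cast hkk
  have hcmp := GK_compare K.card (S1 := S1) (S2 := S2) hS1p (fun p hp => (mem_PP.mp (Finset.mem_sdiff.mp hp).1).2) hdisj
    (h := hfK K) (fun p hp => DEN_hf_nonneg (hS1p p hp) (hadm p (hS1p p hp)))
    (by
      intro p hp
      rw [hS2, Finset.mem_sdiff, mem_PP] at hp
      have hpp := hp.1.2
      apply DEN_hw_le_hf hpp (hadm p hpp)
      apply DEN_nu_eq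
      intro hdvd
      exact hp.2 ((hmemS1 p hpp).mpr (Or.inr hdvd)))
    (z := z) (v := v') hv' (hv1.trans hvv')
    (by
      intro p hp hpv
      rw [hunion, mem_PP]
      refine ⟨?_, hp⟩
      have h1 : v' ≤ z := by
        rw [hv']
        apply div_le_self (Nat.cast_nonneg _)
        exact_mod_cast hkpos
      exact_mod_cast hpv.trans h1)
  rw [hunion] at hcmp
  have hprod : ∏ p ∈ S1, (1 + hfK K p) / (1 + hwK K.card p) = (∏ p ∈ S1, loc (DEN_H K) p)⁻¹ := by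
    rw [← Finset.prod_inv_distrib]
    apply Finset.prod_congr rfl
    intro p hp
    exact DEN_ratio (hS1p p hp) (hadm p (hS1p p hp))
  rw [hprod] at hcmp
  have hlocpos : 0 < ∏ p ∈ S1, loc (DEN_H K) p :=
    Finset.prod_pos (fun p hp => loc_pos (hS1p p hp) (by rw [DEN_nu]; exact hadm p (hS1p p hp)))
  have hS := prod_loc_le (DEN_H K) y (by rw [DEN_card]; exact hy3) (by omega) S1 hS1p
    (fun p hp h1 => (hmemS1 p hp).mpr (Or.inl h1)) (by
      intro p hp h1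
      rw [DEN_nu, DEN_card] at h1
      refine (hmemS1 p hp).mpr (Or.inr ?_)
      by_contra hcon
      exact h1 (DEN_nu_eq hcon))
  rw [DEN_card] at hS
  have hOp : 0 ≤ Op (PP z) (hfK K) one1 z :=
    Op_nonneg (fun p hp => DEN_hf_nonneg (mem_PP.mp hp).2 (hadm p (mem_PP.mp hp).2)) one1_nonneg z
  have hfac : (0 : ℝ) < (Nat.factorial K.card : ℝ) := by exact_mod_cast Nat.factorial_pos _
  have hlog : (Real.log v) ^ K.card / (Nat.factorial K.card : ℝ) ≤ (Real.log v') ^ K.card / (Nat.factorial K.card : ℝ) := by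
    apply div_le_div_of_nonneg_right _ hfac.le
    apply pow_le_pow_left₀ (Real.log_nonneg hv1)
    exact Real.log_le_log (by linarith) hvv'
  have hlog' : (Real.log v') ^ K.card / (Nat.factorial K.card : ℝ)
      ≤ (∏ p ∈ S1, loc (DEN_H K) p) * Op (PP z) (hfK K) one1 z := by
    have h1 := mul_le_mul_of_nonneg_left hcmp hlocpos.le
    rwa [← mul_assoc, mul_inv_cancel₀ hlocpos.ne', one_mul] at h1
  have hhalf : (1 : ℝ) / 2 ≤ 1 - (K.card : ℝ) ^ 2 / (y : ℝ) := by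
    have hy0 : (0 : ℝ) < y := by
      have : 0 < y := by omega
      exact_mod_cast this
    have h1 : (K.card : ℝ) ^ 2 / (y : ℝ) ≤ 1 / 2 := by
      rw [div_le_iff₀ hy0]
      have h2 : (2 * K.card ^ 2 : ℝ) ≤ y := by exact_mod_cast hy2
      linarith
    linarith
  calc (1 / 2) * ((Real.log v) ^ K.card / (Nat.factorial K.card : ℝ))
      ≤ (1 / 2) * ((∏ p ∈ S1, loc (DEN_H K) p) * Op (PP z) (hfK K) one1 z) := by
        apply mul_le_mul_of_nonneg_left _ (by norm_num)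
        linarith
    _ ≤ (1 - (K.card : ℝ) ^ 2 / (y : ℝ)) * ((∏ p ∈ S1, loc (DEN_H K) p) * Op (PP z) (hfK K) one1 z) := by
        apply mul_le_mul_of_nonneg_right hhalf
        exact mul_nonneg hlocpos.le hOp
    _ = ((1 - (K.card : ℝ) ^ 2 / (y : ℝ)) * ∏ p ∈ S1, loc (DEN_H K) p) * Op (PP z) (hfK K) one1 z := by ring
    _ ≤ sing (DEN_H K) * Op (PP z) (hfK K) one1 z := mul_le_mul_of_nonneg_right hS hOp

/-- powers of the logarithm are small -/
lemma DEN_growth (C : ℝ) (n : ℕ) (s : ℝ) (hs : 0 < s) :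
    ∀ᶠ x : ℝ in atTop, C * (Real.log x) ^ n ≤ x ^ s := by
  have h1 := (isLittleO_log_rpow_rpow_atTop (n : ℝ) hs).def
    (show (0 : ℝ) < 1 / (|C| + 1) by positivity)
  filter_upwards [h1, eventually_ge_atTop (1 : ℝ)] with x hx hx1
  have hl : 0 ≤ Real.log x := Real.log_nonneg hx1
  rw [Real.rpow_natCast, Real.norm_of_nonneg (pow_nonneg hl n),
    Real.norm_of_nonneg (Real.rpow_nonneg (by linarith) s)] at hx
  have h2 : (|C| + 1) * (Real.log x) ^ n ≤ x ^ s := by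
    have h3 := mul_le_mul_of_nonneg_left hx (show (0 : ℝ) ≤ |C| + 1 by positivity)
    rwa [← mul_assoc, mul_one_div_cancel (by positivity), one_mul] at h3
  refine le_trans ?_ h2
  apply mul_le_mul_of_nonneg_right _ (pow_nonneg hl n)
  have := le_abs_self C
  linarith

/-- lower bound for the Selberg denominator -/
theorem denom_lower (k A : ℕ) (hk : 1 ≤ k) : ∃ X c : ℝ, 0 < c ∧ ∀ x : ℝ, X ≤ x → ∀ K : Finset ℕ, K.card = k →
    (∀ p : ℕ, p.Prime → (K.image (fun h => h % p)).card < p) →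
    (∀ h ∈ K, (h : ℝ) ≤ 2 * (Real.log x) ^ A) →
    c * (Real.log x) ^ k ≤ sing (K.image (fun h : ℕ => (h : ℤ))) * Op (PP ⌊x ^ (1 / 4 : ℝ)⌋₊) (hfK K) one1 ⌊x ^ (1 / 4 : ℝ)⌋₊ := by
  set y : ℕ := 2 * k ^ 2 + 2 * k with hy
  have hev : ∀ᶠ x : ℝ in atTop, 1 ≤ x ∧ (y : ℝ) + 1 ≤ x ^ (1 / 4 : ℝ) ∧ 2 * (Real.log x) ^ A + 1 ≤ x ^ (1 / 4 : ℝ)
      ∧ (2 ^ (k ^ 2) * (WW y : ℝ)) * (Real.log x) ^ (A * k ^ 2) ≤ x ^ (1 / 16 : ℝ)
      ∧ x ^ (3 / 16 : ℝ) + 1 ≤ x ^ (1 / 4 : ℝ) ∧ 1 ≤ 2 * (Real.log x) ^ A := by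
    have g1 : Tendsto (fun x : ℝ => x ^ (1 / 4 : ℝ)) atTop atTop := tendsto_rpow_atTop (by norm_num)
    have g16 : Tendsto (fun x : ℝ => x ^ (1 / 16 : ℝ)) atTop atTop := tendsto_rpow_atTop (by norm_num)
    filter_upwards [eventually_ge_atTop (Real.exp 1), g1.eventually_ge_atTop ((y : ℝ) + 1),
      DEN_growth 3 A (1 / 4) (by norm_num),
      DEN_growth (2 ^ (k ^ 2) * (WW y : ℝ)) (A * k ^ 2) (1 / 16) (by norm_num),
      g16.eventually_ge_atTop 2] with x hx h1 h2 h3 h4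
    have hx1 : 1 ≤ x := le_trans (by simpa using Real.add_one_le_exp (1 : ℝ) |>.trans' (by norm_num)) hx
    have hl1 : 1 ≤ Real.log x := by
      rw [Real.le_log_iff_exp_le (by linarith)]
      exact hx
    have hlA : 1 ≤ (Real.log x) ^ A := one_le_pow₀ hl1
    refine ⟨hx1, h1, by linarith, h3, ?_, by linarith⟩
    have h5 : x ^ (1 / 4 : ℝ) = x ^ (3 / 16 : ℝ) * x ^ (1 / 16 : ℝ) := by
      rw [← Real.rpow_add (by linarith)]
      norm_num
    have h6 : 1 ≤ x ^ (3 / 16 : ℝ) := Real.one_le_rpow hx1 (by norm_num)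
    rw [h5]
    nlinarith
  obtain ⟨X, hX⟩ := eventually_atTop.mp hev
  refine ⟨X, 1 / (2 * 8 ^ k * (Nat.factorial k : ℝ)), by positivity, ?_⟩
  intro x hx K hK hadm hKx
  obtain ⟨hx1, h1, h2, h3, h4, h5⟩ := hX x hx
  have hx0 : 0 < x := by linarith
  set z : ℕ := ⌊x ^ (1 / 4 : ℝ)⌋₊ with hz
  have hzlt : x ^ (1 / 4 : ℝ) < (z : ℝ) + 1 := Nat.lt_floor_add_one _
  have hyz : y ≤ z := by
    have : (y : ℝ) ≤ x ^ (1 / 4 : ℝ) := by linarith
    exact Nat.le_floor this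
  have hKz : ∀ h ∈ K, h ≤ z := by
    intro h hh
    have : (h : ℝ) ≤ x ^ (1 / 4 : ℝ) := by
      have := hKx h hh
      linarith
    exact Nat.le_floor this
  have hD0 : (0 : ℝ) < ((DEN_D K * WW y : ℕ) : ℝ) := by
    exact_mod_cast Nat.mul_pos (DEN_D_pos K) (WW_pos y)
  have hDle : ((DEN_D K * WW y : ℕ) : ℝ) ≤ x ^ (1 / 16 : ℝ) := by
    push_cast
    have e1 := DEN_D_le h5 hKx
    rw [hK] at e1
    have hW0 : (0 : ℝ) ≤ (WW y : ℝ) := Nat.cast_nonneg _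
    calc (DEN_D K : ℝ) * (WW y : ℝ) ≤ (2 * (Real.log x) ^ A) ^ (k ^ 2) * (WW y : ℝ) :=
          mul_le_mul_of_nonneg_right e1 hW0
      _ = (2 ^ (k ^ 2) * (WW y : ℝ)) * (Real.log x) ^ (A * k ^ 2) := by
          rw [mul_pow, ← pow_mul]; ring
      _ ≤ x ^ (1 / 16 : ℝ) := h3
  have hv : x ^ (1 / 8 : ℝ) ≤ (z : ℝ) / ((DEN_D K * WW y : ℕ) : ℝ) := by
    rw [le_div_iff₀ hD0]
    have e2 : x ^ (1 / 8 : ℝ) * ((DEN_D K * WW y : ℕ) : ℝ) ≤ x ^ (1 / 8 : ℝ) * x ^ (1 / 16 : ℝ) :=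
      mul_le_mul_of_nonneg_left hDle (Real.rpow_nonneg hx0.le _)
    have e3 : x ^ (1 / 8 : ℝ) * x ^ (1 / 16 : ℝ) = x ^ (3 / 16 : ℝ) := by
      rw [← Real.rpow_add hx0]
      norm_num
    linarith
  have hv1 : 1 ≤ x ^ (1 / 8 : ℝ) := Real.one_le_rpow hx1 (by norm_num)
  have hmain := DEN_main (K := K) (z := z) (y := y) (by omega) (by rw [hK]; omega) (by rw [hK]; omega)
    hadm hyz hKz hv1 hv
  rw [hK, Real.log_rpow hx0] at hmain
  refine le_trans (le_of_eq ?_) hmain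
  rw [mul_pow]
  have hfac : (Nat.factorial k : ℝ) ≠ 0 := by exact_mod_cast (Nat.factorial_pos k).ne'
  field_simp
  rw [show (1 / 8 : ℝ) = (8 : ℝ)⁻¹ by norm_num, inv_pow]
  field_simp

end Pool.Agent.H6.MF
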