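import Mathlib

/-!
# MF: mean forms of the Hardy-Littlewood conjecture for prime triples (MP_1039f5_nt). Definitions.

Notation used in all headers: `Λ = log x`, `N = ⌊x⌋₊`, `k = |H|`.
All sets of shifts are finite sets of integers; `n` runs through the natural numbers `0 ≤ n ≤ N`
and is cast to `ℤ`.
-/

set_option autoImplicit false

namespace Pool.Agent.H6.MF

/-- the integer `n` is a (positive) prime -/
def isP (n : ℤ) : Prop := n.toNat.Prime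

instance : DecidablePred isP := fun n => inferInstanceAs (Decidable (n.toNat.Prime))

/-- the number of `0 ≤ n ≤ x` such that `n - h` is prime for all `h ∈ H` -/
noncomputable def cnt (x : ℝ) (H : Finset ℤ) : ℕ :=
  ((Finset.range (⌊x⌋₊ + 1)).filter (fun n : ℕ => ∀ h ∈ H, isP ((n : ℤ) - h))).card

/-- the number of residue classes modulo `p` met by `H` -/
def nuH (H : Finset ℤ) (p : ℕ) : ℕ := (H.image (fun h => h % (p : ℤ))).card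

/-- the local factor at `p` of the singular series -/
noncomputable def loc (H : Finset ℤ) (p : ℕ) : ℝ :=
  (1 - (nuH H p : ℝ) / (p : ℝ)) / (1 - 1 / (p : ℝ)) ^ H.card

/-- the singular series -/
noncomputable def sing (H : Finset ℤ) : ℝ := ∏' p : Nat.Primes, loc H (p : ℕ)

/-- admissible sets -/
def adm (H : Finset ℤ) : Prop := ∀ p : ℕ, p.Prime → nuH H p < p

/-- the translate `H + r` -/
def tr (H : Finset ℤ) (r : ℤ) : Finset ℤ := H.image (fun h => h + r)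

/-- the number of primes among `n - b`, `u < b ≤ v` -/
noncomputable def win (u v n : ℤ) : ℕ := ((Finset.Ioc u v).filter (fun b => isP (n - b))).card

/-- concentration of the number of primes in the windows `[n - ℓ, n)`, `ℓ = ⌊τ (log x)^k⌋`, for each
fixed `0 < τ ≤ 1/4` -/
def BaseConc (k : ℕ) : Prop :=
  ∀ ε : ℝ, 0 < ε → ∀ τ : ℝ, 0 < τ → τ ≤ 1 / 4 → ∃ X : ℝ, ∀ x : ℝ, X ≤ x →
    ∑ n ∈ Finset.range (⌊x⌋₊ + 1),
      ((win 0 (⌊τ * (Real.log x) ^ k⌋₊ : ℤ) (n : ℤ) : ℝ) - (⌊τ * (Real.log x) ^ k⌋₊ : ℝ) / Real.log x) ^ 2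
        ≤ ε * (τ * (Real.log x) ^ k / Real.log x) ^ 2 * x

/-- concentration of the number of primes in all windows `[n - v, n - u)` of length `≥ t (log x)^k`
with `|u|, |v| ≤ 2 (log x)^k` -/
def Conc (k : ℕ) : Prop :=
  ∀ ε : ℝ, 0 < ε → ∀ t : ℝ, 0 < t → ∃ X : ℝ, ∀ x : ℝ, X ≤ x → ∀ u v : ℤ,
    |(u : ℝ)| ≤ 2 * (Real.log x) ^ k → |(v : ℝ)| ≤ 2 * (Real.log x) ^ k →
    t * (Real.log x) ^ k ≤ (v : ℝ) - u →
    ∑ n ∈ Finset.range (⌊x⌋₊ + 1), ((win u v (n : ℤ) : ℝ) - ((v : ℝ) - u) / Real.log x) ^ 2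
      ≤ ε * (((v : ℝ) - u) / Real.log x) ^ 2 * x

/-- the row principle: the mean over an extra shift `b` of the number of `(k+1)`-tuples is
determined by the number of `k`-tuples -/
def Row (k : ℕ) : Prop :=
  ∀ ε : ℝ, 0 < ε → ∀ t : ℝ, 0 < t → ∃ X : ℝ, ∀ x : ℝ, X ≤ x → ∀ H : Finset ℤ, H.card = k → adm H →
    (∀ h ∈ H, |(h : ℝ)| ≤ (Real.log x) ^ k) → ∀ u v : ℤ,
    |(u : ℝ)| ≤ (Real.log x) ^ k → |(v : ℝ)| ≤ (Real.log x) ^ k →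
    t * (Real.log x) ^ k ≤ (v : ℝ) - u →
    |∑ b ∈ Finset.Ioc u v \ H, (cnt x (insert b H) : ℝ) - ((v : ℝ) - u) / Real.log x * (cnt x H : ℝ)|
      ≤ ε * (((v : ℝ) - u) * sing H * x / (Real.log x) ^ (k + 1))

/-- upper bound with the right constant for the pairs `d ≤ s` on average -/
def A2up : Prop :=
  ∀ ε : ℝ, 0 < ε → ∀ t : ℝ, 0 < t → ∃ X : ℝ, ∀ x : ℝ, X ≤ x → ∀ s : ℕ,
    t * (Real.log x) ^ 2 ≤ (s : ℝ) → (s : ℝ) ≤ (Real.log x) ^ 2 →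
    ∑ d ∈ Finset.Icc 1 s, (cnt x {0, (d : ℤ)} : ℝ) ≤ (1 + ε) * ((s : ℝ) * x / (Real.log x) ^ 2)

/-- upper bound with the right constant for the triples `d' < d ≤ s` on average -/
def A3up : Prop :=
  ∀ ε : ℝ, 0 < ε → ∀ t : ℝ, 0 < t → ∃ X : ℝ, ∀ x : ℝ, X ≤ x → ∀ s : ℕ,
    t * (Real.log x) ^ 2 ≤ (s : ℝ) → (s : ℝ) ≤ (Real.log x) ^ 2 →
    ∑ d ∈ Finset.Icc 1 s, ∑ d' ∈ Finset.Ico 1 d, (cnt x {0, (d' : ℤ), (d : ℤ)} : ℝ)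
      ≤ (1 + ε) * ((s : ℝ) ^ 2 / 2 * x / (Real.log x) ^ 3)

/-- the question: uniform Hardy-Littlewood asymptotics for prime triples, `d ≤ (log x)^2` -/
def HL3 : Prop :=
  ∀ ε : ℝ, 0 < ε → ∃ X : ℝ, ∀ x : ℝ, X ≤ x → ∀ d d' : ℕ, Even d → Even d' → 2 ≤ d' → d' < d →
    (d : ℝ) ≤ (Real.log x) ^ 2 → sing {0, (d' : ℤ), (d : ℤ)} ≠ 0 →
    |(cnt x {0, (d' : ℤ), (d : ℤ)} : ℝ) - sing {0, (d' : ℤ), (d : ℤ)} * x / (Real.log x) ^ 3|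
      ≤ ε * (sing {0, (d' : ℤ), (d : ℤ)} * x / (Real.log x) ^ 3)

/-- uniform Hardy-Littlewood asymptotics for prime pairs, `d ≤ (log x)^2` -/
def HL2 : Prop :=
  ∀ ε : ℝ, 0 < ε → ∃ X : ℝ, ∀ x : ℝ, X ≤ x → ∀ d : ℕ, Even d → 2 ≤ d →
    (d : ℝ) ≤ (Real.log x) ^ 2 →
    |(cnt x {0, (d : ℤ)} : ℝ) - sing {0, (d : ℤ)} * x / (Real.log x) ^ 2|
      ≤ ε * (sing {0, (d : ℤ)} * x / (Real.log x) ^ 2)

/-- the Hardy-Littlewood asymptotics for triples in the mean over one of the two shifts -/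
def Mean3 : Prop :=
  ∀ ε : ℝ, 0 < ε → ∀ t : ℝ, 0 < t → ∃ X : ℝ, ∀ x : ℝ, X ≤ x → ∀ e : ℕ, Even e → 2 ≤ e →
    (e : ℝ) ≤ (Real.log x) ^ 2 → ∀ u v : ℕ, (v : ℝ) ≤ (Real.log x) ^ 2 →
    t * (Real.log x) ^ 2 ≤ (v : ℝ) - u →
    |∑ b ∈ Finset.Ioc (u : ℤ) (v : ℤ) \ {0, (e : ℤ)}, (cnt x (insert b {0, (e : ℤ)}) : ℝ)
        - (∑ b ∈ Finset.Ioc (u : ℤ) (v : ℤ) \ {0, (e : ℤ)}, sing (insert b {0, (e : ℤ)})) * x / (Real.log x) ^ 3|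
      ≤ ε * ((∑ b ∈ Finset.Ioc (u : ℤ) (v : ℤ) \ {0, (e : ℤ)}, sing (insert b {0, (e : ℤ)})) * x / (Real.log x) ^ 3)

/-- the Hardy-Littlewood asymptotics for quadruples in the mean over the fourth shift -/
def Mean4 : Prop :=
  ∀ ε : ℝ, 0 < ε → ∀ t : ℝ, 0 < t → ∃ X : ℝ, ∀ x : ℝ, X ≤ x → ∀ d d' : ℕ, Even d → Even d' → 2 ≤ d' →
    d' < d → (d : ℝ) ≤ (Real.log x) ^ 2 → sing {0, (d' : ℤ), (d : ℤ)} ≠ 0 → ∀ u v : ℤ,
    |(u : ℝ)| ≤ (Real.log x) ^ 3 → |(v : ℝ)| ≤ (Real.log x) ^ 3 →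
    t * (Real.log x) ^ 3 ≤ (v : ℝ) - u →
    |∑ b ∈ Finset.Ioc u v \ {0, (d' : ℤ), (d : ℤ)}, (cnt x (insert b {0, (d' : ℤ), (d : ℤ)}) : ℝ)
        - (∑ b ∈ Finset.Ioc u v \ {0, (d' : ℤ), (d : ℤ)}, sing (insert b {0, (d' : ℤ), (d : ℤ)})) * x
            / (Real.log x) ^ 4|
      ≤ ε * ((∑ b ∈ Finset.Ioc u v \ {0, (d' : ℤ), (d : ℤ)}, sing (insert b {0, (d' : ℤ), (d : ℤ)})) * x
            / (Real.log x) ^ 4)

end Pool.Agent.H6.MF
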