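import Pool.Agent.H6.MF.DEN

/-!
# SIE: uniform sieve upper bound for prime tuples

Generalisation of `Op_hf_lower` and `pi3_upper` of `Pool/Agent/H17/UpperMain.lean` (any constant `C` is
good enough here, so choose fixed parameters: `z = ⌊x^(1/4)⌋₊`, `y` a constant with `k^2/y ≤ 1/2`).

Let `H ⊆ ℤ`, `k = |H|`, `|h| ≤ Λ^A`. Let `M = max H` and `K = {M - h : h ∈ H} ⊆ ℕ` (all `≤ 2 Λ^A`), `0 ∈ K`.
If `n ≤ N = ⌊x⌋₊` and all `n - h` are prime then `m = n - M` is prime, `m ≥ 1`, `m ≤ N + Λ^A` and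
`m + (M - h) = n - h`; so `cnt x H ≤ #{1 ≤ m ≤ N' : m + h' prime for all h' ∈ K}`, `N' = N + ⌈Λ^A⌉₊ ≤ 2 x`.
`h ↦ M - h` maps classes mod `p` bijectively, so `nuH H p` is the number of classes of `K` mod `p`
(admissibility and all local factors agree).

*Lower bound for the denominator.* `G = Op (PP z) (hfK K) one1 z`. Let `Δ = ∏_{h' ≠ h'' ∈ K, h' < h''} (h'' - h')`
(`≠ 0`, `≤ (2 Λ^A)^(k^2)`), `S₁ = (Δ · WW y).primeFactors` (all primes `≤ y` and all `p ∣ Δ`; they are `≤ z`),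
`S₂ = PP z \ S₁`. For `p ∈ S₂`: `ν = k`, so `hfK K p = (k/p)/(1-k/p) ≥ hwK k p` (equivalent to
`1 - k/p ≤ (1-1/p)^k`, Bernoulli). `∏_{p ∈ S₁} (1 + hfK K p)/(1 + hwK k p) = ∏_{p ∈ S₁} (loc H p)⁻¹`
(`1 + hfK = (1 - ν/p)⁻¹`, `1 + hwK k p = ((1-1/p)^k)⁻¹`). `GK_compare` with `v = z/∏_{p ∈ S₁} p ≥ x^(1/8)` (for
large `x`, as `∏_{p ∈ S₁} p ≤ Δ WW y ≤ x^(1/16)`), and `prod_loc_le`:
`(1/2) ∏_{p ∈ S₁} loc H p ≤ sing H`. So `(1/2) ((log x)/8)^k / k! ≤ sing H · G`, i.e.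
`G⁻¹ ≤ 2 · 8^k k! sing H/(log x)^k`.

*Error terms.* `z ≤ x^(1/4)`; `(∑_{l ≤ z} k^{ω(l)})^2 ≤ (C_δ z^{1+δ})^2 ≤ C x^(3/4)`: `k^{ω(l)} ≤ C_δ l^δ`
(`omega_bound` in `UpperMain.lean` for `3`; same proof; or simply `k^{ω(l)} ≤ (number of divisors)^{log_2 k}`;
an easy way: `k^{ω(l)} ≤ ∏_{p ∣ l} k` and for `p > k^{1/δ}` the factor is `≤ p^δ`, the others contribute at
most `k^{k^{1/δ}}`). Both are `≤ c_k x/(log x)^k ≤ sing H x/(log x)^k` for large `x` (`sing_lower`).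
-/

set_option autoImplicit false

open Filter Topology

namespace Pool.Agent.H6.MF

open Pool.Agent.H17

private theorem SIE_nu_cast (K : Finset ℕ) (p : ℕ) :
    nuH (K.image (fun h : ℕ => (h : ℤ))) p = (K.image (fun h => h % p)).card := by
  unfold nuH
  rw [Finset.image_image, ← Finset.card_image_of_injective (K.image (fun h => h % p)) (Nat.cast_injective (R := ℤ)),
    Finset.image_image]
  congr 1

private theorem SIE_nu_reflect (H : Finset ℤ) (M : ℤ) (p : ℕ) :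
    nuH (H.image (fun h => M - h)) p = nuH H p := by
  unfold nuH
  rw [Finset.image_image]
  have h1 : H.image ((fun h => h % (p : ℤ)) ∘ fun h => M - h) =
      (H.image (fun h => h % (p : ℤ))).image (fun z => (M - z) % (p : ℤ)) := by
    rw [Finset.image_image]
    refine Finset.image_congr fun h _ => ?_
    simp only [Function.comp]
    rw [Int.sub_emod M (h % (p : ℤ)), Int.emod_emod_of_dvd _ (dvd_refl _), ← Int.sub_emod]
  rw [h1]
  refine Finset.card_image_of_injOn ?_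
  intro z hz z' hz' he
  rw [Finset.mem_coe, Finset.mem_image] at hz hz'
  obtain ⟨a, -, rfl⟩ := hz
  obtain ⟨b, -, rfl⟩ := hz'
  simp only at he
  have h2 : (M - a % (p : ℤ)) ≡ (M - b % (p : ℤ)) [ZMOD p] := he
  have h3 : a % (p : ℤ) ≡ b % (p : ℤ) [ZMOD p] := by
    have := (Int.ModEq.refl M).sub h2
    simpa using this
  have h4 : a % (p : ℤ) % (p : ℤ) = b % (p : ℤ) % (p : ℤ) := h3
  simpa using h4

private theorem SIE_sing_congr {H K : Finset ℤ} (h1 : H.card = K.card) (h2 : ∀ p : ℕ, nuH H p = nuH K p) :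
    sing H = sing K := by
  unfold sing
  refine tprod_congr fun p => ?_
  unfold loc
  rw [h1, h2]

private theorem SIE_omega (k : ℕ) (hk : 1 ≤ k) : ∃ C : ℝ, 0 < C ∧ ∀ n : ℕ, n ≠ 0 →
    (k : ℝ) ^ n.primeFactors.card ≤ C * (n : ℝ) ^ (1 / 2 : ℝ) := by
  have hk1 : (1 : ℝ) ≤ k := by exact_mod_cast hk
  set T : ℕ := k ^ 2 with hT
  refine ⟨(k : ℝ) ^ (T + 1), by positivity, fun n hn => ?_⟩
  have hbig : ∀ p : ℕ, T < p → (k : ℝ) ≤ (p : ℝ) ^ (1 / 2 : ℝ) := by
    intro p hp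
    have h1 : (k : ℝ) ^ 2 ≤ p := by exact_mod_cast hp.le
    rw [← Real.sqrt_eq_rpow]
    exact Real.le_sqrt_of_sq_le h1
  have h1 : (k : ℝ) ^ n.primeFactors.card = ∏ p ∈ n.primeFactors, (k : ℝ) := by rw [Finset.prod_const]
  have h2 : ∏ p ∈ n.primeFactors, (k : ℝ) ≤
      ∏ p ∈ n.primeFactors, ((if p ≤ T then (k : ℝ) else 1) * (p : ℝ) ^ (1 / 2 : ℝ)) := by
    apply Finset.prod_le_prod
    · intro p _; positivity
    · intro p hp
      have hp1 : (1 : ℝ) ≤ p := by exact_mod_cast (Nat.prime_of_mem_primeFactors hp).one_lt.le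
      split_ifs with h
      · have : (1 : ℝ) ≤ (p : ℝ) ^ (1 / 2 : ℝ) := Real.one_le_rpow hp1 (by norm_num)
        nlinarith
      · rw [one_mul]
        exact hbig p (not_le.mp h)
  have h3 : ∏ p ∈ n.primeFactors, (if p ≤ T then (k : ℝ) else 1) ≤ (k : ℝ) ^ (T + 1) := by
    rw [Finset.prod_ite, Finset.prod_const_one, mul_one, Finset.prod_const]
    apply pow_le_pow_right₀ hk1
    calc (n.primeFactors.filter (fun p => p ≤ T)).card ≤ (Finset.range (T + 1)).card := by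
          apply Finset.card_le_card
          intro p hp
          rw [Finset.mem_filter] at hp
          rw [Finset.mem_range]
          omega
      _ = T + 1 := by simp
  have h4 : ∏ p ∈ n.primeFactors, (p : ℝ) ^ (1 / 2 : ℝ) ≤ (n : ℝ) ^ (1 / 2 : ℝ) := by
    rw [Real.finsetProd_rpow _ _ (fun p _ => by positivity)]
    apply Real.rpow_le_rpow (Finset.prod_nonneg (fun p _ => by positivity)) _ (by norm_num)
    rw [← Nat.cast_prod]
    exact_mod_cast Nat.le_of_dvd (Nat.pos_of_ne_zero hn) (Nat.prod_primeFactors_dvd n)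
  rw [h1]
  refine h2.trans ?_
  rw [Finset.prod_mul_distrib]
  apply mul_le_mul h3 h4 (Finset.prod_nonneg (fun p _ => by positivity)) (by positivity)

/-- the counting step -/
private theorem SIE_count {x : ℝ} {H : Finset ℤ} {M : ℤ} (hM : M ∈ H) (hmax : ∀ h ∈ H, h ≤ M) {B : ℕ}
    (hB : -(B : ℤ) ≤ M) :
    cnt x H ≤ ((Finset.Icc 1 (⌊x⌋₊ + B)).filter
      (fun m => ∀ h ∈ H.image (fun h => (M - h).toNat), (m + h).Prime)).card := by
  unfold cnt
  refine Finset.card_le_card_of_injOn (fun n : ℕ => ((n : ℤ) - M).toNat) ?_ ?_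
  · intro n hn
    rw [Finset.mem_coe, Finset.mem_filter, Finset.mem_range] at hn
    obtain ⟨hn1, hn2⟩ := hn
    have hMp := hn2 M hM
    unfold isP at hMp
    have hpos : 0 < ((n : ℤ) - M).toNat := hMp.pos
    have hpos' : 0 < (n : ℤ) - M := by omega
    rw [Finset.mem_coe, Finset.mem_filter, Finset.mem_Icc]
    refine ⟨⟨hpos, ?_⟩, ?_⟩
    · have : ((((n : ℤ) - M).toNat : ℕ) : ℤ) = (n : ℤ) - M := Int.toNat_of_nonneg hpos'.le
      simp only
      omega
    · intro h' hh'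
      rw [Finset.mem_image] at hh'
      obtain ⟨h, hh, rfl⟩ := hh'
      have h1 := hn2 h hh
      unfold isP at h1
      have h2 := hmax h hh
      have h3 : ((n : ℤ) - M).toNat + (M - h).toNat = ((n : ℤ) - h).toNat := by omega
      simp only
      rw [h3]
      exact h1
  · intro n hn n' hn' he
    rw [Finset.mem_coe, Finset.mem_filter] at hn hn'
    have h1 := hn.2 M hM
    have h2 := hn'.2 M hM
    unfold isP at h1 h2
    have h3 := h1.pos
    have h4 := h2.pos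
    simp only at he
    omega

private theorem SIE_growth (k A : ℕ) {C c1 : ℝ} (hC : 0 < C) (hc1 : 0 < c1) : ∀ᶠ x : ℝ in atTop,
    1 ≤ x ∧ 1 ≤ Real.log x ∧ (Real.log x) ^ A + 1 ≤ x ∧ (1 : ℝ) ≤ x ^ (1 / 4 : ℝ) ∧
      (Real.log x) ^ k * (x ^ (1 / 4 : ℝ) + C * x ^ (3 / 4 : ℝ)) ≤ c1 * x := by
  have e2 : ∀ (k : ℕ) {s : ℝ}, 0 < s → Tendsto (fun x : ℝ => (Real.log x) ^ k / x ^ s) atTop (𝓝 0) := by
    intro k s hs
    have h3 := (isLittleO_log_rpow_rpow_atTop (k : ℝ) (s := s) hs).tendsto_div_nhds_zero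
    refine h3.congr ?_
    intro x
    rw [Real.rpow_natCast]
  have e3 := (e2 A (show (0 : ℝ) < 1 by norm_num)).eventually_lt_const (show (0 : ℝ) < 1 / 2 by norm_num)
  have e4 := (e2 k (show (0 : ℝ) < 1 / 4 by norm_num)).eventually_lt_const (show (0 : ℝ) < c1 / (1 + C) by positivity)
  filter_upwards [Real.tendsto_log_atTop.eventually_ge_atTop 1, eventually_ge_atTop 2, e3, e4] with x h1 h2 h3 h4
  have hx0 : 0 < x := by linarith
  have hx1 : 1 ≤ x := by linarith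
  refine ⟨hx1, h1, ?_, Real.one_le_rpow hx1 (by norm_num), ?_⟩
  · rw [Real.rpow_one, div_lt_iff₀ hx0] at h3
    linarith
  · rw [div_lt_iff₀ (by positivity)] at h4
    have h5 : x ^ (1 / 4 : ℝ) ≤ x ^ (3 / 4 : ℝ) := Real.rpow_le_rpow_of_exponent_le hx1 (by norm_num)
    have h6 : x ^ (1 / 4 : ℝ) * x ^ (3 / 4 : ℝ) = x := by
      rw [← Real.rpow_add hx0]; norm_num
    have h7 : 0 < x ^ (3 / 4 : ℝ) := by positivity
    calc (Real.log x) ^ k * (x ^ (1 / 4 : ℝ) + C * x ^ (3 / 4 : ℝ))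
        ≤ (Real.log x) ^ k * (x ^ (3 / 4 : ℝ) + C * x ^ (3 / 4 : ℝ)) := by gcongr
      _ = (1 + C) * ((Real.log x) ^ k * x ^ (3 / 4 : ℝ)) := by ring
      _ ≤ (1 + C) * ((c1 / (1 + C) * x ^ (1 / 4 : ℝ)) * x ^ (3 / 4 : ℝ)) := by gcongr
      _ = c1 * (x ^ (1 / 4 : ℝ) * x ^ (3 / 4 : ℝ)) := by field_simp
      _ = c1 * x := by rw [h6]

theorem SIE (k A : ℕ) (hk : 1 ≤ k) : ∃ C X : ℝ, 0 < C ∧ ∀ x : ℝ, X ≤ x → ∀ H : Finset ℤ, H.card = k → adm H →
    (∀ h ∈ H, |(h : ℝ)| ≤ (Real.log x) ^ A) →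
    (cnt x H : ℝ) ≤ C * (sing H * x / (Real.log x) ^ k) := by
  obtain ⟨X1, c, hc, hden⟩ := denom_lower k A hk
  obtain ⟨C1, hC1, hom⟩ := SIE_omega k hk
  obtain ⟨c1, hc1, hsl⟩ := sing_lower k
  obtain ⟨X2, hX2⟩ := eventually_atTop.mp (SIE_growth k A (C := C1 ^ 2) (by positivity) hc1)
  refine ⟨4 / c + 1, max X1 X2, by positivity, fun x hx H hcard hadm hHb => ?_⟩
  obtain ⟨hx1, hL1, hLA, hq1, herr⟩ := hX2 x ((le_max_right _ _).trans hx)
  have hden' := hden x ((le_max_left _ _).trans hx)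
  set L : ℝ := Real.log x with hL
  have hL0 : 0 < L := by linarith
  have hx0 : 0 < x := by linarith
  have hHne : H.Nonempty := by
    rw [← Finset.card_pos]; omega
  set M : ℤ := H.max' hHne with hMd
  have hM : M ∈ H := Finset.max'_mem _ _
  have hmax : ∀ h ∈ H, h ≤ M := fun h hh => Finset.le_max' _ _ hh
  set K : Finset ℕ := H.image (fun h => (M - h).toNat) with hK
  have hKcast : K.image (fun h : ℕ => (h : ℤ)) = H.image (fun h => M - h) := by
    rw [hK, Finset.image_image]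
    refine Finset.image_congr fun h hh => ?_
    have := hmax h hh
    simp only [Function.comp]
    exact Int.toNat_of_nonneg (by omega)
  have hcardK : K.card = k := by
    rw [hK, Finset.card_image_of_injOn, hcard]
    intro a ha b hb he
    have h1 := hmax a ha
    have h2 := hmax b hb
    simp only at he
    omega
  have hnu : ∀ p : ℕ, nuH (K.image (fun h : ℕ => (h : ℤ))) p = nuH H p := by
    intro p
    rw [hKcast, SIE_nu_reflect]
  have hnu' : ∀ p : ℕ, (K.image (fun h => h % p)).card = nuH H p := by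
    intro p
    rw [← SIE_nu_cast, hnu]
  have hadmK : ∀ p : ℕ, p.Prime → (K.image (fun h => h % p)).card < p := by
    intro p hp
    rw [hnu']
    exact hadm p hp
  have hKb : ∀ h ∈ K, (h : ℝ) ≤ 2 * L ^ A := by
    intro h' hh'
    rw [hK, Finset.mem_image] at hh'
    obtain ⟨h, hh, rfl⟩ := hh'
    have h1 := hmax h hh
    have h2 : (((M - h).toNat : ℕ) : ℤ) = M - h := Int.toNat_of_nonneg (by omega)
    have h3 : (((M - h).toNat : ℕ) : ℝ) = (M : ℝ) - h := by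
      rw [← Int.cast_natCast, h2]; push_cast; ring
    rw [h3]
    have h4 := hHb h hh
    have h5 := hHb M hM
    have h6 := (abs_le.1 h4).1
    have h7 := (abs_le.1 h5).2
    linarith
  have hsing : sing (K.image (fun h : ℕ => (h : ℤ))) = sing H := by
    refine SIE_sing_congr ?_ hnu
    rw [Finset.card_image_of_injective _ (Nat.cast_injective (R := ℤ)), hcardK, hcard]
  have hd := hden' K hcardK hadmK hKb
  rw [hsing] at hd
  set z : ℕ := ⌊x ^ (1 / 4 : ℝ)⌋₊ with hz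
  set G : ℝ := Op (PP z) (hfK K) one1 z with hG
  have hS : c1 ≤ sing H := hsl H hcard hadm
  have hSpos : 0 < sing H := lt_of_lt_of_le hc1 hS
  have hGpos : 0 < G := by
    have h2 : 0 < sing H * G := lt_of_lt_of_le (by positivity) hd
    exact (mul_pos_iff_of_pos_left hSpos).mp h2
  have hz1 : 1 ≤ z := Nat.le_floor (by simpa using hq1)
  have hzle : (z : ℝ) ≤ x ^ (1 / 4 : ℝ) := Nat.floor_le (by positivity)
  -- the sieve
  set B : ℕ := ⌈L ^ A⌉₊ with hB
  have hLA0 : 0 ≤ L ^ A := by positivity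
  have hBle : (B : ℝ) ≤ x := by
    have := Nat.ceil_lt_add_one hLA0
    linarith
  have hMB : -(B : ℤ) ≤ M := by
    have h1 := (abs_le.1 (hHb M hM)).1
    have h2 : L ^ A ≤ B := Nat.le_ceil _
    have h3 : (-(B : ℤ) : ℝ) ≤ (M : ℝ) := by push_cast; linarith
    exact_mod_cast h3
  have hcount := SIE_count (x := x) hM hmax hMB
  have hsel := tuple_selberg K (hHne.image _) (⌊x⌋₊ + B) z hz1 hadmK
  have hcount' : (cnt x H : ℝ) ≤ z + ((⌊x⌋₊ + B : ℕ) : ℝ) * G⁻¹ +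
      (∑ l ∈ (Nat.divisors (WW z)).filter (fun l => l ≤ z), (K.card : ℝ) ^ l.primeFactors.card) ^ 2 :=
    le_trans (by exact_mod_cast hcount) hsel
  -- the main term
  have hN : ((⌊x⌋₊ + B : ℕ) : ℝ) ≤ 2 * x := by
    push_cast
    have := Nat.floor_le hx0.le
    linarith
  have hmain : ((⌊x⌋₊ + B : ℕ) : ℝ) * G⁻¹ ≤ 4 / c * (sing H * x / L ^ k) := by
    have h1 : G⁻¹ ≤ sing H / (c * L ^ k) := by
      rw [inv_eq_one_div, div_le_div_iff₀ hGpos (by positivity)]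
      linarith
    calc ((⌊x⌋₊ + B : ℕ) : ℝ) * G⁻¹ ≤ (2 * x) * (sing H / (c * L ^ k)) := by gcongr
      _ = 2 / c * (sing H * x / L ^ k) := by field_simp
      _ ≤ 4 / c * (sing H * x / L ^ k) := by
          gcongr
          norm_num
  -- the error term
  have hsum : (∑ l ∈ (Nat.divisors (WW z)).filter (fun l => l ≤ z), (K.card : ℝ) ^ l.primeFactors.card) ≤
      C1 * x ^ (3 / 8 : ℝ) := by
    rw [hcardK]
    have h1 : (∑ l ∈ (Nat.divisors (WW z)).filter (fun l => l ≤ z), (k : ℝ) ^ l.primeFactors.card)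
        ≤ ∑ l ∈ (Nat.divisors (WW z)).filter (fun l => l ≤ z), C1 * (z : ℝ) ^ (1 / 2 : ℝ) := by
      apply Finset.sum_le_sum
      intro l hl
      rw [Finset.mem_filter, Nat.mem_divisors] at hl
      have hl0 : l ≠ 0 := ne_zero_of_dvd_ne_zero (WW_pos z).ne' hl.1.1
      refine (hom l hl0).trans ?_
      have : (l : ℝ) ≤ z := by exact_mod_cast hl.2
      gcongr
    refine h1.trans ?_
    rw [Finset.sum_const, nsmul_eq_mul]
    have h2 : ((Nat.divisors (WW z)).filter (fun l => l ≤ z)).card ≤ z := by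
      calc _ ≤ (Finset.Icc 1 z).card := by
            apply Finset.card_le_card
            intro l hl
            rw [Finset.mem_filter, Nat.mem_divisors] at hl
            have hl0 : l ≠ 0 := ne_zero_of_dvd_ne_zero (WW_pos z).ne' hl.1.1
            rw [Finset.mem_Icc]
            exact ⟨Nat.pos_of_ne_zero hl0, hl.2⟩
        _ = z := by simp
    have h3 : (((Nat.divisors (WW z)).filter (fun l => l ≤ z)).card : ℝ) ≤ x ^ (1 / 4 : ℝ) :=
      le_trans (by exact_mod_cast h2) hzle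
    calc (((Nat.divisors (WW z)).filter (fun l => l ≤ z)).card : ℝ) * (C1 * (z : ℝ) ^ (1 / 2 : ℝ))
        ≤ x ^ (1 / 4 : ℝ) * (C1 * (x ^ (1 / 4 : ℝ)) ^ (1 / 2 : ℝ)) := by gcongr
      _ = C1 * (x ^ (1 / 4 : ℝ) * x ^ (1 / 8 : ℝ)) := by
          rw [← Real.rpow_mul hx0.le]; norm_num; ring
      _ = C1 * x ^ (3 / 8 : ℝ) := by rw [← Real.rpow_add hx0]; norm_num
  have hsum2 : (∑ l ∈ (Nat.divisors (WW z)).filter (fun l => l ≤ z), (K.card : ℝ) ^ l.primeFactors.card) ^ 2 ≤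
      C1 ^ 2 * x ^ (3 / 4 : ℝ) := by
    have h1 : 0 ≤ (∑ l ∈ (Nat.divisors (WW z)).filter (fun l => l ≤ z), (K.card : ℝ) ^ l.primeFactors.card) :=
      Finset.sum_nonneg (fun _ _ => by positivity)
    calc _ ≤ (C1 * x ^ (3 / 8 : ℝ)) ^ 2 := by gcongr
      _ = C1 ^ 2 * x ^ (3 / 4 : ℝ) := by
          rw [mul_pow, ← Real.rpow_natCast (x ^ (3 / 8 : ℝ)) 2, ← Real.rpow_mul hx0.le]
          norm_num
  have herr' : x ^ (1 / 4 : ℝ) + C1 ^ 2 * x ^ (3 / 4 : ℝ) ≤ sing H * x / L ^ k := by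
    rw [le_div_iff₀ (by positivity)]
    have h1 : c1 * x ≤ sing H * x := by gcongr
    linarith
  have : (4 / c + 1) * (sing H * x / L ^ k) = 4 / c * (sing H * x / L ^ k) + sing H * x / L ^ k := by ring
  rw [this]
  linarith

end Pool.Agent.H6.MF
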