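import Pool.Agent.H6.MF.M4X
import Pool.Agent.H6.MF.FMO
import Pool.Agent.H6.MF.JEN
import Pool.Agent.H6.MF.SAT
import Pool.Agent.H6.MF.SIE

/-!
# M4A: upper bound for a mixed moment from `Mean4`

`h = ⌊δ Λ^2⌋₊`, `ℓ = ⌊τ Λ^3⌋₊` (`δ, τ ≤ 1/2`), `Z(n) = win 0 h n`, `Y_c(n) = win (-c) (ℓ - c) n`, `0 ≤ c < ℓ`.

1. (`mixed_le`, combinatorial) `∑_{n ≤ N} C(Z(n),3) Y_c(n) ≤ ∑_{0 < b₁ < b₂ < b₃ ≤ h}
   (∑_{b' ∈ Ioc (-c-b₁) (ℓ-c-b₁) \ H'} cnt x (insert b' H') + 3 cnt x H')`, `H' = {0, b₂-b₁, b₃-b₁}`: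
   the left side is the sum over `b₁ < b₂ < b₃ ≤ h`, `b ∈ Ioc (-c) (ℓ-c)` of
   `#{n ≤ N : n-b₁, n-b₂, n-b₃, n-b prime}`, for `b ∉ {b₁,b₂,b₃}` this is
   `cnt x {b,b₁,b₂,b₃} ≤ cnt x (tr _ (-b₁)) = cnt x (insert (b-b₁) H')` (`cnt_tr_le` with the element `b₁ ≥ 0`), and
   for `b ∈ {b₁,b₂,b₃}` it is `≤ cnt x H'`.
2. Let `(d', d) = (b₂ - b₁, b₃ - b₁)`. If `d'` and `d` are even and `H' = {0,d',d}` is admissible: `Mean4` with
   `u = -c-b₁`, `v = ℓ-c-b₁` (`|u|, |v| ≤ ℓ + h ≤ Λ^3` for large `x`, length `ℓ ≥ (τ/2) Λ^3`):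
   `∑_{b'} cnt x (insert b' H') ≤ (1+ε') (∑_{b'} sing (insert b' H')) x/Λ^4 ≤ (1+ε')^2 ℓ sing H' x/Λ^4`
   (`SAV`, `k = 3`, `A = 3`, `Y = Λ`); `3 cnt x H' ≤ 3 C sing H' x/Λ^3 ≤ ε' ℓ sing H' x/Λ^4` (`SIE`, `k = 3`, `A = 2`).
   Otherwise `H'` is not admissible (`not_adm_of_odd`), nor is `insert b' H'` (`adm_anti`), each count is `≤ 4`,
   in total for all such triples `≤ h^3 (4 ℓ + 9)`, negligible: `≤ ε' δ^3 Λ^6 τ Λ^3 x/Λ^4`.
3. `∑_{b₁<b₂<b₃ ≤ h} sing {0, b₂-b₁, b₃-b₁} = ∑_{d ≤ h} ∑_{d' < d} (h - d) sing {0,d',d} ≤ (1+ε') h^3/6` (`SAV3`).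
   So `∑_n C(Z,3) Y_c ≤ (1 + 5 ε') (h^3/6) ℓ x/Λ^4`.
4. `cube_le` with `T` a large constant: `(1 - 1/T) ∑ Z^3 Y_c ≤ 6 ∑ C(Z,3) Y_c + 27 T^2 ∑ Y_c` and
   `∑_{n ≤ N} Y_c(n) ≤ 2 ℓ x/Λ` (`FMO`, `k = 3`), negligible because `(h/Λ)^3 → ∞`.
   Finally `h ≤ δ Λ^2`, `ℓ ≤ τ Λ^3`.
-/

set_option autoImplicit false

namespace Pool.Agent.H6.MF

open Finset

theorem M4A_pow_le (C : ℝ) (m : ℕ) : ∀ᶠ x : ℝ in Filter.atTop, C * (Real.log x) ^ m ≤ x := by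
  have h := Real.isLittleO_pow_log_id_atTop (n := m)
  have hc : (0 : ℝ) < 1 / (|C| + 1) := by positivity
  filter_upwards [h.bound hc, Filter.eventually_ge_atTop (0 : ℝ)] with x hx hx0
  simp only [id_eq, Real.norm_eq_abs, abs_of_nonneg hx0] at hx
  calc C * (Real.log x) ^ m ≤ |C * (Real.log x) ^ m| := le_abs_self _
    _ = |C| * |(Real.log x) ^ m| := abs_mul _ _
    _ ≤ |C| * (1 / (|C| + 1) * x) := mul_le_mul_of_nonneg_left hx (abs_nonneg _)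
    _ = |C| / (|C| + 1) * x := by ring
    _ ≤ 1 * x := by
        refine mul_le_mul_of_nonneg_right ?_ hx0
        rw [div_le_one (by positivity)]
        linarith
    _ = x := one_mul x

theorem M4A_inadm (x : ℝ) (H' : Finset ℤ) (hH : ¬ adm H') (hc : H'.card ≤ 3) (u v : ℤ) (L : ℕ)
    (huv : v - u = L) :
    (∑ b' ∈ Finset.Ioc u v \ H', (cnt x (insert b' H') : ℝ)) + 3 * (cnt x H' : ℝ)
      ≤ 4 * (L : ℝ) + 9 := by
  have h1 : ∀ b' ∈ Finset.Ioc u v \ H', (cnt x (insert b' H') : ℝ) ≤ 4 := by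
    intro b' _
    have h2 : ¬ adm (insert b' H') := fun h => hH (adm_anti (Finset.subset_insert _ _) h)
    have h3 := cnt_inadm x h2
    have h4 : (insert b' H').card ≤ 4 := (Finset.card_insert_le _ _).trans (by omega)
    exact_mod_cast h3.trans h4
  have h5 := Finset.sum_le_card_nsmul _ _ _ h1
  have h6 : (Finset.Ioc u v \ H').card ≤ L := by
    refine (Finset.card_le_card Finset.sdiff_subset).trans ?_
    rw [Int.card_Ioc, huv]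
    simp
  have h7 : (cnt x H' : ℝ) ≤ 3 := by
    exact_mod_cast (cnt_inadm x hH).trans hc
  have h8 : ((Finset.Ioc u v \ H').card : ℝ) ≤ L := by exact_mod_cast h6
  rw [nsmul_eq_mul] at h5
  linarith

theorem M4A_card {d d' : ℕ} (h1 : 1 ≤ d') (h2 : d' < d) : ({0, (d' : ℤ), (d : ℤ)} : Finset ℤ).card = 3 := by
  rw [Finset.card_insert_of_notMem, Finset.card_insert_of_notMem, Finset.card_singleton]
  · simp only [Finset.mem_singleton]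
    omega
  · simp only [Finset.mem_insert, Finset.mem_singleton]
    omega

theorem M4A_triple (hM : Mean4) (e : ℝ) (he : 0 < e) (δ τ : ℝ) (hδ : 0 < δ) (hδ2 : δ ≤ 1 / 2)
    (hτ : 0 < τ) (hτ2 : τ ≤ 1 / 2) :
    ∃ X : ℝ, ∀ x : ℝ, X ≤ x → ∀ c d d' b : ℕ, c < ⌊τ * (Real.log x) ^ 3⌋₊ → 1 ≤ d' → d' < d →
      d + b ≤ ⌊δ * (Real.log x) ^ 2⌋₊ →
      (∑ b' ∈ Finset.Ioc (-(c : ℤ) - b) ((⌊τ * (Real.log x) ^ 3⌋₊ : ℤ) - c - b) \ {0, (d' : ℤ), (d : ℤ)},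
          (cnt x (insert b' {0, (d' : ℤ), (d : ℤ)}) : ℝ)) + 3 * (cnt x {0, (d' : ℤ), (d : ℤ)} : ℝ)
        ≤ ((1 + e) ^ 2 + e) * ((⌊τ * (Real.log x) ^ 3⌋₊ : ℝ) * sing {0, (d' : ℤ), (d : ℤ)} * x
            / (Real.log x) ^ 4) + (4 * (⌊τ * (Real.log x) ^ 3⌋₊ : ℝ) + 9) := by
  obtain ⟨X1, hX1⟩ := hM e he (τ / 2) (by positivity)
  obtain ⟨Y0, hY0⟩ := SAV 3 (by norm_num) 3 e he
  obtain ⟨C, X2, hC, hX2⟩ := SIE 3 2 (by norm_num)
  have hl := Real.tendsto_log_atTop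
  have hev : ∀ᶠ x : ℝ in Filter.atTop, X1 ≤ x ∧ X2 ≤ x ∧ 1 ≤ x ∧ Y0 ≤ Real.log x ∧ 1 ≤ Real.log x ∧
      2 / τ ≤ Real.log x ∧ 6 * C / (e * τ) ≤ Real.log x := by
    filter_upwards [Filter.eventually_ge_atTop X1, Filter.eventually_ge_atTop X2,
      Filter.eventually_ge_atTop (1 : ℝ), hl.eventually_ge_atTop Y0, hl.eventually_ge_atTop 1,
      hl.eventually_ge_atTop (2 / τ), hl.eventually_ge_atTop (6 * C / (e * τ))]
      with x a1 a2 a3 a4 a5 a6 a7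
    exact ⟨a1, a2, a3, a4, a5, a6, a7⟩
  obtain ⟨X, hX⟩ := Filter.eventually_atTop.mp hev
  refine ⟨X, fun x hx c d d' b hc hd1 hdd hdb => ?_⟩
  obtain ⟨a1, a2, a3, a4, a5, a6, a7⟩ := hX x hx
  have hcard := M4A_card hd1 hdd
  by_cases hA : Even d ∧ Even d' ∧ adm {0, (d' : ℤ), (d : ℤ)}
  · obtain ⟨hed, hed', hadm⟩ := hA
    have hsing : 0 ≤ sing {0, (d' : ℤ), (d : ℤ)} := sing_nonneg _
    have hsing0 : sing {0, (d' : ℤ), (d : ℤ)} ≠ 0 := (sing_ne_zero_iff _).mpr hadm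
    -- size facts
    have hΛ2 : (1 : ℝ) ≤ Real.log x ^ 2 := one_le_pow₀ a5
    have hΛ3 : Real.log x ≤ Real.log x ^ 3 := by nlinarith
    have hΛ23 : Real.log x ^ 2 ≤ Real.log x ^ 3 := pow_le_pow_right₀ a5 (by norm_num)
    have hΛpos : 0 < Real.log x := by linarith
    have hfl : ((⌊τ * Real.log x ^ 3⌋₊ : ℕ) : ℝ) ≤ τ * Real.log x ^ 3 :=
      Nat.floor_le (by positivity)
    have hflh : ((⌊δ * Real.log x ^ 2⌋₊ : ℕ) : ℝ) ≤ δ * Real.log x ^ 2 :=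
      Nat.floor_le (by positivity)
    have hτΛ : 2 ≤ τ * Real.log x := by
      rw [div_le_iff₀ hτ] at a6
      linarith
    have hτΛ3 : τ * Real.log x * 1 ≤ τ * Real.log x * Real.log x ^ 2 :=
      mul_le_mul_of_nonneg_left hΛ2 (by positivity)
    have hlow : τ / 2 * Real.log x ^ 3 ≤ ((⌊τ * Real.log x ^ 3⌋₊ : ℕ) : ℝ) := by
      have h1 := Nat.lt_floor_add_one (τ * Real.log x ^ 3)
      have h2 : τ * Real.log x ^ 3 = τ * Real.log x * Real.log x ^ 2 := by ring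
      linarith
    have hlowΛ : Real.log x ≤ ((⌊τ * Real.log x ^ 3⌋₊ : ℕ) : ℝ) := by
      refine le_trans ?_ hlow
      have h2 : τ / 2 * Real.log x ^ 3 = (τ * Real.log x / 2) * Real.log x * Real.log x := by ring
      rw [h2]
      have h3 : 1 * Real.log x * 1 ≤ (τ * Real.log x / 2) * Real.log x * Real.log x := by
        have h4 : 1 * Real.log x ≤ (τ * Real.log x / 2) * Real.log x :=
          mul_le_mul_of_nonneg_right (by linarith) hΛpos.le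
        exact mul_le_mul h4 a5 zero_le_one (by positivity)
      linarith
    have hCe : 3 * C * Real.log x ≤ e * ((⌊τ * Real.log x ^ 3⌋₊ : ℕ) : ℝ) := by
      rw [div_le_iff₀ (by positivity)] at a7
      have h1 : e * (τ / 2 * Real.log x ^ 3) ≤ e * ((⌊τ * Real.log x ^ 3⌋₊ : ℕ) : ℝ) :=
        mul_le_mul_of_nonneg_left hlow he.le
      refine le_trans ?_ h1
      have h2 : 6 * C * 1 ≤ Real.log x * (e * τ) * Real.log x :=
        mul_le_mul a7 a5 zero_le_one (by positivity)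
      have h3 : 3 * C * Real.log x = (6 * C * 1) * (Real.log x / 2) := by ring
      have h4 : e * (τ / 2 * Real.log x ^ 3) = (Real.log x * (e * τ) * Real.log x) * (Real.log x / 2) := by
        ring
      rw [h3, h4]
      exact mul_le_mul_of_nonneg_right h2 (by positivity)
    have hcR : (c : ℝ) ≤ ((⌊τ * Real.log x ^ 3⌋₊ : ℕ) : ℝ) := by exact_mod_cast hc.le
    have hdbR : (d : ℝ) + b ≤ ((⌊δ * Real.log x ^ 2⌋₊ : ℕ) : ℝ) := by exact_mod_cast hdb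
    have hc0 : (0 : ℝ) ≤ c := Nat.cast_nonneg _
    have hb0 : (0 : ℝ) ≤ b := Nat.cast_nonneg _
    have hd0 : (0 : ℝ) ≤ d := Nat.cast_nonneg _
    have hd'R : (d' : ℝ) ≤ d := by exact_mod_cast hdd.le
    have hd'0 : (0 : ℝ) ≤ d' := Nat.cast_nonneg _
    have hτΛb : τ * Real.log x ^ 3 ≤ 1 / 2 * Real.log x ^ 3 :=
      mul_le_mul_of_nonneg_right hτ2 (by positivity)
    have hδΛb : δ * Real.log x ^ 2 ≤ 1 / 2 * Real.log x ^ 2 :=
      mul_le_mul_of_nonneg_right hδ2 (by positivity)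
    have hdΛ : (d : ℝ) ≤ Real.log x ^ 2 := by linarith
    have hdΛ3 : (d : ℝ) ≤ Real.log x ^ 3 := by linarith
    have hu : |((-(c : ℤ) - b : ℤ) : ℝ)| ≤ Real.log x ^ 3 := by
      push_cast
      rw [abs_le]
      constructor <;> linarith
    have hv : |(((⌊τ * Real.log x ^ 3⌋₊ : ℤ) - c - b : ℤ) : ℝ)| ≤ Real.log x ^ 3 := by
      push_cast
      rw [abs_le]
      constructor <;> linarith
    have huv : (((⌊τ * Real.log x ^ 3⌋₊ : ℤ) - c - b : ℤ) : ℝ) - ((-(c : ℤ) - b : ℤ) : ℝ)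
        = ((⌊τ * Real.log x ^ 3⌋₊ : ℕ) : ℝ) := by
      push_cast
      ring
    have hd'2 : 2 ≤ d' := by
      obtain ⟨r, hr⟩ := hed'
      omega
    have hM1 := hX1 x a1 d d' hed hed' hd'2 hdd hdΛ hsing0 (-(c : ℤ) - b)
      ((⌊τ * Real.log x ^ 3⌋₊ : ℤ) - c - b) hu hv (by rw [huv]; exact hlow)
    have hmemH : ∀ h ∈ ({0, (d' : ℤ), (d : ℤ)} : Finset ℤ), |(h : ℝ)| ≤ (d : ℝ) := by
      intro h hh
      simp only [Finset.mem_insert, Finset.mem_singleton] at hh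
      rcases hh with rfl | rfl | rfl
      · simp
      · push_cast
        rw [abs_of_nonneg hd'0]
        exact hd'R
      · push_cast
        rw [abs_of_nonneg hd0]
    have hS1 := hY0 (Real.log x) a4 {0, (d' : ℤ), (d : ℤ)} hcard hadm
      (fun h hh => (hmemH h hh).trans hdΛ3) (-(c : ℤ) - b) ((⌊τ * Real.log x ^ 3⌋₊ : ℤ) - c - b) hu hv
      (by rw [huv]; exact hlowΛ)
    have hC1 := hX2 x a2 {0, (d' : ℤ), (d : ℤ)} hcard hadm (fun h hh => (hmemH h hh).trans hdΛ)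
    rw [huv] at hS1
    set ℓ : ℝ := ((⌊τ * Real.log x ^ 3⌋₊ : ℕ) : ℝ) with hℓ
    set Sg : ℝ := sing {0, (d' : ℤ), (d : ℤ)} with hSg
    set Q : ℝ := ∑ b' ∈ Finset.Ioc (-(c : ℤ) - b) ((⌊τ * (Real.log x) ^ 3⌋₊ : ℤ) - c - b) \ {0, (d' : ℤ), (d : ℤ)},
          (cnt x (insert b' {0, (d' : ℤ), (d : ℤ)}) : ℝ) with hQ
    set G : ℝ := ∑ b' ∈ Finset.Ioc (-(c : ℤ) - b) ((⌊τ * (Real.log x) ^ 3⌋₊ : ℤ) - c - b) \ {0, (d' : ℤ), (d : ℤ)},
          sing (insert b' {0, (d' : ℤ), (d : ℤ)}) with hG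
    have hx0 : 0 ≤ x := by linarith
    have hℓ0 : 0 ≤ ℓ := by rw [hℓ]; positivity
    have e1 : Q ≤ (1 + e) * (G * x / Real.log x ^ 4) := by
      have := (abs_le.mp hM1).2
      linarith
    have e2 : G ≤ (1 + e) * (ℓ * Sg) := by
      have := (abs_le.mp hS1).2
      linarith
    have hw : 0 ≤ x / Real.log x ^ 4 := by positivity
    have e3 : G * x / Real.log x ^ 4 ≤ (1 + e) * (ℓ * Sg) * (x / Real.log x ^ 4) := by
      rw [mul_div_assoc]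
      exact mul_le_mul_of_nonneg_right e2 hw
    have e4 : Q ≤ (1 + e) * ((1 + e) * (ℓ * Sg) * (x / Real.log x ^ 4)) :=
      e1.trans (mul_le_mul_of_nonneg_left e3 (by linarith))
    have e5 : 3 * (C * (Sg * x / Real.log x ^ 3)) ≤ e * (ℓ * Sg * x / Real.log x ^ 4) := by
      have h1 : 3 * (C * (Sg * x / Real.log x ^ 3)) = (3 * C * Real.log x) * (Sg * (x / Real.log x ^ 4)) := by
        field_simp
      have h2 : e * (ℓ * Sg * x / Real.log x ^ 4) = (e * ℓ) * (Sg * (x / Real.log x ^ 4)) := by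
        ring
      rw [h1, h2]
      exact mul_le_mul_of_nonneg_right hCe (mul_nonneg hsing hw)
    have e6 : (1 + e) * ((1 + e) * (ℓ * Sg) * (x / Real.log x ^ 4))
        = (1 + e) ^ 2 * (ℓ * Sg * x / Real.log x ^ 4) := by ring
    have e7 : ((1 + e) ^ 2 + e) * (ℓ * Sg * x / Real.log x ^ 4)
        = (1 + e) ^ 2 * (ℓ * Sg * x / Real.log x ^ 4) + e * (ℓ * Sg * x / Real.log x ^ 4) := by ring
    rw [e7]
    rw [e6] at e4
    linarith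
  · have hnadm : ¬ adm {0, (d' : ℤ), (d : ℤ)} := by
      intro hadm
      apply hA
      refine ⟨?_, ?_, hadm⟩
      · by_contra hodd
        rw [Nat.not_even_iff_odd] at hodd
        refine not_adm_of_odd (H := {0, (d' : ℤ), (d : ℤ)}) (b := (d : ℤ)) ?_ ?_ ?_ hadm
        · simp
        · simp
        · exact_mod_cast hodd
      · by_contra hodd
        rw [Nat.not_even_iff_odd] at hodd
        refine not_adm_of_odd (H := {0, (d' : ℤ), (d : ℤ)}) (b := (d' : ℤ)) ?_ ?_ ?_ hadm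
        · simp
        · simp
        · exact_mod_cast hodd
    have h1 := M4A_inadm x {0, (d' : ℤ), (d : ℤ)} hnadm hcard.le (-(c : ℤ) - b)
      ((⌊τ * Real.log x ^ 3⌋₊ : ℤ) - c - b) ⌊τ * Real.log x ^ 3⌋₊ (by ring)
    refine h1.trans ?_
    have hsing : 0 ≤ sing {0, (d' : ℤ), (d : ℤ)} := sing_nonneg _
    have : 0 ≤ ((1 + e) ^ 2 + e) * ((⌊τ * (Real.log x) ^ 3⌋₊ : ℝ) * sing {0, (d' : ℤ), (d : ℤ)} * x
            / (Real.log x) ^ 4) := by positivity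
    linarith

theorem M4A (hM : Mean4) : ∀ ε : ℝ, 0 < ε → ∀ δ : ℝ, 0 < δ → δ ≤ 1 / 2 → ∀ τ : ℝ, 0 < τ → τ ≤ 1 / 2 →
    ∃ X : ℝ, ∀ x : ℝ, X ≤ x → ∀ c : ℕ, c < ⌊τ * (Real.log x) ^ 3⌋₊ →
    ∑ n ∈ Finset.range (⌊x⌋₊ + 1), ((win 0 (⌊δ * (Real.log x) ^ 2⌋₊ : ℤ) (n : ℤ) : ℝ) ^ 3
        * (win (-(c : ℤ)) ((⌊τ * (Real.log x) ^ 3⌋₊ : ℤ) - c) (n : ℤ) : ℝ))
      ≤ (1 + ε) * ((δ * Real.log x) ^ 3 * (τ * (Real.log x) ^ 2) * x) := by
  intro ε hε δ hδ hδ2 τ hτ hτ2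
  -- parameters
  obtain ⟨e, he, he20, heε⟩ : ∃ e : ℝ, 0 < e ∧ e ≤ 1 / 20 ∧ 20 * e ≤ ε := by
    refine ⟨min ε 1 / 20, by positivity, ?_, ?_⟩
    · have := min_le_right ε 1
      linarith
    · have := min_le_left ε 1
      linarith
  have hK : ((1 + e) ^ 2 + e) * (1 + e) + 2 * e ≤ (1 + ε) * (1 - e) := by
    have h1 : (1 + 20 * e) * (1 - e) ≤ (1 + ε) * (1 - e) :=
      mul_le_mul_of_nonneg_right (by linarith) (by linarith)
    refine le_trans ?_ h1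
    nlinarith [mul_pos he he, mul_pos he (mul_pos he he)]
  obtain ⟨X1, hX1⟩ := M4A_triple hM e he δ τ hδ hδ2 hτ hτ2
  obtain ⟨Y3, hY3⟩ := SAV3 2 e he
  obtain ⟨X2, hX2⟩ := FMO 3 1 one_pos
  have hl := Real.tendsto_log_atTop
  have hev : ∀ᶠ x : ℝ in Filter.atTop, X1 ≤ x ∧ X2 ≤ x ∧ 1 ≤ x ∧ Y3 ≤ Real.log x ∧ 1 ≤ Real.log x ∧
      2 / δ ≤ Real.log x ∧ 54 * (1 / e) ^ 2 / (e * δ ^ 3) ≤ Real.log x ∧
      6 * (4 * τ + 9) / (e * τ) * (Real.log x) ^ 4 ≤ x := by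
    filter_upwards [Filter.eventually_ge_atTop X1, Filter.eventually_ge_atTop X2,
      Filter.eventually_ge_atTop (1 : ℝ), hl.eventually_ge_atTop Y3, hl.eventually_ge_atTop 1,
      hl.eventually_ge_atTop (2 / δ), hl.eventually_ge_atTop (54 * (1 / e) ^ 2 / (e * δ ^ 3)),
      M4A_pow_le (6 * (4 * τ + 9) / (e * τ)) 4] with x a1 a2 a3 a4 a5 a6 a7 a8
    exact ⟨a1, a2, a3, a4, a5, a6, a7, a8⟩
  obtain ⟨X, hX⟩ := Filter.eventually_atTop.mp hev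
  refine ⟨X, fun x hx c hc => ?_⟩
  obtain ⟨a1, a2, a3, a4, a5, a6, a7, a8⟩ := hX x hx
  have hΛpos : 0 < Real.log x := by linarith
  have hx0 : 0 ≤ x := by linarith
  have hΛ2 : (1 : ℝ) ≤ Real.log x ^ 2 := one_le_pow₀ a5
  have hΛ3 : (1 : ℝ) ≤ Real.log x ^ 3 := one_le_pow₀ a5
  have htrip := hX1 x a1 c
  have hfmo := hX2 x a2 (-(c : ℤ)) ((⌊τ * (Real.log x) ^ 3⌋₊ : ℤ) - c)
  have hmix := mixed_le x ⌊δ * (Real.log x) ^ 2⌋₊ ⌊τ * (Real.log x) ^ 3⌋₊ c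
  have hsav := hY3 (Real.log x) a4 ⌊δ * (Real.log x) ^ 2⌋₊
  have hflℓ : ((⌊τ * Real.log x ^ 3⌋₊ : ℕ) : ℝ) ≤ τ * Real.log x ^ 3 := Nat.floor_le (by positivity)
  have hflh : ((⌊δ * Real.log x ^ 2⌋₊ : ℕ) : ℝ) ≤ δ * Real.log x ^ 2 := Nat.floor_le (by positivity)
  have hflh' := Nat.lt_floor_add_one (δ * Real.log x ^ 2)
  generalize hh : ⌊δ * (Real.log x) ^ 2⌋₊ = h at *
  generalize hLL : ⌊τ * (Real.log x) ^ 3⌋₊ = ℓ at *
  have hcR : (c : ℝ) ≤ (ℓ : ℝ) := by exact_mod_cast hc.le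
  have hc0 : (0 : ℝ) ≤ c := Nat.cast_nonneg _
  have hℓ0 : (0 : ℝ) ≤ ℓ := Nat.cast_nonneg _
  have hh0 : (0 : ℝ) ≤ h := Nat.cast_nonneg _
  have hτΛb : τ * Real.log x ^ 3 ≤ 1 / 2 * Real.log x ^ 3 :=
    mul_le_mul_of_nonneg_right hτ2 (by positivity)
  have hδΛb : δ * Real.log x ^ 2 ≤ 1 / 2 * Real.log x ^ 2 :=
    mul_le_mul_of_nonneg_right hδ2 (by positivity)
  -- step: the sum of C(Z,3) Y
  have hhY : Real.log x ≤ (h : ℝ) := by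
    rw [div_le_iff₀ hδ] at a6
    have h1 : δ * Real.log x ^ 2 = Real.log x * δ * Real.log x := by ring
    have h2 : 2 * Real.log x ≤ Real.log x * δ * Real.log x := mul_le_mul_of_nonneg_right a6 hΛpos.le
    linarith
  have hhY2 : (h : ℝ) ≤ Real.log x ^ 2 := by linarith
  have hsav' := hsav hhY hhY2
  have hw : 0 ≤ x / Real.log x ^ 4 := by positivity
  set K : ℝ := (1 + e) ^ 2 + e with hKdef
  have hK0 : 0 ≤ K := by positivity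
  have hS1 : ∑ n ∈ Finset.range (⌊x⌋₊ + 1), (((win 0 (h : ℤ) (n : ℤ)).choose 3 : ℝ)
      * (win (-(c : ℤ)) ((ℓ : ℤ) - c) (n : ℤ) : ℝ))
      ≤ K * (ℓ * (x / Real.log x ^ 4)) * ((1 + e) * ((h : ℝ) ^ 3 / 6)) + (h : ℝ) ^ 3 * (4 * ℓ + 9) := by
    refine hmix.trans ?_
    obtain ⟨W, hW⟩ : ∃ W : ℝ, W = (h : ℝ) * (4 * ℓ + 9) := ⟨_, rfl⟩
    have hb : ∀ d ∈ Finset.Icc 1 h, ∀ d' ∈ Finset.Ico 1 d,
        (∑ b₁ ∈ Finset.Icc 1 (h - d),
          (∑ b ∈ Finset.Ioc (-(c : ℤ) - b₁) ((ℓ : ℤ) - c - b₁) \ {0, (d' : ℤ), (d : ℤ)},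
              (cnt x (insert b {0, (d' : ℤ), (d : ℤ)}) : ℝ) + 3 * (cnt x {0, (d' : ℤ), (d : ℤ)} : ℝ)))
        ≤ K * (ℓ * (x / Real.log x ^ 4)) * (((h : ℝ) - d) * sing {0, (d' : ℤ), (d : ℤ)})
            + W := by
      intro d hd d' hd'
      rw [hW]
      rw [Finset.mem_Icc] at hd
      rw [Finset.mem_Ico] at hd'
      have hterm : ∀ b₁ ∈ Finset.Icc 1 (h - d),
          (∑ b ∈ Finset.Ioc (-(c : ℤ) - b₁) ((ℓ : ℤ) - c - b₁) \ {0, (d' : ℤ), (d : ℤ)},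
              (cnt x (insert b {0, (d' : ℤ), (d : ℤ)}) : ℝ) + 3 * (cnt x {0, (d' : ℤ), (d : ℤ)} : ℝ))
          ≤ K * ((ℓ : ℝ) * sing {0, (d' : ℤ), (d : ℤ)} * x / (Real.log x) ^ 4) + (4 * (ℓ : ℝ) + 9) := by
        intro b₁ hb₁
        rw [Finset.mem_Icc] at hb₁
        exact htrip d d' b₁ hc hd'.1 hd'.2 (by omega)
      have h1 := Finset.sum_le_card_nsmul _ _ _ hterm
      rw [Nat.card_Icc, nsmul_eq_mul] at h1
      refine h1.trans ?_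
      have h2 : ((h - d + 1 - 1 : ℕ) : ℝ) = (h : ℝ) - d := by
        rw [Nat.add_sub_cancel, Nat.cast_sub hd.2]
      rw [h2]
      have h3 : (h : ℝ) - d ≤ h := by
        have : (0 : ℝ) ≤ d := Nat.cast_nonneg _
        linarith
      have h4 : ((h : ℝ) - d) * (4 * ℓ + 9) ≤ (h : ℝ) * (4 * ℓ + 9) :=
        mul_le_mul_of_nonneg_right h3 (by linarith)
      have h5 : ((h : ℝ) - d) * (K * ((ℓ : ℝ) * sing {0, (d' : ℤ), (d : ℤ)} * x / (Real.log x) ^ 4)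
          + (4 * (ℓ : ℝ) + 9)) = K * (ℓ * (x / Real.log x ^ 4)) * (((h : ℝ) - d)
            * sing {0, (d' : ℤ), (d : ℤ)}) + ((h : ℝ) - d) * (4 * ℓ + 9) := by ring
      rw [h5]
      linarith
    have h6 := Finset.sum_le_sum fun d hd => Finset.sum_le_sum (hb d hd)
    refine h6.trans ?_
    simp only [Finset.sum_add_distrib, ← Finset.mul_sum]
    have h7 : K * (ℓ * (x / Real.log x ^ 4)) * (∑ d ∈ Finset.Icc 1 h, ∑ d' ∈ Finset.Ico 1 d,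
        ((h : ℝ) - d) * sing {0, (d' : ℤ), (d : ℤ)}) ≤ K * (ℓ * (x / Real.log x ^ 4))
          * ((1 + e) * ((h : ℝ) ^ 3 / 6)) :=
      mul_le_mul_of_nonneg_left hsav' (by positivity)
    have h8 : ∑ d ∈ Finset.Icc 1 h, ∑ d' ∈ Finset.Ico 1 d, W
        ≤ (h : ℝ) ^ 3 * (4 * ℓ + 9) := by
      rw [hW]
      have h9 : ∀ d ∈ Finset.Icc 1 h, ∑ d' ∈ Finset.Ico 1 d, (h : ℝ) * (4 * (ℓ : ℝ) + 9)
          ≤ (h : ℝ) * ((h : ℝ) * (4 * ℓ + 9)) := by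
        intro d hd
        rw [Finset.mem_Icc] at hd
        rw [Finset.sum_const, Nat.card_Ico, nsmul_eq_mul]
        refine mul_le_mul_of_nonneg_right ?_ (by positivity)
        have : d - 1 ≤ h := by omega
        exact_mod_cast this
      have h10 := Finset.sum_le_card_nsmul _ _ _ h9
      rw [Nat.card_Icc, nsmul_eq_mul, Nat.add_sub_cancel] at h10
      refine h10.trans (le_of_eq ?_)
      ring
    simp only [Finset.mul_sum] at h7 ⊢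
    linarith
  -- first moment
  have hS0 : ∑ n ∈ Finset.range (⌊x⌋₊ + 1), (win (-(c : ℤ)) ((ℓ : ℤ) - c) (n : ℤ) : ℝ)
      ≤ 2 * (ℓ * x / Real.log x) := by
    have h1 := hfmo (by push_cast; rw [abs_le]; constructor <;> linarith)
      (by push_cast; rw [abs_le]; constructor <;> linarith) (by omega)
    have h2 : (((ℓ : ℤ) - c : ℤ) : ℝ) - ((-(c : ℤ) : ℤ) : ℝ) = (ℓ : ℝ) := by
      push_cast
      ring
    rw [h2] at h1
    have h3 := (abs_le.mp h1).2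
    linarith
  -- the cube
  have hcube : (1 - e) * ∑ n ∈ Finset.range (⌊x⌋₊ + 1), ((win 0 (h : ℤ) (n : ℤ) : ℝ) ^ 3
        * (win (-(c : ℤ)) ((ℓ : ℤ) - c) (n : ℤ) : ℝ))
      ≤ 6 * (∑ n ∈ Finset.range (⌊x⌋₊ + 1), (((win 0 (h : ℤ) (n : ℤ)).choose 3 : ℝ)
          * (win (-(c : ℤ)) ((ℓ : ℤ) - c) (n : ℤ) : ℝ)))
        + 27 * (1 / e) ^ 2 * ∑ n ∈ Finset.range (⌊x⌋₊ + 1), (win (-(c : ℤ)) ((ℓ : ℤ) - c) (n : ℤ) : ℝ) := by
    rw [Finset.mul_sum, Finset.mul_sum, Finset.mul_sum, ← Finset.sum_add_distrib]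
    refine Finset.sum_le_sum fun n _ => ?_
    have h1 := cube_le (win 0 (h : ℤ) (n : ℤ)) (1 / e) (by positivity)
    rw [one_div_one_div] at h1
    have h2 : (0 : ℝ) ≤ (win (-(c : ℤ)) ((ℓ : ℤ) - c) (n : ℤ) : ℝ) := Nat.cast_nonneg _
    have h3 := mul_le_mul_of_nonneg_right h1 h2
    calc (1 - e) * ((win 0 (h : ℤ) (n : ℤ) : ℝ) ^ 3 * (win (-(c : ℤ)) ((ℓ : ℤ) - c) (n : ℤ) : ℝ))
        = (1 - e) * (win 0 (h : ℤ) (n : ℤ) : ℝ) ^ 3 * (win (-(c : ℤ)) ((ℓ : ℤ) - c) (n : ℤ) : ℝ) := by ring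
      _ ≤ _ := h3
      _ = _ := by ring
  -- sizes
  set M : ℝ := (δ * Real.log x) ^ 3 * (τ * (Real.log x) ^ 2) * x with hMdef
  have hM0 : 0 ≤ M := by positivity
  have hh3 : (h : ℝ) ^ 3 ≤ (δ * Real.log x ^ 2) ^ 3 := pow_le_pow_left₀ hh0 hflh 3
  have hprod : (ℓ : ℝ) * (x / Real.log x ^ 4) * (h : ℝ) ^ 3 ≤ M := by
    have h1 : (ℓ : ℝ) * (x / Real.log x ^ 4) ≤ τ * Real.log x ^ 3 * (x / Real.log x ^ 4) :=
      mul_le_mul_of_nonneg_right hflℓ hw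
    have h2 : (ℓ : ℝ) * (x / Real.log x ^ 4) * (h : ℝ) ^ 3
        ≤ τ * Real.log x ^ 3 * (x / Real.log x ^ 4) * (δ * Real.log x ^ 2) ^ 3 :=
      mul_le_mul h1 hh3 (by positivity) (by positivity)
    refine h2.trans (le_of_eq ?_)
    rw [hMdef]
    field_simp
  have hsmall1 : 6 * ((h : ℝ) ^ 3 * (4 * ℓ + 9)) ≤ e * M := by
    have h1 : (4 : ℝ) * ℓ + 9 ≤ (4 * τ + 9) * Real.log x ^ 3 := by nlinarith
    have h2 : (h : ℝ) ^ 3 * (4 * ℓ + 9) ≤ (δ * Real.log x ^ 2) ^ 3 * ((4 * τ + 9) * Real.log x ^ 3) :=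
      mul_le_mul hh3 h1 (by positivity) (by positivity)
    have h3 : 6 * ((δ * Real.log x ^ 2) ^ 3 * ((4 * τ + 9) * Real.log x ^ 3))
        = (e * (δ * Real.log x) ^ 3 * (τ * (Real.log x) ^ 2))
          * (6 * (4 * τ + 9) / (e * τ) * (Real.log x) ^ 4) := by
      field_simp
    have h4 : (e * (δ * Real.log x) ^ 3 * (τ * (Real.log x) ^ 2))
          * (6 * (4 * τ + 9) / (e * τ) * (Real.log x) ^ 4)
        ≤ (e * (δ * Real.log x) ^ 3 * (τ * (Real.log x) ^ 2)) * x :=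
      mul_le_mul_of_nonneg_left a8 (by positivity)
    have h5 : (e * (δ * Real.log x) ^ 3 * (τ * (Real.log x) ^ 2)) * x = e * M := by
      rw [hMdef]; ring
    linarith
  have hsmall2 : 27 * (1 / e) ^ 2 * (2 * (ℓ * x / Real.log x)) ≤ e * M := by
    rw [div_le_iff₀ (by positivity)] at a7
    have h1 : (ℓ : ℝ) * x / Real.log x ≤ τ * Real.log x ^ 3 * x / Real.log x := by
      have := mul_le_mul_of_nonneg_right hflℓ hx0
      exact div_le_div_of_nonneg_right this hΛpos.le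
    have h2 : τ * Real.log x ^ 3 * x / Real.log x = τ * Real.log x ^ 2 * x := by
      field_simp
    rw [h2] at h1
    have h3 : 54 * (1 / e) ^ 2 ≤ e * δ ^ 3 * Real.log x ^ 3 := by
      have h4 : Real.log x * (e * δ ^ 3) ≤ Real.log x ^ 3 * (e * δ ^ 3) := by
        refine mul_le_mul_of_nonneg_right ?_ (by positivity)
        nlinarith
      linarith
    calc 27 * (1 / e) ^ 2 * (2 * (ℓ * x / Real.log x))
        = 54 * (1 / e) ^ 2 * (ℓ * x / Real.log x) := by ring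
      _ ≤ (e * δ ^ 3 * Real.log x ^ 3) * (τ * Real.log x ^ 2 * x) :=
          mul_le_mul h3 h1 (by positivity) (by positivity)
      _ = e * M := by rw [hMdef]; ring
  have hfin : (1 - e) * ∑ n ∈ Finset.range (⌊x⌋₊ + 1), ((win 0 (h : ℤ) (n : ℤ) : ℝ) ^ 3
        * (win (-(c : ℤ)) ((ℓ : ℤ) - c) (n : ℤ) : ℝ)) ≤ (1 - e) * ((1 + ε) * M) := by
    have h1 : 6 * (K * (ℓ * (x / Real.log x ^ 4)) * ((1 + e) * ((h : ℝ) ^ 3 / 6)))
        = K * (1 + e) * ((ℓ : ℝ) * (x / Real.log x ^ 4) * (h : ℝ) ^ 3) := by ring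
    have h2 : K * (1 + e) * ((ℓ : ℝ) * (x / Real.log x ^ 4) * (h : ℝ) ^ 3) ≤ K * (1 + e) * M :=
      mul_le_mul_of_nonneg_left hprod (by positivity)
    have h3 : 27 * (1 / e) ^ 2 * ∑ n ∈ Finset.range (⌊x⌋₊ + 1), (win (-(c : ℤ)) ((ℓ : ℤ) - c) (n : ℤ) : ℝ)
        ≤ 27 * (1 / e) ^ 2 * (2 * (ℓ * x / Real.log x)) :=
      mul_le_mul_of_nonneg_left hS0 (by positivity)
    have h4 : (K * (1 + e) + 2 * e) * M ≤ (1 + ε) * (1 - e) * M := mul_le_mul_of_nonneg_right hK hM0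
    have h5 : (1 + ε) * (1 - e) * M = (1 - e) * ((1 + ε) * M) := by ring
    linarith
  exact le_of_mul_le_mul_left hfin (by linarith)

end Pool.Agent.H6.MF
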