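import Pool.Agent.H6.MF.BAS

/-!
# M4X: `mixed_le` (step 1 of the header, which is shared with M4A.lean)

`h = ⌊δ Λ^2⌋₊`, `ℓ = ⌊τ Λ^3⌋₊` (`δ, τ ≤ 1/2`), `Z(n) = win 0 h n`, `Y_c(n) = win (-c) (ℓ - c) n`, `0 ≤ c < ℓ`.

1. (`mixed_le`, combinatorial) `∑_{n ≤ N} C(Z(n),3) Y_c(n) ≤ ∑_{0 < b₁ < b₂ < b₃ ≤ h}
   (∑_{b' ∈ Ioc (-c-b₁) (ℓ-c-b₁) \ H'} cnt x (insert b' H') + 3 cnt x H')`, `H' = {0, b₂-b₁, b₃-b₁}`:
   the left side is the sum over `b₁ < b₂ < b₃ ≤ h`, `b ∈ Ioc (-c) (ℓ-c)` of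
   `#{n ≤ N : n-b₁, n-b₂, n-b₃, n-b prime}`, for `b ∉ {b₁,b₂,b₃}` this is
   `cnt x {b,b₁,b₂,b₃} ≤ cnt x (tr _ (-b₁)) = cnt x (insert (b-b₁) H')` (`cnt_tr_le` with the element `b₁ ≥ 0`), and
   for `b ∈ {b₁,b₂,b₃}` it is `≤ cnt x H'`.
2. Let `(d', d) = (b₂ - b₁, b₃ - b₁)`. If `d'` and `d` are even and `H' = {0,d',d}` is admissible: `Mean4` with
   `u = -c-b₁`, `v = ℓ-c-b₁` (`|u|, |v| ≤ ℓ + h ≤ Λ^3` for large `x`, length `ℓ ≥ (τ/2) Λ^3`):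
   `∑_{b'} cnt x (insert b' H') ≤ (1+ε') (∑_{b'} sing (insert b' H')) x/Λ^4 ≤ (1+ε')^2 ℓ sing H' x/Λ^4`
   (`SAV`, `k = 3`, `A = 3`, `Y = Λ`); `3 cnt x H' ≤ 3 C sing H' x/Λ^3 ≤ ε' ℓ sing H' x/Λ^4` (`SIE`, `k = 3`, `A = 2`).
   Otherwise `H'` is not admissible (`not_adm_of_odd`), nor is `insert b' H'` (`adm_anti`), each count is `≤ 4`,
   in total for all such triples `≤ h^3 (4 ℓ + 9)`, negligible: `≤ ε' δ^3 Λ^6 τ Λ^3 x/Λ^4`.
3. `∑_{b₁<b₂<b₃ ≤ h} sing {0, b₂-b₁, b₃-b₁} = ∑_{d ≤ h} ∑_{d' < d} (h - d) sing {0,d',d} ≤ (1+ε') h^3/6` (`SAV3`).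
   So `∑_n C(Z,3) Y_c ≤ (1 + 5 ε') (h^3/6) ℓ x/Λ^4`.
4. `cube_le` with `T` a large constant: `(1 - 1/T) ∑ Z^3 Y_c ≤ 6 ∑ C(Z,3) Y_c + 27 T^2 ∑ Y_c` and
   `∑_{n ≤ N} Y_c(n) ≤ 2 ℓ x/Λ` (`FMO`, `k = 3`), negligible because `(h/Λ)^3 → ∞`.
   Finally `h ≤ δ Λ^2`, `ℓ ≤ τ Λ^3`.
-/

set_option autoImplicit false

namespace Pool.Agent.H6.MF

open Finset

/-- three distinct integers can be sorted -/
theorem M4X_sort (x y z : ℤ) (hxy : x ≠ y) (hxz : x ≠ z) (hyz : y ≠ z) :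
    ∃ a b c : ℤ, a < b ∧ b < c ∧ ({x, y, z} : Finset ℤ) = {a, b, c} := by
  rcases lt_or_gt_of_ne hxy with h1 | h1 <;> rcases lt_or_gt_of_ne hxz with h2 | h2 <;>
    rcases lt_or_gt_of_ne hyz with h3 | h3
  · exact ⟨x, y, z, h1, h3, rfl⟩
  · exact ⟨x, z, y, h2, h3, by ext w; simp only [mem_insert, mem_singleton]; tauto⟩
  · omega
  · exact ⟨z, x, y, h2, h1, by ext w; simp only [mem_insert, mem_singleton]; tauto⟩
  · exact ⟨y, x, z, h1, h2, by ext w; simp only [mem_insert, mem_singleton]; tauto⟩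
  · omega
  · exact ⟨y, z, x, h3, h2, by ext w; simp only [mem_insert, mem_singleton]; tauto⟩
  · exact ⟨z, y, x, h3, h1, by ext w; simp only [mem_insert, mem_singleton]; tauto⟩

/-- the number of 3-element sets of primes in a window, by the differences -/
theorem M4X_choose (h : ℕ) (n : ℤ) :
    (win 0 (h : ℤ) n).choose 3 ≤ ∑ d ∈ Finset.Icc 1 h, ∑ d' ∈ Finset.Ico 1 d, ∑ b₁ ∈ Finset.Icc 1 (h - d),
      (if ∀ a ∈ ({(b₁ : ℤ), (b₁ : ℤ) + d', (b₁ : ℤ) + d} : Finset ℤ), isP (n - a) then 1 else 0) := by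
  classical
  set S : Finset ℤ := (Finset.Ioc 0 (h : ℤ)).filter (fun b => isP (n - b)) with hS
  have hw : win 0 (h : ℤ) n = S.card := rfl
  rw [hw, ← card_powersetCard]
  set I : Finset (Σ _ : ℕ, Σ _ : ℕ, ℕ) :=
    (Finset.Icc 1 h).sigma (fun d => (Finset.Ico 1 d).sigma (fun _ => Finset.Icc 1 (h - d))) with hI
  have hR : ∑ d ∈ Finset.Icc 1 h, ∑ d' ∈ Finset.Ico 1 d, ∑ b₁ ∈ Finset.Icc 1 (h - d),
      (if ∀ a ∈ ({(b₁ : ℤ), (b₁ : ℤ) + d', (b₁ : ℤ) + d} : Finset ℤ), isP (n - a) then 1 else 0)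
      = (I.filter (fun t => ∀ a ∈ ({(t.2.2 : ℤ), (t.2.2 : ℤ) + t.2.1, (t.2.2 : ℤ) + t.1} : Finset ℤ),
          isP (n - a))).card := by
    rw [card_filter, hI, sum_sigma]
    refine sum_congr rfl fun d _ => ?_
    rw [sum_sigma]
  rw [hR]
  refine le_trans (card_le_card (t := (I.filter (fun t => ∀ a ∈ ({(t.2.2 : ℤ), (t.2.2 : ℤ) + t.2.1,
    (t.2.2 : ℤ) + t.1} : Finset ℤ), isP (n - a))).image
      (fun t => ({(t.2.2 : ℤ), (t.2.2 : ℤ) + t.2.1, (t.2.2 : ℤ) + t.1} : Finset ℤ))) ?_) card_image_le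
  intro s hs
  rw [mem_powersetCard] at hs
  obtain ⟨hsub, hcard⟩ := hs
  obtain ⟨x, y, z, hxy, hxz, hyz, hsxyz⟩ := card_eq_three.1 hcard
  obtain ⟨a, b, c, hab, hbc, habc⟩ := M4X_sort x y z hxy hxz hyz
  rw [habc] at hsxyz
  have hmem : ∀ w ∈ ({a, b, c} : Finset ℤ), (0 < w ∧ w ≤ h) ∧ isP (n - w) := by
    intro w hw
    have h1 : w ∈ S := hsub (by rw [hsxyz]; exact hw)
    rw [hS, mem_filter, mem_Ioc] at h1
    exact h1
  have ha := hmem a (by simp)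
  have hb := hmem b (by simp)
  have hc := hmem c (by simp)
  have ea : ((a.toNat : ℕ) : ℤ) = a := Int.toNat_of_nonneg (by omega)
  have eb : (((b - a).toNat : ℕ) : ℤ) = b - a := Int.toNat_of_nonneg (by omega)
  have ec : (((c - a).toNat : ℕ) : ℤ) = c - a := Int.toNat_of_nonneg (by omega)
  have hset : ({((a.toNat : ℕ) : ℤ), ((a.toNat : ℕ) : ℤ) + ((b - a).toNat : ℕ),
      ((a.toNat : ℕ) : ℤ) + ((c - a).toNat : ℕ)} : Finset ℤ) = {a, b, c} := by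
    rw [ea, eb, ec]
    congr 2
    · ring
    · rw [show a + (c - a) = c by ring]
  rw [mem_image]
  refine ⟨⟨(c - a).toNat, (b - a).toNat, a.toNat⟩, ?_, ?_⟩
  · rw [mem_filter]
    refine ⟨?_, ?_⟩
    · rw [hI, mem_sigma, mem_sigma, mem_Icc, mem_Ico, mem_Icc]
      dsimp only
      omega
    · intro w hw
      dsimp only at hw
      rw [hset] at hw
      exact (hmem w hw).2
  · dsimp only
    rw [hset, hsxyz]

/-- the counts for a fixed triple -/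
theorem M4X_triple (x : ℝ) (ℓ c b₁ d' d : ℕ) :
    ∑ b ∈ Finset.Ioc (-(c : ℤ)) ((ℓ : ℤ) - c), cnt x (insert b {(b₁ : ℤ), (b₁ : ℤ) + d', (b₁ : ℤ) + d})
      ≤ ∑ b ∈ Finset.Ioc (-(c : ℤ) - b₁) ((ℓ : ℤ) - c - b₁) \ {0, (d' : ℤ), (d : ℤ)},
          cnt x (insert b {0, (d' : ℤ), (d : ℤ)}) + 3 * cnt x {0, (d' : ℤ), (d : ℤ)} := by
  classical
  set K : Finset ℤ := {(b₁ : ℤ), (b₁ : ℤ) + d', (b₁ : ℤ) + d} with hK
  have htr : ∀ b : ℤ, tr (insert b K) (-(b₁ : ℤ)) = insert (b - b₁) {0, (d' : ℤ), (d : ℤ)} := by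
    intro b
    unfold tr
    rw [hK, image_insert, image_insert, image_insert, image_singleton]
    congr 1
    congr 1
    · ring
    · congr 1
      · ring
      · congr 1
        ring
  have htrK : tr K (-(b₁ : ℤ)) = {0, (d' : ℤ), (d : ℤ)} := by
    unfold tr
    rw [hK, image_insert, image_insert, image_singleton]
    congr 1
    · ring
    · congr 1
      · ring
      · congr 1
        ring
  have hb1K : (b₁ : ℤ) ∈ K := by rw [hK]; simp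
  have hle : ∀ b : ℤ, cnt x (insert b K) ≤ cnt x (insert (b - b₁) {0, (d' : ℤ), (d : ℤ)}) := by
    intro b
    have h1 := cnt_tr_le x (insert b K) (b := (b₁ : ℤ)) (mem_insert_of_mem hb1K) (by positivity)
    rwa [htr b] at h1
  have hleK : cnt x K ≤ cnt x {0, (d' : ℤ), (d : ℤ)} := by
    have h1 := cnt_tr_le x K (b := (b₁ : ℤ)) hb1K (by positivity)
    rwa [htrK] at h1
  rw [← sum_filter_add_sum_filter_not (Finset.Ioc (-(c : ℤ)) ((ℓ : ℤ) - c)) (fun b => b ∉ K)]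
  refine add_le_add ?_ ?_
  · refine le_of_le_of_eq (sum_le_sum (fun b _ => hle b)) ?_
    refine sum_nbij' (fun b => b - b₁) (fun b => b + b₁) ?_ ?_ ?_ ?_ ?_
    · intro b hb
      rw [mem_filter, mem_Ioc, hK, mem_insert, mem_insert, mem_singleton] at hb
      rw [mem_sdiff, mem_Ioc, mem_insert, mem_insert, mem_singleton]
      refine ⟨by omega, ?_⟩
      rintro (h | h | h)
      · exact hb.2 (Or.inl (by omega))
      · exact hb.2 (Or.inr (Or.inl (by omega)))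
      · exact hb.2 (Or.inr (Or.inr (by omega)))
    · intro b hb
      rw [mem_sdiff, mem_Ioc, mem_insert, mem_insert, mem_singleton] at hb
      rw [mem_filter, mem_Ioc, hK, mem_insert, mem_insert, mem_singleton]
      refine ⟨by omega, ?_⟩
      rintro (h | h | h)
      · exact hb.2 (Or.inl (by omega))
      · exact hb.2 (Or.inr (Or.inl (by omega)))
      · exact hb.2 (Or.inr (Or.inr (by omega)))
    · intro b _
      simp
    · intro b _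
      simp
    · intro b _
      rfl
  · have h1 : ∀ b ∈ (Finset.Ioc (-(c : ℤ)) ((ℓ : ℤ) - c)).filter (fun b => ¬ b ∉ K),
        cnt x (insert b K) ≤ cnt x {0, (d' : ℤ), (d : ℤ)} := by
      intro b hb
      rw [mem_filter, not_not] at hb
      rw [insert_eq_of_mem hb.2]
      exact hleK
    refine (sum_le_card_nsmul _ _ _ h1).trans ?_
    rw [smul_eq_mul]
    refine Nat.mul_le_mul_right _ ?_
    refine (card_le_card (t := K) ?_).trans ?_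
    · intro b hb
      rw [mem_filter, not_not] at hb
      exact hb.2
    · rw [hK]
      exact card_le_three

theorem M4X_nat (x : ℝ) (h ℓ c : ℕ) :
    ∑ n ∈ Finset.range (⌊x⌋₊ + 1), ((win 0 (h : ℤ) (n : ℤ)).choose 3) * (win (-(c : ℤ)) ((ℓ : ℤ) - c) (n : ℤ))
      ≤ ∑ d ∈ Finset.Icc 1 h, ∑ d' ∈ Finset.Ico 1 d, ∑ b₁ ∈ Finset.Icc 1 (h - d),
          (∑ b ∈ Finset.Ioc (-(c : ℤ) - b₁) ((ℓ : ℤ) - c - b₁) \ {0, (d' : ℤ), (d : ℤ)},
              cnt x (insert b {0, (d' : ℤ), (d : ℤ)}) + 3 * cnt x {0, (d' : ℤ), (d : ℤ)}) := by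
  classical
  have h1 : ∑ n ∈ Finset.range (⌊x⌋₊ + 1),
      ((win 0 (h : ℤ) (n : ℤ)).choose 3) * (win (-(c : ℤ)) ((ℓ : ℤ) - c) (n : ℤ))
      ≤ ∑ n ∈ Finset.range (⌊x⌋₊ + 1), ∑ d ∈ Finset.Icc 1 h, ∑ d' ∈ Finset.Ico 1 d,
          ∑ b₁ ∈ Finset.Icc 1 (h - d), ∑ b ∈ Finset.Ioc (-(c : ℤ)) ((ℓ : ℤ) - c),
          (if ∀ a ∈ insert b ({(b₁ : ℤ), (b₁ : ℤ) + d', (b₁ : ℤ) + d} : Finset ℤ), isP ((n : ℤ) - a)
            then 1 else 0) := by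
    refine sum_le_sum fun n _ => ?_
    refine (Nat.mul_le_mul_right _ (M4X_choose h (n : ℤ))).trans ?_
    rw [sum_mul]
    refine sum_le_sum fun d _ => ?_
    rw [sum_mul]
    refine sum_le_sum fun d' _ => ?_
    rw [sum_mul]
    refine sum_le_sum fun b₁ _ => ?_
    unfold win
    rw [card_filter, mul_sum]
    refine sum_le_sum fun b _ => ?_
    by_cases hA : ∀ a ∈ ({(b₁ : ℤ), (b₁ : ℤ) + d', (b₁ : ℤ) + d} : Finset ℤ), isP ((n : ℤ) - a)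
    · by_cases hB : isP ((n : ℤ) - b)
      · have hC : ∀ a ∈ insert b ({(b₁ : ℤ), (b₁ : ℤ) + d', (b₁ : ℤ) + d} : Finset ℤ),
            isP ((n : ℤ) - a) := by
          intro a ha
          rcases mem_insert.1 ha with rfl | ha
          · exact hB
          · exact hA a ha
        rw [if_pos hA, if_pos hB, if_pos hC, mul_one]
      · rw [if_neg hB, mul_zero]
        exact Nat.zero_le _
    · rw [if_neg hA, zero_mul]
      exact Nat.zero_le _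
  refine h1.trans ?_
  rw [sum_comm]
  refine sum_le_sum fun d _ => ?_
  rw [sum_comm]
  refine sum_le_sum fun d' _ => ?_
  rw [sum_comm]
  refine sum_le_sum fun b₁ _ => ?_
  rw [sum_comm]
  refine le_trans (le_of_eq ?_) (M4X_triple x ℓ c b₁ d' d)
  refine sum_congr rfl fun b _ => ?_
  unfold cnt
  rw [card_filter]

theorem mixed_le (x : ℝ) (h ℓ c : ℕ) :
    ∑ n ∈ Finset.range (⌊x⌋₊ + 1), (((win 0 (h : ℤ) (n : ℤ)).choose 3 : ℝ) * (win (-(c : ℤ)) ((ℓ : ℤ) - c) (n : ℤ) : ℝ))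
      ≤ ∑ d ∈ Finset.Icc 1 h, ∑ d' ∈ Finset.Ico 1 d, ∑ b₁ ∈ Finset.Icc 1 (h - d),
          (∑ b ∈ Finset.Ioc (-(c : ℤ) - b₁) ((ℓ : ℤ) - c - b₁) \ {0, (d' : ℤ), (d : ℤ)},
              (cnt x (insert b {0, (d' : ℤ), (d : ℤ)}) : ℝ) + 3 * (cnt x {0, (d' : ℤ), (d : ℤ)} : ℝ)) := by
  have h1 := M4X_nat x h ℓ c
  have h2 := (Nat.cast_le (α := ℝ)).2 h1
  push_cast at h2
  exact h2

end Pool.Agent.H6.MF
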