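import Pool.Agent.H6.MF.RAT

/-!
# PER: the mean of the periodic function `Fw w H` is `1`

Let `W = ∏_{p ≤ w} p`. `rho H b p` depends on `b` modulo `p` only, so `b ↦ Fw w H b` has period `W`.
For one prime `p` (with `ν = nuH H p < p`) the sum of `rho H b p` over `b` modulo `p` is
`ν (1 + 1/(p-1)) + (p - ν) (1 - ν/((p-1)(p-ν))) = p`. By the Chinese remainder theorem the sum of `Fw w H b`
over a full period is `W` (product over the primes; induction over the set of primes: for coprime `m, n`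
and `f` with period `m`, `g` with period `n` the sum of `f g` over a period `m n` is the product of the sums;
see also `Pool/Agent/H17/Crt.lean`, `card_crt`, `card_range_mul`).
`0 ≤ Fw w H b ≤ ∏_{p ≤ w} (1 + 1/(p-1)) ≤ 2^w =: M`. The interval `Ioc u v` consists of
`⌊(v-u)/W⌋` full periods and at most `W` further integers, so
`|∑_{b ∈ Ioc u v} Fw w H b - (v - u)| ≤ W (M + 1)`, a constant depending on `w` only.
-/

set_option autoImplicit false

namespace Pool.Agent.H6.MF

open Finset

private lemma PER_sum_mul {m n : ℕ} (h : m.Coprime n) (hm : m ≠ 0) (hn : n ≠ 0) (f g : ℤ → ℝ)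
    (hf : ∀ t : ℤ, f (t + m) = f t) (hg : ∀ t : ℤ, g (t + n) = g t) :
    ∑ i ∈ Finset.range (m * n), f (i : ℤ) * g (i : ℤ)
      = (∑ i ∈ Finset.range m, f (i : ℤ)) * ∑ i ∈ Finset.range n, g (i : ℤ) := by
  have key : ∀ (k : ℕ) (F : ℤ → ℝ), (∀ t : ℤ, F (t + k) = F t) → ∀ i : ℕ, F ((i % k : ℕ) : ℤ) = F (i : ℤ) := by
    intro k F hF i
    have h1 : ∀ (q : ℕ) (t : ℤ), F (t + (k : ℤ) * q) = F t := by
      intro q
      induction q with
      | zero => intro t; simp
      | succ q ih =>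
        intro t
        have : t + (k : ℤ) * ((q + 1 : ℕ) : ℤ) = (t + (k : ℤ) * q) + k := by push_cast; ring
        rw [this, hF, ih]
    have h2 := h1 (i / k) ((i % k : ℕ) : ℤ)
    rw [← h2]
    congr 1
    have := Nat.mod_add_div i k
    exact_mod_cast this
  rw [Finset.sum_mul_sum, ← Finset.sum_product']
  apply Finset.sum_nbij' (i := fun t => (t % m, t % n))
    (j := fun u => (Nat.chineseRemainder h u.1 u.2 : ℕ))
  · intro t ht
    simp only [Finset.mem_product, Finset.mem_range]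
    exact ⟨Nat.mod_lt _ (Nat.pos_of_ne_zero hm), Nat.mod_lt _ (Nat.pos_of_ne_zero hn)⟩
  · intro u hu
    rw [Finset.mem_range]
    exact Nat.chineseRemainder_lt_mul h u.1 u.2 hm hn
  · intro t ht
    rw [Finset.mem_range] at ht
    have h1 := (Nat.chineseRemainder h (t % m) (t % n)).2
    have h2 : ((Nat.chineseRemainder h (t % m) (t % n) : ℕ)) ≡ t [MOD m * n] := by
      rw [← Nat.modEq_and_modEq_iff_modEq_mul h]
      exact ⟨h1.1.trans (Nat.mod_modEq _ _), h1.2.trans (Nat.mod_modEq _ _)⟩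
    have h3 := Nat.chineseRemainder_lt_mul h (t % m) (t % n) hm hn
    exact Nat.ModEq.eq_of_lt_of_lt h2 h3 ht
  · intro u hu
    rw [Finset.mem_product, Finset.mem_range, Finset.mem_range] at hu
    have h1 := (Nat.chineseRemainder h u.1 u.2).2
    apply Prod.ext
    · show _ % m = u.1
      rw [show _ % m = u.1 % m from h1.1, Nat.mod_eq_of_lt hu.1]
    · show _ % n = u.2
      rw [show _ % n = u.2 % n from h1.2, Nat.mod_eq_of_lt hu.2]
  · intro t ht
    show f (t : ℤ) * g (t : ℤ) = f ((t % m : ℕ) : ℤ) * g ((t % n : ℕ) : ℤ)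
    rw [key m f hf, key n g hg]

private lemma PER_rho_per (H : Finset ℤ) (p : ℕ) (t : ℤ) (k : ℤ) : rho H (t + (p : ℤ) * k) p = rho H t p := by
  unfold rho
  have : (∃ h ∈ H, (p : ℤ) ∣ t + (p : ℤ) * k - h) ↔ (∃ h ∈ H, (p : ℤ) ∣ t - h) := by
    apply exists_congr
    intro h
    apply and_congr_right
    intro _
    rw [show t + (p : ℤ) * k - h = (t - h) + (p : ℤ) * k by ring]
    exact (Int.dvd_add_left (Dvd.intro _ rfl))
  simp only [this]

private lemma PER_sum_rho {H : Finset ℤ} {p : ℕ} (hp : p.Prime) (h : nuH H p < p) :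
    ∑ i ∈ Finset.range p, rho H (i : ℤ) p = (p : ℝ) := by
  unfold rho
  rw [Finset.sum_ite]
  rw [Finset.sum_const, Finset.sum_const, nsmul_eq_mul, nsmul_eq_mul]
  have hc : ((Finset.range p).filter (fun i : ℕ => ∃ h ∈ H, (p : ℤ) ∣ (i : ℤ) - h)).card = nuH H p := by
    unfold nuH
    have himg : H.image (fun h => h % (p : ℤ))
        = ((Finset.range p).filter (fun i : ℕ => ∃ h ∈ H, (p : ℤ) ∣ (i : ℤ) - h)).image (fun i : ℕ => (i : ℤ)) := by
      ext x
      simp only [Finset.mem_image, Finset.mem_filter, Finset.mem_range]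
      constructor
      · rintro ⟨h, hh, rfl⟩
        have hp0 : (0 : ℤ) < p := by exact_mod_cast hp.pos
        have h1 := Int.emod_nonneg h hp0.ne'
        have h2 := Int.emod_lt_of_pos h hp0
        refine ⟨(h % (p : ℤ)).toNat, ⟨?_, h, hh, ?_⟩, ?_⟩
        · omega
        · rw [Int.toNat_of_nonneg h1]
          refine ⟨-(h / p), ?_⟩
          have := Int.emod_add_mul_ediv h p
          linarith
        · exact Int.toNat_of_nonneg h1
      · rintro ⟨i, ⟨hi, h, hh, hd⟩, rfl⟩
        refine ⟨h, hh, ?_⟩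
        have h1 : h % (p : ℤ) = (i : ℤ) % (p : ℤ) := Int.modEq_iff_dvd.mpr hd
        rw [h1]
        exact Int.emod_eq_of_lt (by positivity) (by exact_mod_cast hi)
    rw [himg, Finset.card_image_of_injective _ Nat.cast_injective]
  have hc2 : ((Finset.range p).filter (fun i : ℕ => ¬ ∃ h ∈ H, (p : ℤ) ∣ (i : ℤ) - h)).card = p - nuH H p := by
    have := Finset.card_filter_add_card_filter_not (s := Finset.range p)
      (fun i : ℕ => ∃ h ∈ H, (p : ℤ) ∣ (i : ℤ) - h)
    rw [Finset.card_range, hc] at this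
    omega
  rw [hc, hc2, Nat.cast_sub h.le]
  have h1 : (p : ℝ) - 1 ≠ 0 := by
    have : (2 : ℝ) ≤ p := by exact_mod_cast hp.two_le
    intro h0; linarith
  have h2 : (p : ℝ) - nuH H p ≠ 0 := by
    have : (nuH H p : ℝ) < p := by exact_mod_cast h
    intro h0; linarith
  field_simp
  ring

private lemma PER_sum_prod {H : Finset ℤ} (S : Finset ℕ) (hS : ∀ p ∈ S, p.Prime) (hH : ∀ p ∈ S, nuH H p < p) :
    ∑ i ∈ Finset.range (∏ p ∈ S, p), ∏ p ∈ S, rho H (i : ℤ) p = ((∏ p ∈ S, p : ℕ) : ℝ) := by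
  induction S using Finset.induction_on with
  | empty => simp
  | insert q S hq ih =>
    have hS' : ∀ p ∈ S, p.Prime := fun p hp => hS p (Finset.mem_insert_of_mem hp)
    have hH' : ∀ p ∈ S, nuH H p < p := fun p hp => hH p (Finset.mem_insert_of_mem hp)
    have hqp : q.Prime := hS q (Finset.mem_insert_self _ _)
    have hcop : q.Coprime (∏ p ∈ S, p) := by
      apply Nat.Coprime.prod_right
      intro p hp
      rw [Nat.coprime_primes hqp (hS' p hp)]
      rintro rfl
      exact hq hp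
    rw [Finset.prod_insert hq]
    simp only [Finset.prod_insert hq]
    rw [PER_sum_mul hcop hqp.ne_zero (Finset.prod_ne_zero_iff.mpr (fun p hp => (hS' p hp).ne_zero))
      (fun t => rho H t q) (fun t => ∏ p ∈ S, rho H t p)]
    · rw [ih hS' hH', PER_sum_rho hqp (hH q (Finset.mem_insert_self _ _))]
      push_cast
      rfl
    · intro t
      have := PER_rho_per H q t 1
      rw [mul_one] at this
      exact this
    · intro t
      apply Finset.prod_congr rfl
      intro p hp
      obtain ⟨k, hk⟩ := Finset.dvd_prod_of_mem (fun p : ℕ => p) hp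
      have h2 := PER_rho_per H p t k
      rw [← h2]
      congr 2
      have h3 : (∏ p ∈ S, p : ℕ) = p * k := hk
      rw [h3]
      push_cast
      ring

private lemma PER_rho_nonneg {H : Finset ℤ} {p : ℕ} (hp : p.Prime) (h : nuH H p < p) (b : ℤ) :
    0 ≤ rho H b p := by
  have h2 : (2 : ℝ) ≤ p := by exact_mod_cast hp.two_le
  unfold rho
  split_ifs
  · have : 0 ≤ 1 / ((p : ℝ) - 1) := by
      apply div_nonneg zero_le_one; linarith
    linarith
  · have h3 : (nuH H p : ℝ) + 1 ≤ p := by exact_mod_cast h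
    have h4 : (0 : ℝ) < ((p : ℝ) - 1) * ((p : ℝ) - nuH H p) := by
      apply mul_pos <;> linarith
    rw [sub_nonneg, div_le_one h4]
    have h5 : (0 : ℝ) ≤ (nuH H p : ℝ) := Nat.cast_nonneg _
    nlinarith

private lemma PER_rho_le {H : Finset ℤ} {p : ℕ} (hp : p.Prime) (h : nuH H p < p) (b : ℤ) :
    rho H b p ≤ 2 := by
  have h2 : (2 : ℝ) ≤ p := by exact_mod_cast hp.two_le
  unfold rho
  split_ifs
  · have : 1 / ((p : ℝ) - 1) ≤ 1 := by
      rw [div_le_one (by linarith)]; linarith
    linarith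
  · have h3 : (nuH H p : ℝ) + 1 ≤ p := by exact_mod_cast h
    have h4 : (0 : ℝ) < ((p : ℝ) - 1) * ((p : ℝ) - nuH H p) := by
      apply mul_pos <;> linarith
    have h5 : 0 ≤ (nuH H p : ℝ) / (((p : ℝ) - 1) * ((p : ℝ) - nuH H p)) := by positivity
    linarith

theorem Fw_le_two_pow {H : Finset ℤ} (hH : adm H) (w : ℕ) (b : ℤ) : Fw w H b ≤ 2 ^ w := by
  unfold Fw
  calc ∏ p ∈ (Finset.range (w + 1)).filter Nat.Prime, rho H b p
      ≤ ∏ p ∈ (Finset.range (w + 1)).filter Nat.Prime, (2 : ℝ) := by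
        apply Finset.prod_le_prod
        · intro p hp
          rw [Finset.mem_filter] at hp
          exact PER_rho_nonneg hp.2 (hH p hp.2) b
        · intro p hp
          rw [Finset.mem_filter] at hp
          exact PER_rho_le hp.2 (hH p hp.2) b
    _ = 2 ^ ((Finset.range (w + 1)).filter Nat.Prime).card := by rw [Finset.prod_const]
    _ ≤ 2 ^ w := by
        apply pow_le_pow_right₀ (by norm_num)
        have h1 : (Finset.range (w + 1)).filter Nat.Prime ⊆ Finset.Icc 1 w := by
          intro p hp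
          rw [Finset.mem_filter, Finset.mem_range] at hp
          rw [Finset.mem_Icc]
          exact ⟨hp.2.one_le, by omega⟩
        have h2 := Finset.card_le_card h1
        rw [Nat.card_Icc] at h2
        omega

private lemma PER_Fw_nonneg {H : Finset ℤ} (hH : adm H) (w : ℕ) (b : ℤ) : 0 ≤ Fw w H b := by
  unfold Fw
  apply Finset.prod_nonneg
  intro p hp
  rw [Finset.mem_filter] at hp
  exact PER_rho_nonneg hp.2 (hH p hp.2) b

private lemma PER_shift (W : ℕ) (F : ℤ → ℝ) (hF : ∀ t : ℤ, F (t + W) = F t) (a : ℤ) :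
    ∑ i ∈ Finset.range W, F (a + i) = ∑ i ∈ Finset.range W, F (i : ℤ) := by
  have step : ∀ a : ℤ, ∑ i ∈ Finset.range W, F (a + 1 + i) = ∑ i ∈ Finset.range W, F (a + i) := by
    intro a
    have h1 := Finset.sum_range_succ (fun i : ℕ => F (a + i)) W
    have h2 := Finset.sum_range_succ' (fun i : ℕ => F (a + i)) W
    rw [h1, hF] at h2
    have h3 : ∑ i ∈ Finset.range W, F (a + 1 + i) = ∑ i ∈ Finset.range W, F (a + ((i + 1 : ℕ) : ℤ)) := by
      apply Finset.sum_congr rfl
      intro i _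
      congr 1
      push_cast
      ring
    rw [h3]
    have h4 : F (a + ((0 : ℕ) : ℤ)) = F a := by simp
    rw [h4] at h2
    linarith
  induction a using Int.induction_on with
  | zero => simp
  | succ k ih => rw [step, ih]
  | pred k ih =>
    have := step (-(k : ℤ) - 1)
    rw [sub_add_cancel, ih] at this
    rw [← this]

private lemma PER_mul (W : ℕ) (F : ℤ → ℝ) (hF : ∀ t : ℤ, F (t + W) = F t) (q : ℕ) (a : ℤ) :
    ∑ i ∈ Finset.range (W * q), F (a + i) = q * ∑ i ∈ Finset.range W, F (i : ℤ) := by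
  induction q generalizing a with
  | zero => simp
  | succ q ih =>
    rw [mul_add, mul_one, Finset.sum_range_add, ih]
    have h1 : ∑ x ∈ Finset.range W, F (a + ((W * q + x : ℕ) : ℤ))
        = ∑ x ∈ Finset.range W, F ((a + (W * q : ℕ)) + x) := by
      apply Finset.sum_congr rfl
      intro i _
      congr 1
      push_cast
      ring
    rw [h1, PER_shift W F hF]
    push_cast
    ring

theorem PER (w : ℕ) : ∃ C : ℝ, 0 < C ∧ ∀ H : Finset ℤ, adm H → ∀ u v : ℤ, u ≤ v →
    |∑ b ∈ Finset.Ioc u v, Fw w H b - ((v : ℝ) - u)| ≤ C := by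
  set S := (Finset.range (w + 1)).filter Nat.Prime with hSdef
  set W := ∏ p ∈ S, p with hWdef
  have hSp : ∀ p ∈ S, p.Prime := fun p hp => (Finset.mem_filter.mp hp).2
  have hW0 : 0 < W := Finset.prod_pos (fun p hp => (hSp p hp).pos)
  refine ⟨(W : ℝ) * (2 ^ w + 1), by positivity, ?_⟩
  intro H hH u v huv
  have hper : ∀ t : ℤ, Fw w H (t + W) = Fw w H t := by
    intro t
    unfold Fw
    apply Finset.prod_congr rfl
    intro p hp
    obtain ⟨k, hk⟩ := Finset.dvd_prod_of_mem (fun p : ℕ => p) hp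
    have h2 := PER_rho_per H p t k
    rw [← h2]
    congr 2
    have h3 : W = p * k := hk
    rw [h3]
    push_cast
    ring
  have hsum : ∑ i ∈ Finset.range W, Fw w H (i : ℤ) = (W : ℝ) :=
    PER_sum_prod (H := H) S hSp (fun p hp => hH p (hSp p hp))
  obtain ⟨L, hL⟩ : ∃ L : ℕ, v = u + L := ⟨(v - u).toNat, by omega⟩
  have hIoc : ∑ b ∈ Finset.Ioc u v, Fw w H b = ∑ i ∈ Finset.range L, Fw w H ((u + 1) + i) := by
    symm
    apply Finset.sum_nbij' (i := fun i : ℕ => (u + 1) + (i : ℤ)) (j := fun b : ℤ => (b - u - 1).toNat)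
    · intro i hi
      rw [Finset.mem_range] at hi
      rw [Finset.mem_Ioc]
      omega
    · intro b hb
      rw [Finset.mem_Ioc] at hb
      rw [Finset.mem_range]
      omega
    · intro i hi
      omega
    · intro b hb
      rw [Finset.mem_Ioc] at hb
      omega
    · intro i hi
      rfl
  rw [hIoc]
  have hdm := Nat.div_add_mod L W
  have hr := Nat.mod_lt L hW0
  rw [← hdm, Finset.sum_range_add, PER_mul W (fun t => Fw w H t) hper (L / W) (u + 1), hsum]
  set R := ∑ x ∈ Finset.range (L % W), Fw w H (u + 1 + ((W * (L / W) + x : ℕ) : ℤ)) with hR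
  have hR0 : 0 ≤ R := Finset.sum_nonneg (fun x _ => PER_Fw_nonneg hH w _)
  have hR1 : R ≤ (W : ℝ) * 2 ^ w := by
    calc R ≤ ∑ x ∈ Finset.range (L % W), (2 : ℝ) ^ w := Finset.sum_le_sum (fun x _ => Fw_le_two_pow hH w _)
      _ = ((L % W : ℕ) : ℝ) * 2 ^ w := by rw [Finset.sum_const, Finset.card_range, nsmul_eq_mul]
      _ ≤ (W : ℝ) * 2 ^ w := by
        apply mul_le_mul_of_nonneg_right _ (by positivity)
        exact_mod_cast hr.le
  have hv : (v : ℝ) - u = (W : ℝ) * ((L / W : ℕ) : ℝ) + ((L % W : ℕ) : ℝ) := by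
    rw [hL]
    push_cast
    have h5 : (W : ℝ) * ((L / W : ℕ) : ℝ) + ((L % W : ℕ) : ℝ) = (L : ℝ) := by exact_mod_cast hdm
    linarith
  rw [hv]
  have hr' : ((L % W : ℕ) : ℝ) ≤ (W : ℝ) := by exact_mod_cast hr.le
  have hr0 : (0 : ℝ) ≤ ((L % W : ℕ) : ℝ) := Nat.cast_nonneg _
  rw [abs_le]
  constructor
  · nlinarith
  · nlinarith

end Pool.Agent.H6.MF
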