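import Pool.Agent.H6.MF.SNG

/-!
# RAT: adding one shift to an admissible set

`rho H b p` is the quotient of the local factors of `insert b H` and `H` for `b ∉ H`:
with `ν = nuH H p < p`, `k = |H|`,
`loc (insert b H) p / loc H p = (1 - ν'/p) / ((1 - 1/p) (1 - ν/p))`, where `ν' = ν` if `p ∣ b - h` for some
`h ∈ H` and `ν' = ν + 1` otherwise. In the first case this is `1/(1-1/p) = 1 + 1/(p-1)`; in the second
`p (p - ν - 1) / ((p-1)(p-ν)) = 1 - ν / ((p-1)(p-ν))`.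

* `Fw w H b = ∏_{p ≤ w} rho H b p`.
* `Fw_le`: `rho ≤ 1 + 1/(p-1) ≤ 1 + 2/p` if some `h ∈ H` has `p ∣ b - h` (and then `p` is in
  `(b-h).natAbs.primeFactors` with `p ≤ w`; all factors of the right hand side are `≥ 1`), else `rho ≤ 1`.
* `Fw_nonneg`: in the second case `ν' = ν + 1 ≤ p` gives `rho ≥ 0`.
* `sing_insert_le`: for `p > w ≥ 2k + 2`: `rho ≤ 1 + 2/p` if `p ∣ b - h` for some `h ∈ H`, else `rho ≤ 1`.
  `sing_insert_ge`: for `p > w ≥ 2k + 2`: `rho ≥ 1 - ν/((p-1)(p-ν)) ≥ 1 - 4k/p^2` (since `p - 1 ≥ p/2` and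
  `p - ν ≥ p/2`), and `∏_{p > w} (1 - 4k/p^2) ≥ 1 - ∑_{n > w} 4k/n^2 ≥ 1 - 4k/w`.
  For the passage to the infinite product use finite sets `S` of primes and `multipliable_loc`
  (`∏_{p ∈ S} loc (insert b H) p = ∏_{p ∈ S} loc H p · ∏_{p ∈ S} rho H b p`) and take the limit
  (`Multipliable.hasProd`, `le_of_tendsto_of_tendsto`).
-/

set_option autoImplicit false

namespace Pool.Agent.H6.MF

open Finset

/-- the quotient of the local factors of `insert b H` and `H` -/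
noncomputable def rho (H : Finset ℤ) (b : ℤ) (p : ℕ) : ℝ :=
  if ∃ h ∈ H, (p : ℤ) ∣ b - h then 1 + 1 / ((p : ℝ) - 1)
  else 1 - (nuH H p : ℝ) / (((p : ℝ) - 1) * ((p : ℝ) - nuH H p))

/-- the product of the quotients over the primes `p ≤ w` -/
noncomputable def Fw (w : ℕ) (H : Finset ℤ) (b : ℤ) : ℝ :=
  ∏ p ∈ (Finset.range (w + 1)).filter Nat.Prime, rho H b p

theorem RAT_mem {H : Finset ℤ} {b : ℤ} {p : ℕ} :
    b % (p : ℤ) ∈ H.image (fun h => h % (p : ℤ)) ↔ ∃ h ∈ H, (p : ℤ) ∣ b - h := by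
  rw [mem_image]
  constructor
  · rintro ⟨h, hh, he⟩
    exact ⟨h, hh, Int.ModEq.dvd (show h ≡ b [ZMOD p] from he)⟩
  · rintro ⟨h, hh, he⟩
    exact ⟨h, hh, (Int.modEq_iff_dvd.2 he : h ≡ b [ZMOD p])⟩

theorem RAT_nu (H : Finset ℤ) (b : ℤ) (p : ℕ) :
    nuH (insert b H) p = if ∃ h ∈ H, (p : ℤ) ∣ b - h then nuH H p else nuH H p + 1 := by
  unfold nuH
  rw [image_insert]
  split_ifs with h
  · rw [insert_eq_of_mem (RAT_mem.2 h)]
  · rw [card_insert_of_notMem fun h1 => h (RAT_mem.1 h1)]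

theorem loc_insert {H : Finset ℤ} {b : ℤ} (hb : b ∉ H) {p : ℕ} (hp : p.Prime) (h : nuH H p < p) :
    loc (insert b H) p = loc H p * rho H b p := by
  have hp1 : (1 : ℝ) < p := by exact_mod_cast hp.one_lt
  have hν : (nuH H p : ℝ) < p := by exact_mod_cast h
  have e1 : (p : ℝ) ≠ 0 := by positivity
  have e2 : (p : ℝ) - 1 ≠ 0 := by linarith
  have e3 : (p : ℝ) - nuH H p ≠ 0 := by linarith
  have e4 : (1 : ℝ) - 1 / p ≠ 0 := by
    have : (1 : ℝ) - 1 / p = (p - 1) / p := by field_simp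
    rw [this]
    exact div_ne_zero e2 e1
  have e5 : ((1 : ℝ) - 1 / p) ^ H.card ≠ 0 := pow_ne_zero _ e4
  unfold loc rho
  rw [RAT_nu, card_insert_of_notMem hb, pow_succ]
  split_ifs with h1
  · have h2 : (1 : ℝ) + 1 / ((p : ℝ) - 1) = 1 / (1 - 1 / p) := by
      field_simp
      ring
    rw [h2]
    field_simp
  · have h2 : (1 - (nuH H p : ℝ) / p) * (1 - (nuH H p : ℝ) / (((p : ℝ) - 1) * ((p : ℝ) - nuH H p))) =
        (1 - ((nuH H p + 1 : ℕ) : ℝ) / p) / (1 - 1 / p) := by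
      push_cast
      have h3 : (1 : ℝ) - 1 / p = (p - 1) / p := by field_simp
      rw [h3]
      field_simp
      ring
    calc (1 - ((nuH H p + 1 : ℕ) : ℝ) / p) / ((1 - 1 / (p : ℝ)) ^ H.card * (1 - 1 / p))
        = ((1 - ((nuH H p + 1 : ℕ) : ℝ) / p) / (1 - 1 / p)) / (1 - 1 / (p : ℝ)) ^ H.card := by
          rw [div_div, mul_comm]
      _ = _ := by
          rw [← h2]
          ring

theorem RAT_rho_nonneg {H : Finset ℤ} {b : ℤ} {p : ℕ} (hp : p.Prime) (h : nuH H p < p) :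
    0 ≤ rho H b p := by
  have hp1 : (1 : ℝ) < p := by exact_mod_cast hp.one_lt
  have hν : (nuH H p : ℝ) + 1 ≤ p := by exact_mod_cast h
  have hν0 : (0 : ℝ) ≤ nuH H p := Nat.cast_nonneg _
  unfold rho
  split_ifs with h1
  · have : 0 < (p : ℝ) - 1 := by linarith
    positivity
  · have h2 : 0 < ((p : ℝ) - 1) * ((p : ℝ) - nuH H p) := mul_pos (by linarith) (by linarith)
    rw [sub_nonneg, div_le_one h2]
    nlinarith [mul_nonneg (show (0:ℝ) ≤ p by positivity) (show (0:ℝ) ≤ p - nuH H p - 1 by linarith)]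

theorem RAT_rho_le {H : Finset ℤ} {b : ℤ} {p : ℕ} (hp : p.Prime) (h : nuH H p < p) :
    rho H b p ≤ ∏ h ∈ H, if (p : ℤ) ∣ b - h then (1 + 2 / (p : ℝ)) else 1 := by
  have hp2 : (2 : ℝ) ≤ p := by exact_mod_cast hp.two_le
  have hν : (nuH H p : ℝ) < p := by exact_mod_cast h
  have hν0 : (0 : ℝ) ≤ nuH H p := Nat.cast_nonneg _
  have h1 : ∀ h ∈ H, (1 : ℝ) ≤ if (p : ℤ) ∣ b - h then (1 + 2 / (p : ℝ)) else 1 := by
    intro h _
    split_ifs
    · have : (0 : ℝ) ≤ 2 / p := by positivity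
      linarith
    · exact le_rfl
  unfold rho
  split_ifs with h2
  · obtain ⟨h0, hh0, hd⟩ := h2
    have h3 : (1 : ℝ) + 1 / ((p : ℝ) - 1) ≤ 1 + 2 / p := by
      have h4 : 0 < (p : ℝ) - 1 := by linarith
      have h5 : 1 / ((p : ℝ) - 1) ≤ 2 / p := by
        rw [div_le_div_iff₀ h4 (by linarith)]
        linarith
      linarith
    refine h3.trans ?_
    rw [← Finset.mul_prod_erase H _ hh0, if_pos hd]
    have h6 : (1 : ℝ) ≤ ∏ x ∈ H.erase h0, if (p : ℤ) ∣ b - x then (1 + 2 / (p : ℝ)) else 1 :=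
      Finset.one_le_prod fun i hi => h1 i (mem_of_mem_erase hi)
    have h7 : (0 : ℝ) ≤ 1 + 2 / p := by positivity
    nlinarith
  · have h3 : 0 ≤ (nuH H p : ℝ) / (((p : ℝ) - 1) * ((p : ℝ) - nuH H p)) := by
      apply div_nonneg hν0
      exact mul_nonneg (by linarith) (by linarith)
    have h4 : (1 : ℝ) ≤ ∏ x ∈ H, if (p : ℤ) ∣ b - x then (1 + 2 / (p : ℝ)) else 1 :=
      Finset.one_le_prod h1
    linarith

theorem RAT_sub {S T : Finset ℕ} (h : S ⊆ T) :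
    ∏ p ∈ S, (1 + 2 / (p : ℝ)) ≤ ∏ p ∈ T, (1 + 2 / (p : ℝ)) := by
  have h1 : ∀ p : ℕ, (1 : ℝ) ≤ 1 + 2 / (p : ℝ) := by
    intro p
    have : (0 : ℝ) ≤ 2 / p := by positivity
    linarith
  rw [← Finset.prod_sdiff h]
  have h2 : (1 : ℝ) ≤ ∏ p ∈ T \ S, (1 + 2 / (p : ℝ)) := Finset.one_le_prod fun p _ => h1 p
  have h3 : (0 : ℝ) ≤ ∏ p ∈ S, (1 + 2 / (p : ℝ)) := Finset.prod_nonneg fun p _ => by positivity
  nlinarith

theorem RAT_pf {b h : ℤ} (hbh : b ≠ h) (S : Finset ℕ) (Q : ℕ → Prop) [DecidablePred Q]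
    (hS : ∀ p ∈ S, p.Prime ∧ Q p) :
    (∏ p ∈ S, if (p : ℤ) ∣ b - h then (1 + 2 / (p : ℝ)) else 1) ≤
      ∏ p ∈ (b - h).natAbs.primeFactors.filter Q, (1 + 2 / (p : ℝ)) := by
  rw [← Finset.prod_filter]
  refine RAT_sub fun p hp => ?_
  rw [mem_filter] at hp
  rw [mem_filter, Nat.mem_primeFactors]
  refine ⟨⟨(hS p hp.1).1, Int.natCast_dvd.1 hp.2, ?_⟩, (hS p hp.1).2⟩
  rw [Ne, Int.natAbs_eq_zero, sub_eq_zero]
  exact hbh

theorem RAT_prod {H : Finset ℤ} (hH : adm H) {b : ℤ} (hb : b ∉ H) (S : Finset ℕ) (Q : ℕ → Prop)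
    [DecidablePred Q] (hS : ∀ p ∈ S, p.Prime ∧ Q p) :
    ∏ p ∈ S, rho H b p ≤ ∏ h ∈ H, ∏ p ∈ (b - h).natAbs.primeFactors.filter Q, (1 + 2 / (p : ℝ)) := by
  refine (Finset.prod_le_prod (fun p hp => RAT_rho_nonneg (hS p hp).1 (hH p (hS p hp).1))
    (fun p hp => RAT_rho_le (hS p hp).1 (hH p (hS p hp).1))).trans ?_
  rw [Finset.prod_comm]
  refine Finset.prod_le_prod (fun h _ => Finset.prod_nonneg fun p _ => ?_) fun h hh => ?_
  · split_ifs
    · positivity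
    · positivity
  · exact RAT_pf (fun he : b = h => hb (by rw [he]; exact hh)) S Q hS

theorem Fw_nonneg {H : Finset ℤ} (hH : adm H) (w : ℕ) (b : ℤ) : 0 ≤ Fw w H b :=
  Finset.prod_nonneg fun p hp => RAT_rho_nonneg (mem_filter.1 hp).2 (hH p (mem_filter.1 hp).2)

theorem Fw_le {H : Finset ℤ} (hH : adm H) (w : ℕ) {b : ℤ} (hb : b ∉ H) :
    Fw w H b ≤ ∏ h ∈ H, ∏ p ∈ (b - h).natAbs.primeFactors, (1 + 2 / (p : ℝ)) := by
  have h1 := RAT_prod hH hb ((Finset.range (w + 1)).filter Nat.Prime) (fun _ => True)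
    (fun p hp => ⟨(mem_filter.1 hp).2, trivial⟩)
  simpa [Fw] using h1

theorem RAT_tend (H : Finset ℤ) : Filter.Tendsto (fun S : Finset Nat.Primes => ∏ p ∈ S, loc H (p : ℕ))
    Filter.atTop (nhds (sing H)) := (multipliable_loc H).hasProd

/-- the primes `≤ w` -/
noncomputable def RAT_S (w : ℕ) : Finset Nat.Primes := Finset.subtype Nat.Prime (range (w + 1))

/-- the embedding of the primes into the natural numbers -/
def RAT_E : Nat.Primes ↪ ℕ := ⟨fun p => (p : ℕ), Nat.Primes.coe_nat_injective⟩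

theorem RAT_memS {w : ℕ} {q : Nat.Primes} : q ∈ RAT_S w ↔ (q : ℕ) < w + 1 :=
  (Finset.mem_subtype (p := Nat.Prime) (s := range (w + 1)) (a := q)).trans mem_range

theorem RAT_prodS (w : ℕ) (f : ℕ → ℝ) :
    ∏ p ∈ RAT_S w, f (p : ℕ) = ∏ p ∈ (Finset.range (w + 1)).filter Nat.Prime, f p :=
  Finset.prod_subtype_eq_prod_filter f

theorem RAT_split {H : Finset ℤ} (b : ℤ) (w : ℕ) {S : Finset Nat.Primes}
    (hS : RAT_S w ⊆ S) :
    ∏ p ∈ S, rho H b (p : ℕ) = Fw w H b * ∏ p ∈ (S \ RAT_S w).map RAT_E, rho H b p := by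
  rw [← Finset.prod_sdiff hS, Finset.prod_map, mul_comm]
  congr 1
  exact RAT_prodS w (fun p => rho H b p)

theorem RAT_big {w : ℕ} {S : Finset Nat.Primes} {p : ℕ}
    (hp : p ∈ (S \ RAT_S w).map RAT_E) : p.Prime ∧ w < p := by
  rw [mem_map] at hp
  obtain ⟨q, hq, rfl⟩ := hp
  rw [mem_sdiff, RAT_memS] at hq
  refine ⟨q.2, ?_⟩
  have h1 : RAT_E q = (q : ℕ) := rfl
  rw [h1]
  omega

theorem sing_insert_le {H : Finset ℤ} (hH : adm H) {w : ℕ} (hw : 2 * H.card + 2 ≤ w) {b : ℤ} (hb : b ∉ H) :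
    sing (insert b H) ≤ sing H * (Fw w H b *
      ∏ h ∈ H, ∏ p ∈ (b - h).natAbs.primeFactors.filter (fun p => w < p), (1 + 2 / (p : ℝ))) := by
  refine le_of_tendsto_of_tendsto (RAT_tend (insert b H)) ((RAT_tend H).mul_const _) ?_
  filter_upwards [Filter.eventually_ge_atTop (RAT_S w)] with S hS
  have h1 : ∏ p ∈ S, loc (insert b H) (p : ℕ) = (∏ p ∈ S, loc H (p : ℕ)) * ∏ p ∈ S, rho H b (p : ℕ) := by
    rw [← Finset.prod_mul_distrib]
    exact Finset.prod_congr rfl fun p _ => loc_insert hb p.2 (hH p p.2)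
  rw [h1, RAT_split b w hS]
  refine mul_le_mul_of_nonneg_left ?_ (Finset.prod_nonneg fun p _ => loc_nonneg H p.2)
  refine mul_le_mul_of_nonneg_left ?_ (Fw_nonneg hH w b)
  exact RAT_prod hH hb _ (fun p => w < p) fun p hp => RAT_big hp

theorem RAT_weier (S : Finset ℕ) (x : ℕ → ℝ) (h0 : ∀ i ∈ S, 0 ≤ x i) (h1 : ∀ i ∈ S, x i ≤ 1) :
    1 - ∑ i ∈ S, x i ≤ ∏ i ∈ S, (1 - x i) := by
  classical
  induction S using Finset.induction_on with
  | empty => simp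
  | insert a S ha ih =>
    rw [Finset.sum_insert ha, Finset.prod_insert ha]
    have h2 := ih (fun i hi => h0 i (mem_insert_of_mem hi)) (fun i hi => h1 i (mem_insert_of_mem hi))
    have h3 := h0 a (mem_insert_self a S)
    have h4 := h1 a (mem_insert_self a S)
    have h5 : 0 ≤ ∑ i ∈ S, x i := Finset.sum_nonneg fun i hi => h0 i (mem_insert_of_mem hi)
    nlinarith [mul_le_mul_of_nonneg_left h2 (show 0 ≤ 1 - x a by linarith), mul_nonneg h3 h5]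

theorem RAT_sq {w : ℕ} (hw : 0 < w) (S : Finset ℕ) (hS : ∀ p ∈ S, w < p) :
    ∑ p ∈ S, ((p : ℝ) ^ 2)⁻¹ ≤ (w : ℝ)⁻¹ := by
  obtain ⟨N, hN⟩ : ∃ N, ∀ p ∈ S, p ≤ N := ⟨S.sup id, fun p hp => Finset.le_sup (f := id) hp⟩
  have h1 : S ⊆ Ioc w (max w N) := by
    intro p hp
    rw [mem_Ioc]
    exact ⟨hS p hp, (hN p hp).trans (le_max_right _ _)⟩
  refine (Finset.sum_le_sum_of_subset_of_nonneg h1 fun p _ _ => by positivity).trans ?_
  have h2 := sum_Ioc_inv_sq_le_sub (α := ℝ) hw.ne' (le_max_left w N)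
  have h3 : (0 : ℝ) ≤ ((max w N : ℕ) : ℝ)⁻¹ := by positivity
  linarith

theorem RAT_rho_ge {H : Finset ℤ} {b : ℤ} {p : ℕ} (hp : 2 * H.card + 2 ≤ p) :
    1 - 4 * (H.card : ℝ) * ((p : ℝ) ^ 2)⁻¹ ≤ rho H b p := by
  have hk : (nuH H p : ℝ) ≤ H.card := by exact_mod_cast nuH_le_card H p
  have hν0 : (0 : ℝ) ≤ nuH H p := Nat.cast_nonneg _
  have hp' : 2 * (H.card : ℝ) + 2 ≤ p := by exact_mod_cast hp
  have hk0 : (0 : ℝ) ≤ H.card := Nat.cast_nonneg _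
  have hp0 : (0 : ℝ) < p := by linarith
  have h0 : 0 ≤ 4 * (H.card : ℝ) * ((p : ℝ) ^ 2)⁻¹ := by positivity
  unfold rho
  split_ifs with h1
  · have : 0 ≤ 1 / ((p : ℝ) - 1) := div_nonneg zero_le_one (by linarith)
    linarith
  · have h2 : (p : ℝ) / 2 ≤ (p : ℝ) - 1 := by linarith
    have h3 : (p : ℝ) / 2 ≤ (p : ℝ) - nuH H p := by linarith
    have h4 : (p : ℝ) / 2 * ((p : ℝ) / 2) ≤ ((p : ℝ) - 1) * ((p : ℝ) - nuH H p) :=
      mul_le_mul h2 h3 (by positivity) (by linarith)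
    have h5 : (nuH H p : ℝ) / (((p : ℝ) - 1) * ((p : ℝ) - nuH H p)) ≤ H.card / ((p : ℝ) / 2 * ((p : ℝ) / 2)) :=
      div_le_div₀ hk0 hk (by positivity) h4
    have h6 : (H.card : ℝ) / ((p : ℝ) / 2 * ((p : ℝ) / 2)) = 4 * (H.card : ℝ) * ((p : ℝ) ^ 2)⁻¹ := by
      field_simp
      ring
    linarith

theorem sing_insert_ge {H : Finset ℤ} (hH : adm H) {w : ℕ} (hw : 2 * H.card + 2 ≤ w) {b : ℤ} (hb : b ∉ H) :
    (1 - 4 * (H.card : ℝ) / w) * (sing H * Fw w H b) ≤ sing (insert b H) := by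
  have h0 : (1 - 4 * (H.card : ℝ) / w) * (sing H * Fw w H b) =
      sing H * (Fw w H b * (1 - 4 * (H.card : ℝ) / w)) := by ring
  rw [h0]
  refine le_of_tendsto_of_tendsto ((RAT_tend H).mul_const _) (RAT_tend (insert b H)) ?_
  filter_upwards [Filter.eventually_ge_atTop (RAT_S w)] with S hS
  have h1 : ∏ p ∈ S, loc (insert b H) (p : ℕ) = (∏ p ∈ S, loc H (p : ℕ)) * ∏ p ∈ S, rho H b (p : ℕ) := by
    rw [← Finset.prod_mul_distrib]
    exact Finset.prod_congr rfl fun p _ => loc_insert hb p.2 (hH p p.2)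
  rw [h1, RAT_split b w hS]
  refine mul_le_mul_of_nonneg_left ?_ (Finset.prod_nonneg fun p _ => loc_nonneg H p.2)
  refine mul_le_mul_of_nonneg_left ?_ (Fw_nonneg hH w b)
  have hk0 : (0 : ℝ) ≤ H.card := Nat.cast_nonneg _
  have hx : ∀ p ∈ (S \ RAT_S w).map RAT_E,
      4 * (H.card : ℝ) * ((p : ℝ) ^ 2)⁻¹ ≤ 1 := by
    intro p hp
    have h2 := (RAT_big hp).2
    have h3 : 2 * (H.card : ℝ) + 2 ≤ p := by
      have : 2 * H.card + 2 ≤ p := by omega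
      exact_mod_cast this
    have h4 : (0 : ℝ) < (p : ℝ) ^ 2 := pow_pos (by linarith) 2
    rw [← div_eq_mul_inv, div_le_one h4]
    nlinarith
  have h2 := RAT_weier _ (fun p => 4 * (H.card : ℝ) * ((p : ℝ) ^ 2)⁻¹) (fun p _ => by positivity) hx
  have h3 : ∏ p ∈ (S \ RAT_S w).map RAT_E,
      (1 - 4 * (H.card : ℝ) * ((p : ℝ) ^ 2)⁻¹) ≤
      ∏ p ∈ (S \ RAT_S w).map RAT_E,
      rho H b p := by
    refine Finset.prod_le_prod (fun p hp => by linarith [hx p hp]) fun p hp => ?_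
    exact RAT_rho_ge (by have := (RAT_big hp).2; omega)
  refine le_trans ?_ (h2.trans h3)
  have h4 := RAT_sq (w := w) (by omega)
    ((S \ RAT_S w).map RAT_E)
    (fun p hp => (RAT_big hp).2)
  have h5 : ∑ p ∈ (S \ RAT_S w).map RAT_E,
      4 * (H.card : ℝ) * ((p : ℝ) ^ 2)⁻¹ ≤ 4 * (H.card : ℝ) / w := by
    rw [← Finset.mul_sum, div_eq_mul_inv]
    exact mul_le_mul_of_nonneg_left h4 (by positivity)
  linarith

end Pool.Agent.H6.MF
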