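import Pool.Agent.H6.MF.ROT

/-!
# ROC: smoothing a set of `k`-tuples over short windows (combinatorial part 2: `row_upper`, `row_lower`, `sum_insert_le`, `le_sum_insert`)

`good x H n` : `n ≤ N = ⌊x⌋₊` and `n - h` prime for all `h ∈ H` (so `cnt x H` is the number of good `n`).
`tt x H L m` = the number of `i < L` with `i ≤ m` and `m - i` good.

* `sum_tt`: `∑_{m < N + 1 + L} tt m = L · cnt x H` (count the pairs `(i, n)`, `m = n + i < N + 1 + L`).
* `sum_tt_sq`: `∑_m tt(m)^2` counts `(i, j, m)` with `m - i`, `m - j` good. The pairs with `i = j` contribute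
  `L cnt x H`. For `i < j`, `r = j - i ∈ [1, L)`: `n = m - i` is good and `n - r = m - j` is good, so
  `n - h` and `n - (h + r)` are prime for all `h ∈ H` and `n ≤ N`: at most `cnt x (H ∪ tr H r)` values of `n`,
  and at most `L` values of `i`. Symmetrically for `i > j`.
* `win_upper`: for good `n` and `0 ≤ i < L`: `win u v n ≤ win u (v + L) (n + i)`: `win u v n` counts primes in
  `[n - v, n - u)` and this is contained in `[n + i - v - L, n + i - u)` (as a map on `b`: `b ↦ b + i`,
  `u < b ≤ v` gives `u < b + i ≤ v + L`). `win_lower`: `win (u + L) v (n + i) ≤ win u v n` for `0 ≤ i ≤ L` (map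
  `b ↦ b - i`).
* `row_upper`: sum `win_upper` over `i < L` and good `n`, substitute `m = n + i`.
  `row_lower`: the same with `win_lower`.
* `sum_insert`: `∑_{b ∈ Ioc u v} #{n good, n - b prime} = ∑_{good n} win u v n`; for `b ∉ H` the term is
  `cnt x (insert b H)`; for `b ∈ H` it is `cnt x H`, there are at most `|H|` such `b`.
-/

set_option autoImplicit false

namespace Pool.Agent.H6.MF

open Finset

theorem ROC_sum (x : ℝ) (H : Finset ℤ) (L : ℕ) (W : ℕ → ℕ) :
    ∑ m ∈ Finset.range (⌊x⌋₊ + 1 + L), tt x H L m * W m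
      = ∑ n ∈ goodS x H, ∑ i ∈ Finset.range L, W (n + i) := by
  have h1 : ∀ m ∈ Finset.range (⌊x⌋₊ + 1 + L), tt x H L m * W m
      = ∑ i ∈ Finset.range L, if (i ≤ m ∧ m - i ∈ goodS x H) then W m else 0 := by
    intro m _
    rw [tt, ← Finset.sum_filter, Finset.sum_const, smul_eq_mul]
  rw [Finset.sum_congr rfl h1, Finset.sum_comm, Finset.sum_comm (s := goodS x H)]
  refine Finset.sum_congr rfl fun i hi => ?_
  have hiL : i < L := Finset.mem_range.1 hi
  rw [← Finset.sum_filter]
  symm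
  refine Finset.sum_bij (fun n _ => n + i) ?_ ?_ ?_ ?_
  · intro n hn
    have hn' : n < ⌊x⌋₊ + 1 := Finset.mem_range.1 (Finset.mem_filter.1 hn).1
    refine Finset.mem_filter.2 ⟨Finset.mem_range.2 (by omega), by omega, ?_⟩
    rwa [Nat.add_sub_cancel]
  · intro a _ b _ hab
    simpa using hab
  · intro m hm
    obtain ⟨_, h2, h3⟩ := Finset.mem_filter.1 hm
    exact ⟨m - i, h3, by omega⟩
  · intro n _
    rfl

theorem row_upper (x : ℝ) (H : Finset ℤ) (L : ℕ) (u v : ℤ) :
    L * ∑ n ∈ goodS x H, win u v (n : ℤ)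
      ≤ ∑ m ∈ Finset.range (⌊x⌋₊ + 1 + L), tt x H L m * win u (v + L) (m : ℤ) := by
  rw [ROC_sum x H L (fun m => win u (v + L) (m : ℤ)), Finset.mul_sum]
  refine Finset.sum_le_sum fun n _ => ?_
  rw [← smul_eq_mul, ← Finset.card_range L, ← Finset.sum_const, Finset.card_range]
  refine Finset.sum_le_sum fun i hi => ?_
  have hiL : i < L := Finset.mem_range.1 hi
  rw [← win_shift u v n i]
  push_cast
  exact win_mono (by omega) (by omega)

theorem row_lower (x : ℝ) (H : Finset ℤ) (L : ℕ) (u v : ℤ) :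
    ∑ m ∈ Finset.range (⌊x⌋₊ + 1 + L), tt x H L m * win (u + L) v (m : ℤ)
      ≤ L * ∑ n ∈ goodS x H, win u v (n : ℤ) := by
  rw [ROC_sum x H L (fun m => win (u + L) v (m : ℤ)), Finset.mul_sum]
  refine Finset.sum_le_sum fun n _ => ?_
  rw [← smul_eq_mul, ← Finset.card_range L, ← Finset.sum_const, Finset.card_range]
  refine Finset.sum_le_sum fun i hi => ?_
  have hiL : i < L := Finset.mem_range.1 hi
  rw [← win_shift u v n i]
  push_cast
  exact win_mono (by omega) (by omega)

theorem ROC_insert (x : ℝ) (H : Finset ℤ) (u v : ℤ) :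
    ∑ n ∈ goodS x H, win u v (n : ℤ) = ∑ b ∈ Finset.Ioc u v, cnt x (insert b H) := by
  have h1 : ∀ n ∈ goodS x H, win u v (n : ℤ)
      = ∑ b ∈ Finset.Ioc u v, if isP ((n : ℤ) - b) then 1 else 0 := by
    intro n _
    rw [win, Finset.card_filter]
  rw [Finset.sum_congr rfl h1, Finset.sum_comm]
  refine Finset.sum_congr rfl fun b _ => ?_
  rw [← Finset.card_filter, goodS, Finset.filter_filter, cnt]
  congr 1
  refine Finset.filter_congr fun n _ => ?_
  constructor
  · rintro ⟨h2, h3⟩ h hh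
    rcases Finset.mem_insert.1 hh with rfl | h4
    · exact h3
    · exact h2 h h4
  · intro h2
    exact ⟨fun h hh => h2 h (Finset.mem_insert_of_mem hh), h2 b (Finset.mem_insert_self b H)⟩

theorem sum_insert_le (x : ℝ) (H : Finset ℤ) (u v : ℤ) :
    ∑ b ∈ Finset.Ioc u v \ H, cnt x (insert b H) ≤ ∑ n ∈ goodS x H, win u v (n : ℤ) := by
  rw [ROC_insert]
  exact Finset.sum_le_sum_of_subset Finset.sdiff_subset

theorem le_sum_insert (x : ℝ) (H : Finset ℤ) (u v : ℤ) :
    ∑ n ∈ goodS x H, win u v (n : ℤ) ≤ ∑ b ∈ Finset.Ioc u v \ H, cnt x (insert b H) + H.card * cnt x H := by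
  rw [ROC_insert]
  have h0 : ∑ b ∈ Finset.Ioc u v, cnt x (insert b H)
      = ∑ b ∈ Finset.Ioc u v \ H, cnt x (insert b H) + ∑ b ∈ Finset.Ioc u v ∩ H, cnt x (insert b H) := by
    rw [← Finset.sum_union (Finset.disjoint_sdiff_inter _ _), Finset.sdiff_union_inter]
  rw [h0]
  refine Nat.add_le_add_left ?_ _
  have h1 : ∀ b ∈ Finset.Ioc u v ∩ H, cnt x (insert b H) = cnt x H := by
    intro b hb
    rw [Finset.insert_eq_self.2 (Finset.mem_inter.1 hb).2]
  rw [Finset.sum_congr rfl h1, Finset.sum_const, smul_eq_mul]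
  exact Nat.mul_le_mul_right _ (Finset.card_le_card Finset.inter_subset_right)

end Pool.Agent.H6.MF
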