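import Pool.Agent.H6.MF.BAS

/-!
# ROT: definitions `goodS`, `tt`; `sum_tt`, `sum_tt_sq` (the header is shared with ROC.lean)

`good x H n` : `n ≤ N = ⌊x⌋₊` and `n - h` prime for all `h ∈ H` (so `cnt x H` is the number of good `n`).
`tt x H L m` = the number of `i < L` with `i ≤ m` and `m - i` good.

* `sum_tt`: `∑_{m < N + 1 + L} tt m = L · cnt x H` (count the pairs `(i, n)`, `m = n + i < N + 1 + L`).
* `sum_tt_sq`: `∑_m tt(m)^2` counts `(i, j, m)` with `m - i`, `m - j` good. The pairs with `i = j` contribute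
  `L cnt x H`. For `i < j`, `r = j - i ∈ [1, L)`: `n = m - i` is good and `n - r = m - j` is good, so
  `n - h` and `n - (h + r)` are prime for all `h ∈ H` and `n ≤ N`: at most `cnt x (H ∪ tr H r)` values of `n`,
  and at most `L` values of `i`. Symmetrically for `i > j`.
* `win_upper`: for good `n` and `0 ≤ i < L`: `win u v n ≤ win u (v + L) (n + i)`: `win u v n` counts primes in
  `[n - v, n - u)` and this is contained in `[n + i - v - L, n + i - u)` (as a map on `b`: `b ↦ b + i`,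
  `u < b ≤ v` gives `u < b + i ≤ v + L`). `win_lower`: `win (u + L) v (n + i) ≤ win u v n` for `0 ≤ i ≤ L` (map
  `b ↦ b - i`).
* `row_upper`: sum `win_upper` over `i < L` and good `n`, substitute `m = n + i`.
  `row_lower`: the same with `win_lower`.
* `sum_insert`: `∑_{b ∈ Ioc u v} #{n good, n - b prime} = ∑_{good n} win u v n`; for `b ∉ H` the term is
  `cnt x (insert b H)`; for `b ∈ H` it is `cnt x H`, there are at most `|H|` such `b`.
-/

set_option autoImplicit false

namespace Pool.Agent.H6.MF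

open Finset

/-- the good `n` -/
noncomputable def goodS (x : ℝ) (H : Finset ℤ) : Finset ℕ :=
  (Finset.range (⌊x⌋₊ + 1)).filter (fun n : ℕ => ∀ h ∈ H, isP ((n : ℤ) - h))

/-- the number of good `n` in `(m - L, m]` -/
noncomputable def tt (x : ℝ) (H : Finset ℤ) (L m : ℕ) : ℕ :=
  ((Finset.range L).filter (fun i => i ≤ m ∧ m - i ∈ goodS x H)).card

theorem ROT_goodS_lt {x : ℝ} {H : Finset ℤ} {n : ℕ} (h : n ∈ goodS x H) : n < ⌊x⌋₊ + 1 := by
  unfold goodS at h
  rw [Finset.mem_filter, Finset.mem_range] at h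
  exact h.1

theorem ROT_card_goodS (x : ℝ) (H : Finset ℤ) : (goodS x H).card = cnt x H := rfl

theorem ROT_card_shift (x : ℝ) (H : Finset ℤ) {L i : ℕ} (hi : i < L) :
    ((Finset.range (⌊x⌋₊ + 1 + L)).filter (fun m => i ≤ m ∧ m - i ∈ goodS x H)).card = cnt x H := by
  rw [← ROT_card_goodS]
  apply Finset.card_nbij' (fun m => m - i) (fun n => n + i)
  · intro m hm
    have hm' := Finset.mem_filter.1 (Finset.mem_coe.1 hm)
    exact Finset.mem_coe.2 hm'.2.2
  · intro n hn
    have hn' := ROT_goodS_lt (Finset.mem_coe.1 hn)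
    apply Finset.mem_coe.2
    show n + i ∈ (Finset.range (⌊x⌋₊ + 1 + L)).filter (fun m => i ≤ m ∧ m - i ∈ goodS x H)
    rw [Finset.mem_filter, Finset.mem_range]
    refine ⟨by omega, by omega, ?_⟩
    rw [Nat.add_sub_cancel]
    exact Finset.mem_coe.1 hn
  · intro m hm
    have hm' := Finset.mem_filter.1 (Finset.mem_coe.1 hm)
    exact Nat.sub_add_cancel hm'.2.1
  · intro n _
    exact Nat.add_sub_cancel n i

theorem ROT_tt_eq (x : ℝ) (H : Finset ℤ) (L m : ℕ) :
    tt x H L m = ∑ i ∈ Finset.range L, if i ≤ m ∧ m - i ∈ goodS x H then 1 else 0 := by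
  unfold tt
  rw [Finset.card_filter]

theorem sum_tt (x : ℝ) (H : Finset ℤ) (L : ℕ) :
    ∑ m ∈ Finset.range (⌊x⌋₊ + 1 + L), tt x H L m = L * cnt x H := by
  simp only [ROT_tt_eq]
  rw [Finset.sum_comm]
  have h1 : ∀ i ∈ Finset.range L, (∑ m ∈ Finset.range (⌊x⌋₊ + 1 + L),
      if i ≤ m ∧ m - i ∈ goodS x H then 1 else 0) = cnt x H := by
    intro i hi
    rw [← Finset.card_filter]
    exact ROT_card_shift x H (Finset.mem_range.1 hi)
  rw [Finset.sum_congr rfl h1, Finset.sum_const, Finset.card_range, smul_eq_mul]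

/-- two good numbers at distance `r` -/
theorem ROT_pair (x : ℝ) (H : Finset ℤ) (s : Finset ℕ) {i j : ℕ} (hij : i < j) :
    (s.filter (fun m => (i ≤ m ∧ m - i ∈ goodS x H) ∧ (j ≤ m ∧ m - j ∈ goodS x H))).card ≤
      cnt x (H ∪ tr H ((j - i : ℕ) : ℤ)) := by
  rw [← ROT_card_goodS]
  apply Finset.card_le_card_of_injOn (fun m => m - i)
  · intro m hm
    have hm' := (Finset.mem_filter.1 (Finset.mem_coe.1 hm)).2
    obtain ⟨⟨h1, h2⟩, h3, h4⟩ := hm'
    apply Finset.mem_coe.2
    have h2' := h2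
    unfold goodS at h2 h4 ⊢
    rw [Finset.mem_filter] at h2 h4 ⊢
    refine ⟨h2.1, ?_⟩
    intro h hh
    rw [Finset.mem_union] at hh
    rcases hh with hh | hh
    · exact h2.2 h hh
    · unfold tr at hh
      rw [Finset.mem_image] at hh
      obtain ⟨h', hh', rfl⟩ := hh
      have h5 := h4.2 h' hh'
      have e : ((m - i : ℕ) : ℤ) - (h' + ((j - i : ℕ) : ℤ)) = ((m - j : ℕ) : ℤ) - h' := by
        omega
      show isP (((m - i : ℕ) : ℤ) - (h' + ((j - i : ℕ) : ℤ)))
      rw [e]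
      exact h5
  · intro m hm m' hm' he
    have h1 := (Finset.mem_filter.1 (Finset.mem_coe.1 hm)).2.1.1
    have h2 := (Finset.mem_filter.1 (Finset.mem_coe.1 hm')).2.1.1
    have he' : m - i = m' - i := he
    omega

theorem ROT_row (x : ℝ) (H : Finset ℤ) {L i : ℕ} (hi : i < L) :
    ∑ j ∈ Finset.range L, ((Finset.range (⌊x⌋₊ + 1 + L)).filter
      (fun m => (i ≤ m ∧ m - i ∈ goodS x H) ∧ (j ≤ m ∧ m - j ∈ goodS x H))).card ≤
      cnt x H + 2 * ∑ r ∈ Finset.Ico 1 L, cnt x (H ∪ tr H (r : ℤ)) := by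
  obtain ⟨c, hc⟩ : ∃ c : ℕ → ℕ, c = fun r : ℕ => cnt x (H ∪ tr H (r : ℤ)) := ⟨_, rfl⟩
  have hF : ∀ j ∈ Finset.range L, ((Finset.range (⌊x⌋₊ + 1 + L)).filter
      (fun m => (i ≤ m ∧ m - i ∈ goodS x H) ∧ (j ≤ m ∧ m - j ∈ goodS x H))).card ≤
      (if j = i then cnt x H else 0) + ((if i < j then c (j - i) else 0) + (if j < i then c (i - j) else 0)) := by
    intro j _
    rcases lt_trichotomy i j with h | h | h
    · rw [if_neg (by omega), if_pos h, if_neg (by omega), zero_add, add_zero, hc]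
      exact ROT_pair x H _ h
    · subst h
      rw [if_pos rfl, if_neg (lt_irrefl _)]
      simp only [and_self, add_zero]
      exact (ROT_card_shift x H hi).le
    · rw [if_neg (by omega), if_neg (by omega), if_pos h, zero_add, zero_add, hc]
      refine le_trans (le_of_eq ?_) (ROT_pair x H (Finset.range (⌊x⌋₊ + 1 + L)) h)
      congr 1
      apply Finset.filter_congr
      intro m _
      exact and_comm
  refine (Finset.sum_le_sum hF).trans ?_
  rw [Finset.sum_add_distrib, Finset.sum_add_distrib, Finset.sum_ite_eq' (Finset.range L) i,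
    if_pos (Finset.mem_range.2 hi), ← Finset.sum_filter, ← Finset.sum_filter, two_mul]
  have h1 : ∑ j ∈ (Finset.range L).filter (fun j => i < j), c (j - i) ≤ ∑ r ∈ Finset.Ico 1 L, c r := by
    rw [← Finset.sum_image (f := c) (g := fun j => j - i)]
    · apply Finset.sum_le_sum_of_subset
      intro r hr
      rw [Finset.mem_image] at hr
      obtain ⟨j, hj, rfl⟩ := hr
      rw [Finset.mem_filter, Finset.mem_range] at hj
      rw [Finset.mem_Ico]
      omega
    · intro a ha b hb hab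
      have ha' := (Finset.mem_filter.1 (Finset.mem_coe.1 ha)).2
      have hb' := (Finset.mem_filter.1 (Finset.mem_coe.1 hb)).2
      have hab' : a - i = b - i := hab
      omega
  have h2 : ∑ j ∈ (Finset.range L).filter (fun j => j < i), c (i - j) ≤ ∑ r ∈ Finset.Ico 1 L, c r := by
    rw [← Finset.sum_image (f := c) (g := fun j => i - j)]
    · apply Finset.sum_le_sum_of_subset
      intro r hr
      rw [Finset.mem_image] at hr
      obtain ⟨j, hj, rfl⟩ := hr
      rw [Finset.mem_filter, Finset.mem_range] at hj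
      rw [Finset.mem_Ico]
      omega
    · intro a ha b hb hab
      have ha' := (Finset.mem_filter.1 (Finset.mem_coe.1 ha)).2
      have hb' := (Finset.mem_filter.1 (Finset.mem_coe.1 hb)).2
      have hab' : i - a = i - b := hab
      omega
  have h3 : ∑ r ∈ Finset.Ico 1 L, cnt x (H ∪ tr H (r : ℤ)) = ∑ r ∈ Finset.Ico 1 L, c r := by
    rw [hc]
  rw [h3]
  omega

theorem sum_tt_sq (x : ℝ) (H : Finset ℤ) (L : ℕ) :
    ∑ m ∈ Finset.range (⌊x⌋₊ + 1 + L), (tt x H L m) ^ 2
      ≤ L * (cnt x H + 2 * ∑ r ∈ Finset.Ico 1 L, cnt x (H ∪ tr H (r : ℤ))) := by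
  have h1 : ∀ m, (tt x H L m) ^ 2 = ∑ i ∈ Finset.range L, ∑ j ∈ Finset.range L,
      if (i ≤ m ∧ m - i ∈ goodS x H) ∧ (j ≤ m ∧ m - j ∈ goodS x H) then 1 else 0 := by
    intro m
    rw [sq, ROT_tt_eq, Finset.sum_mul_sum]
    refine Finset.sum_congr rfl fun i _ => Finset.sum_congr rfl fun j _ => ?_
    by_cases ha : i ≤ m ∧ m - i ∈ goodS x H
    · by_cases hb : j ≤ m ∧ m - j ∈ goodS x H
      · have hab : (i ≤ m ∧ m - i ∈ goodS x H) ∧ (j ≤ m ∧ m - j ∈ goodS x H) := ⟨ha, hb⟩
        rw [if_pos ha, if_pos hb, if_pos hab, mul_one]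
      · have hab : ¬ ((i ≤ m ∧ m - i ∈ goodS x H) ∧ (j ≤ m ∧ m - j ∈ goodS x H)) := fun h => hb h.2
        rw [if_neg hb, if_neg hab, mul_zero]
    · have hab : ¬ ((i ≤ m ∧ m - i ∈ goodS x H) ∧ (j ≤ m ∧ m - j ∈ goodS x H)) := fun h => ha h.1
      rw [if_neg ha, if_neg hab, zero_mul]
  simp only [h1]
  rw [Finset.sum_comm]
  have h2 : ∀ i ∈ Finset.range L, (∑ m ∈ Finset.range (⌊x⌋₊ + 1 + L), ∑ j ∈ Finset.range L,
      if (i ≤ m ∧ m - i ∈ goodS x H) ∧ (j ≤ m ∧ m - j ∈ goodS x H) then 1 else 0) ≤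
      cnt x H + 2 * ∑ r ∈ Finset.Ico 1 L, cnt x (H ∪ tr H (r : ℤ)) := by
    intro i hi
    rw [Finset.sum_comm]
    refine le_trans (le_of_eq ?_) (ROT_row x H (Finset.mem_range.1 hi))
    refine Finset.sum_congr rfl fun j _ => ?_
    rw [Finset.card_filter]
  refine (Finset.sum_le_sum h2).trans ?_
  rw [Finset.sum_const, Finset.card_range, smul_eq_mul]

end Pool.Agent.H6.MF
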