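import Pool.Agent.H6.MF.PER
import Pool.Agent.H6.MF.AVG

/-!
# SAV: the average of the singular series over one additional shift

Write `L = v - u ≥ Y`, `I = Ioc u v \ H`, `Fw` and `rho` as in `RAT`. For `b ∈ I` put
`G(b) = ∏_{h ∈ H} ∏_{p ∣ b - h, p > w} (1 + 2/p) ≥ 1`.
`RAT`: `(1 - 4k/w) sing H · Fw(b) ≤ sing (insert b H) ≤ sing H · Fw(b) G(b)`.
`PER`: `|∑_{b ∈ Ioc u v} Fw(b) - L| ≤ C(w)` and the `b ∈ H` contribute at most `k 2^w`.
So `|∑_{b ∈ I} Fw(b) - L| ≤ C(w) + k 2^w ≤ (ε/4) L` for `Y` large (in terms of `w`).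
*Lower bound:* `∑_I sing (insert b H) ≥ (1 - 4k/w) (1 - ε/4) L sing H`, choose `w ≥ 16 k/ε`.
*Upper bound:* `∑_I Fw G = ∑_I Fw + ∑_I Fw (G - 1)` and by Cauchy-Schwarz
`∑_I Fw (G - 1) ≤ (∑_I Fw^2)^(1/2) (∑_I (G-1)^2)^(1/2)`.
 * `∑_I Fw^2 ≤ C₁ L` with `C₁` depending on `k, A` only: `Fw_le` gives
   `Fw(b)^2 ≤ ∏_{h ∈ H} a_h(b)`, `a_h(b) = ∏_{p ∣ b - h} (1+2/p)^2`; by the inequality of arithmetic and
   geometric means `∏_{h ∈ H} a_h ≤ (1/k) ∑_h a_h^k` (`Real.inner_le_nnorm_mul_nnorm` is not needed: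
   `Real.geom_mean_le_arith_mean_weighted` or simply `∏ a_h ≤ ∑ a_h^k` because the largest `a_h` satisfies
   `∏ a ≤ (max a)^k ≤ ∑ a_h^k`), and `(1+2/p)^(2k) ≤ 1 + 9^k/p·2` (for `0 ≤ t ≤ 1`:
   `(1+t)^m ≤ 1 + 2^m t`, here `t = 2/p`). Then `AVG1` with `B = 2·4^k` (any suitable `B`) applied to
   `n = b - h ∈ Ioc (u-h) (v-h)`, `n ≠ 0`, `|u - h| ≤ 2 Y^A ≤ Y^(A+1)`.
 * `∑_I (G-1)^2 ≤ ε' L` for `w ≥ w₀(ε')`, `Y ≥ Y₀(w)`: for `G ≥ 1`: `(G-1)^2 ≤ G^2 - 1`; and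
   `∏_h a_h - 1 ≤ (1/k) ∑_h (a_h^k - 1)` for `a_h ≥ 1` (AM-GM), with `a_h = ∏_{p ∣ b-h, p>w} (1+2/p)^2`;
   now `AVG2` with the same `B`.
 So the upper bound is `(1 + ε/4 + (C₁ ε')^(1/2)) L sing H`. Choose `ε'`, then `w`, then `Y₀`.
Remember `sing H > 0` (`sing_ne_zero_iff`, `sing_nonneg`).

* `SAV1`, `SAV2`, `SAV3`: sums over intervals starting at `1` for `H = {0}` and `H = {0, e}`:
  - `SAV1`: `H = {0}` (admissible, `sing {0} = 1`: all local factors are `(1-1/p)/(1-1/p)^1 = 1`),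
    `u = 0`, `v = s`; `insert d {0} = {0, d}`.
  - `SAV2`: `∑_{d ≤ s} ∑_{d' < d} sing {0,d',d} = (1/2) ∑_{e ≤ s} ∑_{b ≤ s, b ≠ e} sing {0,b,e}`; for odd `e`
    the set `{0,e,b}` is not admissible (`not_adm_of_odd`), `sing = 0`; for even `e` the set `{0,e}` is
    admissible (modulo `p ≥ 3` two elements do not cover all classes, modulo `2` both are `0`), so by `SAV`
    the inner sum is `≤ (1+ε) s sing {0,e}`, then `SAV1`.
  - `SAV3`: `∑_{d < s} (s - d) ∑_{d' < d} sing {0,d',d} = ∑_{m < s} ∑_{d ≤ m} ∑_{d' < d} sing {0,d',d}`; for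
    `m ≥ m₀ := ⌈δ s⌉` (`≥ Y^(1/2)`, use `SAV2` with `Y' = δ Y` or with `Y^(1/2)`, exponent `2A`) the inner
    sum is `≤ (1+ε) m^2/2`; for `m < m₀` it is `≤` the one for `m₀`. So the total is
    `≤ (1+ε) (s^3/6 + s m₀^2)`.
-/

set_option autoImplicit false

namespace Pool.Agent.H6.MF

open Finset

theorem SAV_pow {t : ℝ} (h0 : 0 ≤ t) (h1 : t ≤ 1) (m : ℕ) : (1 + t) ^ m ≤ 1 + (2 ^ m - 1) * t := by
  induction m with
  | zero => simp
  | succ m ih =>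
    have h2 : (1 : ℝ) ≤ 2 ^ m := one_le_pow₀ (by norm_num)
    have h3 : t * t ≤ t := by nlinarith
    calc (1 + t) ^ (m + 1) = (1 + t) ^ m * (1 + t) := pow_succ _ _
      _ ≤ (1 + (2 ^ m - 1) * t) * (1 + t) := mul_le_mul_of_nonneg_right ih (by linarith)
      _ = 1 + 2 ^ m * t + (2 ^ m - 1) * (t * t) := by ring
      _ ≤ 1 + 2 ^ m * t + (2 ^ m - 1) * t := by
          have := mul_le_mul_of_nonneg_left h3 (show (0:ℝ) ≤ 2 ^ m - 1 by linarith)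
          linarith
      _ = _ := by rw [pow_succ]; ring

theorem SAV_fac {p : ℕ} (hp : 2 ≤ p) (k : ℕ) :
    (1 + 2 / (p : ℝ)) ^ (2 * k) ≤ 1 + (2 * 4 ^ k) / (p : ℝ) := by
  have hp' : (2 : ℝ) ≤ p := by exact_mod_cast hp
  have h0 : (0 : ℝ) ≤ 2 / p := by positivity
  have h1 : 2 / (p : ℝ) ≤ 1 := by
    rw [div_le_one (by linarith)]
    exact hp'
  refine (SAV_pow h0 h1 (2 * k)).trans ?_
  have h2 : ((2 : ℝ)) ^ (2 * k) = 4 ^ k := by rw [pow_mul]; norm_num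
  rw [h2]
  have h3 : (2 * 4 ^ k : ℝ) / p = 4 ^ k * (2 / p) := by ring
  rw [h3]
  nlinarith

theorem SAV_max {H : Finset ℤ} (hH : 1 ≤ H.card) (a : ℤ → ℝ) (ha : ∀ h ∈ H, 1 ≤ a h) :
    ∏ h ∈ H, a h - 1 ≤ ∑ h ∈ H, ((a h) ^ H.card - 1) := by
  obtain ⟨h0, hh0, hmax⟩ := Finset.exists_max_image H a (Finset.card_pos.1 hH)
  have h1 : ∏ h ∈ H, a h ≤ (a h0) ^ H.card := by
    rw [← Finset.prod_const]
    exact Finset.prod_le_prod (fun h hh => by linarith [ha h hh]) fun h hh => hmax h hh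
  have h2 : (a h0) ^ H.card - 1 ≤ ∑ h ∈ H, ((a h) ^ H.card - 1) := by
    refine Finset.single_le_sum (f := fun h => (a h) ^ H.card - 1) (fun h hh => ?_) hh0
    have := one_le_pow₀ (n := H.card) (ha h hh)
    linarith
  linarith

theorem SAV_sq {H : Finset ℤ} (hH : 1 ≤ H.card) (b : ℤ) (Q : ℕ → Prop) [DecidablePred Q] :
    (∏ h ∈ H, ∏ p ∈ (b - h).natAbs.primeFactors.filter Q, (1 + 2 / (p : ℝ))) ^ 2 - 1 ≤
      ∑ h ∈ H, (∏ p ∈ (b - h).natAbs.primeFactors.filter Q, (1 + (2 * 4 ^ H.card) / (p : ℝ)) - 1) := by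
  rw [← Finset.prod_pow]
  refine (SAV_max hH (fun h => (∏ p ∈ (b - h).natAbs.primeFactors.filter Q, (1 + 2 / (p : ℝ))) ^ 2)
    fun h _ => ?_).trans ?_
  · apply one_le_pow₀
    refine Finset.one_le_prod fun p _ => ?_
    have : (0 : ℝ) ≤ 2 / p := by positivity
    linarith
  · refine Finset.sum_le_sum fun h _ => ?_
    have h1 : ((∏ p ∈ (b - h).natAbs.primeFactors.filter Q, (1 + 2 / (p : ℝ))) ^ 2) ^ H.card ≤
        ∏ p ∈ (b - h).natAbs.primeFactors.filter Q, (1 + (2 * 4 ^ H.card) / (p : ℝ)) := by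
      rw [← pow_mul, ← Finset.prod_pow]
      refine Finset.prod_le_prod (fun p _ => by positivity) fun p hp => ?_
      exact SAV_fac (Nat.prime_of_mem_primeFactors (mem_filter.1 hp).1).two_le _
    linarith

theorem SAV_shift {H : Finset ℤ} {u v : ℤ} (g : ℤ → ℝ) (hg : ∀ n, 0 ≤ g n) {h : ℤ} (hh : h ∈ H) :
    ∑ b ∈ Ioc u v \ H, g (b - h) ≤ ∑ n ∈ (Ioc (u - h) (v - h)).erase 0, g n := by
  have h1 : ∑ b ∈ Ioc u v \ H, g (b - h) = ∑ n ∈ (Ioc u v \ H).image (fun b => b - h), g n := by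
    rw [Finset.sum_image]
    intro a _ c _ hac
    have : a - h = c - h := hac
    omega
  rw [h1]
  refine Finset.sum_le_sum_of_subset_of_nonneg ?_ fun n _ _ => hg n
  intro n hn
  obtain ⟨b, hb, rfl⟩ := mem_image.1 hn
  rw [mem_sdiff, mem_Ioc] at hb
  rw [mem_erase, mem_Ioc]
  refine ⟨?_, by omega, by omega⟩
  intro h0
  have h2 : b = h := by omega
  rw [h2] at hb
  exact hb.2 hh

theorem SAV_one_le (B : ℝ) (hB : 0 ≤ B) (S : Finset ℕ) : 1 ≤ ∏ p ∈ S, (1 + B / (p : ℝ)) := by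
  refine Finset.one_le_prod fun p _ => ?_
  have : (0 : ℝ) ≤ B / p := by positivity
  linarith

theorem SAV (k : ℕ) (hk : 1 ≤ k) (A : ℕ) (ε : ℝ) (hε : 0 < ε) : ∃ Y₀ : ℝ, ∀ Y : ℝ, Y₀ ≤ Y →
    ∀ H : Finset ℤ, H.card = k → adm H → (∀ h ∈ H, |(h : ℝ)| ≤ Y ^ A) → ∀ u v : ℤ,
    |(u : ℝ)| ≤ Y ^ A → |(v : ℝ)| ≤ Y ^ A → Y ≤ (v : ℝ) - u →
    |∑ b ∈ Finset.Ioc u v \ H, sing (insert b H) - ((v : ℝ) - u) * sing H|
      ≤ ε * (((v : ℝ) - u) * sing H) := by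
  obtain ⟨B, hB⟩ : ∃ B : ℝ, B = 2 * 4 ^ k := ⟨_, rfl⟩
  have hB0 : 0 ≤ B := by rw [hB]; positivity
  obtain ⟨η, hη0, hη1, hηε⟩ : ∃ η : ℝ, 0 < η ∧ η ≤ 1 ∧ 2 * η ≤ ε :=
    ⟨min 1 (ε / 2), lt_min one_pos (by linarith), min_le_left _ _, by
      linarith [min_le_right 1 (ε / 2)]⟩
  have hk0 : (0 : ℝ) < k := by exact_mod_cast hk
  obtain ⟨C, Y1, hC, hY1⟩ := AVG1 B hB0 (A + 1)
  obtain ⟨δ, hδ⟩ : ∃ δ : ℝ, δ = η / (k * C) := ⟨_, rfl⟩
  have hδ0 : 0 < δ := by rw [hδ]; positivity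
  obtain ⟨w₀, hw₀⟩ := AVG2 B hB0 (A + 1) (η * δ / k) (by positivity)
  obtain ⟨w, hw1, hw2, hw3⟩ : ∃ w : ℕ, w₀ ≤ w ∧ 2 * k + 2 ≤ w ∧ 4 * (k : ℝ) / η ≤ w := by
    obtain ⟨n, hn⟩ := exists_nat_ge (4 * (k : ℝ) / η)
    refine ⟨max w₀ (max (2 * k + 2) n), le_max_left _ _,
      (le_max_left _ _).trans (le_max_right _ _), hn.trans ?_⟩
    exact_mod_cast (le_max_right (2 * k + 2) n).trans (le_max_right _ _)
  have hwpos : (0 : ℝ) < w := by
    have : 0 < w := by omega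
    exact_mod_cast this
  obtain ⟨Y2, hY2⟩ := hw₀ w hw1
  obtain ⟨Cw, hCw, hper⟩ := PER w
  refine ⟨max (max Y1 Y2) (max 2 ((Cw + k * 2 ^ w) / η)), ?_⟩
  intro Y hY H hHk hH hHA u v hu hv huv
  have hYa : Y1 ≤ Y := ((le_max_left _ _).trans (le_max_left _ _)).trans hY
  have hYb : Y2 ≤ Y := ((le_max_right _ _).trans (le_max_left _ _)).trans hY
  have hYc : 2 ≤ Y := ((le_max_left _ _).trans (le_max_right _ _)).trans hY
  have hYd : (Cw + k * 2 ^ w) / η ≤ Y := ((le_max_right _ _).trans (le_max_right _ _)).trans hY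
  obtain ⟨L, hL⟩ : ∃ L : ℝ, L = (v : ℝ) - u := ⟨_, rfl⟩
  rw [← hL] at huv ⊢
  have hL0 : 0 < L := by linarith
  have huv' : u ≤ v := by
    have : (u : ℝ) ≤ v := by linarith
    exact_mod_cast this
  -- the mean of Fw
  have hF0 : ∀ b, 0 ≤ Fw w H b := Fw_nonneg hH w
  have hIF : |∑ b ∈ Ioc u v \ H, Fw w H b - L| ≤ η * L := by
    have h1 := hper H hH u v huv'
    rw [← hL] at h1
    have h2 : ∑ b ∈ Ioc u v, Fw w H b = ∑ b ∈ Ioc u v \ H, Fw w H b + ∑ b ∈ Ioc u v ∩ H, Fw w H b := by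
      rw [add_comm]
      exact (Finset.sum_inter_add_sum_sdiff (Ioc u v) H (fun b => Fw w H b)).symm
    have h3 : ∑ b ∈ Ioc u v ∩ H, Fw w H b ≤ k * 2 ^ w := by
      calc ∑ b ∈ Ioc u v ∩ H, Fw w H b ≤ ∑ b ∈ H, Fw w H b :=
            Finset.sum_le_sum_of_subset_of_nonneg Finset.inter_subset_right fun b _ _ => hF0 b
        _ ≤ ∑ _b ∈ H, (2 : ℝ) ^ w := Finset.sum_le_sum fun b _ => Fw_le_two_pow hH w b
        _ = k * 2 ^ w := by rw [Finset.sum_const, hHk, nsmul_eq_mul]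
    have h4 : 0 ≤ ∑ b ∈ Ioc u v ∩ H, Fw w H b := Finset.sum_nonneg fun b _ => hF0 b
    have h5 : Cw + k * 2 ^ w ≤ η * L := by
      rw [div_le_iff₀ hη0] at hYd
      nlinarith
    rw [h2] at h1
    rw [abs_le] at h1 ⊢
    have h6 : (0 : ℝ) ≤ k * 2 ^ w := by positivity
    constructor <;> linarith [h1.1, h1.2]
  -- shifted intervals
  have hsh : ∀ h ∈ H, |((u - h : ℤ) : ℝ)| ≤ Y ^ (A + 1) ∧ |((v - h : ℤ) : ℝ)| ≤ Y ^ (A + 1) ∧
      Y ≤ ((v - h : ℤ) : ℝ) - ((u - h : ℤ) : ℝ) := by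
    intro h hh
    have h1 := hHA h hh
    have hYA : 0 ≤ Y ^ A := pow_nonneg (by linarith) A
    have h2 : 2 * Y ^ A ≤ Y ^ (A + 1) := by
      rw [pow_succ]
      nlinarith
    push_cast
    refine ⟨?_, ?_, by linarith⟩
    · exact (abs_sub _ _).trans (by linarith)
    · exact (abs_sub _ _).trans (by linarith)
  have hLsh : ∀ h : ℤ, ((v - h : ℤ) : ℝ) - ((u - h : ℤ) : ℝ) = L := by
    intro h
    push_cast
    linarith
  -- second moment of Fw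
  have hF2 : ∑ b ∈ Ioc u v \ H, (Fw w H b) ^ 2 ≤ k * C * L := by
    have h1 : ∀ b ∈ Ioc u v \ H, (Fw w H b) ^ 2 ≤
        ∑ h ∈ H, ∏ p ∈ (b - h).natAbs.primeFactors, (1 + B / (p : ℝ)) := by
      intro b hb
      have hbH : b ∉ H := (mem_sdiff.1 hb).2
      have h2 := Fw_le hH w hbH
      have h3 := SAV_sq (H := H) (by omega) b (fun _ => True)
      simp only [Finset.filter_true] at h3
      rw [hHk, ← hB, Finset.sum_sub_distrib, Finset.sum_const, hHk, nsmul_eq_mul, mul_one] at h3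
      have h4 : (Fw w H b) ^ 2 ≤ (∏ h ∈ H, ∏ p ∈ (b - h).natAbs.primeFactors, (1 + 2 / (p : ℝ))) ^ 2 :=
        pow_le_pow_left₀ (hF0 b) h2 2
      have h5 : (1 : ℝ) ≤ k := by exact_mod_cast hk
      linarith
    refine (Finset.sum_le_sum h1).trans ?_
    rw [Finset.sum_comm]
    have h2 : ∀ h ∈ H, ∑ b ∈ Ioc u v \ H, ∏ p ∈ (b - h).natAbs.primeFactors, (1 + B / (p : ℝ)) ≤ C * L := by
      intro h hh
      obtain ⟨s1, s2, s3⟩ := hsh h hh
      have h3 := hY1 Y hYa (u - h) (v - h) s1 s2 s3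
      rw [hLsh h] at h3
      refine (SAV_shift (fun n => ∏ p ∈ n.natAbs.primeFactors, (1 + B / (p : ℝ)))
        (fun n => by linarith [SAV_one_le B hB0 n.natAbs.primeFactors]) hh).trans h3
    refine (Finset.sum_le_sum h2).trans ?_
    rw [Finset.sum_const, hHk, nsmul_eq_mul]
    linarith
  -- second moment of G - 1
  have hG2 : ∑ b ∈ Ioc u v \ H,
      ((∏ h ∈ H, ∏ p ∈ (b - h).natAbs.primeFactors.filter (fun p => w < p), (1 + 2 / (p : ℝ))) - 1) ^ 2 ≤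
      k * (η * δ / k) * L := by
    have h1 : ∀ b ∈ Ioc u v \ H,
        ((∏ h ∈ H, ∏ p ∈ (b - h).natAbs.primeFactors.filter (fun p => w < p), (1 + 2 / (p : ℝ))) - 1) ^ 2 ≤
        ∑ h ∈ H, (∏ p ∈ (b - h).natAbs.primeFactors.filter (fun p => w < p), (1 + B / (p : ℝ)) - 1) := by
      intro b _
      have h3 := SAV_sq (H := H) (by omega) b (fun p => w < p)
      rw [hHk, ← hB] at h3
      refine le_trans ?_ h3
      have h4 : 1 ≤ ∏ h ∈ H, ∏ p ∈ (b - h).natAbs.primeFactors.filter (fun p => w < p), (1 + 2 / (p : ℝ)) :=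
        Finset.one_le_prod fun h _ => SAV_one_le 2 (by norm_num) _
      nlinarith
    refine (Finset.sum_le_sum h1).trans ?_
    rw [Finset.sum_comm]
    have h2 : ∀ h ∈ H, ∑ b ∈ Ioc u v \ H,
        (∏ p ∈ (b - h).natAbs.primeFactors.filter (fun p => w < p), (1 + B / (p : ℝ)) - 1) ≤
        (η * δ / k) * L := by
      intro h hh
      obtain ⟨s1, s2, s3⟩ := hsh h hh
      have h3 := hY2 Y hYb (u - h) (v - h) s1 s2 s3
      rw [hLsh h] at h3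
      refine (SAV_shift (fun n => ∏ p ∈ n.natAbs.primeFactors.filter (fun p => w < p), (1 + B / (p : ℝ)) - 1)
        (fun n => by linarith [SAV_one_le B hB0 (n.natAbs.primeFactors.filter (fun p => w < p))]) hh).trans h3
    refine (Finset.sum_le_sum h2).trans ?_
    rw [Finset.sum_const, hHk, nsmul_eq_mul]
    linarith
  have hs0 : 0 ≤ sing H := sing_nonneg H
  -- upper bound
  have hup : ∑ b ∈ Ioc u v \ H, sing (insert b H) ≤ (1 + ε) * (L * sing H) := by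
    have h1 : ∀ b ∈ Ioc u v \ H, sing (insert b H) ≤ sing H * (Fw w H b + (δ / 2 * (Fw w H b) ^ 2 +
        1 / (2 * δ) * ((∏ h ∈ H, ∏ p ∈ (b - h).natAbs.primeFactors.filter (fun p => w < p),
          (1 + 2 / (p : ℝ))) - 1) ^ 2)) := by
      intro b hb
      have hbH : b ∉ H := (mem_sdiff.1 hb).2
      refine (sing_insert_le hH (w := w) (by omega) hbH).trans ?_
      refine mul_le_mul_of_nonneg_left ?_ hs0
      obtain ⟨G, hG⟩ : ∃ G, G = ∏ h ∈ H, ∏ p ∈ (b - h).natAbs.primeFactors.filter (fun p => w < p),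
          (1 + 2 / (p : ℝ)) := ⟨_, rfl⟩
      rw [← hG]
      have h2 : Fw w H b * (G - 1) ≤ δ / 2 * (Fw w H b) ^ 2 + 1 / (2 * δ) * (G - 1) ^ 2 := by
        have h3 : 0 ≤ 1 / (2 * δ) * (δ * Fw w H b - (G - 1)) ^ 2 := by positivity
        have h4 : 1 / (2 * δ) * (δ * Fw w H b - (G - 1)) ^ 2 =
            δ / 2 * (Fw w H b) ^ 2 + 1 / (2 * δ) * (G - 1) ^ 2 - Fw w H b * (G - 1) := by
          field_simp
          ring
        linarith
      linarith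
    refine (Finset.sum_le_sum h1).trans ?_
    rw [← Finset.mul_sum, Finset.sum_add_distrib, Finset.sum_add_distrib, ← Finset.mul_sum,
      ← Finset.mul_sum]
    have h2 : δ / 2 * ∑ b ∈ Ioc u v \ H, (Fw w H b) ^ 2 ≤ η / 2 * L := by
      calc δ / 2 * ∑ b ∈ Ioc u v \ H, (Fw w H b) ^ 2 ≤ δ / 2 * (k * C * L) :=
            mul_le_mul_of_nonneg_left hF2 (by positivity)
        _ = η / 2 * L := by
            rw [hδ]
            field_simp
    have h3 : 1 / (2 * δ) * ∑ b ∈ Ioc u v \ H,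
        ((∏ h ∈ H, ∏ p ∈ (b - h).natAbs.primeFactors.filter (fun p => w < p), (1 + 2 / (p : ℝ))) - 1) ^ 2 ≤
        η / 2 * L := by
      calc _ ≤ 1 / (2 * δ) * (k * (η * δ / k) * L) := mul_le_mul_of_nonneg_left hG2 (by positivity)
        _ = η / 2 * L := by
            field_simp
    have h4 := (abs_le.1 hIF).2
    have h5 : sing H * (∑ b ∈ Ioc u v \ H, Fw w H b + (δ / 2 * ∑ b ∈ Ioc u v \ H, (Fw w H b) ^ 2 +
        1 / (2 * δ) * ∑ b ∈ Ioc u v \ H,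
        ((∏ h ∈ H, ∏ p ∈ (b - h).natAbs.primeFactors.filter (fun p => w < p), (1 + 2 / (p : ℝ))) - 1) ^ 2)) ≤
        sing H * ((1 + 2 * η) * L) := mul_le_mul_of_nonneg_left (by linarith) hs0
    refine h5.trans ?_
    have h6 : sing H * ((1 + 2 * η) * L) = (1 + 2 * η) * (L * sing H) := by ring
    rw [h6]
    exact mul_le_mul_of_nonneg_right (by linarith) (mul_nonneg hL0.le hs0)
  -- lower bound
  have hlo : (1 - ε) * (L * sing H) ≤ ∑ b ∈ Ioc u v \ H, sing (insert b H) := by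
    have h1 : ∀ b ∈ Ioc u v \ H, (1 - η) * (sing H * Fw w H b) ≤ sing (insert b H) := by
      intro b hb
      have hbH : b ∉ H := (mem_sdiff.1 hb).2
      refine le_trans ?_ (sing_insert_ge hH (w := w) (by omega) hbH)
      refine mul_le_mul_of_nonneg_right ?_ (mul_nonneg hs0 (hF0 b))
      rw [hHk]
      have h2 : 4 * (k : ℝ) / w ≤ η := by
        rw [div_le_iff₀ hwpos]
        rw [div_le_iff₀ hη0] at hw3
        linarith
      linarith
    refine le_trans ?_ (Finset.sum_le_sum h1)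
    rw [← Finset.mul_sum, ← Finset.mul_sum]
    have h4 := (abs_le.1 hIF).1
    have h5 : (1 - η) * L ≤ ∑ b ∈ Ioc u v \ H, Fw w H b := by linarith
    have h6 : (1 - η) * (sing H * ((1 - η) * L)) ≤ (1 - η) * (sing H * ∑ b ∈ Ioc u v \ H, Fw w H b) :=
      mul_le_mul_of_nonneg_left (mul_le_mul_of_nonneg_left h5 hs0) (by linarith)
    refine le_trans ?_ h6
    have h7 : (1 - η) * (sing H * ((1 - η) * L)) = (1 - η) ^ 2 * (L * sing H) := by ring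
    rw [h7]
    exact mul_le_mul_of_nonneg_right (by nlinarith) (mul_nonneg hL0.le hs0)
  rw [abs_le]
  constructor <;> linarith

end Pool.Agent.H6.MF
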