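import Pool.Agent.H6.MF.BAS

/-!
# SNL: the local factors of the singular series (see the first bullets; the same header is used in SNG.lean)

Let `k = H.card`. (Compare `Pool/Agent/H17/Sing.lean` and `Pool/Agent/H17/UpperMain.lean`, where the same
is done for triples: `multipliable_locf`, `sing3_nonneg`, `sing3_ne_zero_iff`, `c0_le_sing3`,
`prod_locf_le`, `sum_inv_sq_le`, `one_sub_sum_le_prod`; these general lemmas may be imported.)

* `loc_nonneg`, `loc_pos`: `nuH H p ≤ p` resp. `< p`.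
* `loc_le_one`: Bernoulli `(1 - 1/p)^k ≥ 1 - k/p`.
* `loc_ge`: if `p ≥ 2 k`: `nuH ≤ k`, so `loc H p ≥ (1 - k/p) / (1 - 1/p)^k`; and
  `(1-1/p)^k ≤ 1 - k/p + k^2/(2 p^2)` (Taylor/binomial, or induction on `k`), so with `1 - k/p ≥ 1/2` the
  quotient is `≥ 1 - (k^2/(2p^2))/(1 - k/p + k^2/(2p^2)) ≥ 1 - k^2/p^2`.
  (For `k = 0` everything is trivial: `loc = 1`.)
* `multipliable_loc`: for all `p` not dividing `∏_{h ≠ h'} (h - h')` (all but finitely many) we have
  `nuH H p = k`, and then `|loc H p - 1| ≤ k^2/p^2` for `p ≥ 2k`. So `∑ |loc H p - 1| < ∞`.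
* `sing_nonneg`: limit of products of nonnegative numbers.
* `sing_ne_zero_iff`: if `H` is not admissible a factor vanishes; if it is admissible all factors are
  positive and the product of the factors over `p > y` is `≥ 1/2` for suitable `y` (`prod_loc_le`).
* `prod_loc_le`: for primes `p ∉ S`: `p > y ≥ 2k` and `nuH H p = k`, so `loc H p ≥ 1 - k^2/p^2`; the
  product of these factors over any finite set of primes `> y` is `≥ 1 - ∑_{n > y} k^2/n^2 ≥ 1 - k^2/y`.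
* `sing_le_prod`: for primes `p ∉ S`: `nuH H p = k`, so `loc H p ≤ 1`.
* `sing_lower`: for `p ≤ 2k + 1`: `loc H p ≥ 1 - nuH/p ≥ 1/p`; for `p > 2k` use `loc_ge`. So
  `sing H ≥ ∏_{p ≤ y} (1/p) · (1/2)` with `y = 2 k^2 + 2 k + 2`: apply `prod_loc_le`-like arguments with
  the lower bounds (here `nuH H p < k` is allowed for `p > y`, `loc_ge` still holds).
-/

set_option autoImplicit false

namespace Pool.Agent.H6.MF

open Finset

theorem SNL_base {p : ℕ} (hp : p.Prime) : (0 : ℝ) < p ∧ (0 : ℝ) < 1 - 1 / (p : ℝ) := by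
  have h2 : (2 : ℝ) ≤ p := by exact_mod_cast hp.two_le
  have h0 : (0 : ℝ) < p := by linarith
  refine ⟨h0, ?_⟩
  rw [sub_pos, div_lt_one h0]
  linarith

theorem loc_nonneg (H : Finset ℤ) {p : ℕ} (hp : p.Prime) : 0 ≤ loc H p := by
  obtain ⟨h0, h1⟩ := SNL_base hp
  have h2 : (nuH H p : ℝ) ≤ p := by exact_mod_cast nuH_le H hp.pos
  unfold loc
  refine div_nonneg ?_ (pow_nonneg h1.le _)
  rw [sub_nonneg, div_le_one h0]
  exact h2

theorem loc_pos {H : Finset ℤ} {p : ℕ} (hp : p.Prime) (h : nuH H p < p) : 0 < loc H p := by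
  obtain ⟨h0, h1⟩ := SNL_base hp
  have h2 : (nuH H p : ℝ) < p := by exact_mod_cast h
  unfold loc
  refine div_pos ?_ (pow_pos h1 _)
  rw [sub_pos, div_lt_one h0]
  exact h2

theorem loc_le_one {H : Finset ℤ} {p : ℕ} (hp : p.Prime) (h : nuH H p = H.card) : loc H p ≤ 1 := by
  obtain ⟨h0, h1⟩ := SNL_base hp
  unfold loc
  rw [div_le_one (pow_pos h1 _), h]
  have h2 := one_add_mul_le_pow (a := -(1 / (p : ℝ))) (by
    have : 1 / (p : ℝ) < 1 := by linarith
    linarith) H.card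
  have h3 : 1 + (H.card : ℝ) * -(1 / (p : ℝ)) = 1 - (H.card : ℝ) / p := by ring
  rw [h3, ← sub_eq_add_neg] at h2
  exact h2

theorem SNL_pow {t : ℝ} (ht0 : 0 ≤ t) (ht1 : t ≤ 1) (k : ℕ) :
    (1 - t) ^ k ≤ 1 - k * t + (k * t) ^ 2 / 2 := by
  induction k with
  | zero => simp
  | succ k ih =>
    have hk : (0 : ℝ) ≤ k := Nat.cast_nonneg k
    calc (1 - t) ^ (k + 1) = (1 - t) ^ k * (1 - t) := pow_succ _ _
      _ ≤ (1 - k * t + (k * t) ^ 2 / 2) * (1 - t) := mul_le_mul_of_nonneg_right ih (by linarith)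
      _ ≤ 1 - ((k + 1 : ℕ) : ℝ) * t + (((k + 1 : ℕ) : ℝ) * t) ^ 2 / 2 := by
        push_cast
        have h1 : 0 ≤ (k : ℝ) ^ 2 * t ^ 3 := by positivity
        nlinarith [sq_nonneg t]

theorem loc_ge {H : Finset ℤ} {p : ℕ} (hp : p.Prime) (h : 2 * H.card ≤ p) :
    1 - (H.card : ℝ) ^ 2 / (p : ℝ) ^ 2 ≤ loc H p := by
  obtain ⟨h0, h1⟩ := SNL_base hp
  unfold loc
  rw [le_div_iff₀ (pow_pos h1 _)]
  set k : ℝ := (H.card : ℝ) with hk
  set t : ℝ := 1 / (p : ℝ) with ht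
  have ht0 : 0 < t := by positivity
  have hk0 : 0 ≤ k := Nat.cast_nonneg _
  have hkp : 2 * k ≤ p := by
    rw [hk]
    exact_mod_cast h
  have ha : k * t ≤ 1 / 2 := by
    rw [ht, mul_one_div, div_le_iff₀ h0]
    linarith
  have ha0 : 0 ≤ k * t := by positivity
  have e1 : k ^ 2 / (p : ℝ) ^ 2 = (k * t) ^ 2 := by
    rw [ht]
    field_simp
  have e2 : (nuH H p : ℝ) / p ≤ k * t := by
    have : (nuH H p : ℝ) ≤ k := by
      rw [hk]
      exact_mod_cast nuH_le_card H p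
    rw [ht, mul_one_div]
    exact div_le_div_of_nonneg_right this h0.le
  rw [e1]
  have h2 := SNL_pow ht0.le (by linarith) H.card
  rw [← hk] at h2
  have h3 : 0 ≤ 1 - (k * t) ^ 2 := by nlinarith
  calc (1 - (k * t) ^ 2) * (1 - t) ^ H.card
      ≤ (1 - (k * t) ^ 2) * (1 - k * t + (k * t) ^ 2 / 2) := mul_le_mul_of_nonneg_left h2 h3
    _ ≤ 1 - k * t := by
        have h4 : 0 ≤ (k * t) ^ 2 * (1 - k * t) ^ 2 := by positivity
        nlinarith
    _ ≤ 1 - (nuH H p : ℝ) / p := by linarith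

end Pool.Agent.H6.MF
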