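import Pool.Agent.H6.MF.Defs
import Pool.Agent.H17.Upper

/-!
# TSE: Selberg's upper bound sieve for prime tuples

This is the generalisation of `Pool.Agent.H17.triple_selberg` (file `Pool/Agent/H17/Upper.lean`) from the
three shifts `0, h, d` to an arbitrary nonempty admissible finite set `K` of shifts. Copy that file and
replace: `ff h d m = m (m+h) (m+d)` by `∏ h ∈ K, (m + h)` (strictly increasing in `m`, as `K ≠ ∅`; for
`m ≥ 1` positive), `nu 0 h d p` by `(K.image (fun h => h % p)).card`, `3` by `K.card`. The counting lemma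
`card_crt` in `Pool/Agent/H17/Crt.lean` is already general. `p ∣ ∏ h ∈ K, (m + h)` iff `p ∣ m + h` for some
`h ∈ K` (`Prime.dvd_finset_prod_iff`), and the number of classes `t` mod `p` with `p ∣ t + h` for some
`h ∈ K` is the number of classes of `K` mod `p` (negation). `0 < ν(p)/p < 1` by nonemptiness and
admissibility. A number `m` with all `m + h` prime is either `≤ z` or not divisible-sifted: if `m > z` then
all `m + h > z` are primes, so `∏ (m + h)` is coprime to `∏_{p ≤ z} p`.
-/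

set_option autoImplicit false

open Filter Topology

namespace Pool.Agent.H6.MF

open Pool.Agent.H17

/-- the weight `ν/(p - ν)` at `p` -/
noncomputable def hfK (K : Finset ℕ) (p : ℕ) : ℝ :=
  (((K.image (fun h => h % p)).card : ℝ) / p) * (1 - ((K.image (fun h => h % p)).card : ℝ) / p)⁻¹

/-- the polynomial `∏ (m + h)` -/
def TSE_ff (K : Finset ℕ) (m : ℕ) : ℕ := ∏ h ∈ K, (m + h)

/-- the number of classes modulo `p` -/
def TSE_nu (K : Finset ℕ) (p : ℕ) : ℕ := (K.image (fun h => h % p)).card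

lemma TSE_ff_strictMono {K : Finset ℕ} (hK : K.Nonempty) : StrictMono (TSE_ff K) := by
  intro m n hmn
  unfold TSE_ff
  by_cases h0 : ∀ h ∈ K, 0 < m + h
  · exact Finset.prod_lt_prod_of_nonempty h0 (fun h _ => by omega) hK
  · push Not at h0
    obtain ⟨h, hh, h1⟩ := h0
    have h2 : m + h = 0 := by omega
    rw [Finset.prod_eq_zero hh h2]
    apply Finset.prod_pos
    intro i _
    omega

lemma TSE_prime_dvd_ff {p : ℕ} (hp : p.Prime) (K : Finset ℕ) (m : ℕ) :
    p ∣ TSE_ff K m ↔ ∃ h ∈ K, p ∣ m + h := by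
  unfold TSE_ff
  exact hp.prime.dvd_finsetProd_iff _

/-- the local densities as an arithmetic function -/
noncomputable def TSE_nuf (K : Finset ℕ) : ArithmeticFunction ℝ :=
  ArithmeticFunction.prodPrimeFactors (fun p => (TSE_nu K p : ℝ) / p)

lemma TSE_nuf_apply (K : Finset ℕ) {n : ℕ} (hn : n ≠ 0) :
    TSE_nuf K n = ∏ p ∈ n.primeFactors, (TSE_nu K p : ℝ) / p := by
  unfold TSE_nuf
  rw [ArithmeticFunction.prodPrimeFactors_apply hn]

lemma TSE_nuf_prime (K : Finset ℕ) {p : ℕ} (hp : p.Prime) : TSE_nuf K p = (TSE_nu K p : ℝ) / p := by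
  rw [TSE_nuf_apply K hp.ne_zero, hp.primeFactors, Finset.prod_singleton]

lemma TSE_nu_pos {K : Finset ℕ} (hK : K.Nonempty) (p : ℕ) : 1 ≤ TSE_nu K p :=
  Finset.card_pos.mpr (hK.image _)

lemma TSE_nu_le (K : Finset ℕ) (p : ℕ) : TSE_nu K p ≤ K.card := Finset.card_image_le

lemma TSE_nu_zmod (K : Finset ℕ) {p : ℕ} (hp : 0 < p) :
    TSE_nu K p = (K.image (fun h : ℕ => (h : ZMod p))).card := by
  have : NeZero p := ⟨hp.ne'⟩
  have h1 : K.image (fun h => h % p) = (K.image (fun h : ℕ => (h : ZMod p))).image (fun r => r.val) := by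
    rw [Finset.image_image]
    apply Finset.image_congr
    intro h _
    exact (ZMod.val_natCast _ _).symm
  unfold TSE_nu
  rw [h1, Finset.card_image_of_injective _ (ZMod.val_injective p)]

lemma TSE_card_hit (K : Finset ℕ) {p : ℕ} (hp : 0 < p) :
    ((Finset.range p).filter (fun t => ∃ h ∈ K, p ∣ t + h)).card = TSE_nu K p := by
  have : NeZero p := ⟨hp.ne'⟩
  rw [TSE_nu_zmod K hp]
  have h1 : (((Finset.range p).filter (fun t => ∃ h ∈ K, p ∣ t + h)).image (fun t : ℕ => -(t : ZMod p)))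
      = K.image (fun h : ℕ => (h : ZMod p)) := by
    ext r
    simp only [Finset.mem_image, Finset.mem_filter, Finset.mem_range]
    have key : ∀ t s : ℕ, p ∣ t + s ↔ -(t : ZMod p) = s := by
      intro t s
      rw [← ZMod.natCast_eq_zero_iff, Nat.cast_add]
      constructor
      · intro h
        exact neg_eq_of_add_eq_zero_right h
      · intro h
        rw [← h]; ring
    constructor
    · rintro ⟨t, ⟨_, h, hh, hd⟩, rfl⟩
      exact ⟨h, hh, ((key t h).mp hd).symm⟩
    · rintro ⟨h, hh, rfl⟩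
      refine ⟨(-(h : ZMod p)).val, ⟨ZMod.val_lt _, h, hh, ?_⟩, ?_⟩
      · rw [key, ZMod.natCast_zmod_val, neg_neg]
      · rw [ZMod.natCast_zmod_val, neg_neg]
  rw [← h1, Finset.card_image_of_injOn]
  intro t ht s hs hts
  simp only [Finset.coe_filter, Set.mem_ofPred_eq, Finset.mem_range] at ht hs
  have h2 : (t : ZMod p) = s := neg_injective hts
  have h3 := (ZMod.natCast_eq_natCast_iff' t s p).mp h2
  rwa [Nat.mod_eq_of_lt ht.1, Nat.mod_eq_of_lt hs.1] at h3

lemma TSE_count_dvd_ff (K : Finset ℕ) {D : ℕ} (hD : Squarefree D) :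
    ((Finset.range D).filter (fun t => D ∣ TSE_ff K t)).card = ∏ p ∈ D.primeFactors, TSE_nu K p := by
  have h1 : ∏ p ∈ D.primeFactors, p = D := Nat.prod_primeFactors_of_squarefree hD
  have h2 := card_crt D.primeFactors (fun p hp => Nat.prime_of_mem_primeFactors hp)
    (fun p t => ∃ h ∈ K, p ∣ t + h) (by
      intro p _ t
      have key : ∀ s : ℕ, p ∣ t + s ↔ p ∣ t % p + s := by
        intro s
        exact ((Nat.mod_modEq t p).symm.add_right s).dvd_iff dvd_rfl
      simp only [← key])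
  rw [h1] at h2
  have h3 : (Finset.range D).filter (fun t => D ∣ TSE_ff K t)
      = (Finset.range D).filter (fun t => ∀ p ∈ D.primeFactors, ∃ h ∈ K, p ∣ t + h) := by
    apply Finset.filter_congr
    intro t _
    constructor
    · intro h4 p hp
      rw [← TSE_prime_dvd_ff (Nat.prime_of_mem_primeFactors hp)]
      exact (Nat.dvd_of_mem_primeFactors hp).trans h4
    · intro h4
      rw [← h1]
      apply Finset.prod_primes_dvd
      · intro p hp
        exact (Nat.prime_of_mem_primeFactors hp).prime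
      · intro p hp
        rw [TSE_prime_dvd_ff (Nat.prime_of_mem_primeFactors hp)]
        exact h4 p hp
  rw [h3, h2]
  apply Finset.prod_congr rfl
  intro p hp
  exact TSE_card_hit K (Nat.prime_of_mem_primeFactors hp).pos

/-- the sieve problem -/
noncomputable def TSE_sv (K : Finset ℕ) (hK : K.Nonempty) (N z : ℕ)
    (hadm : ∀ p : ℕ, p.Prime → TSE_nu K p < p) : BoundingSieve where
  support := (Finset.Icc 1 N).image (TSE_ff K)
  prodPrimes := WW z
  prodPrimes_squarefree := squarefree_WW z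
  weights := fun _ => 1
  weights_nonneg := fun _ => zero_le_one
  totalMass := N
  nu := TSE_nuf K
  nu_mult := by
    unfold TSE_nuf
    exact ArithmeticFunction.IsMultiplicative.prodPrimeFactors _
  nu_pos_of_prime := by
    intro p hp _
    rw [TSE_nuf_prime K hp]
    have h1 : (1 : ℝ) ≤ TSE_nu K p := by exact_mod_cast TSE_nu_pos hK p
    have h2 : (0 : ℝ) < p := by exact_mod_cast hp.pos
    positivity
  nu_lt_one_of_prime := by
    intro p hp _
    rw [TSE_nuf_prime K hp]
    have h2 : (0 : ℝ) < p := by exact_mod_cast hp.pos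
    rw [div_lt_one h2]
    exact_mod_cast hadm p hp

open BoundingSieve in
lemma TSE_sv_multSum (K : Finset ℕ) (hK : K.Nonempty) (N z : ℕ)
    (hadm : ∀ p : ℕ, p.Prime → TSE_nu K p < p) (D : ℕ) :
    (TSE_sv K hK N z hadm).multSum D = (((Finset.Icc 1 N).filter (fun m => D ∣ TSE_ff K m)).card : ℝ) := by
  unfold multSum
  show ∑ n ∈ (Finset.Icc 1 N).image (TSE_ff K), (if D ∣ n then (1 : ℝ) else 0) = _
  rw [Finset.sum_image (fun m _ n _ hmn => (TSE_ff_strictMono hK).injective hmn), Finset.card_filter]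
  push_cast
  rfl

open BoundingSieve in
lemma TSE_sv_rem (K : Finset ℕ) (hK : K.Nonempty) (N z : ℕ)
    (hadm : ∀ p : ℕ, p.Prime → TSE_nu K p < p) {D : ℕ} (hD : D ∣ WW z) :
    |(TSE_sv K hK N z hadm).rem D| ≤ (K.card : ℝ) ^ D.primeFactors.card := by
  have hsq : Squarefree D := Squarefree.squarefree_of_dvd hD (squarefree_WW z)
  have hD0 : 0 < D := Nat.pos_of_ne_zero hsq.ne_zero
  have h1 := count_residues N D hD0 (fun m => D ∣ TSE_ff K m) (by
    intro m
    unfold TSE_ff
    apply Nat.ModEq.dvd_iff _ dvd_rfl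
    have h2 : m ≡ m % D [MOD D] := (Nat.mod_modEq m D).symm
    exact Nat.ModEq.prod (fun h _ => h2.add_right h))
  rw [TSE_count_dvd_ff K hsq] at h1
  unfold rem
  rw [TSE_sv_multSum]
  have h3 : (TSE_sv K hK N z hadm).nu D * (TSE_sv K hK N z hadm).totalMass
      = ((∏ p ∈ D.primeFactors, TSE_nu K p : ℕ) : ℝ) / D * N := by
    show TSE_nuf K D * (N : ℝ) = _
    rw [TSE_nuf_apply K hsq.ne_zero, Finset.prod_div_distrib]
    have h4 : (∏ p ∈ D.primeFactors, (p : ℝ)) = D := by
      rw [← Nat.cast_prod, Nat.prod_primeFactors_of_squarefree hsq]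
    rw [h4]
    push_cast
    ring
  rw [h3]
  refine h1.trans ?_
  push_cast
  calc ∏ p ∈ D.primeFactors, (TSE_nu K p : ℝ) ≤ ∏ p ∈ D.primeFactors, (K.card : ℝ) := by
        apply Finset.prod_le_prod
        · intro p _; positivity
        · intro p _; exact_mod_cast TSE_nu_le K p
    _ = (K.card : ℝ) ^ D.primeFactors.card := by rw [Finset.prod_const]

lemma TSE_sv_GG (K : Finset ℕ) (hK : K.Nonempty) (N z : ℕ) (hadm : ∀ p : ℕ, p.Prime → TSE_nu K p < p) :
    Selb.GG (TSE_sv K hK N z hadm) z = Op (PP z) (hfK K) one1 z := by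
  unfold Selb.GG Op
  show ∑ l ∈ (Nat.divisors (WW z)).filter (fun l => l ≤ z), (TSE_sv K hK N z hadm).selbergTerms l = _
  rw [sum_divisors_WW]
  apply Finset.sum_congr rfl
  intro T hT
  rw [Finset.mem_powerset] at hT
  have hpr : ∀ p ∈ T, p.Prime := fun p hp => (mem_PP.mp (hT hp)).2
  have hpos : 0 < ∏ p ∈ T, p := Finset.prod_pos (fun p hp => (hpr p hp).pos)
  have h1 : (TSE_sv K hK N z hadm).selbergTerms (∏ p ∈ T, p) = ∏ p ∈ T, hfK K p := by
    rw [BoundingSieve.selbergTerms_apply, Nat.primeFactors_prod hpr]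
    show TSE_nuf K (∏ p ∈ T, p) * ∏ p ∈ T, (1 - TSE_nuf K p)⁻¹ = _
    rw [TSE_nuf_apply K hpos.ne', Nat.primeFactors_prod hpr, ← Finset.prod_mul_distrib]
    apply Finset.prod_congr rfl
    intro p hp
    rw [TSE_nuf_prime K (hpr p hp)]
    rfl
  rw [h1]
  unfold one1
  by_cases h2 : ∏ p ∈ T, p ≤ z
  · rw [if_pos h2, if_pos (show 1 ≤ z / ∏ p ∈ T, p from Nat.div_pos h2 hpos), mul_one]
  · rw [if_neg h2, if_neg (by rw [Nat.div_eq_of_lt (not_le.mp h2)]; omega), mul_zero]

open BoundingSieve in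
theorem tuple_selberg (K : Finset ℕ) (hK : K.Nonempty) (N z : ℕ) (hz : 1 ≤ z)
    (hadm : ∀ p : ℕ, p.Prime → (K.image (fun h => h % p)).card < p) :
    (((Finset.Icc 1 N).filter (fun m => ∀ h ∈ K, (m + h).Prime)).card : ℝ)
      ≤ z + N * (Op (PP z) (hfK K) one1 z)⁻¹
        + (∑ l ∈ (Nat.divisors (WW z)).filter (fun l => l ≤ z), (K.card : ℝ) ^ l.primeFactors.card) ^ 2 := by
  have hadm' : ∀ p : ℕ, p.Prime → TSE_nu K p < p := hadm
  have h1 := Selb.selberg_bound (s := TSE_sv K hK N z hadm') (z := z) hz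
  rw [TSE_sv_GG] at h1
  have hK1 : (1 : ℝ) ≤ (K.card : ℝ) := by exact_mod_cast hK.card_pos
  have h2 : ∑ d1 ∈ (Nat.divisors (TSE_sv K hK N z hadm').prodPrimes).filter (fun l => l ≤ z),
        ∑ d2 ∈ (Nat.divisors (TSE_sv K hK N z hadm').prodPrimes).filter (fun l => l ≤ z),
          |(TSE_sv K hK N z hadm').rem (d1.lcm d2)|
      ≤ (∑ l ∈ (Nat.divisors (WW z)).filter (fun l => l ≤ z), (K.card : ℝ) ^ l.primeFactors.card) ^ 2 := by
    rw [pow_two, Finset.sum_mul_sum]
    apply Finset.sum_le_sum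
    intro d1 hd1
    apply Finset.sum_le_sum
    intro d2 hd2
    have hd1' : d1 ∣ WW z := (Nat.mem_divisors.mp (Finset.mem_filter.mp hd1).1).1
    have hd2' : d2 ∣ WW z := (Nat.mem_divisors.mp (Finset.mem_filter.mp hd2).1).1
    refine (TSE_sv_rem K hK N z hadm' (Nat.lcm_dvd hd1' hd2')).trans ?_
    rw [← pow_add]
    apply pow_le_pow_right₀ hK1
    have e1 : d1 ≠ 0 := ne_zero_of_dvd_ne_zero (WW_pos z).ne' hd1'
    have e2 : d2 ≠ 0 := ne_zero_of_dvd_ne_zero (WW_pos z).ne' hd2'
    refine le_trans (Finset.card_le_card ?_) (Finset.card_union_le _ _)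
    intro p hp
    have hpp := Nat.prime_of_mem_primeFactors hp
    have hdvd := (Nat.dvd_of_mem_primeFactors hp).trans (Nat.lcm_dvd_mul d1 d2)
    rw [Finset.mem_union, Nat.mem_primeFactors, Nat.mem_primeFactors]
    rcases (hpp.dvd_mul).mp hdvd with hd | hd
    · left; exact ⟨hpp, hd, e1⟩
    · right; exact ⟨hpp, hd, e2⟩
  have h3 : (((Finset.Icc 1 N).filter (fun m => ∀ h ∈ K, (m + h).Prime)).card : ℝ)
      ≤ z + (TSE_sv K hK N z hadm').siftedSum := by
    have e1 : (TSE_sv K hK N z hadm').siftedSum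
        = (((Finset.Icc 1 N).filter (fun m => Nat.Coprime (WW z) (TSE_ff K m))).card : ℝ) := by
      unfold siftedSum
      show ∑ n ∈ (Finset.Icc 1 N).image (TSE_ff K), (if Nat.Coprime (WW z) n then (1 : ℝ) else 0) = _
      rw [Finset.sum_image (fun m _ n _ hmn => (TSE_ff_strictMono hK).injective hmn), Finset.card_filter]
      push_cast
      rfl
    rw [e1]
    have e2 : (Finset.Icc 1 N).filter (fun m => ∀ h ∈ K, (m + h).Prime)
        ⊆ Finset.Icc 1 z ∪ (Finset.Icc 1 N).filter (fun m => Nat.Coprime (WW z) (TSE_ff K m)) := by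
      intro m hm
      rw [Finset.mem_filter, Finset.mem_Icc] at hm
      rw [Finset.mem_union, Finset.mem_Icc, Finset.mem_filter, Finset.mem_Icc]
      obtain ⟨hm1, hp1⟩ := hm
      by_cases hmz : m ≤ z
      · left; exact ⟨hm1.1, hmz⟩
      · right
        refine ⟨hm1, ?_⟩
        rw [Nat.coprime_comm, coprime_WW]
        intro p hp hdvd
        have hpp := (mem_PP.mp hp).2
        have hpz := (mem_PP.mp hp).1
        rw [TSE_prime_dvd_ff hpp] at hdvd
        obtain ⟨h, hh, hd⟩ := hdvd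
        have := (Nat.prime_dvd_prime_iff_eq hpp (hp1 h hh)).mp hd
        omega
    have e3 := (Finset.card_le_card e2).trans (Finset.card_union_le _ _)
    rw [Nat.card_Icc, Nat.add_sub_cancel] at e3
    exact_mod_cast e3
  have h4 : (TSE_sv K hK N z hadm').totalMass = N := rfl
  rw [h4] at h1
  linarith

end Pool.Agent.H6.MF
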